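import Pool.Agent.HE.Defs

set_option autoImplicit false

/-!
HE-Bas. Elementary facts on the components of the complement of a closed set.
-/

namespace Pool.Agent.HE

open Set Topology

lemma cmp_open {Y : Set ℂ} (hY : IsClosed Y) (a : ℂ) : IsOpen (Cmp Y a) :=
  hY.isOpen_compl.connectedComponentIn

lemma mem_cmp {Y : Set ℂ} {a : ℂ} (ha : a ∉ Y) : a ∈ Cmp Y a :=
  mem_connectedComponentIn ha

lemma cmp_pre (Y : Set ℂ) (a : ℂ) : IsPreconnected (Cmp Y a) := isPreconnected_connectedComponentIn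

lemma cmp_sub (Y : Set ℂ) (a : ℂ) : Cmp Y a ⊆ Yᶜ := connectedComponentIn_subset _ _

lemma cmp_disj (Y : Set ℂ) (a : ℂ) : Disjoint (Cmp Y a) Y :=
  disjoint_left.2 fun _ hx hy => cmp_sub Y a hx hy

lemma cmp_eq {Y : Set ℂ} {a b : ℂ} (h : b ∈ Cmp Y a) : Cmp Y b = Cmp Y a :=
  (connectedComponentIn_eq h).symm

/-- a connected set disjoint from `Y` which meets a component is contained in it -/
lemma sub_cmp {Y S : Set ℂ} {a : ℂ} (hS : IsPreconnected S) (hd : Disjoint S Y)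
    (hm : (S ∩ Cmp Y a).Nonempty) : S ⊆ Cmp Y a := by
  obtain ⟨x, hx, hxa⟩ := hm
  rw [← cmp_eq hxa]
  exact hS.subset_connectedComponentIn hx fun y hy hyY => disjoint_left.1 hd hy hyY

lemma IsCmp.isOpen {Y D : Set ℂ} (hY : IsClosed Y) (h : IsCmp Y D) : IsOpen D := by
  obtain ⟨a, -, rfl⟩ := h
  exact cmp_open hY a

lemma IsCmp.nonempty {Y D : Set ℂ} (h : IsCmp Y D) : D.Nonempty := by
  obtain ⟨a, ha, rfl⟩ := h
  exact ⟨a, mem_cmp ha⟩

lemma IsCmp.pre {Y D : Set ℂ} (h : IsCmp Y D) : IsPreconnected D := by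
  obtain ⟨a, ha, rfl⟩ := h
  exact cmp_pre _ _

lemma IsCmp.disj {Y D : Set ℂ} (h : IsCmp Y D) : Disjoint D Y := by
  obtain ⟨a, ha, rfl⟩ := h
  exact cmp_disj _ _

lemma IsCmp.eq_cmp {Y D : Set ℂ} (h : IsCmp Y D) {b : ℂ} (hb : b ∈ D) : D = Cmp Y b := by
  obtain ⟨a, ha, rfl⟩ := h
  exact (cmp_eq hb).symm

lemma isCmp_cmp {Y : Set ℂ} {a : ℂ} (ha : a ∉ Y) : IsCmp Y (Cmp Y a) := ⟨a, ha, rfl⟩

/-- a connected set disjoint from `Y` which meets a component is contained in it -/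
lemma IsCmp.sub {Y D S : Set ℂ} (h : IsCmp Y D) (hS : IsPreconnected S) (hd : Disjoint S Y)
    (hm : (S ∩ D).Nonempty) : S ⊆ D := by
  obtain ⟨a, ha, rfl⟩ := h
  exact sub_cmp hS hd hm

lemma IsCmp.eq_of_inter {Y D D' : Set ℂ} (h : IsCmp Y D) (h' : IsCmp Y D')
    (hm : (D ∩ D').Nonempty) : D = D' := by
  obtain ⟨x, hx, hx'⟩ := hm
  rw [h.eq_cmp hx, h'.eq_cmp hx']

lemma IsCmp.frontier {Y D : Set ℂ} (hY : IsClosed Y) (h : IsCmp Y D) : frontier D ⊆ Y := by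
  intro x hx
  by_contra hxY
  have ho : IsOpen (Cmp Y x) := cmp_open hY x
  have hxc : x ∈ Cmp Y x := mem_cmp hxY
  have h1 : (Cmp Y x ∩ D).Nonempty := by
    have h2 : x ∈ closure D := frontier_subset_closure hx
    exact mem_closure_iff.1 h2 _ ho hxc
  have h3 : D = Cmp Y x := by
    obtain ⟨y, hy1, hy2⟩ := h1
    rw [h.eq_cmp hy2, cmp_eq hy1]
  have h4 : x ∈ interior D := by
    rw [(h.isOpen hY).interior_eq, h3]
    exact hxc
  exact hx.2 h4

lemma cmp_frontier {Y : Set ℂ} (hY : IsClosed Y) {a : ℂ} (ha : a ∉ Y) : frontier (Cmp Y a) ⊆ Y :=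
  (isCmp_cmp ha).frontier hY

/-- a bounded nonempty open set whose frontier is in `X` contradicts `NonSep X` -/
lemma NonSep.no_open {X U : Set ℂ} (hX : NonSep X) (hU : IsOpen U)
    (hd : ¬ U ⊆ X) (hb : Bornology.IsBounded U) (hf : frontier U ⊆ X) : False := by
  obtain ⟨a, haU, haX⟩ := not_subset.1 hd
  refine hX a haX (hb.subset ?_)
  intro x hx
  by_contra hxU
  have h1 := (cmp_pre X a) U (closure U)ᶜ hU isClosed_closure.isOpen_compl ?_
    ⟨a, mem_cmp haX, haU⟩ ?_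
  · obtain ⟨y, -, hy1, hy2⟩ := h1
    exact hy2 (subset_closure hy1)
  · intro y hy
    by_cases hyU : y ∈ U
    · exact Or.inl hyU
    · right
      intro hyc
      have : y ∈ frontier U := ⟨hyc, by rwa [hU.interior_eq]⟩
      exact cmp_sub X a hy (hf this)
  · refine ⟨x, hx, fun hxc => ?_⟩
    have : x ∈ frontier U := ⟨hxc, by rwa [hU.interior_eq]⟩
    exact cmp_sub X a hx (hf this)

end Pool.Agent.HE
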