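import Pool.Agent.HE.Defs

set_option autoImplicit false

/-!
HE-CircG. Circles: intersections and gaps.
-/

namespace Pool.Agent.HE

open Set Topology Filter

theorem circ_closed (z : ℂ) (ρ : ℝ) : Closed1 (circ z ρ) := by
  constructor
  · unfold circ
    fun_prop
  · intro s
    unfold circ
    congr 2
    rw [Complex.exp_eq_exp_iff_exists_int]
    refine ⟨1, ?_⟩
    push_cast
    ring

theorem dist_circ (z : ℂ) {ρ : ℝ} (hρ : 0 ≤ ρ) (s : ℝ) : dist (circ z ρ s) z = ρ := by
  unfold circ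
  rw [dist_eq_norm, add_sub_cancel_left, norm_mul, Complex.norm_exp_ofReal_mul_I, mul_one,
    Complex.norm_real, Real.norm_eq_abs, abs_of_nonneg hρ]

theorem circ_surj {z w : ℂ} {ρ : ℝ} (h : dist w z = ρ) : ∃ s, circ z ρ s = w := by
  refine ⟨Complex.arg (w - z) / (2 * Real.pi), ?_⟩
  unfold circ
  have h1 : 2 * Real.pi * (Complex.arg (w - z) / (2 * Real.pi)) = Complex.arg (w - z) := by
    have := Real.pi_ne_zero
    field_simp
  rw [h1, ← h, dist_eq_norm, Complex.norm_mul_exp_arg_mul_I]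
  ring

theorem circ_inter {z1 z2 : ℂ} {ρ1 ρ2 : ℝ} (h : (z1, ρ1) ≠ (z2, ρ2)) :
    {w : ℂ | dist w z1 = ρ1 ∧ dist w z2 = ρ2}.Finite := by
  by_cases hz : z1 = z2
  · subst hz
    have hρ : ρ1 ≠ ρ2 := fun h' => h (by rw [h'])
    refine Set.Finite.subset Set.finite_empty ?_
    rintro w ⟨h1, h2⟩
    exact hρ (h1.symm.trans h2)
  · have hd : z2 - z1 ≠ 0 := sub_ne_zero.2 (Ne.symm hz)
    have hd' : 0 < ‖z2 - z1‖ := norm_pos_iff.2 hd
    set d := z2 - z1 with hd0
    set A := (ρ1 / ‖d‖) ^ 2 with hA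
    set B := (ρ2 / ‖d‖) ^ 2 with hB
    set x := (A - B + 1) / 2 with hx
    set y := Real.sqrt (A - x ^ 2) with hy
    refine Set.Finite.subset (Set.toFinite {z1 + d * ⟨x, y⟩, z1 + d * ⟨x, -y⟩}) ?_
    rintro w ⟨h1, h2⟩
    set u := (w - z1) / d with hu
    have hw : w = z1 + d * u := by
      rw [hu]
      field_simp
      ring
    have e1 : ‖u‖ ^ 2 = A := by
      rw [hu, norm_div, ← dist_eq_norm, h1]
    have e2 : ‖u - 1‖ ^ 2 = B := by
      have : u - 1 = (w - z2) / d := by
        rw [hu]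
        field_simp
        rw [hd0]
        ring
      rw [this, norm_div, ← dist_eq_norm, h2]
    rw [← Complex.normSq_eq_norm_sq, Complex.normSq_apply] at e1 e2
    simp only [Complex.sub_re, Complex.sub_im, Complex.one_re, Complex.one_im, sub_zero] at e2
    have hre : u.re = x := by
      rw [hx]
      linarith
    have him : u.im ^ 2 = A - x ^ 2 := by
      rw [← hre]
      linarith
    have hys : y ^ 2 = u.im ^ 2 := by
      rw [hy, Real.sq_sqrt (by rw [← him]; positivity), him]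
    rcases sq_eq_sq_iff_eq_or_eq_neg.1 hys.symm with h3 | h3
    · left
      rw [hw]
      congr 2
      exact Complex.ext hre h3
    · right
      rw [mem_singleton_iff, hw]
      congr 2
      exact Complex.ext hre h3

private lemma circ_per_int (z : ℂ) (ρ : ℝ) (s : ℝ) (k : ℤ) : circ z ρ (s + k) = circ z ρ s := by
  unfold circ
  congr 2
  rw [Complex.exp_eq_exp_iff_exists_int]
  refine ⟨k, ?_⟩
  push_cast
  ring

private lemma circ_eq {z : ℂ} {ρ : ℝ} (hρ : 0 < ρ) {a a' : ℝ} (h : circ z ρ a = circ z ρ a') :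
    ∃ k : ℤ, a' = a + k := by
  unfold circ at h
  have h1 := mul_left_cancel₀ (Complex.ofReal_ne_zero.2 hρ.ne') (add_left_cancel h)
  rw [Complex.exp_eq_exp_iff_exists_int] at h1
  obtain ⟨n, hn⟩ := h1
  have h2 : (((2 * Real.pi * a : ℝ)) : ℂ) = ((2 * Real.pi * a' + n * (2 * Real.pi) : ℝ) : ℂ) := by
    have h3 : (((2 * Real.pi * a : ℝ)) : ℂ) * Complex.I =
        ((2 * Real.pi * a' + n * (2 * Real.pi) : ℝ) : ℂ) * Complex.I := by
      rw [hn]
      push_cast
      ring
    exact mul_right_cancel₀ Complex.I_ne_zero h3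
  have h4 := Complex.ofReal_injective h2
  refine ⟨-n, ?_⟩
  have h5 : 2 * Real.pi * (a - a' - n) = 0 := by linarith
  have h6 : a - a' - n = 0 := by
    rcases mul_eq_zero.1 h5 with h7 | h7
    · exact absurd h7 (by positivity)
    · exact h7
  push_cast
  linarith

/-- two gaps of a circle are equal or disjoint -/
theorem circ_gap {z : ℂ} {ρ : ℝ} (hρ : 0 < ρ) {X κ κ' : Set ℂ} (h : IsGap (circ z ρ) X κ)
    (h' : IsGap (circ z ρ) X κ') (hm : (κ ∩ κ').Nonempty) : κ = κ' := by
  obtain ⟨s1, s2, h12, -, m1, m2, hf, rfl⟩ := h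
  obtain ⟨t1, t2, k12, -, n1, n2, kf, rfl⟩ := h'
  obtain ⟨w, ⟨a, ha, rfl⟩, ⟨a', ha', he⟩⟩ := hm
  obtain ⟨k, hk⟩ := circ_eq hρ he.symm
  have e1 : t1 = s1 + k := by
    rcases lt_trichotomy t1 (s1 + k) with h1 | h1 | h1
    · exfalso
      refine kf (s1 + k) ⟨h1, ?_⟩ ?_
      · have := ha.1
        have := ha'.2
        linarith
      · rw [circ_per_int]
        exact m1
    · exact h1
    · exfalso
      refine hf (t1 - k) ⟨by linarith, ?_⟩ ?_
      · have := ha.2
        have := ha'.1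
        linarith
      · rw [← circ_per_int z ρ (t1 - k) k, sub_add_cancel]
        exact n1
  have e2 : t2 = s2 + k := by
    rcases lt_trichotomy t2 (s2 + k) with h1 | h1 | h1
    · exfalso
      refine hf (t2 - k) ⟨?_, by linarith⟩ ?_
      · have := ha.1
        have := ha'.2
        linarith
      · rw [← circ_per_int z ρ (t2 - k) k, sub_add_cancel]
        exact n2
    · exact h1
    · exfalso
      refine kf (s2 + k) ⟨?_, h1⟩ ?_
      · have := ha.2
        have := ha'.1
        linarith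
      · rw [circ_per_int]
        exact m2
  subst e1 e2
  ext w
  constructor
  · rintro ⟨x, hx, rfl⟩
    exact ⟨x + k, ⟨by linarith [hx.1], by linarith [hx.2]⟩, circ_per_int z ρ x k⟩
  · rintro ⟨x, hx, rfl⟩
    refine ⟨x - k, ⟨by linarith [hx.1], by linarith [hx.2]⟩, ?_⟩
    rw [← circ_per_int z ρ (x - k) k, sub_add_cancel]

end Pool.Agent.HE
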