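import Pool.Agent.HE.Bas

set_option autoImplicit false

/-!
HE-GapFin. Elementary properties of the gaps of a closed curve: only finitely many gaps meet a
compact set disjoint from `X` (uniform continuity: such a gap has a parameter length at least `δ`),
and the closure of a gap is the gap with its two end points.
-/

namespace Pool.Agent.HE

open Set Topology Filter

private lemma gf_shift {c : ℝ → ℂ} (hc : Closed1 c) (n : ℤ) (s : ℝ) : c (s - n) = c s := by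
  have h : Function.Periodic c 1 := hc.per
  have h1 := (h.int_mul n).sub_eq s
  rw [mul_one] at h1
  exact h1

/-- normalised parameters of a gap -/
private lemma gf_norm {X κ : Set ℂ} {c : ℝ → ℂ} (hc : Closed1 c) (h : IsGap c X κ) :
    ∃ s1 s2 : ℝ, 0 ≤ s1 ∧ s1 < 1 ∧ s1 < s2 ∧ s2 ≤ s1 + 1 ∧ c s1 ∈ X ∧ c s2 ∈ X ∧
      (∀ s ∈ Ioo s1 s2, c s ∉ X) ∧ κ = c '' Ioo s1 s2 := by
  obtain ⟨s1, s2, h1, h2, h3, h4, h5, h6⟩ := h
  refine ⟨s1 - ⌊s1⌋, s2 - ⌊s1⌋, ?_, ?_, by linarith, by linarith, ?_, ?_, ?_, ?_⟩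
  · have := Int.floor_le s1
    linarith
  · have := Int.lt_floor_add_one s1
    linarith
  · rw [gf_shift hc]
    exact h3
  · rw [gf_shift hc]
    exact h4
  · intro s hs
    have h7 := h5 (s + ⌊s1⌋) ⟨by linarith [hs.1], by linarith [hs.2]⟩
    have h8 := gf_shift hc ⌊s1⌋ (s + ⌊s1⌋)
    rw [add_sub_cancel_right] at h8
    rw [h8]
    exact h7
  · rw [h6]
    ext z
    constructor
    · rintro ⟨s, hs, rfl⟩
      exact ⟨s - ⌊s1⌋, ⟨by linarith [hs.1], by linarith [hs.2]⟩, gf_shift hc _ _⟩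
    · rintro ⟨s, hs, rfl⟩
      refine ⟨s + ⌊s1⌋, ⟨by linarith [hs.1], by linarith [hs.2]⟩, ?_⟩
      have h8 := gf_shift hc ⌊s1⌋ (s + ⌊s1⌋)
      rw [add_sub_cancel_right] at h8
      exact h8.symm

theorem gap_fin {X P : Set ℂ} (hX : IsClosed X) (hP : IsCompact P) (hd : Disjoint P X)
    {c : ℝ → ℂ} (hc : Closed1 c) : {κ : Set ℂ | IsGap c X κ ∧ (κ ∩ P).Nonempty}.Finite := by
  obtain ⟨r, hr0, hr⟩ := Metric.exists_pos_forall_lt_edist hP hX hd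
  have hr' : ∀ x ∈ P, ∀ y ∈ X, (r : ℝ) < dist x y := by
    intro x hx y hy
    have h1 := hr x hx y hy
    rw [edist_nndist] at h1
    have h2 : r < nndist x y := by exact_mod_cast h1
    exact_mod_cast h2
  have huc : UniformContinuousOn c (Icc 0 2) :=
    isCompact_Icc.uniformContinuousOn_of_continuous hc.cont.continuousOn
  obtain ⟨δ, hδ0, hδ⟩ := Metric.uniformContinuousOn_iff.1 huc r (by exact_mod_cast hr0)
  have H : ∀ κ ∈ {κ : Set ℂ | IsGap c X κ ∧ (κ ∩ P).Nonempty}, ∃ s1 : ℝ, 0 ≤ s1 ∧ s1 < 1 ∧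
      ∃ s2 : ℝ, s1 + δ ≤ s2 ∧ c s1 ∈ X ∧ c s2 ∈ X ∧ (∀ s ∈ Ioo s1 s2, c s ∉ X) ∧
        κ = c '' Ioo s1 s2 := by
    rintro κ ⟨hκ, hm⟩
    obtain ⟨s1, s2, h1, h2, h3, h4, h5, h6, h7, h8⟩ := gf_norm hc hκ
    refine ⟨s1, h1, h2, s2, ?_, h5, h6, h7, h8⟩
    obtain ⟨z, hz1, hz2⟩ := hm
    rw [h8] at hz1
    obtain ⟨s, hs, rfl⟩ := hz1
    by_contra hlt
    push Not at hlt
    have h9 := hδ s ⟨by linarith [hs.1], by linarith [hs.2]⟩ s1 ⟨h1, by linarith⟩ (by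
      rw [Real.dist_eq, abs_of_pos (by linarith [hs.1])]
      linarith [hs.2])
    have h10 := hr' _ hz2 _ h5
    linarith
  choose! g hg0 hg1 g2 hg3 hg4 hg5 hg6 hg7 using H
  refine Set.Finite.of_injOn (f := fun κ => ⌊g κ / δ⌋₊) (t := Set.Iic ⌊1 / δ⌋₊) ?_ ?_
    (Set.finite_Iic _)
  · intro κ hκ
    show ⌊g κ / δ⌋₊ ≤ ⌊1 / δ⌋₊
    apply Nat.floor_mono
    exact div_le_div_of_nonneg_right (hg1 κ hκ).le hδ0.le
  · -- injectivity
    have key : ∀ κ ∈ {κ : Set ℂ | IsGap c X κ ∧ (κ ∩ P).Nonempty},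
        ∀ κ' ∈ {κ : Set ℂ | IsGap c X κ ∧ (κ ∩ P).Nonempty},
        ⌊g κ / δ⌋₊ = ⌊g κ' / δ⌋₊ → g κ ≤ g κ' → g κ = g κ' := by
      intro κ hκ κ' hκ' he hle
      by_contra hne
      have hlt : g κ < g κ' := lt_of_le_of_ne hle hne
      have h1 : g κ' / δ < ⌊g κ' / δ⌋₊ + 1 := Nat.lt_floor_add_one _
      have h2 : (⌊g κ / δ⌋₊ : ℝ) ≤ g κ / δ := Nat.floor_le (div_nonneg (hg0 κ hκ) hδ0.le)
      rw [he] at h2
      have h3 : g κ' / δ < g κ / δ + 1 := by linarith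
      have h4 : g κ' < g κ + δ := by
        have h5 : g κ / δ + 1 = (g κ + δ) / δ := by
          field_simp
        rw [h5, div_lt_div_iff_of_pos_right hδ0] at h3
        exact h3
      exact hg6 κ hκ (g κ') ⟨hlt, by linarith [hg3 κ hκ]⟩ (hg4 κ' hκ')
    have key2 : ∀ κ ∈ {κ : Set ℂ | IsGap c X κ ∧ (κ ∩ P).Nonempty},
        ∀ κ' ∈ {κ : Set ℂ | IsGap c X κ ∧ (κ ∩ P).Nonempty},
        g κ = g κ' → g2 κ ≤ g2 κ' := by
      intro κ hκ κ' hκ' he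
      by_contra hlt
      push Not at hlt
      exact hg6 κ hκ (g2 κ') ⟨by linarith [hg3 κ' hκ'], hlt⟩ (hg5 κ' hκ')
    intro κ hκ κ' hκ' he
    have he' : ⌊g κ / δ⌋₊ = ⌊g κ' / δ⌋₊ := he
    have h1 : g κ = g κ' := by
      rcases le_total (g κ) (g κ') with h | h
      · exact key κ hκ κ' hκ' he' h
      · exact (key κ' hκ' κ hκ he'.symm h).symm
    have h2 : g2 κ = g2 κ' :=
      le_antisymm (key2 κ hκ κ' hκ' h1) (key2 κ' hκ' κ hκ h1.symm)
    rw [hg7 κ hκ, hg7 κ' hκ', h1, h2]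

theorem gap_pre {X κ : Set ℂ} {c : ℝ → ℂ} (hc : Closed1 c) (h : IsGap c X κ) :
    IsPreconnected κ := by
  obtain ⟨s1, s2, -, -, -, -, -, rfl⟩ := h
  exact isPreconnected_Ioo.image c hc.cont.continuousOn

theorem gap_disj {X κ : Set ℂ} {c : ℝ → ℂ} (h : IsGap c X κ) : Disjoint κ X := by
  obtain ⟨s1, s2, -, -, -, -, h5, rfl⟩ := h
  rw [Set.disjoint_left]
  rintro _ ⟨s, hs, rfl⟩
  exact h5 s hs

private lemma gf_icc {X : Set ℂ} {c : ℝ → ℂ} {s1 s2 s : ℝ} (hs : s ∈ Icc s1 s2)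
    (h5 : ∀ s ∈ Ioo s1 s2, c s ∉ X) (hX : c s ∈ X) : s = s1 ∨ s = s2 := by
  by_contra hcon
  push Not at hcon
  exact h5 s ⟨lt_of_le_of_ne hs.1 (Ne.symm hcon.1), lt_of_le_of_ne hs.2 hcon.2⟩ hX

private lemma gf_closure {c : ℝ → ℂ} (hc : Closed1 c) (s1 s2 : ℝ) :
    closure (c '' Ioo s1 s2) ⊆ c '' Icc s1 s2 :=
  closure_minimal (image_mono Ioo_subset_Icc_self)
    (isCompact_Icc.image hc.cont).isClosed

theorem gap_closed {X κ : Set ℂ} (hX : IsClosed X) {c : ℝ → ℂ} (hc : Closed1 c)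
    (h : IsGap c X κ) : IsClosed (X ∪ κ) := by
  obtain ⟨s1, s2, h1, -, h3, h4, h5, rfl⟩ := h
  have h6 : X ∪ c '' Ioo s1 s2 = X ∪ c '' Icc s1 s2 := by
    apply Subset.antisymm
    · exact union_subset_union_right _ (image_mono Ioo_subset_Icc_self)
    · rintro z (hz | ⟨s, hs, rfl⟩)
      · exact Or.inl hz
      · by_cases hX' : c s ∈ X
        · exact Or.inl hX'
        · right
          refine ⟨s, ⟨lt_of_le_of_ne hs.1 ?_, lt_of_le_of_ne hs.2 ?_⟩, rfl⟩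
          · rintro rfl
            exact hX' h3
          · rintro rfl
            exact hX' h4
  rw [h6]
  exact hX.union (isCompact_Icc.image hc.cont).isClosed

theorem gap_bdd {X κ : Set ℂ} {c : ℝ → ℂ} (hc : Closed1 c) (h : IsGap c X κ) :
    Bornology.IsBounded κ := by
  obtain ⟨s1, s2, -, -, -, -, -, rfl⟩ := h
  exact ((isCompact_Icc (a := s1) (b := s2)).image hc.cont).isBounded.subset
    (image_mono Ioo_subset_Icc_self)

/-- at most two points of `X` are in the closure of a gap -/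
theorem gap_ends {X κ : Set ℂ} {c : ℝ → ℂ} (hc : Closed1 c) (h : IsGap c X κ) :
    ∃ e1 e2 : ℂ, e1 ∈ X ∧ e2 ∈ X ∧ closure κ ∩ X ⊆ {e1, e2} ∧ closure κ ⊆ range c ∧
      closure κ ⊆ κ ∪ {e1, e2} := by
  obtain ⟨s1, s2, h1, -, h3, h4, h5, rfl⟩ := h
  refine ⟨c s1, c s2, h3, h4, ?_, ?_, ?_⟩
  · rintro z ⟨hz, hzX⟩
    obtain ⟨s, hs, rfl⟩ := gf_closure hc s1 s2 hz
    rcases gf_icc hs h5 hzX with rfl | rfl
    · exact mem_insert _ _
    · exact mem_insert_of_mem _ rfl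
  · intro z hz
    obtain ⟨s, -, rfl⟩ := gf_closure hc s1 s2 hz
    exact mem_range_self s
  · intro z hz
    obtain ⟨s, hs, rfl⟩ := gf_closure hc s1 s2 hz
    by_cases hX : c s ∈ X
    · right
      rcases gf_icc hs h5 hX with rfl | rfl
      · exact mem_insert _ _
      · exact mem_insert_of_mem _ rfl
    · left
      refine ⟨s, ⟨lt_of_le_of_ne hs.1 ?_, lt_of_le_of_ne hs.2 ?_⟩, rfl⟩
      · rintro rfl
        exact hX h3
      · rintro rfl
        exact hX h4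

end Pool.Agent.HE
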