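import Pool.Agent.HE.CircG
import Pool.Agent.HE.GapFin

set_option autoImplicit false

/-!
HE-FinA. Only finitely many gaps of a finite family of circles meet a different gap of the family:
such a gap contains a common point of two different circles of the family, and it is determined by
this point and the circle.
-/

namespace Pool.Agent.HE

open Set Topology Filter

private lemma gap_on {z : ℂ} {ρ : ℝ} (hρ : 0 < ρ) {X κ : Set ℂ} (h : IsGap (circ z ρ) X κ) {w : ℂ}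
    (hw : w ∈ κ) : dist w z = ρ := by
  obtain ⟨s1, s2, -, -, -, -, -, rfl⟩ := h
  obtain ⟨s, -, rfl⟩ := hw
  exact dist_circ z hρ.le s

theorem fin_a (s : Finset (ℂ × ℝ)) (hs : ∀ x ∈ s, 0 < x.2) (X : Set ℂ) :
    {κ : Set ℂ | ∃ x ∈ s, IsGap (circ x.1 x.2) X κ ∧ ∃ y ∈ s, ∃ κ', IsGap (circ y.1 y.2) X κ' ∧
      κ ≠ κ' ∧ (κ ∩ κ').Nonempty}.Finite := by
  have hsub : {κ : Set ℂ | ∃ x ∈ s, IsGap (circ x.1 x.2) X κ ∧ ∃ y ∈ s, ∃ κ',
      IsGap (circ y.1 y.2) X κ' ∧ κ ≠ κ' ∧ (κ ∩ κ').Nonempty} ⊆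
      ⋃ x ∈ (s : Set (ℂ × ℝ)), ⋃ y ∈ (s : Set (ℂ × ℝ)),
        ⋃ w ∈ {w : ℂ | x ≠ y ∧ dist w x.1 = x.2 ∧ dist w y.1 = y.2},
          {κ : Set ℂ | 0 < x.2 ∧ IsGap (circ x.1 x.2) X κ ∧ w ∈ κ} := by
    rintro κ ⟨x, hx, hκ, y, hy, κ', hκ', hne, w, hw, hw'⟩
    simp only [mem_iUnion]
    refine ⟨x, hx, y, hy, w, ⟨?_, gap_on (hs x hx) hκ hw, gap_on (hs y hy) hκ' hw'⟩,
      hs x hx, hκ, hw⟩
    rintro rfl
    exact hne (circ_gap (hs x hx) hκ hκ' ⟨w, hw, hw'⟩)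
  refine Set.Finite.subset ?_ hsub
  refine s.finite_toSet.biUnion fun x _ => s.finite_toSet.biUnion fun y _ =>
    Set.Finite.biUnion ?_ fun w _ => ?_
  · by_cases hxy : x = y
    · refine Set.Finite.subset Set.finite_empty ?_
      rintro w ⟨h, -⟩
      exact absurd hxy h
    · refine (circ_inter (z1 := x.1) (z2 := y.1) (ρ1 := x.2) (ρ2 := y.2) hxy).subset ?_
      rintro w ⟨-, h⟩
      exact h
  · apply Set.Subsingleton.finite
    rintro κ ⟨hρ, hκ, hw⟩ κ' ⟨-, hκ', hw'⟩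
    exact circ_gap hρ hκ hκ' ⟨w, hw, hw'⟩

end Pool.Agent.HE
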