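import Pool.Agent.HE.LogA

set_option autoImplicit false

/-!
HE-Gap. A point surrounded by a closed curve is cut off by one gap of the curve.

If no gap cuts off the point, the difference of a lift of `c s - l` and of a logarithm of `z - l` on
`X` does not change across the gaps, so it is constant; but it changes by the winding number over a
period.
-/

namespace Pool.Agent.HE

open Set Topology Filter

private theorem gap_lift {f : ℝ → ℂ} (hf : Continuous f) (h0 : ∀ s, f s ≠ 0) :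
    ∃ M : ℝ → ℂ, Continuous M ∧ ∀ s, Complex.exp (M s) = f s := by
  obtain ⟨M, ⟨-, hM⟩, -⟩ := Complex.isCoveringMapOn_exp.existsUnique_continuousMap_lifts
    (⟨f, hf⟩ : C(ℝ, ℂ)) (a₀ := (0 : ℝ)) (e₀ := Complex.log (f 0)) (Complex.exp_log (h0 0))
    (fun x => h0 x)
  exact ⟨M, M.continuous, fun s => congrFun hM s⟩

private theorem gap_im {w : ℂ} {n : ℤ} (h : w = n * (2 * Real.pi * Complex.I)) :
    w.im / (2 * Real.pi) = n := by
  have h2 : w = ((n * (2 * Real.pi) : ℝ) : ℂ) * Complex.I := by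
    rw [h]
    push_cast
    ring
  have h3 : w.im = n * (2 * Real.pi) := by
    rw [h2, Complex.mul_im, Complex.ofReal_re, Complex.ofReal_im, Complex.I_im, Complex.I_re]
    ring
  rw [h3]
  field_simp

/-- a continuous function with `exp = 1` on a preconnected set is constant -/
private theorem gap_const {α : Type*} [TopologicalSpace α] {S : Set α} (hS : IsPreconnected S)
    {g : α → ℂ} (hg : ContinuousOn g S) (h1 : ∀ x ∈ S, Complex.exp (g x) = 1) {x y : α}
    (hx : x ∈ S) (hy : y ∈ S) : g x = g y := by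
  have key : ∀ x ∈ S, ∃ n : ℤ, g x = n * (2 * Real.pi * Complex.I) := fun x hx =>
    Complex.exp_eq_one_iff.1 (h1 x hx)
  have hcont : ContinuousOn (fun x => (g x).im / (2 * Real.pi)) S :=
    (Complex.continuous_im.comp_continuousOn hg).div_const _
  have hlt : ∀ a ∈ S, ∀ b ∈ S, ¬ (g a).im / (2 * Real.pi) < (g b).im / (2 * Real.pi) := by
    intro a ha b hb hab
    obtain ⟨n, hn⟩ := key a ha
    obtain ⟨m, hm⟩ := key b hb
    have hn' := gap_im hn
    have hm' := gap_im hm
    rw [hn', hm'] at hab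
    have hnm : n + 1 ≤ m := by exact_mod_cast hab
    have hnm' : (n : ℝ) + 1 ≤ m := by exact_mod_cast hnm
    have hv : (n : ℝ) + 1 / 2 ∈ Icc ((g a).im / (2 * Real.pi)) ((g b).im / (2 * Real.pi)) := by
      rw [hn', hm']
      constructor <;> linarith
    obtain ⟨z, hz, hzv⟩ := hS.intermediate_value ha hb hcont hv
    obtain ⟨p, hp⟩ := key z hz
    have hp' := gap_im hp
    have h2 : (p : ℝ) = n + 1 / 2 := by rw [← hp']; exact hzv
    have h3 : (2 * p : ℤ) = 2 * n + 1 := by
      have : (2 * p : ℝ) = 2 * n + 1 := by linarith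
      exact_mod_cast this
    omega
  obtain ⟨n, hn⟩ := key x hx
  obtain ⟨m, hm⟩ := key y hy
  have hn' := gap_im hn
  have hm' := gap_im hm
  have h2 := hlt x hx y hy
  have h3 := hlt y hy x hx
  rw [hn', hm'] at h2
  rw [hn', hm'] at h3
  have h4 : (n : ℝ) = m := le_antisymm (not_lt.1 h3) (not_lt.1 h2)
  have h5 : n = m := by exact_mod_cast h4
  rw [hn, hm, h5]

/-- small logarithms of `1` -/
private theorem gap_small {w : ℂ} (h : Complex.exp w = 1) (hw : ‖w‖ < 1) : w = 0 := by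
  obtain ⟨n, hn⟩ := Complex.exp_eq_one_iff.1 h
  have hn' := gap_im hn
  by_cases h0 : n = 0
  · rw [hn, h0]
    simp
  · exfalso
    have h1 : (1 : ℝ) ≤ |(n : ℝ)| := by
      have := Int.one_le_abs h0
      exact_mod_cast this
    have h2 : |w.im| ≤ ‖w‖ := Complex.abs_im_le_norm w
    have h3 : w.im = n * (2 * Real.pi) := by
      rw [← hn']
      field_simp
    rw [h3, abs_mul, abs_of_pos Real.two_pi_pos] at h2
    have h4 := Real.pi_gt_three
    nlinarith

/-- crossing one gap -/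
private theorem gap_cross {X : Set ℂ} (hX : IsCompact X) (hc : IsConnected X) {c : ℝ → ℂ}
    (hcc : Continuous c) {l : ℂ} (hl : l ∉ X) (hlc : ∀ s, c s ≠ l)
    {M : ℝ → ℂ} (hM : Continuous M) (hMe : ∀ s, Complex.exp (M s) = c s - l)
    {LX : ℂ → ℂ} (hLX : ContinuousOn LX X) (hLe : ∀ z ∈ X, Complex.exp (LX z) = z - l)
    {s1 s2 : ℝ} (h12 : s1 < s2) (h1 : c s1 ∈ X) (h2 : c s2 ∈ X)
    (hu : ¬ Bornology.IsBounded (Cmp (X ∪ c '' Ioo s1 s2) l)) :
    M s1 - LX (c s1) = M s2 - LX (c s2) := by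
  have hY : X ∪ c '' Ioo s1 s2 = X ∪ c '' Icc s1 s2 := by
    apply subset_antisymm
    · exact union_subset_union_right _ (image_mono Ioo_subset_Icc_self)
    · apply union_subset subset_union_left
      rintro _ ⟨s, hs, rfl⟩
      rcases eq_or_lt_of_le hs.1 with h | h
      · left
        rw [← h]
        exact h1
      rcases eq_or_lt_of_le hs.2 with h' | h'
      · left
        rw [h']
        exact h2
      · right
        exact ⟨s, ⟨h, h'⟩, rfl⟩
  rw [hY] at hu
  have hYc : IsCompact (X ∪ c '' Icc s1 s2) := hX.union (isCompact_Icc.image hcc)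
  have hlY : l ∉ X ∪ c '' Icc s1 s2 := by
    rintro (h | ⟨s, -, hs⟩)
    · exact hl h
    · exact hlc s hs
  obtain ⟨L, hL, hLe'⟩ := exists_log hYc hlY hu
  have e1 : L (c s1) - LX (c s1) = L (c s2) - LX (c s2) := by
    refine gap_const hc.isPreconnected (g := fun z => L z - LX z)
      ((hL.mono subset_union_left).sub hLX) ?_ h1 h2
    intro z hz
    rw [Complex.exp_sub, hLe' z (Or.inl hz), hLe z hz, div_self]
    intro h0
    apply hl
    rw [← sub_eq_zero.1 h0]
    exact hz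
  have e2 : M s1 - L (c s1) = M s2 - L (c s2) := by
    refine gap_const isPreconnected_Icc (g := fun s => M s - L (c s))
      (hM.continuousOn.sub (hL.comp hcc.continuousOn ?_)) ?_ (left_mem_Icc.2 h12.le)
      (right_mem_Icc.2 h12.le)
    · intro s hs
      exact Or.inr ⟨s, hs, rfl⟩
    · intro s hs
      rw [Complex.exp_sub, hMe s, hLe' (c s) (Or.inr ⟨s, hs, rfl⟩), div_self]
      exact sub_ne_zero.2 (hlc s)
  linear_combination e1 + e2

/-- a function which is constant across the gaps and locally constant is constant -/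
private theorem gap_glob {S : Set ℝ} (hS : IsClosed S) (hper : ∀ s ∈ S, s + 1 ∈ S) {D : ℝ → ℂ}
    (hD : ContinuousOn D S) (hloc : ∀ s ∈ S, ∀ t ∈ S, ‖D s - D t‖ < 1 → D s = D t)
    (hgap : ∀ s1 s2 : ℝ, s1 < s2 → s2 ≤ s1 + 1 → s1 ∈ S → s2 ∈ S → (∀ s ∈ Ioo s1 s2, s ∉ S) →
      D s1 = D s2) {s s' : ℝ} (hs : s ∈ S) (hs' : s' ∈ S) (hss : s < s') : D s = D s' := by
  by_contra hne
  set B : Set ℝ := {x | x ∈ S ∩ Icc s s' ∧ D x = D s} with hB
  have hSI : IsClosed (S ∩ Icc s s') := hS.inter isClosed_Icc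
  have hBc : IsClosed B := by
    have h1 : IsClosed ((S ∩ Icc s s') ∩ D ⁻¹' {D s}) :=
      (hD.mono inter_subset_left).preimage_isClosed_of_isClosed hSI isClosed_singleton
    exact h1
  have hBk : IsCompact B := isCompact_Icc.of_isClosed_subset hBc fun x hx => hx.1.2
  have hBn : B.Nonempty := ⟨s, ⟨hs, left_mem_Icc.2 hss.le⟩, rfl⟩
  set σ := sSup B with hσ
  have hσB : σ ∈ B := hBk.sSup_mem hBn
  have hmax : ∀ x ∈ B, x ≤ σ := fun x hx => le_csSup hBk.bddAbove hx
  have hσs' : σ < s' := by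
    rcases lt_or_eq_of_le hσB.1.2.2 with h | h
    · exact h
    · exfalso
      apply hne
      rw [← hσB.2, h]
  obtain ⟨δ, hδ, hδD⟩ : ∃ δ > 0, ∀ x ∈ S, |x - σ| < δ → D x = D σ := by
    have h1 := Metric.continuousOn_iff.1 hD σ hσB.1.1 1 one_pos
    obtain ⟨δ, hδ, h2⟩ := h1
    refine ⟨δ, hδ, fun x hx hxd => hloc x hx σ hσB.1.1 ?_⟩
    have h3 := h2 x hx (by rwa [Real.dist_eq])
    rwa [dist_eq_norm] at h3
  set δ' := min δ (s' - σ) with hδ'
  have hδ'0 : 0 < δ' := lt_min hδ (by linarith)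
  have hδ'1 : δ' ≤ δ := min_le_left _ _
  have hδ'2 : δ' ≤ s' - σ := min_le_right _ _
  set E : Set ℝ := S ∩ Ici (σ + δ') with hE
  have hEc : IsClosed E := hS.inter isClosed_Ici
  have hEn : E.Nonempty := ⟨s', hs', by
    rw [mem_Ici]
    linarith⟩
  have hEb : BddBelow E := ⟨σ + δ', fun x hx => hx.2⟩
  set s2 := sInf E with hs2
  have hs2E : s2 ∈ E := hEc.csInf_mem hEn hEb
  have hmin : ∀ x ∈ E, s2 ≤ x := fun x hx => csInf_le hEb hx
  have h2 : σ < s2 := by
    have := hs2E.2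
    rw [mem_Ici] at this
    linarith
  have h3 : s2 ≤ s' := hmin s' ⟨hs', by
    rw [mem_Ici]
    linarith⟩
  have hno : ∀ x ∈ Ioo σ s2, x ∉ S := by
    intro x hx hxS
    by_cases hxd : x < σ + δ'
    · have h4 : D x = D σ := by
        apply hδD x hxS
        rw [abs_of_pos (by linarith [hx.1])]
        linarith
      have h5 : x ∈ B := by
        refine ⟨⟨hxS, ?_, ?_⟩, ?_⟩
        · have := hσB.1.2.1
          linarith [hx.1]
        · linarith [hx.2]
        · rw [h4]
          exact hσB.2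
      have := hmax x h5
      linarith [hx.1]
    · have := hmin x ⟨hxS, not_lt.1 hxd⟩
      linarith [hx.2]
  have h6 : s2 ≤ σ + 1 := by
    by_contra h
    have h7 := not_le.1 h
    exact hno (σ + 1) ⟨by linarith, h7⟩ (hper σ hσB.1.1)
  have h8 := hgap σ s2 h2 h6 hσB.1.1 hs2E.1 hno
  have h9 : s2 ∈ B := by
    refine ⟨⟨hs2E.1, ?_, h3⟩, ?_⟩
    · have := hσB.1.2.1
      linarith
    · rw [← h8]
      exact hσB.2
  have := hmax s2 h9
  linarith

theorem gap {X : Set ℂ} (hX : IsCompact X) (hc : IsConnected X) (hns : NonSep X) {c : ℝ → ℂ}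
    (hcc : Closed1 c) {l : ℂ} (hl : l ∉ X) (hlc : ∀ s, c s ≠ l) (hmeet : ∃ s, c s ∈ X)
    (hnl : ¬ PLog fun s => c s - l) :
    ∃ κ : Set ℂ, IsGap c X κ ∧ l ∉ κ ∧ Bornology.IsBounded (Cmp (X ∪ κ) l) := by
  by_contra hcon
  have hcon' : ∀ κ : Set ℂ, IsGap c X κ → ¬ Bornology.IsBounded (Cmp (X ∪ κ) l) := by
    intro κ hκ hb
    refine hcon ⟨κ, hκ, ?_, hb⟩
    obtain ⟨s1, s2, -, -, -, -, -, rfl⟩ := hκ
    rintro ⟨s, -, hs⟩
    exact hlc s hs
  have hf0 : ∀ s, c s - l ≠ 0 := fun s => sub_ne_zero.2 (hlc s)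
  obtain ⟨M, hM, hMe⟩ : ∃ M : ℝ → ℂ, Continuous M ∧ ∀ s, Complex.exp (M s) = c s - l :=
    gap_lift (f := fun s => c s - l) (hcc.cont.sub continuous_const) hf0
  obtain ⟨LX, hLX, hLe⟩ := exists_log hX hl (hns l hl)
  have hXl : ∀ z ∈ X, z - l ≠ 0 := by
    intro z hz h0
    apply hl
    rw [← sub_eq_zero.1 h0]
    exact hz
  -- the period
  have hper : ∀ s, M (s + 1) - M s = M (0 + 1) - M 0 := by
    intro s
    refine gap_const (isPreconnected_univ (α := ℝ)) (g := fun s => M (s + 1) - M s) ?_ ?_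
      (mem_univ s) (mem_univ 0)
    · exact ((hM.comp (continuous_id.add continuous_const)).sub hM).continuousOn
    · intro x _
      rw [Complex.exp_sub, hMe, hMe, hcc.per, div_self (hf0 x)]
  have hk : M (0 + 1) - M 0 ≠ 0 := by
    intro h0
    apply hnl
    refine ⟨M, hM, fun s => ?_, hMe⟩
    have := hper s
    rw [h0] at this
    exact sub_eq_zero.1 this
  -- the function on the parameters
  obtain ⟨s0, hs0⟩ := hmeet
  have hSc : IsClosed (c ⁻¹' X) := hX.isClosed.preimage hcc.cont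
  have hSp : ∀ s ∈ c ⁻¹' X, s + 1 ∈ c ⁻¹' X := by
    intro s hs
    rw [mem_preimage, hcc.per]
    exact hs
  have hDe : ∀ s ∈ c ⁻¹' X, Complex.exp (M s - LX (c s)) = 1 := by
    intro s hs
    rw [Complex.exp_sub, hMe, hLe _ hs, div_self (hf0 s)]
  have hfin := gap_glob (D := fun s => M s - LX (c s)) hSc hSp
    (hM.continuousOn.sub (hLX.comp hcc.cont.continuousOn fun s hs => hs)) ?_ ?_ hs0 (hSp s0 hs0)
    (lt_add_one s0)
  · have h1 := hper s0
    change M s0 - LX (c s0) = M (s0 + 1) - LX (c (s0 + 1)) at hfin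
    rw [hcc.per] at hfin
    apply hk
    rw [← h1]
    linear_combination -hfin
  · intro s hs t ht hst
    have h1 : Complex.exp ((M s - LX (c s)) - (M t - LX (c t))) = 1 := by
      rw [Complex.exp_sub, hDe s hs, hDe t ht, div_one]
    exact sub_eq_zero.1 (gap_small h1 hst)
  · intro s1 s2 h12 h21 h1 h2 hno
    exact gap_cross hX hc hcc.cont hl hlc hM hMe hLX hLe h12 h1 h2
      (hcon' _ ⟨s1, s2, h12, h21, h1, h2, hno, rfl⟩)

end Pool.Agent.HE
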