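import Pool.Agent.HE.Defs

set_option autoImplicit false

/-!
HE-NoLog. Closed curves around a point have no periodic logarithm: comparison with the unit
circle (the quotient stays in the slit plane), whose periodic logarithms are excluded by the
intermediate value theorem.
-/

namespace Pool.Agent.HE

open Set Topology Filter

private theorem nl_ratio {c c' : ℝ → ℂ} (hc : Closed1 c) (hc' : Closed1 c')
    (h0 : ∀ s, c' s ≠ 0) (h : ∀ s, c s / c' s ∈ Complex.slitPlane) (hl : PLog c) : PLog c' := by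
  obtain ⟨L, h1, h2, h3⟩ := hl
  refine ⟨fun s => L s - Complex.log (c s / c' s), ?_, ?_, ?_⟩
  · exact h1.sub ((hc.cont.div hc'.cont h0).clog h)
  · intro s
    show L (s + 1) - Complex.log (c (s + 1) / c' (s + 1)) = L s - Complex.log (c s / c' s)
    rw [h2, hc.per, hc'.per]
  · intro s
    have h4 : c s ≠ 0 := by
      rw [← h3]
      exact Complex.exp_ne_zero _
    have h5 := h0 s
    rw [Complex.exp_sub, h3, Complex.exp_log (Complex.slitPlane_ne_zero (h s))]
    field_simp

private theorem nl_base {c : ℝ → ℂ} (hc : Closed1 c) {r l : ℂ}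
    (h : ∀ s, dist l r < dist (c s) r) (hl : PLog fun s => c s - l) : PLog fun s => c s - r := by
  have h0 : ∀ s, c s - r ≠ 0 := by
    intro s h1
    have h2 := h s
    rw [sub_eq_zero.1 h1, dist_self] at h2
    exact absurd dist_nonneg (not_le.2 h2)
  refine nl_ratio ⟨hc.cont.sub continuous_const, fun s => ?_⟩
    ⟨hc.cont.sub continuous_const, fun s => ?_⟩ h0 (fun s => ?_) hl
  · show c (s + 1) - l = c s - l
    rw [hc.per]
  · show c (s + 1) - r = c s - r
    rw [hc.per]
  · have h1 : (c s - l) / (c s - r) = 1 + -((l - r) / (c s - r)) := by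
      have h2 := h0 s
      field_simp
      ring
    show (c s - l) / (c s - r) ∈ Complex.slitPlane
    rw [h1]
    refine Complex.mem_slitPlane_of_norm_lt_one ?_
    rw [norm_neg, norm_div, div_lt_one (norm_pos_iff.2 (h0 s)), ← dist_eq_norm, ← dist_eq_norm]
    exact h s

private noncomputable def nl_e (s : ℝ) : ℂ := Complex.exp ((2 * Real.pi * s : ℝ) * Complex.I)

private theorem nl_e_re (s : ℝ) : (nl_e s).re = Real.cos (2 * Real.pi * s) := by
  unfold nl_e
  exact Complex.exp_ofReal_mul_I_re _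

private theorem nl_e_im (s : ℝ) : (nl_e s).im = Real.sin (2 * Real.pi * s) := by
  unfold nl_e
  exact Complex.exp_ofReal_mul_I_im _

private theorem nl_e_closed : Closed1 nl_e := by
  refine ⟨?_, fun s => ?_⟩
  · unfold nl_e
    fun_prop
  · unfold nl_e
    have h1 : ((2 * Real.pi * (s + 1) : ℝ) : ℂ) * Complex.I =
        ((2 * Real.pi * s : ℝ) : ℂ) * Complex.I + 2 * Real.pi * Complex.I := by
      push_cast
      ring
    rw [h1, Complex.exp_add, Complex.exp_two_pi_mul_I, mul_one]

private theorem nl_circle {ρ : ℝ} (hρ : 0 < ρ) : ¬ PLog (fun s => ρ * nl_e s) := by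
  rintro ⟨L, h1, h2, h3⟩
  have hπ := Real.pi_pos
  -- the imaginary part of `L - 2 π s i` divided by `2 π` is an integer plus a constant
  obtain ⟨f, hf⟩ : ∃ f : ℝ → ℝ, ∀ s, f s = ((L s).im - 2 * Real.pi * s) / (2 * Real.pi) :=
    ⟨_, fun _ => rfl⟩
  have hint : ∀ s, ∃ n : ℤ, f s = n := by
    intro s
    have h4 : Complex.exp (L s - (2 * Real.pi * s : ℝ) * Complex.I) = Complex.exp (Real.log ρ) := by
      rw [Complex.exp_sub, h3, ← Complex.ofReal_exp, Real.exp_log hρ]
      exact mul_div_cancel_right₀ _ (Complex.exp_ne_zero _)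
    obtain ⟨n, hn⟩ := Complex.exp_eq_exp_iff_exists_int.1 h4
    refine ⟨n, ?_⟩
    have h5 := congrArg Complex.im hn
    have h6 : (L s - (2 * Real.pi * s : ℝ) * Complex.I).im = (L s).im - 2 * Real.pi * s := by
      rw [Complex.sub_im, Complex.im_ofReal_mul, Complex.I_im, mul_one]
    have h7 : ((Real.log ρ : ℂ) + n * (2 * Real.pi * Complex.I)).im = n * (2 * Real.pi) := by
      have h8 : (n : ℂ) * (2 * Real.pi * Complex.I) = ((n * (2 * Real.pi) : ℝ) : ℂ) * Complex.I := by
        push_cast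
        ring
      rw [h8, Complex.add_im, Complex.ofReal_im, Complex.im_ofReal_mul, Complex.I_im]
      ring
    rw [h6, h7] at h5
    rw [hf, h5, mul_div_assoc, div_self (by positivity), mul_one]
  have hcont : Continuous f := by
    have h4 : f = fun s => ((L s).im - 2 * Real.pi * s) / (2 * Real.pi) := funext hf
    rw [h4]
    exact ((Complex.continuous_im.comp h1).sub (by fun_prop)).div_const _
  have h01 : f 1 = f 0 - 1 := by
    have h4 := h2 0
    rw [zero_add] at h4
    rw [hf, hf, h4]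
    field_simp
    ring
  obtain ⟨n, hn⟩ := hint 0
  have h5 : f 0 - 1 / 2 ∈ Icc (f 1) (f 0) := by
    rw [h01]
    constructor <;> linarith
  obtain ⟨s, _, hs⟩ := intermediate_value_Icc' (zero_le_one) hcont.continuousOn h5
  obtain ⟨k, hk⟩ := hint s
  rw [hk, hn] at hs
  have h6 : ((2 * k : ℤ) : ℝ) = ((2 * n - 1 : ℤ) : ℝ) := by
    push_cast
    linarith
  have h7 : 2 * k = 2 * n - 1 := by exact_mod_cast h6
  omega

theorem no_plog_circ {z l : ℂ} {ρ : ℝ} (h : dist l z < ρ) : ¬ PLog (fun s => circ z ρ s - l) := by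
  intro hl
  have hρ : 0 < ρ := lt_of_le_of_lt dist_nonneg h
  have hcl : Closed1 (circ z ρ) := by
    refine ⟨?_, fun s => ?_⟩
    · show Continuous fun s => z + ρ * nl_e s
      exact continuous_const.add (continuous_const.mul nl_e_closed.cont)
    · show z + ρ * nl_e (s + 1) = z + ρ * nl_e s
      rw [nl_e_closed.per]
  have h1 : ∀ s, circ z ρ s - z = ρ * nl_e s := by
    intro s
    show z + ρ * nl_e s - z = ρ * nl_e s
    ring
  have h2 : PLog fun s => circ z ρ s - z := by
    refine nl_base hcl (fun s => ?_) hl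
    have h3 : dist (circ z ρ s) z = ρ := by
      rw [dist_eq_norm, h1, norm_mul]
      have h4 : ‖nl_e s‖ = 1 := Complex.norm_exp_ofReal_mul_I _
      rw [h4, mul_one, Complex.norm_real, Real.norm_of_nonneg hρ.le]
    rw [h3]
    exact h
  exact nl_circle hρ (by simpa only [h1] using h2)

theorem no_plog_quad {c : ℝ → ℂ} (hc : Closed1 c) (h0 : ∀ s, c s ≠ 0)
    (q1 : ∀ s ∈ Icc (0 : ℝ) (1 / 4), 0 ≤ (c s).re ∧ 0 ≤ (c s).im)
    (q2 : ∀ s ∈ Icc (1 / 4 : ℝ) (1 / 2), (c s).re ≤ 0 ∧ 0 ≤ (c s).im)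
    (q3 : ∀ s ∈ Icc (1 / 2 : ℝ) (3 / 4), (c s).re ≤ 0 ∧ (c s).im ≤ 0)
    (q4 : ∀ s ∈ Icc (3 / 4 : ℝ) 1, 0 ≤ (c s).re ∧ (c s).im ≤ 0) : ¬ PLog c := by
  intro hl
  have hπ := Real.pi_pos
  have hne : ∀ s, nl_e s ≠ 0 := fun s => Complex.exp_ne_zero _
  have hdiv : ∀ s, c s / nl_e s = c s * (starRingEnd ℂ) (nl_e s) := by
    intro s
    have h1 : nl_e s * (starRingEnd ℂ) (nl_e s) = 1 := by
      rw [Complex.mul_conj, Complex.normSq_eq_norm_sq]
      have h2 : ‖nl_e s‖ = 1 := Complex.norm_exp_ofReal_mul_I _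
      rw [h2]
      norm_num
    rw [div_eq_iff (hne s), mul_assoc, mul_comm ((starRingEnd ℂ) (nl_e s)), h1, mul_one]
  have hre : ∀ s, (c s / nl_e s).re =
      (c s).re * Real.cos (2 * Real.pi * s) + (c s).im * Real.sin (2 * Real.pi * s) := by
    intro s
    rw [hdiv, Complex.mul_re, Complex.conj_re, Complex.conj_im, nl_e_re, nl_e_im]
    ring
  have hmain : ∀ s, 0 ≤ (c s / nl_e s).re := by
    intro s
    have hper : Function.Periodic (fun s => (c s / nl_e s).re) 1 := by
      intro s
      show (c (s + 1) / nl_e (s + 1)).re = (c s / nl_e s).re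
      rw [hc.per, nl_e_closed.per]
    obtain ⟨t, ⟨ht0, ht1⟩, ht⟩ := hper.exists_mem_Ico₀ one_pos s
    have ht' : (c s / nl_e s).re = (c t / nl_e t).re := ht
    rw [ht', hre]
    rcases le_total t (1 / 2) with h2 | h2
    · rcases le_total t (1 / 4) with h3 | h3
      · obtain ⟨a, b⟩ := q1 t ⟨ht0, h3⟩
        have h4 : 0 ≤ Real.cos (2 * Real.pi * t) :=
          Real.cos_nonneg_of_neg_pi_div_two_le_of_le (by nlinarith) (by nlinarith)
        have h5 : 0 ≤ Real.sin (2 * Real.pi * t) :=
          Real.sin_nonneg_of_nonneg_of_le_pi (by positivity) (by nlinarith)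
        positivity
      · obtain ⟨a, b⟩ := q2 t ⟨h3, h2⟩
        have h4 : Real.cos (2 * Real.pi * t) ≤ 0 :=
          Real.cos_nonpos_of_pi_div_two_le_of_le (by nlinarith) (by nlinarith)
        have h5 : 0 ≤ Real.sin (2 * Real.pi * t) :=
          Real.sin_nonneg_of_nonneg_of_le_pi (by positivity) (by nlinarith)
        nlinarith [mul_nonneg_of_nonpos_of_nonpos a h4, mul_nonneg b h5]
    · have hsin : Real.sin (2 * Real.pi * t) ≤ 0 := by
        have h4 : Real.sin (2 * Real.pi * t - Real.pi) = -Real.sin (2 * Real.pi * t) :=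
          Real.sin_sub_pi _
        have h5 : 0 ≤ Real.sin (2 * Real.pi * t - Real.pi) :=
          Real.sin_nonneg_of_nonneg_of_le_pi (by nlinarith) (by nlinarith)
        linarith
      have hcos : Real.cos (2 * Real.pi * t - Real.pi) = -Real.cos (2 * Real.pi * t) :=
        Real.cos_sub_pi _
      rcases le_total t (3 / 4) with h3 | h3
      · obtain ⟨a, b⟩ := q3 t ⟨h2, h3⟩
        have h5 : 0 ≤ Real.cos (2 * Real.pi * t - Real.pi) :=
          Real.cos_nonneg_of_neg_pi_div_two_le_of_le (by nlinarith) (by nlinarith)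
        have h6 : Real.cos (2 * Real.pi * t) ≤ 0 := by linarith
        nlinarith [mul_nonneg_of_nonpos_of_nonpos a h6, mul_nonneg_of_nonpos_of_nonpos b hsin]
      · obtain ⟨a, b⟩ := q4 t ⟨h3, ht1.le⟩
        have h5 : Real.cos (2 * Real.pi * t - Real.pi) ≤ 0 :=
          Real.cos_nonpos_of_pi_div_two_le_of_le (by nlinarith) (by nlinarith)
        have h6 : 0 ≤ Real.cos (2 * Real.pi * t) := by linarith
        nlinarith [mul_nonneg a h6, mul_nonneg_of_nonpos_of_nonpos b hsin]
  have h1 : PLog nl_e := by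
    refine nl_ratio hc nl_e_closed hne (fun s => ?_) hl
    rw [Complex.mem_slitPlane_iff]
    rcases (hmain s).lt_or_eq with h2 | h2
    · exact Or.inl h2
    · right
      intro h3
      have h4 : c s / nl_e s = 0 := Complex.ext h2.symm h3
      rcases div_eq_zero_iff.1 h4 with h5 | h5
      · exact h0 s h5
      · exact hne s h5
  refine nl_circle one_pos ?_
  have h2 : (fun s => ((1 : ℝ) : ℂ) * nl_e s) = nl_e := by
    funext s
    rw [Complex.ofReal_one, one_mul]
  rw [h2]
  exact h1

/-- moving the base point inside the curve -/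
theorem plog_base {c : ℝ → ℂ} (hc : Closed1 c) {r l : ℂ} (h : ∀ s, dist l r < dist (c s) r)
    (hl : PLog fun s => c s - l) : PLog fun s => c s - r := nl_base hc h hl

end Pool.Agent.HE
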