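import Pool.Agent.HE.Germ
import Pool.Agent.HE.Gap
import Pool.Agent.HE.GapFin
import Pool.Agent.HE.NoLog
import Pool.Agent.HE.CircG

set_option autoImplicit false

/-!
HE-GCut. Gaps of closed curves as crosscuts; germs cut off by gaps of circles.

A gap of a closed curve is a crosscut of the closure of the branch. If the point `γ t` is inside a
circle around a point of the limit set which leaves `γ 0` outside, its left germ is cut off by a
gap of the circle; and for every closed curve off `γ t` only finitely many gaps cut off the germ.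
-/

namespace Pool.Agent.HE

open Set Topology Filter

variable {F : ℂ ≃ₜ ℂ} {γ : ℝ → ℂ} {lam : ℝ} {ell : ℝ → ℝ → ℂ}

private theorem gcut_ends (C : Ctx F γ lam ell) {c : ℝ → ℂ} (hc : Closed1 c) {κ : Set ℂ}
    (h : IsGap c (XX γ) κ) : ∃ e1 e2 : ℂ, ∀ t, 0 < t → γ t ∈ closure κ → γ t = e1 ∨ γ t = e2 := by
  obtain ⟨e1, e2, -, -, h1, -, -⟩ := gap_ends hc h
  refine ⟨e1, e2, fun t ht hk => ?_⟩
  have h2 := h1 ⟨hk, mem_xx C ht.le⟩
  rwa [mem_insert_iff, mem_singleton_iff] at h2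

theorem gap_cut (C : Ctx F γ lam ell) {c : ℝ → ℂ} (hc : Closed1 c) {κ : Set ℂ}
    (h : IsGap c (XX γ) κ) : Cut γ κ := by
  obtain ⟨e1, e2, he⟩ := gcut_ends C hc h
  refine ⟨gap_pre hc h, gap_disj h, gap_closed isClosed_closure hc h, ?_⟩
  have h1 : ({e1, e2} : Set ℂ).Finite := (finite_singleton e2).insert e1
  refine (h1.preimage C.inj.injOn).subset ?_
  rintro t ⟨ht, hk⟩
  change γ t ∈ ({e1, e2} : Set ℂ)
  rw [mem_insert_iff, mem_singleton_iff]
  exact he t ht hk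

theorem gap_card (C : Ctx F γ lam ell) {c : ℝ → ℂ} (hc : Closed1 c) {κ : Set ℂ}
    (h : IsGap c (XX γ) κ) {t1 t2 t3 : ℝ} (h1 : 0 < t1) (h12 : t1 < t2) (h23 : t2 < t3)
    (m1 : γ t1 ∈ closure κ) (m2 : γ t2 ∈ closure κ) (m3 : γ t3 ∈ closure κ) : False := by
  obtain ⟨e1, e2, he⟩ := gcut_ends C hc h
  have a1 := he t1 h1 m1
  have a2 := he t2 (h1.trans h12) m2
  have a3 := he t3 ((h1.trans h12).trans h23) m3
  have n12 : γ t1 ≠ γ t2 := fun h => h12.ne (C.inj h)
  have n23 : γ t2 ≠ γ t3 := fun h => h23.ne (C.inj h)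
  have n13 : γ t1 ≠ γ t3 := fun h => (h12.trans h23).ne (C.inj h)
  rcases a1 with a1 | a1 <;> rcases a2 with a2 | a2 <;> rcases a3 with a3 | a3
  · exact n12 (a1.trans a2.symm)
  · exact n12 (a1.trans a2.symm)
  · exact n13 (a1.trans a3.symm)
  · exact n23 (a2.trans a3.symm)
  · exact n23 (a2.trans a3.symm)
  · exact n13 (a1.trans a3.symm)
  · exact n12 (a1.trans a2.symm)
  · exact n12 (a1.trans a2.symm)

/-- a short segment of the collar over `t` avoids `XX γ` and a closed set not containing `γ t` -/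
private theorem gcut_seg (C : Ctx F γ lam ell) {t : ℝ} (ht : 0 < t) {U : Set ℂ} (hU : IsOpen U)
    (htU : γ t ∈ U) : ∃ η : ℝ, 0 < η ∧ ∀ x, 0 < x → x ≤ η → ell t x ∉ XX γ ∧ ell t x ∈ U := by
  obtain ⟨δ, hδ, h1⟩ := C.g1 t ht
  have hcont : Continuous fun x : ℝ => ell t x :=
    C.ellc.comp (Continuous.prodMk continuous_const continuous_id)
  have h2 : (fun x : ℝ => ell t x) ⁻¹' U ∈ 𝓝 (0 : ℝ) := by
    refine (hU.preimage hcont).mem_nhds ?_
    change ell t 0 ∈ U
    rw [C.ell0]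
    exact htU
  obtain ⟨ε, hε, h3⟩ := Metric.mem_nhds_iff.1 h2
  have hm : 0 < min δ ε := lt_min hδ hε
  refine ⟨min δ ε / 2, by linarith, fun x hx hxη => ?_⟩
  have h4 := min_le_left δ ε
  have h5 := min_le_right δ ε
  refine ⟨h1 t x (by rw [sub_self, abs_zero]; exact hδ) hx (by linarith), ?_⟩
  apply h3
  rw [Metric.mem_ball, Real.dist_eq, sub_zero, abs_of_pos hx]
  linarith

theorem ex_gap (C : Ctx F γ lam ell) {t : ℝ} (ht : 0 < t) {z : ℂ} (hz : z ∈ AA γ) {ρ : ℝ}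
    (hin : dist (γ t) z < ρ) (hout : ρ < dist (γ 0) z) :
    ∃ κ D, IsGap (circ z ρ) (XX γ) κ ∧ IsCmp (XX γ ∪ κ) D ∧ Bornology.IsBounded D ∧
      LG ell D t := by
  have hρ : 0 < ρ := lt_of_le_of_lt dist_nonneg hin
  obtain ⟨η, hη, hseg⟩ := gcut_seg C ht (U := Metric.ball z ρ) Metric.isOpen_ball hin
  set l := ell t η with hl
  have hlX : l ∉ XX γ := (hseg η hη le_rfl).1
  have hlz : dist l z < ρ := (hseg η hη le_rfl).2
  have hrange : ∀ w ∈ range (circ z ρ), dist w z = ρ := by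
    rintro w ⟨s, rfl⟩
    exact dist_circ z hρ.le s
  have hlc : ∀ s, circ z ρ s ≠ l := by
    intro s hs
    have := dist_circ z hρ.le s
    rw [hs] at this
    linarith
  have hmeet : ∃ s, circ z ρ s ∈ XX γ := by
    have h1 : ρ ∈ (fun w => dist w z) '' XX γ := by
      refine (xx_conn C).isPreconnected.intermediate_value (aa_sub C hz) (mem_xx C le_rfl)
        (continuous_id.dist continuous_const).continuousOn ⟨?_, hout.le⟩
      rw [id, dist_self]
      exact hρ.le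
    obtain ⟨w, hw, hwz⟩ := h1
    obtain ⟨s, hs⟩ := circ_surj hwz
    exact ⟨s, by rw [hs]; exact hw⟩
  obtain ⟨κ, hκ, hlκ, hb⟩ := gap (xx_compact C) (xx_conn C) (xx_nonsep C) (circ_closed z ρ) hlX hlc
    hmeet (no_plog_circ hlz)
  obtain ⟨e1, e2, -, -, -, hcl, -⟩ := gap_ends (circ_closed z ρ) hκ
  refine ⟨κ, Cmp (XX γ ∪ κ) l, hκ, isCmp_cmp (fun h => h.elim hlX hlκ), hb, ?_⟩
  refine lg_seg C ht hη ?_ ?_
  · intro hk
    have := hrange _ (hcl hk)
    linarith
  · rintro x hx hxη (h | h)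
    · exact (hseg x hx hxη).1 h
    · have h1 := hrange _ (hcl (subset_closure h))
      have h2 : dist (ell t x) z < ρ := (hseg x hx hxη).2
      linarith

theorem fin_b (C : Ctx F γ lam ell) {t : ℝ} (ht : 0 < t) {c : ℝ → ℂ} (hc : Closed1 c)
    (htc : ∀ s, c s ≠ γ t) : {κ : Set ℂ | IsGap c (XX γ) κ ∧
      ∃ D, IsCmp (XX γ ∪ κ) D ∧ Bornology.IsBounded D ∧ LG ell D t}.Finite := by
  have hrc : IsCompact (range c) := by
    have h1 : range c = c '' Icc 0 1 := by
      refine Subset.antisymm ?_ (image_subset_range _ _)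
      rintro _ ⟨s, rfl⟩
      refine ⟨Int.fract s, ⟨Int.fract_nonneg s, (Int.fract_lt_one s).le⟩, ?_⟩
      have h2 : Function.Periodic c 1 := hc.per
      have h3 := (h2.int_mul ⌊s⌋).sub_eq s
      rw [mul_one] at h3
      exact h3
    rw [h1]
    exact isCompact_Icc.image hc.cont
  obtain ⟨η, hη, hseg⟩ := gcut_seg C ht (U := (range c)ᶜ) hrc.isClosed.isOpen_compl (by
    rintro ⟨s, hs⟩
    exact htc s hs)
  set l := ell t η with hl
  have hlX : l ∉ XX γ := (hseg η hη le_rfl).1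
  obtain ⟨R0, hR0⟩ := ((xx_compact C).union hrc).isBounded.exists_norm_le
  set R := max R0 0 with hR
  have hR1 : ∀ w ∈ XX γ ∪ range c, ‖w‖ ≤ R := fun w hw => (hR0 w hw).trans (le_max_left _ _)
  obtain ⟨P, hP, hPp, hPd, hlP, z, hzP, hzR⟩ := exists_path (xx_compact C) (xx_nonsep C) hlX R
  refine (gap_fin isClosed_closure hP hPd hc).subset ?_
  rintro κ ⟨hκ, D, hD, hDb, hDt⟩
  refine ⟨hκ, ?_⟩
  by_contra hne
  rw [not_nonempty_iff_eq_empty] at hne
  have hcl : closure κ ⊆ range c := by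
    obtain ⟨e1, e2, -, -, -, hcl, -⟩ := gap_ends hc hκ
    exact hcl
  have hPκ : Disjoint P (XX γ ∪ κ) := by
    rw [disjoint_union_right]
    refine ⟨hPd, ?_⟩
    rw [disjoint_left]
    intro w hw hwκ
    have : w ∈ κ ∩ P := ⟨hwκ, hw⟩
    rw [hne] at this
    exact this
  have hlY : l ∉ XX γ ∪ κ := fun h => disjoint_left.1 hPκ hlP h
  have hzC : z ∈ Cmp (XX γ ∪ κ) l := sub_cmp hPp hPκ ⟨l, hlP, mem_cmp hlY⟩ hzP
  have hY : ∀ w ∈ XX γ ∪ κ, ‖w‖ ≤ R := by
    rintro w (hw | hw)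
    · exact hR1 w (Or.inl hw)
    · exact hR1 w (Or.inr (hcl (subset_closure hw)))
  have hunb := unb_of_far (le_max_right R0 0) hY hzC hzR
  have hk : γ t ∉ closure κ := by
    intro hk
    obtain ⟨s, hs⟩ := hcl hk
    exact htc s hs
  have hLG := lg_seg C ht hη hk (fun x hx hxη h => by
    rcases h with h | h
    · exact (hseg x hx hxη).1 h
    · exact (hseg x hx hxη).2 (hcl (subset_closure h)))
  have hint := hDt.inter hLG
  have heq := hD.eq_of_inter (isCmp_cmp hlY) hint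
  rw [heq] at hDb
  exact hunb hDb

end Pool.Agent.HE
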