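import Pool.Agent.HE.Bas

set_option autoImplicit false

/-!
HE-Nest. Bounded components cut off by two disjoint crosscuts are nested if they meet, and a bounded
component cut off by a crosscut has a frontier point on it.
-/

namespace Pool.Agent.HE

open Set Topology Filter

theorem nest {X κ κ' D D' : Set ℂ} (hX : NonSep X) (hκ : IsPreconnected κ)
    (hκ' : IsPreconnected κ') (d1 : Disjoint κ X) (d2 : Disjoint κ' X) (c1 : IsClosed (X ∪ κ))
    (c2 : IsClosed (X ∪ κ')) (hD : IsCmp (X ∪ κ) D) (hD' : IsCmp (X ∪ κ') D')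
    (b1 : Bornology.IsBounded D) (b2 : Bornology.IsBounded D') (hd : Disjoint κ κ')
    (hm : (D ∩ D').Nonempty) : D ⊆ D' ∨ D' ⊆ D := by
  have eD := disjoint_union_right.1 hD.disj
  have eD' := disjoint_union_right.1 hD'.disj
  by_cases h1 : Disjoint κ' D
  · left
    exact hD'.sub hD.pre (disjoint_union_right.2 ⟨eD.1, h1.symm⟩) hm
  by_cases h2 : Disjoint κ D'
  · right
    refine hD.sub hD'.pre (disjoint_union_right.2 ⟨eD'.1, h2.symm⟩) ?_
    rw [inter_comm]
    exact hm
  exfalso
  rw [not_disjoint_iff_nonempty_inter] at h1 h2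
  have k1 : κ' ⊆ D := hD.sub hκ' (disjoint_union_right.2 ⟨d2, hd.symm⟩) h1
  have k2 : κ ⊆ D' := hD'.sub hκ (disjoint_union_right.2 ⟨d1, hd⟩) h2
  have o1 : IsOpen D := hD.isOpen c1
  have o2 : IsOpen D' := hD'.isOpen c2
  have oU : IsOpen (D ∪ D') := o1.union o2
  refine hX.no_open oU ?_ (b1.union b2) ?_
  · intro hs
    obtain ⟨x, hx⟩ := hD.nonempty
    exact disjoint_left.1 eD.1 hx (hs (Or.inl hx))
  · intro x hx
    have hxU : x ∉ D ∪ D' := by
      have := hx.2
      rwa [oU.interior_eq] at this
    have hxD : x ∉ D := fun h => hxU (Or.inl h)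
    have hxD' : x ∉ D' := fun h => hxU (Or.inr h)
    have hc : x ∈ closure D ∪ closure D' := by
      rw [← closure_union]
      exact hx.1
    rcases hc with hc | hc
    · have hf : x ∈ frontier D := ⟨hc, by rwa [o1.interior_eq]⟩
      rcases hD.frontier c1 hf with h | h
      · exact h
      · exact absurd (k2 h) hxD'
    · have hf : x ∈ frontier D' := ⟨hc, by rwa [o2.interior_eq]⟩
      rcases hD'.frontier c2 hf with h | h
      · exact h
      · exact absurd (k1 h) hxD

/-- a bounded component cut off by `κ` has a frontier point on `κ` -/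
theorem frontier_meets {X κ D : Set ℂ} (hX : NonSep X) (c1 : IsClosed (X ∪ κ))
    (hD : IsCmp (X ∪ κ) D) (b1 : Bornology.IsBounded D) : (frontier D ∩ κ).Nonempty := by
  by_contra hne
  rw [not_nonempty_iff_eq_empty] at hne
  have eD := disjoint_union_right.1 hD.disj
  refine hX.no_open (hD.isOpen c1) ?_ b1 ?_
  · intro hs
    obtain ⟨x, hx⟩ := hD.nonempty
    exact disjoint_left.1 eD.1 hx (hs hx)
  · intro x hx
    rcases hD.frontier c1 hx with h | h
    · exact h
    · exfalso
      have : x ∈ frontier D ∩ κ := ⟨hx, h⟩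
      rw [hne] at this
      exact this

end Pool.Agent.HE
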