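import Pool.Agent.HE.Germ
import Pool.Agent.HE.Nest

set_option autoImplicit false

/-!
HE-Inter. Interleaving pockets intersect: if the crosscuts of two pockets over interleaving parameter
intervals were disjoint, the two bounded components would be nested, but the left germs near the ends
of the intervals lie in one of them and in the complement of the other.
-/

namespace Pool.Agent.HE

open Set Topology Filter

variable {F : ℂ ≃ₜ ℂ} {γ : ℝ → ℂ} {lam : ℝ} {ell : ℝ → ℝ → ℂ}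

private theorem exists_free {κ κ' : Set ℂ} (h : {t : ℝ | 0 < t ∧ γ t ∈ closure κ}.Finite)
    (h' : {t : ℝ | 0 < t ∧ γ t ∈ closure κ'}.Finite) {u v : ℝ} (hu : 0 < u) (huv : u < v) :
    ∃ t ∈ Ioo u v, γ t ∉ closure κ ∧ γ t ∉ closure κ' := by
  obtain ⟨t, ht, hn⟩ := ((Ioo_infinite huv).sdiff (h.union h')).nonempty
  have ht0 : 0 < t := hu.trans ht.1
  exact ⟨t, ht, fun hk => hn (Or.inl ⟨ht0, hk⟩), fun hk => hn (Or.inr ⟨ht0, hk⟩)⟩

theorem pockets_inter (C : Ctx F γ lam ell) {κ D κ' D' : Set ℂ} {a b a' b' : ℝ}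
    (P : Pocket γ ell κ D a b) (P' : Pocket γ ell κ' D' a' b') (h1 : a < a') (h2 : a' < b)
    (h3 : b < b') : (κ ∩ κ').Nonempty := by
  by_contra hne
  have hd : Disjoint κ κ' := disjoint_iff_inter_eq_empty.2 (not_nonempty_iff_eq_empty.1 hne)
  have hm : (D ∩ D').Nonempty := by
    obtain ⟨t, ht, k1, k2⟩ := exists_free P.cut.fin P'.cut.fin P'.pos h2
    exact LG.inter (P.inside t ⟨h1.trans ht.1, ht.2⟩ k1) (P'.inside t ⟨ht.1, ht.2.trans h3⟩ k2)
  rcases nest (xx_nonsep C) P.cut.pre P'.cut.pre P.cut.disj P'.cut.disj P.cut.closed P'.cut.closed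
    P.cmp P'.cmp P.bdd P'.bdd hd hm with hs | hs
  · obtain ⟨a1, ha0, ha1, hb⟩ := P'.before
    obtain ⟨t, ht, k1, -⟩ := exists_free P.cut.fin P'.cut.fin (u := max a a1)
      (lt_max_of_lt_left P.pos) (max_lt h1 ha1)
    have e1 : LG ell D t :=
      P.inside t ⟨(le_max_left _ _).trans_lt ht.1, ht.2.trans h2⟩ k1
    have e2 : LG ell D'ᶜ t := hb t ⟨(le_max_right _ _).trans_lt ht.1, ht.2⟩
    obtain ⟨x, hx1, hx2⟩ := LG.inter e1 e2
    exact hx2 (hs hx1)
  · obtain ⟨b1, hb1, hb⟩ := P.after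
    obtain ⟨t, ht, -, k2⟩ := exists_free P.cut.fin P'.cut.fin (v := min b' b1)
      (P.pos.trans P.lt) (lt_min h3 hb1)
    have e1 : LG ell D' t :=
      P'.inside t ⟨h2.trans ht.1, ht.2.trans_le (min_le_left _ _)⟩ k2
    have e2 : LG ell Dᶜ t := hb t ⟨ht.1, ht.2.trans_le (min_le_right _ _)⟩
    obtain ⟨x, hx1, hx2⟩ := LG.inter e1 e2
    exact hx2 (hs hx1)

end Pool.Agent.HE
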