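import Pool.Agent.HE.Dicho
import Pool.Agent.HE.Inter
import Pool.Agent.HE.GCut
import Pool.Agent.HE.FinA

set_option autoImplicit false

/-!
HE-Cover. Good gaps of arbitrarily small circles exist.

Otherwise every large parameter lies in a pocket of a gap of one of finitely many small circles covering the limit
set; a pocket around a large parameter with maximal right end `b` and a pocket around `b` contradict the finiteness
statements `fin_a`, `fin_b` and `gap_card`.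
-/

namespace Pool.Agent.HE

open Set Topology Filter

variable {F : ℂ ≃ₜ ℂ} {γ : ℝ → ℂ} {lam : ℝ} {ell : ℝ → ℝ → ℂ}

theorem cover (C : Ctx F γ lam ell) {δ : ℝ} (hδ : 0 < δ) :
    ∃ z ∈ AA γ, ∃ ρ, 0 < ρ ∧ ρ < δ ∧ ∃ κ D t0, IsGap (circ z ρ) (XX γ) κ ∧
      Good γ ell κ D t0 := by
  classical
  by_contra hno
  obtain ⟨δ0, hδ0, hsmall⟩ := small C
  obtain ⟨δ1, hδ1, hdist⟩ := aa_dist C 0
  obtain ⟨ρ, hρ0, hρδ, hρδ0, hρδ1⟩ : ∃ ρ : ℝ, 0 < ρ ∧ ρ < δ ∧ ρ < δ0 ∧ ρ < δ1 := by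
    refine ⟨min (δ / 2) (min (δ0 / 2) (δ1 / 2)), lt_min (by linarith) (lt_min (by linarith)
      (by linarith)), ?_, ?_, ?_⟩
    · exact (min_le_left _ _).trans_lt (by linarith)
    · exact ((min_le_right _ _).trans (min_le_left _ _)).trans_lt (by linarith)
    · exact ((min_le_right _ _).trans (min_le_right _ _)).trans_lt (by linarith)
  -- a finite cover
  obtain ⟨Z, hZ, hcov⟩ := (aa_compact C).elim_nhds_subcover (fun z => Metric.ball z (ρ / 2))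
    (fun z _ => Metric.ball_mem_nhds z (by linarith))
  obtain ⟨T0, hT0⟩ := aa_near C (ε := ρ / 2) (by linarith)
  have hin : ∀ t, T0 ≤ t → ∃ z ∈ Z, dist (γ t) z < ρ := by
    intro t ht
    obtain ⟨w, hw, hwt⟩ := hT0 t ht
    obtain ⟨z, hz, hwz⟩ := mem_iUnion₂.1 (hcov hw)
    refine ⟨z, hz, ?_⟩
    have h1 := dist_triangle (γ t) w z
    have h2 : dist w z < ρ / 2 := hwz
    linarith
  have hon : ∀ z κ, IsGap (circ z ρ) (XX γ) κ → ∀ w ∈ κ, dist w z = ρ := by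
    rintro z κ ⟨s1, s2, -, -, -, -, -, rfl⟩ w ⟨s, -, rfl⟩
    exact dist_circ z hρ0.le s
  -- every large parameter is in a pocket
  have hA : ∀ t, max T0 1 ≤ t → ∃ z ∈ Z, ∃ κ D a b, IsGap (circ z ρ) (XX γ) κ ∧
      Pocket γ ell κ D a b ∧ a < t ∧ t < b := by
    intro t ht
    have ht0 : 0 < t := lt_of_lt_of_le one_pos ((le_max_right _ _).trans ht)
    obtain ⟨z, hz, hzt⟩ := hin t ((le_max_left _ _).trans ht)
    have hzA : z ∈ AA γ := hZ z hz
    have hout : ρ < dist (γ 0) z := hρδ1.trans_le (hdist 0 le_rfl le_rfl z hzA)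
    obtain ⟨κ, D, hgap, hD, hb, hLG⟩ := ex_gap C ht0 hzA hzt hout
    have hcut : Cut γ κ := gap_cut C (circ_closed z ρ) hgap
    have h1 : ∀ s, 0 < s → s ≤ 1 → LG ell Dᶜ s :=
      hsmall κ hcut (fun w hw => ⟨z, hzA, by rw [hon z κ hgap w hw]; exact hρδ0⟩) D hD hb
    rcases dicho C hcut hD hb ht0 hLG h1 with ⟨t0, hgood⟩ | ⟨a, b, hat, htb, hp⟩
    · exact (hno ⟨z, hzA, ρ, hρ0, hρδ, κ, D, t0, hgap, hgood⟩).elim
    · exact ⟨z, hz, κ, D, a, b, hgap, hp, hat, htb⟩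
  -- gaps meeting other gaps
  have hfa := fin_a (Z.image fun z => (z, ρ)) (by
    intro x hx
    obtain ⟨z, -, rfl⟩ := Finset.mem_image.1 hx
    exact hρ0) (XX γ)
  have hfin1 : (⋃ κ ∈ {κ : Set ℂ | ∃ x ∈ Z.image fun z => (z, ρ), IsGap (circ x.1 x.2) (XX γ) κ ∧
      ∃ y ∈ Z.image fun z => (z, ρ), ∃ κ', IsGap (circ y.1 y.2) (XX γ) κ' ∧ κ ≠ κ' ∧
        (κ ∩ κ').Nonempty}, {t : ℝ | 0 < t ∧ γ t ∈ closure κ}).Finite := by
    refine hfa.biUnion fun κ hκ => ?_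
    obtain ⟨x, -, hgap, -⟩ := hκ
    exact (gap_cut C (circ_closed x.1 x.2) hgap).fin
  obtain ⟨T', hT'⟩ := hfin1.bddAbove
  -- a large parameter off the circles
  have hcount : (⋃ z ∈ (Z : Set ℂ), {t : ℝ | dist (γ t) z = ρ}).Countable :=
    Z.countable_toSet.biUnion fun z hz => C.circ z (hZ z hz) ρ hρ0
  obtain ⟨t1, ht1c, ht1⟩ := (hcount.dense_compl ℝ).exists_mem_open
    (isOpen_Ioi (a := max (max T0 1) T')) ⟨max (max T0 1) T' + 1, mem_Ioi.2 (lt_add_one _)⟩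
  have ht1T : max T0 1 ≤ t1 := (le_max_left _ _).trans (le_of_lt ht1)
  have ht1T' : T' < t1 := (le_max_right _ _).trans_lt ht1
  have ht10 : 0 < t1 := lt_of_lt_of_le one_pos ((le_max_right _ _).trans ht1T)
  have hoff : ∀ z ∈ Z, ∀ s, circ z ρ s ≠ γ t1 := by
    intro z hz s hs
    apply ht1c
    refine mem_iUnion₂.2 ⟨z, hz, ?_⟩
    show dist (γ t1) z = ρ
    rw [← hs]
    exact dist_circ z hρ0.le s
  -- the right ends of the pockets around this parameter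
  have hfinP : {b : ℝ | ∃ z ∈ Z, ∃ κ D a, IsGap (circ z ρ) (XX γ) κ ∧ Pocket γ ell κ D a b ∧
      a < t1 ∧ t1 < b}.Finite := by
    have hfin2 : (⋃ z ∈ (Z : Set ℂ), ⋃ κ ∈ {κ : Set ℂ | z ∈ Z ∧ IsGap (circ z ρ) (XX γ) κ ∧
        ∃ D, IsCmp (XX γ ∪ κ) D ∧ Bornology.IsBounded D ∧ LG ell D t1},
          {t : ℝ | 0 < t ∧ γ t ∈ closure κ}).Finite := by
      refine Z.finite_toSet.biUnion fun z hz => ?_
      refine Set.Finite.biUnion ((fin_b C ht10 (circ_closed z ρ) (hoff z hz)).subset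
        fun κ hκ => hκ.2) fun κ hκ => ?_
      exact (gap_cut C (circ_closed z ρ) hκ.2.1).fin
    refine hfin2.subset ?_
    rintro b ⟨z, hz, κ, D, a, hgap, hp, hat, htb⟩
    refine mem_iUnion₂.2 ⟨z, hz, mem_iUnion₂.2 ⟨κ, ⟨hz, hgap, D, hp.cmp, hp.bdd, ?_⟩,
      ht10.trans htb, hp.memb⟩⟩
    apply hp.inside t1 ⟨hat, htb⟩
    intro hcl
    obtain ⟨e1, e2, -, -, -, hr, -⟩ := gap_ends (circ_closed z ρ) hgap
    obtain ⟨s, hs⟩ := hr hcl
    exact hoff z hz s hs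
  have hneP : {b : ℝ | ∃ z ∈ Z, ∃ κ D a, IsGap (circ z ρ) (XX γ) κ ∧ Pocket γ ell κ D a b ∧
      a < t1 ∧ t1 < b}.Nonempty := by
    obtain ⟨z, hz, κ, D, a, b, hgap, hp, hat, htb⟩ := hA t1 ht1T
    exact ⟨b, z, hz, κ, D, a, hgap, hp, hat, htb⟩
  obtain ⟨b, ⟨z, hz, k, D, a, hgap, hp, hat, htb⟩, hmax⟩ :=
    Set.exists_max_image _ (fun b : ℝ => b) hfinP hneP
  obtain ⟨z', hz', k', D', a', b', hgap', hp', hab', hbb'⟩ := hA b (ht1T.trans htb.le)
  have hta' : t1 ≤ a' := by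
    by_contra hlt
    have h1 := hmax b' ⟨z', hz', k', D', a', hgap', hp', not_le.1 hlt, htb.trans hbb'⟩
    exact absurd hbb' (not_lt.2 h1)
  have haa' : a < a' := hat.trans_le hta'
  have hinter := pockets_inter C hp hp' haa' hab' hbb'
  by_cases hkk : k = k'
  · refine gap_card C (circ_closed z ρ) hgap hp.pos haa' hab' hp.mema ?_ hp.memb
    rw [hkk]
    exact hp'.mema
  · have h1 : b ≤ T' := by
      apply hT'
      refine mem_iUnion₂.2 ⟨k, ⟨(z, ρ), Finset.mem_image.2 ⟨z, hz, rfl⟩, hgap, (z', ρ),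
        Finset.mem_image.2 ⟨z', hz', rfl⟩, k', hgap', hkk, hinter⟩, ht10.trans htb, hp.memb⟩
    exact absurd (ht1T'.trans htb) (not_lt.2 h1)

end Pool.Agent.HE
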