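import Pool.Agent.HE.Bas

set_option autoImplicit false

/-!
HE-Unb. Bounded and unbounded components of the complement of a bounded set: the set of the far
points is connected (image of a convex set under the exponential function), so it is contained in
the unique unbounded component.
-/

namespace Pool.Agent.HE

open Set Topology Filter

private lemma unb_far_pre {R : ℝ} (hR : 0 ≤ R) : IsPreconnected {z : ℂ | R < ‖z‖} := by
  have h1 : Convex ℝ {w : ℂ | R < Real.exp w.re} := by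
    have h2 : Set.OrdConnected {x : ℝ | R < Real.exp x} :=
      ⟨fun x hx y hy z hz => lt_of_lt_of_le hx (Real.exp_le_exp.2 hz.1)⟩
    exact h2.convex.is_linear_preimage Complex.reLm.isLinear
  have h3 : {z : ℂ | R < ‖z‖} = Complex.exp '' {w : ℂ | R < Real.exp w.re} := by
    ext z
    constructor
    · intro hz
      have hz' : R < ‖z‖ := hz
      have hz0 : z ≠ 0 := by
        intro h
        rw [h, norm_zero] at hz'
        linarith
      refine ⟨Complex.log z, ?_, Complex.exp_log hz0⟩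
      change R < Real.exp (Complex.log z).re
      rw [Complex.log_re, Real.exp_log (norm_pos_iff.2 hz0)]
      exact hz
    · rintro ⟨w, hw, rfl⟩
      change R < ‖Complex.exp w‖
      rw [Complex.norm_exp]
      exact hw
  rw [h3]
  exact h1.isPreconnected.image _ Complex.continuous_exp.continuousOn

private lemma unb_far_disj {Y : Set ℂ} {R : ℝ} (hY : ∀ z ∈ Y, ‖z‖ ≤ R) :
    Disjoint {z : ℂ | R < ‖z‖} Y :=
  disjoint_left.2 fun z hz hzY => absurd (hY z hzY) (not_le.2 hz)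

private lemma unb_far_unb (R : ℝ) : ¬ Bornology.IsBounded {z : ℂ | R < ‖z‖} := by
  intro hb
  obtain ⟨C, hC⟩ := hb.exists_norm_le
  have h1 : ‖((|R| + |C| + 1 : ℝ) : ℂ)‖ = |R| + |C| + 1 := by
    rw [Complex.norm_real, Real.norm_of_nonneg (by positivity)]
  have h2 : ((|R| + |C| + 1 : ℝ) : ℂ) ∈ {z : ℂ | R < ‖z‖} := by
    change R < ‖((|R| + |C| + 1 : ℝ) : ℂ)‖
    rw [h1]
    have := le_abs_self R
    have := abs_nonneg C
    linarith
  have h3 := hC _ h2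
  rw [h1] at h3
  have := le_abs_self C
  have := abs_nonneg R
  linarith

private lemma unb_far_sub {Y : Set ℂ} {R : ℝ} (hR : 0 ≤ R) (hY : ∀ z ∈ Y, ‖z‖ ≤ R) {a z : ℂ}
    (hz : z ∈ Cmp Y a) (hzR : R < ‖z‖) : {z : ℂ | R < ‖z‖} ⊆ Cmp Y a :=
  sub_cmp (unb_far_pre hR) (unb_far_disj hY) ⟨z, hzR, hz⟩

private lemma unb_exists_far {S : Set ℂ} (hS : ¬ Bornology.IsBounded S) (R : ℝ) :
    ∃ z ∈ S, R < ‖z‖ := by
  by_contra h
  push Not at h
  exact hS (isBounded_iff_forall_norm_le.2 ⟨R, h⟩)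

theorem cmp_sub_ball {Y : Set ℂ} {R : ℝ} (hR : 0 ≤ R) (hY : ∀ z ∈ Y, ‖z‖ ≤ R) {a : ℂ}
    (hb : Bornology.IsBounded (Cmp Y a)) : ∀ z ∈ Cmp Y a, ‖z‖ ≤ R := by
  intro z hz
  by_contra hzR
  rw [not_le] at hzR
  exact unb_far_unb R (hb.subset (unb_far_sub hR hY hz hzR))

theorem unb_of_far {Y : Set ℂ} {R : ℝ} (hR : 0 ≤ R) (hY : ∀ z ∈ Y, ‖z‖ ≤ R) {a z : ℂ}
    (hz : z ∈ Cmp Y a) (hzR : R < ‖z‖) : ¬ Bornology.IsBounded (Cmp Y a) :=
  fun hb => unb_far_unb R (hb.subset (unb_far_sub hR hY hz hzR))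

/-- an unbounded component contains all far points -/
theorem far_mem {Y : Set ℂ} {R : ℝ} (hR : 0 ≤ R) (hY : ∀ z ∈ Y, ‖z‖ ≤ R) {a z : ℂ}
    (ha : ¬ Bornology.IsBounded (Cmp Y a)) (hzR : R < ‖z‖) : z ∈ Cmp Y a := by
  obtain ⟨w, hw, hwR⟩ := unb_exists_far ha R
  exact unb_far_sub hR hY hw hwR hzR

theorem unb_eq {Y : Set ℂ} {R : ℝ} (hR : 0 ≤ R) (hY : ∀ z ∈ Y, ‖z‖ ≤ R) {a b : ℂ}
    (ha : ¬ Bornology.IsBounded (Cmp Y a)) (hb : ¬ Bornology.IsBounded (Cmp Y b)) :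
    Cmp Y a = Cmp Y b := by
  obtain ⟨z, hz, hzR⟩ := unb_exists_far ha R
  rw [← cmp_eq hz, cmp_eq (far_mem hR hY hb hzR)]

/-- if `X` is closed, bounded and `NonSep` then every point outside `X` can be joined to a far point by a
compact connected set outside `X` -/
theorem exists_path {X : Set ℂ} (hX : IsCompact X) (hns : NonSep X) {a : ℂ} (ha : a ∉ X) (R : ℝ) :
    ∃ P : Set ℂ, IsCompact P ∧ IsPreconnected P ∧ Disjoint P X ∧ a ∈ P ∧ ∃ z ∈ P, R < ‖z‖ := by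
  have ho : IsOpen (Cmp X a) := cmp_open hX.isClosed a
  have hc : IsConnected (Cmp X a) := ⟨⟨a, mem_cmp ha⟩, cmp_pre X a⟩
  have hp : IsPathConnected (Cmp X a) := ho.isConnected_iff_isPathConnected.1 hc
  obtain ⟨z, hz, hzR⟩ := unb_exists_far (hns a ha) R
  obtain ⟨γ, hγ⟩ := hp.joinedIn a (mem_cmp ha) z hz
  refine ⟨range γ, isCompact_range γ.continuous, isPreconnected_range γ.continuous, ?_,
    ⟨0, γ.source⟩, z, ⟨1, γ.target⟩, hzR⟩
  rw [disjoint_left]
  rintro x ⟨t, rfl⟩ hx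
  exact cmp_sub X a (hγ t) hx

end Pool.Agent.HE
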