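import Pool.Agent.HE.Jump
import Pool.Agent.HE.Unb

set_option autoImplicit false

/-!
HE-Cross. A compact connected set together with a crosscut separates the plane.

The union `Y` of the set and the crosscut `ψ` is connected without the point `q = ψ s0`, and a short segment through `q`
orthogonal to the derivative of `ψ` at `s0` meets `Y` only in `q`; by `jump` its ends are in different
components of the complement of `Y`, so that not both are unbounded.
-/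

namespace Pool.Agent.HE

open Set Topology Filter

private lemma im_div_I_mul (z w : ℂ) : (z / (Complex.I * w)).im = -(z / w).re := by
  have h : z / (Complex.I * w) = -Complex.I * (z / w) := by
    rw [mul_comm, ← div_div, Complex.div_I]
    ring
  rw [h]
  simp

/-- the two sides of a curve with a derivative -/
private lemma sides {ψ : ℝ → ℂ} {s0 : ℝ} {w : ℂ} (hd : HasDerivAt ψ w s0) (hw : w ≠ 0) :
    ∃ δ > 0, ∀ s, |s - s0| < δ → (s < s0 → 0 < ((ψ s - ψ s0) / (Complex.I * w)).im) ∧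
      (s0 < s → ((ψ s - ψ s0) / (Complex.I * w)).im < 0) := by
  have h1 := (hasDerivAt_iff_isLittleO.mp hd).bound
    (c := ‖w‖ / 2) (by have := norm_pos_iff.mpr hw; positivity)
  obtain ⟨δ, hδ, h2⟩ := Metric.eventually_nhds_iff.mp h1
  refine ⟨δ, hδ, fun s hs => ?_⟩
  have h3 := h2 (y := s) (by rwa [Real.dist_eq])
  have hw' := norm_pos_iff.mpr hw
  have h4 : ‖(ψ s - ψ s0) / w - ((s - s0 : ℝ) : ℂ)‖ ≤ |s - s0| / 2 := by
    have h5 : (ψ s - ψ s0) / w - ((s - s0 : ℝ) : ℂ) = (ψ s - ψ s0 - (s - s0) • w) / w := by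
      rw [sub_div (ψ s - ψ s0), Complex.real_smul, mul_div_assoc, div_self hw, mul_one]
    rw [h5, norm_div, div_le_iff₀ hw']
    calc ‖ψ s - ψ s0 - (s - s0) • w‖ ≤ ‖w‖ / 2 * ‖s - s0‖ := h3
      _ = |s - s0| / 2 * ‖w‖ := by rw [Real.norm_eq_abs]; ring
  have h6 := (Complex.abs_re_le_norm _).trans h4
  rw [Complex.sub_re, Complex.ofReal_re, abs_le] at h6
  rw [im_div_I_mul]
  constructor
  · intro hlt
    rw [abs_of_neg (by linarith : s - s0 < 0)] at h6
    linarith [h6.2]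
  · intro hlt
    rw [abs_of_pos (by linarith : 0 < s - s0)] at h6
    linarith [h6.1]

theorem cross {X : Set ℂ} (hX : IsCompact X) (hc : IsConnected X) {ψ : ℝ → ℂ} {s1 s0 s2 : ℝ}
    (h10 : s1 < s0) (h02 : s0 < s2) (hψ : ContinuousOn ψ (Icc s1 s2)) (hinj : InjOn ψ (Ioo s1 s2))
    (h1 : ψ s1 ∈ X) (h2 : ψ s2 ∈ X) (h : ∀ s ∈ Ioo s1 s2, ψ s ∉ X) {w : ℂ}
    (hd : HasDerivAt ψ w s0) (hw : w ≠ 0) : ¬ NonSep (X ∪ ψ '' Icc s1 s2) := by
  intro hns
  have hs0 : s0 ∈ Ioo s1 s2 := ⟨h10, h02⟩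
  have hqX : ψ s0 ∉ X := h s0 hs0
  have hne : ∀ s ∈ Icc s1 s2, s ≠ s0 → ψ s ≠ ψ s0 := by
    intro s hs hss he
    rcases eq_or_lt_of_le hs.1 with h3 | h3
    · exact hqX (by rw [← he, ← h3]; exact h1)
    · rcases eq_or_lt_of_le hs.2 with h4 | h4
      · exact hqX (by rw [← he, h4]; exact h2)
      · exact hss (hinj ⟨h3, h4⟩ hs0 he)
  have hY : IsCompact (X ∪ ψ '' Icc s1 s2) := hX.union (isCompact_Icc.image_of_continuousOn hψ)
  have hv : Complex.I * w ≠ 0 := mul_ne_zero Complex.I_ne_zero hw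
  obtain ⟨δ, hδ, hsides⟩ := sides hd hw
  -- the part of the set away from the crossing point
  have hKc : IsCompact (ψ '' (Icc s1 s2 \ Ioo (s0 - δ) (s0 + δ))) := by
    refine IsCompact.image_of_continuousOn (isCompact_Icc.diff isOpen_Ioo) ?_
    exact hψ.mono fun s hs => hs.1
  have hqK : ψ s0 ∉ X ∪ ψ '' (Icc s1 s2 \ Ioo (s0 - δ) (s0 + δ)) := by
    rintro (h3 | ⟨s, ⟨hs, hs'⟩, he⟩)
    · exact hqX h3
    · refine hne s hs ?_ he
      rintro rfl
      exact hs' ⟨by linarith, by linarith⟩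
  obtain ⟨r, hr, hball⟩ := Metric.isOpen_iff.mp (hX.union hKc).isClosed.isOpen_compl (ψ s0) hqK
  have hvn : 0 < ‖Complex.I * w‖ := norm_pos_iff.mpr hv
  set ε : ℝ := r / (2 * ‖Complex.I * w‖) with hε
  have hεp : 0 < ε := by positivity
  have hfree : ∀ t : ℝ, |t| ≤ ε → t ≠ 0 → ψ s0 + t * (Complex.I * w) ∉ X ∪ ψ '' Icc s1 s2 := by
    intro t ht ht0 hmem
    have h3 : ψ s0 + t * (Complex.I * w) ∈ Metric.ball (ψ s0) r := by
      rw [Metric.mem_ball, dist_eq_norm, add_sub_cancel_left, norm_mul, Complex.norm_real,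
        Real.norm_eq_abs]
      calc |t| * ‖Complex.I * w‖ ≤ ε * ‖Complex.I * w‖ :=
            mul_le_mul_of_nonneg_right ht hvn.le
        _ = r / 2 := by rw [hε]; field_simp
        _ < r := by linarith
    have h4 := hball h3
    rcases hmem with h5 | ⟨s, hs, he⟩
    · exact h4 (Or.inl h5)
    · have h6 : |s - s0| < δ := by
        by_contra h7
        refine h4 (Or.inr ⟨s, ⟨hs, fun h8 => h7 ?_⟩, he⟩)
        rw [abs_lt]
        exact ⟨by linarith [h8.1], by linarith [h8.2]⟩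
      have h7 : ((ψ s - ψ s0) / (Complex.I * w)).im = 0 := by
        rw [he, add_sub_cancel_left, mul_div_assoc, div_self hv, mul_one, Complex.ofReal_im]
      rcases lt_trichotomy s s0 with h8 | h8 | h8
      · have := (hsides s h6).1 h8
        rw [h7] at this
        exact lt_irrefl _ this
      · rw [h8] at he
        have h9 : (t : ℂ) * (Complex.I * w) = 0 := by
          have h10 := he
          rw [left_eq_add] at h10
          exact h10
        rcases mul_eq_zero.mp h9 with h10 | h10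
        · exact ht0 (by exact_mod_cast h10)
        · exact hv h10
      · have := (hsides s h6).2 h8
        rw [h7] at this
        exact lt_irrefl _ this
  have hY' : (X ∪ ψ '' Icc s1 s2) \ {ψ s0} = (X ∪ ψ '' Ico s1 s0) ∪ ψ '' Ioc s0 s2 := by
    ext z
    constructor
    · rintro ⟨h3 | ⟨s, hs, rfl⟩, h4⟩
      · exact Or.inl (Or.inl h3)
      · rcases lt_trichotomy s s0 with h5 | h5 | h5
        · exact Or.inl (Or.inr ⟨s, ⟨hs.1, h5⟩, rfl⟩)
        · exact absurd (by rw [h5]; rfl) h4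
        · exact Or.inr ⟨s, ⟨h5, hs.2⟩, rfl⟩
    · rintro ((h3 | ⟨s, hs, rfl⟩) | ⟨s, hs, rfl⟩)
      · exact ⟨Or.inl h3, fun h4 => hqX (by rw [mem_singleton_iff] at h4; rw [← h4]; exact h3)⟩
      · have hs' : s ∈ Icc s1 s2 := ⟨hs.1, hs.2.le.trans h02.le⟩
        exact ⟨Or.inr ⟨s, hs', rfl⟩, fun h4 => hne s hs' hs.2.ne h4⟩
      · have hs' : s ∈ Icc s1 s2 := ⟨h10.le.trans hs.1.le, hs.2⟩
        exact ⟨Or.inr ⟨s, hs', rfl⟩, fun h4 => hne s hs' hs.1.ne' h4⟩
  have hpre : IsPreconnected ((X ∪ ψ '' Icc s1 s2) \ {ψ s0}) := by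
    rw [hY']
    have h3 : IsPreconnected (ψ '' Ico s1 s0) :=
      isPreconnected_Ico.image _ (hψ.mono fun s hs => ⟨hs.1, hs.2.le.trans h02.le⟩)
    have h4 : IsPreconnected (ψ '' Ioc s0 s2) :=
      isPreconnected_Ioc.image _ (hψ.mono fun s hs => ⟨h10.le.trans hs.1.le, hs.2⟩)
    have h5 : IsPreconnected (X ∪ ψ '' Ico s1 s0) :=
      hc.isPreconnected.union (ψ s1) h1 ⟨s1, ⟨le_refl _, h10⟩, rfl⟩ h3
    exact h5.union (ψ s2) (Or.inl h2) ⟨s2, ⟨h02, le_refl _⟩, rfl⟩ h4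
  have hca : ContinuousAt ψ s0 := hd.continuousAt
  have hfr : ∀ l : Filter ℝ, l ≤ 𝓝[≠] s0 →
      Tendsto ψ l (𝓝[(X ∪ ψ '' Icc s1 s2) \ {ψ s0}] (ψ s0)) := by
    intro l hl
    have h3 : Tendsto ψ l (𝓝 (ψ s0)) :=
      hca.tendsto.mono_left (hl.trans nhdsWithin_le_nhds)
    refine tendsto_nhdsWithin_iff.mpr ⟨h3, ?_⟩
    have h4 : ∀ᶠ s in 𝓝[≠] s0, s ∈ Icc s1 s2 ∧ s ≠ s0 := by
      filter_upwards [nhdsWithin_le_nhds (Icc_mem_nhds h10 h02), self_mem_nhdsWithin] with s h5 h6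
      exact ⟨h5, h6⟩
    filter_upwards [hl h4] with s hs
    exact ⟨Or.inr ⟨s, hs.1, rfl⟩, fun h5 => hne s hs.1 hs.2 h5⟩
  have hnear : ∀ᶠ s in 𝓝 s0, |s - s0| < δ := by
    filter_upwards [Metric.ball_mem_nhds s0 hδ] with s hs
    rwa [Metric.mem_ball, Real.dist_eq] at hs
  have hq1 : ∃ᶠ z in 𝓝[(X ∪ ψ '' Icc s1 s2) \ {ψ s0}] (ψ s0),
      0 < ((z - ψ s0) / (Complex.I * w)).im := by
    refine (hfr (𝓝[<] s0) (nhdsWithin_mono _ fun s hs => ne_of_lt hs)).frequently (Eventually.frequently ?_)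
    filter_upwards [nhdsWithin_le_nhds hnear, self_mem_nhdsWithin] with s hs hs'
    exact (hsides s hs).1 hs'
  have hq2 : ∃ᶠ z in 𝓝[(X ∪ ψ '' Icc s1 s2) \ {ψ s0}] (ψ s0),
      ((z - ψ s0) / (Complex.I * w)).im < 0 := by
    refine (hfr (𝓝[>] s0) (nhdsWithin_mono _ fun s hs => ne_of_gt hs)).frequently (Eventually.frequently ?_)
    filter_upwards [nhdsWithin_le_nhds hnear, self_mem_nhdsWithin] with s hs hs'
    exact (hsides s hs).2 hs'
  have hj := jump hY hv (Or.inr ⟨s0, ⟨h10.le, h02.le⟩, rfl⟩) hεp hfree hpre hq1 hq2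
  have ha : ψ s0 + ε * (Complex.I * w) ∉ X ∪ ψ '' Icc s1 s2 :=
    hfree ε (by rw [abs_of_pos hεp]) hεp.ne'
  have hb : ψ s0 - ε * (Complex.I * w) ∉ X ∪ ψ '' Icc s1 s2 := by
    have := hfree (-ε) (by rw [abs_neg, abs_of_pos hεp]) (neg_ne_zero.mpr hεp.ne')
    rwa [Complex.ofReal_neg, neg_mul, ← sub_eq_add_neg] at this
  obtain ⟨R, hR⟩ := hY.isBounded.exists_norm_le
  have hR' : ∀ z ∈ X ∪ ψ '' Icc s1 s2, ‖z‖ ≤ max R 0 := fun z hz => (hR z hz).trans (le_max_left _ _)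
  have heq := unb_eq (le_max_right R 0) hR' (hns _ ha) (hns _ hb)
  exact hj (heq ▸ mem_cmp ha)

end Pool.Agent.HE
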