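import Mathlib

set_option autoImplicit false

/-!
# Stable branches of periodic saddles of real Henon maps: definitions of the plane part

Interface of the project HE (paper proof /team-store/he_t2_proof.md).
-/

namespace Pool.Agent.HE

open Set Topology

/-- the connected component of `a` in the complement of `Y` -/
def Cmp (Y : Set ℂ) (a : ℂ) : Set ℂ := connectedComponentIn Yᶜ a

/-- `D` is a component of the complement of `Y` -/
def IsCmp (Y D : Set ℂ) : Prop := ∃ a, a ∉ Y ∧ D = Cmp Y a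

/-- the complement of `Y` has no bounded component -/
def NonSep (Y : Set ℂ) : Prop := ∀ a, a ∉ Y → ¬ Bornology.IsBounded (Cmp Y a)

/-- no nonempty open set has a bounded backward orbit -/
def NO (F : ℂ ≃ₜ ℂ) : Prop :=
  ∀ D : Set ℂ, IsOpen D → D.Nonempty → ¬ ∃ R : ℝ, ∀ k : ℕ, ∀ z ∈ D, ‖(F.symm : ℂ → ℂ)^[k] z‖ ≤ R

/-- closed curve, as a `1`-periodic map -/
structure Closed1 (c : ℝ → ℂ) : Prop where
  cont : Continuous c
  per : ∀ s, c (s + 1) = c s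

/-- the periodic function `c` has a continuous periodic logarithm -/
def PLog (c : ℝ → ℂ) : Prop :=
  ∃ L : ℝ → ℂ, Continuous L ∧ (∀ s, L (s + 1) = L s) ∧ ∀ s, Complex.exp (L s) = c s

/-- `κ` is a gap of the closed curve `c` in the complement of `X` -/
def IsGap (c : ℝ → ℂ) (X κ : Set ℂ) : Prop :=
  ∃ s1 s2 : ℝ, s1 < s2 ∧ s2 ≤ s1 + 1 ∧ c s1 ∈ X ∧ c s2 ∈ X ∧ (∀ s ∈ Ioo s1 s2, c s ∉ X) ∧
    κ = c '' Ioo s1 s2

/-- circle -/
noncomputable def circ (z : ℂ) (ρ : ℝ) (s : ℝ) : ℂ :=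
  z + ρ * Complex.exp ((2 * Real.pi * s : ℝ) * Complex.I)

/-- closure of the branch `γ ((0, ∞))` -/
def XX (γ : ℝ → ℂ) : Set ℂ := closure (γ '' Ioi 0)

/-- limit set of the end of the branch -/
def AA (γ : ℝ → ℂ) : Set ℂ := ⋂ T : ℝ, closure (γ '' Ici T)

/-- `D` contains the left germ of the curve at the parameter `t` -/
def LG (ell : ℝ → ℝ → ℂ) (D : Set ℂ) (t : ℝ) : Prop :=
  ∃ ε > 0, ∀ t' η : ℝ, |t' - t| < ε → 0 < η → η < ε → ell t' η ∈ D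

/-- a bounded invariant stable branch `γ ((0, ∞))` which does not accumulate on `γ 0`, with left
collar `ell` -/
structure Ctx (F : ℂ ≃ₜ ℂ) (γ : ℝ → ℂ) (lam : ℝ) (ell : ℝ → ℝ → ℂ) : Prop where
  lam0 : 0 < lam
  lam1 : lam < 1
  cont : Continuous γ
  inj : Function.Injective γ
  conj : ∀ t, F (γ t) = γ (lam * t)
  no : NO F
  bdd : Bornology.IsBounded (γ '' Ioi 0)
  nacc : γ 0 ∉ AA γ
  ellc : Continuous fun x : ℝ × ℝ => ell x.1 x.2
  ell0 : ∀ t, ell t 0 = γ t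
  g1 : ∀ t > 0, ∃ δ > 0, ∀ t' η : ℝ, |t' - t| < δ → 0 < η → η < δ → ell t' η ∉ XX γ
  g3 : ∀ t > 0, ∀ ε > 0, ∃ δ > 0, ∀ η : ℝ, 0 < η → η < δ →
    ∃ t' η' : ℝ, |t' - lam * t| < ε ∧ 0 < η' ∧ η' < ε ∧ F (ell t η) = ell t' η'
  circ : ∀ z ∈ AA γ, ∀ ρ > 0, {t : ℝ | dist (γ t) z = ρ}.Countable

/-- the data of a crosscut: connected, disjoint from `X`, closed together with `X`, and only
finitely many points of the branch are in its closure -/
structure Cut (γ : ℝ → ℂ) (κ : Set ℂ) : Prop where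
  pre : IsPreconnected κ
  disj : Disjoint κ (XX γ)
  closed : IsClosed (XX γ ∪ κ)
  fin : {t : ℝ | 0 < t ∧ γ t ∈ closure κ}.Finite

/-- a good crosscut: the left germs at all large parameters are in the bounded component `D` -/
structure Good (γ : ℝ → ℂ) (ell : ℝ → ℝ → ℂ) (κ D : Set ℂ) (t0 : ℝ) : Prop where
  cut : Cut γ κ
  cmp : IsCmp (XX γ ∪ κ) D
  bdd : Bornology.IsBounded D
  pos : 0 < t0
  mem : γ t0 ∈ closure κ
  after : ∀ t, t0 < t → γ t ∉ closure κ → LG ell D t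
  before : ∃ tm : ℝ, 0 < tm ∧ tm < t0 ∧ ∀ t ∈ Ioo tm t0, LG ell Dᶜ t

/-- a pocket over the parameter interval `(a, b)` -/
structure Pocket (γ : ℝ → ℂ) (ell : ℝ → ℝ → ℂ) (κ D : Set ℂ) (a b : ℝ) : Prop where
  cut : Cut γ κ
  cmp : IsCmp (XX γ ∪ κ) D
  bdd : Bornology.IsBounded D
  pos : 0 < a
  lt : a < b
  mema : γ a ∈ closure κ
  memb : γ b ∈ closure κ
  inside : ∀ t ∈ Ioo a b, γ t ∉ closure κ → LG ell D t
  before : ∃ a' : ℝ, 0 < a' ∧ a' < a ∧ ∀ t ∈ Ioo a' a, LG ell Dᶜ t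
  after : ∃ b' : ℝ, b < b' ∧ ∀ t ∈ Ioo b b', LG ell Dᶜ t

/-- chart at a saddle: `Φ` is a homeomorphism of the plane with `Φ r = 0` in which `F` has the form
`(X, Y) ↦ (e a X, e d Y)` on the box of size `h`, with `sm ≤ a ≤ sp`, `lm ≤ d ≤ lp`, `e = ± 1`;
the first coordinate is strictly monotone on horizontal lines -/
structure Chart (F Φ : ℂ ≃ₜ ℂ) (r : ℂ) (e h sm sp lm lp : ℝ) : Prop where
  he : e = 1 ∨ e = -1
  hh : 0 < h
  hsm : 1 < sm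
  hlm : 0 < lm
  hlp : lp < 1
  hll : lp ^ 2 < lm
  zero : Φ r = 0
  re_sign : ∀ z, |(Φ z).re| < h → |(Φ z).im| < h → 0 ≤ e * (Φ z).re * (Φ (F z)).re
  im_sign : ∀ z, |(Φ z).re| < h → |(Φ z).im| < h → 0 ≤ e * (Φ z).im * (Φ (F z)).im
  re_low : ∀ z, |(Φ z).re| < h → |(Φ z).im| < h → sm * |(Φ z).re| ≤ |(Φ (F z)).re|
  re_up : ∀ z, |(Φ z).re| < h → |(Φ z).im| < h → |(Φ (F z)).re| ≤ sp * |(Φ z).re|
  im_low : ∀ z, |(Φ z).re| < h → |(Φ z).im| < h → lm * |(Φ z).im| ≤ |(Φ (F z)).im|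
  im_up : ∀ z, |(Φ z).re| < h → |(Φ z).im| < h → |(Φ (F z)).im| ≤ lp * |(Φ z).im|
  mono : ∀ z1 z2, |(Φ z1).re| < h → |(Φ z2).re| < h → |(Φ z1).im| < h → (Φ z1).im = (Φ z2).im →
    (Φ z1).re < (Φ z2).re → e * (Φ (F z1)).re < e * (Φ (F z2)).re

end Pool.Agent.HE
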