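import Pool.Agent.HE.Germ

set_option autoImplicit false

/-!
HE-Dicho. Crosscuts near the limit set; good crosscuts and pockets.

`small`: crosscuts close to the limit set are far from a path which joins the collar over `1` to a far
point, so the germs over `(0, 1]` are in the unbounded component. `dicho`, `good_of_ev`: the germs
are locally constant outside the finitely many parameters of the closure of the crosscut.
-/

namespace Pool.Agent.HE

open Set Topology Filter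

variable {F : ℂ ≃ₜ ℂ} {γ : ℝ → ℂ} {lam : ℝ} {ell : ℝ → ℝ → ℂ}

private theorem dl_free {E : Set ℝ} (hE : E.Finite) {a : ℝ} :
    ∃ δ > 0, ∀ s, |s - a| < δ → s ≠ a → s ∉ E := by
  have h1 : IsClosed (E \ {a}) := (hE.subset sdiff_subset).isClosed
  have h2 : a ∈ (E \ {a})ᶜ := fun h => h.2 rfl
  obtain ⟨δ, hδ, h3⟩ := Metric.isOpen_iff.1 h1.isOpen_compl a h2
  refine ⟨δ, hδ, fun s hs hne hsE => ?_⟩
  exact h3 (by rwa [Metric.mem_ball, Real.dist_eq]) ⟨hsE, hne⟩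

private theorem dl_left {E : Set ℝ} (hE : E.Finite) {P N : ℝ → Prop}
    (oN : ∀ s, N s → ∀ᶠ x in 𝓝 s, N x) (oP : ∀ s, P s → ∀ᶠ x in 𝓝 s, P x)
    (hex : ∀ s, P s → N s → False) (hor : ∀ s, 0 < s → s ∉ E → P s ∨ N s)
    (hco : ∀ s x, 0 < s → 0 < x → (∀ y ∈ uIcc s x, y ∉ E) → N s → N x)
    {s1 τ τ' : ℝ} (h1 : 0 < s1) (h1τ : s1 < τ) (hN : N s1) (hτ : τ' < τ)
    (hb : ∀ s, 0 < s → s < τ → N s → s ≤ τ') :
    ∃ a, s1 ≤ a ∧ a < τ ∧ a ∈ E ∧ (∃ a', 0 < a' ∧ a' < a ∧ ∀ s ∈ Ioo a' a, N s) ∧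
      ∀ s ∈ Ioo a τ, ¬ N s := by
  set A : Set ℝ := {s | 0 < s ∧ s < τ ∧ N s} with hA
  have hA1 : s1 ∈ A := ⟨h1, h1τ, hN⟩
  have hAb : ∀ s ∈ A, s ≤ τ' := fun s hs => hb s hs.1 hs.2.1 hs.2.2
  have hAbb : BddAbove A := ⟨τ', hAb⟩
  set a := sSup A with ha
  have ha1 : s1 ≤ a := le_csSup hAbb hA1
  have haτ' : a ≤ τ' := csSup_le ⟨s1, hA1⟩ hAb
  have haτ : a < τ := lt_of_le_of_lt haτ' hτ
  have hno : ∀ s ∈ Ioo a τ, ¬ N s := fun s hs hNs =>
    absurd (le_csSup hAbb (⟨by linarith [hs.1], hs.2, hNs⟩ : s ∈ A)) (not_le.2 hs.1)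
  have hNa : ¬ N a := by
    intro hNa
    obtain ⟨ε, hε, hball⟩ := Metric.eventually_nhds_iff.1 (oN a hNa)
    have hm : 0 < min (ε / 2) ((τ - a) / 2) := lt_min (by linarith) (by linarith)
    have hm1 := min_le_left (ε / 2) ((τ - a) / 2)
    have hm2 := min_le_right (ε / 2) ((τ - a) / 2)
    refine hno (a + min (ε / 2) ((τ - a) / 2)) ⟨by linarith, by linarith⟩ (hball ?_)
    rw [Real.dist_eq, abs_lt]
    constructor <;> linarith
  have hclose : ∀ δ > 0, ∃ s ∈ A, a - δ < s := fun δ hδ =>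
    exists_lt_of_lt_csSup ⟨s1, hA1⟩ (by linarith)
  have haE : a ∈ E := by
    by_contra haE
    rcases hor a (by linarith) haE with hP | hN
    · obtain ⟨ε, hε, hball⟩ := Metric.eventually_nhds_iff.1 (oP a hP)
      obtain ⟨s, hs, hsa⟩ := hclose ε hε
      have h2 : s ≤ a := le_csSup hAbb hs
      refine hex s (hball ?_) hs.2.2
      rw [Real.dist_eq, abs_lt]
      constructor <;> linarith
    · exact hNa hN
  refine ⟨a, ha1, haτ, haE, ?_, hno⟩
  obtain ⟨δ, hδ, hfree⟩ := dl_free hE (a := a)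
  have hm : 0 < min δ a := lt_min hδ (by linarith)
  have hm1 := min_le_left δ a
  have hm2 := min_le_right δ a
  refine ⟨a - min δ a / 2, by linarith, by linarith, ?_⟩
  obtain ⟨s0, hs0, hs0a⟩ := hclose (min δ a / 2) (by linarith)
  have h3 : s0 < a := lt_of_le_of_ne (le_csSup hAbb hs0) (fun h => hNa (h ▸ hs0.2.2))
  intro s hs
  refine hco s0 s hs0.1 (by linarith [hs.1]) ?_ hs0.2.2
  intro y hy
  have h4 : a - min δ a / 2 < y ∧ y < a := by
    rcases le_total s0 s with h | h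
    · rw [uIcc_of_le h] at hy
      exact ⟨lt_of_lt_of_le hs0a hy.1, lt_of_le_of_lt hy.2 hs.2⟩
    · rw [uIcc_of_ge h] at hy
      exact ⟨lt_of_lt_of_le hs.1 hy.1, lt_of_le_of_lt hy.2 h3⟩
  refine hfree y ?_ h4.2.ne
  rw [abs_lt]
  constructor <;> linarith [h4.1, h4.2]

private theorem dl_right {E : Set ℝ} (hE : E.Finite) {P N : ℝ → Prop}
    (oN : ∀ s, N s → ∀ᶠ x in 𝓝 s, N x) (oP : ∀ s, P s → ∀ᶠ x in 𝓝 s, P x)
    (hex : ∀ s, P s → N s → False) (hor : ∀ s, 0 < s → s ∉ E → P s ∨ N s)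
    (hco : ∀ s x, 0 < s → 0 < x → (∀ y ∈ uIcc s x, y ∉ E) → N s → N x)
    {s1 τ τ' : ℝ} (h0 : 0 < τ) (h1τ : τ < s1) (hN : N s1) (hτ : τ < τ')
    (hb : ∀ s, τ < s → N s → τ' ≤ s) :
    ∃ b, τ < b ∧ b ∈ E ∧ (∃ b', b < b' ∧ ∀ s ∈ Ioo b b', N s) ∧
      ∀ s ∈ Ioo τ b, ¬ N s := by
  set A : Set ℝ := {s | τ < s ∧ N s} with hA
  have hA1 : s1 ∈ A := ⟨h1τ, hN⟩
  have hAb : ∀ s ∈ A, τ' ≤ s := fun s hs => hb s hs.1 hs.2
  have hAbb : BddBelow A := ⟨τ', hAb⟩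
  set a := sInf A with ha
  have haτ' : τ' ≤ a := le_csInf ⟨s1, hA1⟩ hAb
  have haτ : τ < a := lt_of_lt_of_le hτ haτ'
  have hno : ∀ s ∈ Ioo τ a, ¬ N s := fun s hs hNs =>
    absurd (csInf_le hAbb (⟨hs.1, hNs⟩ : s ∈ A)) (not_le.2 hs.2)
  have hNa : ¬ N a := by
    intro hNa
    obtain ⟨ε, hε, hball⟩ := Metric.eventually_nhds_iff.1 (oN a hNa)
    have hm : 0 < min (ε / 2) ((a - τ) / 2) := lt_min (by linarith) (by linarith)
    have hm1 := min_le_left (ε / 2) ((a - τ) / 2)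
    have hm2 := min_le_right (ε / 2) ((a - τ) / 2)
    refine hno (a - min (ε / 2) ((a - τ) / 2)) ⟨by linarith, by linarith⟩ (hball ?_)
    rw [Real.dist_eq, abs_lt]
    constructor <;> linarith
  have hclose : ∀ δ > 0, ∃ s ∈ A, s < a + δ := fun δ hδ =>
    exists_lt_of_csInf_lt ⟨s1, hA1⟩ (by linarith)
  have haE : a ∈ E := by
    by_contra haE
    rcases hor a (by linarith) haE with hP | hN
    · obtain ⟨ε, hε, hball⟩ := Metric.eventually_nhds_iff.1 (oP a hP)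
      obtain ⟨s, hs, hsa⟩ := hclose ε hε
      have h2 : a ≤ s := csInf_le hAbb hs
      refine hex s (hball ?_) hs.2
      rw [Real.dist_eq, abs_lt]
      constructor <;> linarith
    · exact hNa hN
  refine ⟨a, haτ, haE, ?_, hno⟩
  obtain ⟨δ, hδ, hfree⟩ := dl_free hE (a := a)
  refine ⟨a + δ / 2, by linarith, ?_⟩
  obtain ⟨s0, hs0, hs0a⟩ := hclose (δ / 2) (by linarith)
  have h3 : a < s0 := lt_of_le_of_ne (csInf_le hAbb hs0) (fun h => hNa (h ▸ hs0.2))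
  intro s hs
  refine hco s0 s (by linarith) (by linarith [hs.1]) ?_ hs0.2
  intro y hy
  have h4 : a < y ∧ y < a + δ / 2 := by
    rcases le_total s0 s with h | h
    · rw [uIcc_of_le h] at hy
      exact ⟨lt_of_lt_of_le h3 hy.1, lt_of_le_of_lt hy.2 hs.2⟩
    · rw [uIcc_of_ge h] at hy
      exact ⟨lt_of_lt_of_le hs.1 hy.1, lt_of_le_of_lt hy.2 hs0a⟩
  refine hfree y ?_ h4.1.ne'
  rw [abs_lt]
  constructor <;> linarith [h4.1, h4.2]

private theorem dl_ex {D : Set ℂ} (s : ℝ) (h : LG ell D s) (h' : LG ell Dᶜ s) : False := by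
  obtain ⟨x, hx, hx'⟩ := h.inter h'
  exact hx' hx

private theorem dl_co (C : Ctx F γ lam ell) {κ D : Set ℂ} (hD : IsCmp (XX γ ∪ κ) D) (s x : ℝ)
    (hs : 0 < s) (hx : 0 < x) (h : ∀ y ∈ uIcc s x, y ∉ {t : ℝ | 0 < t ∧ γ t ∈ closure κ})
    (hN : LG ell Dᶜ s) : LG ell Dᶜ x := by
  have hpos : ∀ y ∈ uIcc s x, 0 < y := by
    intro y hy
    rcases le_total s x with h1 | h1
    · rw [uIcc_of_le h1] at hy
      linarith [hy.1]
    · rw [uIcc_of_ge h1] at hy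
      linarith [hy.1]
  have h2 : ∀ y ∈ uIcc s x, 0 < y ∧ γ y ∉ closure κ := fun y hy =>
    ⟨hpos y hy, fun hk => h y hy ⟨hpos y hy, hk⟩⟩
  rcases lg_or C hx (h2 x right_mem_uIcc).2 hD with h3 | h3
  · exfalso
    have h4 : LG ell D s := lg_const C (s := x) (t := s) (fun y hy => h2 y (by
      rwa [uIcc_comm])) hD h3
    exact dl_ex s h4 hN
  · exact h3

private theorem dl_or (C : Ctx F γ lam ell) {κ D : Set ℂ} (hD : IsCmp (XX γ ∪ κ) D) (s : ℝ)
    (hs : 0 < s) (h : s ∉ {t : ℝ | 0 < t ∧ γ t ∈ closure κ}) : LG ell D s ∨ LG ell Dᶜ s :=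
  lg_or C hs (fun hk => h ⟨hs, hk⟩) hD

theorem small (C : Ctx F γ lam ell) : ∃ δ0 > 0, ∀ κ : Set ℂ, Cut γ κ →
    (∀ z ∈ κ, ∃ a ∈ AA γ, dist z a < δ0) → ∀ D, IsCmp (XX γ ∪ κ) D → Bornology.IsBounded D →
    ∀ t, 0 < t → t ≤ 1 → LG ell Dᶜ t := by
  obtain ⟨δ, hδ, hg1⟩ := C.g1 1 one_pos
  have hη : 0 < δ / 2 := by linarith
  have hell : ∀ x, 0 < x → x ≤ δ / 2 → ell 1 x ∉ XX γ := fun x hx hx2 =>
    hg1 1 x (by simpa using hδ) hx (by linarith)
  obtain ⟨R0, hR0⟩ := (xx_compact C).isBounded.exists_norm_le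
  have hR00 : 0 ≤ R0 := by
    obtain ⟨z, hz⟩ := (xx_conn C).nonempty
    exact (norm_nonneg z).trans (hR0 z hz)
  obtain ⟨P, hPc, hPp, hPd, hPm, z, hzP, hzR⟩ := exists_path (xx_compact C) (xx_nonsep C)
    (hell (δ / 2) hη le_rfl) (R0 + 1)
  have hsegc : Continuous fun η : ℝ => ell 1 η := C.ellc.comp (by fun_prop : Continuous
    fun η : ℝ => ((1 : ℝ), η))
  have hKc : IsCompact (P ∪ (fun η : ℝ => ell 1 η) '' Icc 0 (δ / 2) ∪ γ '' Icc 0 1) :=
    (hPc.union (isCompact_Icc.image hsegc)).union (isCompact_Icc.image C.cont)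
  have hKd : Disjoint (P ∪ (fun η : ℝ => ell 1 η) '' Icc 0 (δ / 2) ∪ γ '' Icc 0 1) (AA γ) := by
    rw [disjoint_left]
    rintro x ((hx | ⟨η, hη', rfl⟩) | ⟨t, ht, rfl⟩) hxA
    · exact disjoint_left.1 hPd hx (aa_sub C hxA)
    · rcases eq_or_lt_of_le hη'.1 with h | h
      · rw [← h] at hxA
        change ell 1 0 ∈ AA γ at hxA
        rw [C.ell0] at hxA
        exact aa_notin C zero_le_one hxA
      · exact hell η h hη'.2 (aa_sub C hxA)
    · exact aa_notin C ht.1 hxA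
  obtain ⟨r, hr, hrd⟩ := hKd.exists_thickenings hKc (aa_compact C).isClosed
  refine ⟨min (r / 2) 1, lt_min (by linarith) one_pos, ?_⟩
  intro κ K hκ D hD hDb t ht0 ht1
  have hclos : ∀ x ∈ P ∪ (fun η : ℝ => ell 1 η) '' Icc 0 (δ / 2) ∪ γ '' Icc 0 1,
      x ∉ closure κ := by
    intro x hx hxk
    have h1 : κ ⊆ Metric.thickening (r / 2) (AA γ) := by
      intro y hy
      obtain ⟨a, ha, hya⟩ := hκ y hy
      exact Metric.mem_thickening_iff.2 ⟨a, ha, lt_of_lt_of_le hya (min_le_left _ _)⟩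
    have h2 : x ∈ Metric.thickening r (AA γ) := by
      have h3 := closure_mono h1 hxk
      have h4 := Metric.closure_thickening_subset_cthickening (r / 2) (AA γ) h3
      exact Metric.cthickening_subset_thickening' hr (by linarith) _ h4
    exact disjoint_left.1 hrd (Metric.self_subset_thickening hr _ hx) h2
  have hYR : ∀ y ∈ XX γ ∪ κ, ‖y‖ ≤ R0 + 1 := by
    rintro y (hy | hy)
    · linarith [hR0 y hy]
    · obtain ⟨a, ha, hya⟩ := hκ y hy
      have h1 := hR0 a (aa_sub C ha)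
      have h2 : dist y a < 1 := lt_of_lt_of_le hya (min_le_right _ _)
      have h3 : ‖y‖ ≤ ‖a‖ + dist y a := by
        rw [dist_eq_norm]
        calc ‖y‖ = ‖a + (y - a)‖ := by congr 1; ring
          _ ≤ _ := norm_add_le _ _
      linarith
  have hPY : Disjoint P (XX γ ∪ κ) := by
    rw [disjoint_left]
    rintro x hx (hxX | hxk)
    · exact disjoint_left.1 hPd hx hxX
    · exact hclos x (Or.inl (Or.inl hx)) (subset_closure hxk)
  have hPU : P ⊆ Cmp (XX γ ∪ κ) (ell 1 (δ / 2)) :=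
    sub_cmp hPp hPY ⟨_, hPm, mem_cmp (disjoint_left.1 hPY hPm)⟩
  have hU : ¬ Bornology.IsBounded (Cmp (XX γ ∪ κ) (ell 1 (δ / 2))) :=
    unb_of_far (by linarith) hYR (hPU hzP) hzR
  have hseg : ∀ x, 0 < x → x ≤ δ / 2 → ell 1 x ∉ XX γ ∪ κ := by
    rintro x hx hx2 (h | h)
    · exact hell x hx hx2 h
    · exact hclos _ (Or.inl (Or.inr ⟨x, ⟨hx.le, hx2⟩, rfl⟩)) (subset_closure h)
  have hγ : ∀ s, 0 < s → s ≤ 1 → γ s ∉ closure κ := fun s hs hs1 =>
    hclos _ (Or.inr ⟨s, ⟨hs.le, hs1⟩, rfl⟩)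
  have h1 : LG ell (Cmp (XX γ ∪ κ) (ell 1 (δ / 2))) 1 :=
    lg_seg C one_pos hη (hγ 1 one_pos le_rfl) hseg
  have hcmp : IsCmp (XX γ ∪ κ) (Cmp (XX γ ∪ κ) (ell 1 (δ / 2))) := isCmp_cmp (hseg _ hη le_rfl)
  have h2 : LG ell (Cmp (XX γ ∪ κ) (ell 1 (δ / 2))) t := by
    refine lg_const C (s := 1) (t := t) ?_ hcmp h1
    intro x hx
    rw [uIcc_of_ge ht1] at hx
    have hx0 : 0 < x := lt_of_lt_of_le ht0 hx.1
    exact ⟨hx0, hγ x hx0 hx.2⟩
  refine h2.mono ?_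
  intro x hx hxD
  apply hU
  rw [← hD.eq_of_inter hcmp ⟨x, hxD, hx⟩]
  exact hDb

theorem dicho (C : Ctx F γ lam ell) {κ D : Set ℂ} (K : Cut γ κ) (hD : IsCmp (XX γ ∪ κ) D)
    (hb : Bornology.IsBounded D) {t : ℝ} (ht : 0 < t) (h : LG ell D t)
    (h1 : ∀ s, 0 < s → s ≤ 1 → LG ell Dᶜ s) :
    (∃ t0, Good γ ell κ D t0) ∨ ∃ a b, a < t ∧ t < b ∧ Pocket γ ell κ D a b := by
  have h1t : 1 < t := by
    by_contra hcon
    exact dl_ex t h (h1 t ht (not_lt.1 hcon))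
  obtain ⟨ε, hε, hball⟩ := Metric.eventually_nhds_iff.1 h.nhds
  have hnear : ∀ s, |s - t| < ε → ¬ LG ell Dᶜ s := fun s hs hN =>
    dl_ex s (hball (by rwa [Real.dist_eq])) hN
  obtain ⟨a, ha1, hat, haE, hbef, hno⟩ := dl_left K.fin (P := fun s => LG ell D s)
    (N := fun s => LG ell Dᶜ s) (fun s hs => hs.nhds) (fun s hs => hs.nhds)
    (fun s hP hN => dl_ex s hP hN) (dl_or C hD) (dl_co C hD) (s1 := 1) (τ := t) (τ' := t - ε)
    one_pos h1t (h1 1 one_pos le_rfl) (by linarith) (by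
      intro s _ hst hN
      by_contra hcon
      refine hnear s ?_ hN
      rw [abs_lt]
      constructor <;> linarith [not_le.1 hcon])
  by_cases hB : ∃ s, t < s ∧ LG ell Dᶜ s
  · obtain ⟨s1, hs1, hs1N⟩ := hB
    obtain ⟨b, htb, hbE, haft, hno'⟩ := dl_right K.fin (P := fun s => LG ell D s)
      (N := fun s => LG ell Dᶜ s) (fun s hs => hs.nhds) (fun s hs => hs.nhds)
      (fun s hP hN => dl_ex s hP hN) (dl_or C hD) (dl_co C hD) (s1 := s1) (τ := t) (τ' := t + ε)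
      ht hs1 hs1N (by linarith) (by
        intro s hst hN
        by_contra hcon
        refine hnear s ?_ hN
        rw [abs_lt]
        constructor <;> linarith [not_le.1 hcon])
    right
    refine ⟨a, b, hat, htb, ⟨K, hD, hb, haE.1, hat.trans htb, haE.2, hbE.2, ?_, hbef, haft⟩⟩
    intro s hs hsk
    have hs0 : 0 < s := haE.1.trans hs.1
    rcases lg_or C hs0 hsk hD with h2 | h2
    · exact h2
    · exfalso
      rcases lt_trichotomy s t with h3 | h3 | h3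
      · exact hno s ⟨hs.1, h3⟩ h2
      · rw [h3] at h2
        exact dl_ex t h h2
      · exact hno' s ⟨h3, hs.2⟩ h2
  · left
    refine ⟨a, ⟨K, hD, hb, haE.1, haE.2, ?_, hbef⟩⟩
    intro s hs hsk
    have hs0 : 0 < s := haE.1.trans hs
    rcases lg_or C hs0 hsk hD with h2 | h2
    · exact h2
    · exfalso
      rcases lt_trichotomy s t with h3 | h3 | h3
      · exact hno s ⟨hs, h3⟩ h2
      · rw [h3] at h2
        exact dl_ex t h h2
      · exact hB ⟨s, h3, h2⟩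

theorem good_of_ev (C : Ctx F γ lam ell) {κ D : Set ℂ} (K : Cut γ κ)
    (hD : IsCmp (XX γ ∪ κ) D) (hb : Bornology.IsBounded D) {T : ℝ}
    (h : ∀ t, T < t → γ t ∉ closure κ → LG ell D t) (h1 : ∀ s, 0 < s → s ≤ 1 → LG ell Dᶜ s) :
    ∃ t0, Good γ ell κ D t0 := by
  have hT : ∀ s, 0 < s → LG ell Dᶜ s → s ≤ T := by
    intro s hs hN
    by_contra hcon
    have hTs := not_le.1 hcon
    obtain ⟨ε, hε, hball⟩ := Metric.eventually_nhds_iff.1 hN.nhds
    obtain ⟨δ, hδ, hfree⟩ := dl_free K.fin (a := s)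
    have hm : 0 < min ε δ := lt_min hε hδ
    have hm1 := min_le_left ε δ
    have hm2 := min_le_right ε δ
    have h2 : LG ell Dᶜ (s + min ε δ / 2) := hball (by
      rw [Real.dist_eq, abs_lt]
      constructor <;> linarith)
    have h3 : s + min ε δ / 2 ∉ {t : ℝ | 0 < t ∧ γ t ∈ closure κ} := hfree _ (by
      rw [abs_lt]
      constructor <;> linarith) (by linarith)
    have h4 : γ (s + min ε δ / 2) ∉ closure κ := fun hk => h3 ⟨by linarith, hk⟩
    exact dl_ex _ (h _ (by linarith) h4) h2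
  have hT1 : 1 ≤ T := hT 1 one_pos (h1 1 one_pos le_rfl)
  obtain ⟨a, ha1, hat, haE, hbef, hno⟩ := dl_left K.fin (P := fun s => LG ell D s)
    (N := fun s => LG ell Dᶜ s) (fun s hs => hs.nhds) (fun s hs => hs.nhds)
    (fun s hP hN => dl_ex s hP hN) (dl_or C hD) (dl_co C hD) (s1 := 1) (τ := T + 1) (τ' := T)
    one_pos (by linarith) (h1 1 one_pos le_rfl) (by linarith) (fun s hs _ hN => hT s hs hN)
  refine ⟨a, ⟨K, hD, hb, haE.1, haE.2, ?_, hbef⟩⟩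
  intro s hs hsk
  have hs0 : 0 < s := haE.1.trans hs
  rcases lg_or C hs0 hsk hD with h2 | h2
  · exact h2
  · exfalso
    exact hno s ⟨hs, by linarith [hT s hs0 h2]⟩ h2

end Pool.Agent.HE
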