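import Pool.Agent.HE.EntSeq

set_option autoImplicit false

/-!
HE-EntLim. The linearising entire curve of a map with diagonal linear part.

The sequence `phi G μ n` converges locally uniformly to an entire curve `ψ` with `G (ψ z) = ψ (μ z)`.
-/

namespace Pool.Agent.HE

open Set Topology Filter

private theorem phi_add {G : ℂ × ℂ → ℂ × ℂ} (μ : ℂ) (n m : ℕ) (z : ℂ) :
    phi G μ (n + m) z = G^[m] (phi G μ n (z / μ ^ m)) := by
  unfold phi
  rw [add_comm n m, Function.iterate_add_apply, pow_add, div_div]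

private theorem small {μ : ℂ} (hμ : 1 < ‖μ‖) {δ : ℝ} (hδ : 0 < δ) (z : ℂ) :
    ∃ m : ℕ, ‖z / μ ^ m‖ < δ := by
  obtain ⟨m, hm⟩ := pow_unbounded_of_one_lt (‖z‖ / δ) hμ
  refine ⟨m, ?_⟩
  have h1 : 0 < ‖μ‖ ^ m := pow_pos (by linarith) m
  rw [norm_div, norm_pow, div_lt_iff₀ h1]
  rw [div_lt_iff₀ hδ] at hm
  linarith

private theorem phi_diff {G : ℂ × ℂ → ℂ × ℂ} (hG : Differentiable ℂ G) (μ : ℂ) (n : ℕ) :
    Differentiable ℂ (phi G μ n) := by
  have h1 : Differentiable ℂ (fun z : ℂ => ((z / μ ^ n, 0) : ℂ × ℂ)) :=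
    (differentiable_id.div_const _).prodMk (differentiable_const _)
  exact (hG.iterate n).comp h1

theorem ent_lim {G : ℂ × ℂ → ℂ × ℂ} {μ ν : ℂ} {K ρ : ℝ} (H : QE G μ ν K ρ)
    (hG : Differentiable ℂ G) :
    ∃ ψ : ℂ → ℂ × ℂ, Differentiable ℂ ψ ∧
      (∀ z, Tendsto (fun n => phi G μ n z) atTop (𝓝 (ψ z))) ∧ ψ 0 = 0 ∧
      HasDerivAt ψ ((1, 0) : ℂ × ℂ) 0 ∧ ∀ z, G (ψ z) = ψ (μ * z) := by
  obtain ⟨δ, hδ, B, hB, hS⟩ := ent_seq H
  have hμ := H.hμ
  have hμ0 : μ ≠ 0 := by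
    intro h
    rw [h, norm_zero] at hμ
    linarith
  have hr : ‖μ‖⁻¹ < 1 := inv_lt_one_of_one_lt₀ hμ
  have hr0 : 0 ≤ ‖μ‖⁻¹ := by positivity
  have hstep : ∀ z : ℂ, ‖z‖ ≤ δ → ∀ n, dist (phi G μ n z) (phi G μ (n + 1) z) ≤ B * ‖μ‖⁻¹ ^ n := by
    intro z hz n
    rw [dist_comm, dist_eq_norm, inv_pow, ← div_eq_mul_inv]
    exact (hS n z hz).2.1
  -- convergence
  have hconv : ∀ z, ∃ a, Tendsto (fun n => phi G μ n z) atTop (𝓝 a) := by
    intro z
    obtain ⟨m, hm⟩ := small hμ hδ z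
    have h1 := cauchySeq_of_le_geometric _ _ hr (hstep (z / μ ^ m) hm.le)
    obtain ⟨a, ha⟩ := cauchySeq_tendsto_of_complete h1
    refine ⟨G^[m] a, ?_⟩
    rw [← tendsto_add_atTop_iff_nat m]
    simp only [phi_add]
    exact ((hG.continuous.iterate m).tendsto a).comp ha
  choose ψ hψ using hconv
  have hfun : ∀ (m : ℕ) (z : ℂ), ψ z = G^[m] (ψ (z / μ ^ m)) := by
    intro m z
    have h1 : Tendsto (fun n => phi G μ (n + m) z) atTop (𝓝 (ψ z)) :=
      (tendsto_add_atTop_iff_nat m).mpr (hψ z)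
    have h2 : Tendsto (fun n => phi G μ (n + m) z) atTop (𝓝 (G^[m] (ψ (z / μ ^ m)))) := by
      simp only [phi_add]
      exact ((hG.continuous.iterate m).tendsto _).comp (hψ (z / μ ^ m))
    exact tendsto_nhds_unique h1 h2
  -- uniform convergence near zero
  have hunif : TendstoUniformlyOn (phi G μ) ψ atTop (Metric.ball 0 δ) := by
    rw [Metric.tendstoUniformlyOn_iff]
    intro ε hε
    have h1 : Tendsto (fun n : ℕ => B * ‖μ‖⁻¹ ^ n / (1 - ‖μ‖⁻¹)) atTop (𝓝 0) := by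
      have h2 := (tendsto_pow_atTop_nhds_zero_of_lt_one hr0 hr).const_mul B
      have h3 := h2.div_const (1 - ‖μ‖⁻¹)
      rw [mul_zero, zero_div] at h3
      exact h3
    filter_upwards [h1.eventually (gt_mem_nhds hε)] with n hn z hz
    rw [Metric.mem_ball, dist_zero_right] at hz
    rw [dist_comm]
    exact lt_of_le_of_lt (dist_le_of_le_geometric_of_tendsto _ _ hr (hstep z hz.le) (hψ z) n) hn
  have hball : DifferentiableOn ℂ ψ (Metric.ball 0 δ) :=
    hunif.tendstoLocallyUniformlyOn.differentiableOn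
      (Eventually.of_forall fun n => (phi_diff hG μ n).differentiableOn) Metric.isOpen_ball
  have hdiff : Differentiable ℂ ψ := by
    intro z
    obtain ⟨m, hm⟩ := small hμ hδ z
    have h1 : ψ = G^[m] ∘ ψ ∘ (fun z => z / μ ^ m) := funext fun z => hfun m z
    rw [h1]
    have h2 : DifferentiableAt ℂ ψ (z / μ ^ m) :=
      hball.differentiableAt (Metric.isOpen_ball.mem_nhds (by
        rw [Metric.mem_ball, dist_zero_right]
        exact hm))
    exact ((hG.iterate m) _).comp z (h2.comp z (differentiableAt_id.div_const _))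
  have h0 : ψ 0 = 0 := by
    have h1 : ∀ n, phi G μ n 0 = 0 := by
      intro n
      have h2 := (hS n 0 (by rw [norm_zero]; exact hδ.le)).1
      rw [norm_zero, mul_zero] at h2
      exact norm_le_zero_iff.mp h2
    have h2 := hψ 0
    simp only [h1] at h2
    exact tendsto_nhds_unique h2 tendsto_const_nhds
  refine ⟨ψ, hdiff, hψ, h0, ?_, ?_⟩
  · have hbd : ∀ z : ℂ, ‖z‖ ≤ δ → ‖ψ z - (z, 0)‖ ≤ B * ‖z‖ ^ 2 := by
      intro z hz
      have h1 : Tendsto (fun n => ‖phi G μ n z - (z, 0)‖) atTop (𝓝 ‖ψ z - (z, 0)‖) :=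
        ((hψ z).sub_const _).norm
      exact le_of_tendsto' h1 fun n => (hS n z hz).2.2
    have hO : (fun z : ℂ => ψ z - ((z, 0) : ℂ × ℂ)) =O[𝓝 0] fun z => ‖z - 0‖ ^ 2 := by
      refine Asymptotics.IsBigO.of_bound B ?_
      filter_upwards [Metric.closedBall_mem_nhds (0 : ℂ) hδ] with z hz
      rw [Metric.mem_closedBall, dist_zero_right] at hz
      rw [sub_zero, norm_pow, norm_norm]
      exact hbd z hz
    have h1 : HasFDerivAt (fun z : ℂ => ψ z - ((z, 0) : ℂ × ℂ)) (0 : ℂ →L[ℂ] ℂ × ℂ) 0 :=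
      hO.hasFDerivAt one_lt_two
    have h2 : HasDerivAt (fun z : ℂ => ψ z - ((z, 0) : ℂ × ℂ)) 0 0 := by
      have := h1.hasDerivAt
      simpa using this
    have h3 : HasDerivAt (fun z : ℂ => ((z, 0) : ℂ × ℂ)) (1, 0) 0 :=
      (hasDerivAt_id (0 : ℂ)).prodMk (hasDerivAt_const _ _)
    have h4 := h2.add h3
    rw [zero_add] at h4
    refine h4.congr_of_eventuallyEq (Eventually.of_forall fun z => ?_)
    show ψ z = ψ z - (z, 0) + (z, 0)
    rw [sub_add_cancel]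
  · intro z
    have h1 := hfun 1 (μ * z)
    rw [Function.iterate_one, pow_one, mul_div_cancel_left₀ _ hμ0] at h1
    exact h1.symm

end Pool.Agent.HE
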