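import Pool.Agent.HE.EntLin
import Pool.Agent.HE.EntLim

set_option autoImplicit false

/-!
HE-EntAbs. Existence of the linearising entire injective immersion.

In the coordinates of `diag_basis` the map is `G1 w = P.symm (G (cx q + P w) - cx q)`; `ent_lim` gives `ψ1`, and
`ψ z = cx q + P (ψ1 z)`. Immersion and injectivity hold near `0` and are propagated by `G (ψ z) = ψ (μ z)`.
-/

namespace Pool.Agent.HE

open Set Topology Filter Pool.Agent.HD

/-- the real points -/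
private def eaS : Set (ℂ × ℂ) := {w | w.1.im = 0 ∧ w.2.im = 0}

private theorem eaS_closed : IsClosed eaS := by
  have h1 : IsClosed {w : ℂ × ℂ | w.1.im = 0} :=
    isClosed_eq (Complex.continuous_im.comp continuous_fst) continuous_const
  have h2 : IsClosed {w : ℂ × ℂ | w.2.im = 0} :=
    isClosed_eq (Complex.continuous_im.comp continuous_snd) continuous_const
  exact h1.inter h2

private theorem eaS_cx (z : ℂ) : cx z ∈ eaS := by
  constructor <;> simp [cx]

private theorem eaS_eq {w : ℂ × ℂ} (h : w ∈ eaS) : w = cx (rp w) := by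
  refine Prod.ext ?_ ?_
  · refine Complex.ext ?_ ?_
    · simp [cx, rp]
    · simp only [cx, Complex.ofReal_im]
      exact h.1
  · refine Complex.ext ?_ ?_
    · simp [cx, rp]
    · simp only [cx, Complex.ofReal_im]
      exact h.2

private theorem eaS_add {w w' : ℂ × ℂ} (h : w ∈ eaS) (h' : w' ∈ eaS) : w + w' ∈ eaS := by
  constructor
  · rw [Prod.fst_add, Complex.add_im, h.1, h'.1, add_zero]
  · rw [Prod.snd_add, Complex.add_im, h.2, h'.2, add_zero]

private theorem eaS_sub {w w' : ℂ × ℂ} (h : w ∈ eaS) (h' : w' ∈ eaS) : w - w' ∈ eaS := by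
  constructor
  · rw [Prod.fst_sub, Complex.sub_im, h.1, h'.1, sub_zero]
  · rw [Prod.snd_sub, Complex.sub_im, h.2, h'.2, sub_zero]

private theorem eaS_map {f : ℂ × ℂ → ℂ × ℂ} (hf : ∀ z, ∃ z', f (cx z) = cx z') {w : ℂ × ℂ}
    (h : w ∈ eaS) : f w ∈ eaS := by
  rw [eaS_eq h]
  obtain ⟨z', hz'⟩ := hf (rp w)
  rw [hz']
  exact eaS_cx z'

/-- injectivity near a point of nonzero derivative -/
private theorem ea_locinj {ψ : ℂ → ℂ × ℂ} {v : ℂ × ℂ} (h : HasStrictDerivAt ψ v 0) (hv : v ≠ 0) :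
    ∃ δ > 0, ∀ x y : ℂ, ‖x‖ < δ → ‖y‖ < δ → ψ x = ψ y → x = y := by
  have hv0 : 0 < ‖v‖ := norm_pos_iff.2 hv
  have h1 := h.hasStrictFDerivAt.isLittleO.def (half_pos hv0)
  rw [Metric.eventually_nhds_iff] at h1
  obtain ⟨δ, hδ, h2⟩ := h1
  refine ⟨δ, hδ, fun x y hx hy hxy => ?_⟩
  have h3 : dist (x, y) ((0 : ℂ), (0 : ℂ)) < δ := by
    rw [Prod.dist_eq, dist_zero_right, dist_zero_right]
    exact max_lt hx hy
  have h4 := h2 h3
  simp only [hxy, sub_self, zero_sub, norm_neg] at h4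
  have h5 : ‖(ContinuousLinearMap.toSpanSingleton ℂ v) (x - y)‖ = ‖x - y‖ * ‖v‖ := by
    rw [ContinuousLinearMap.toSpanSingleton_apply, norm_smul]
  by_contra hne
  have h6 : 0 < ‖x - y‖ := norm_pos_iff.2 (sub_ne_zero.2 hne)
  have h7 : ‖x - y‖ * ‖v‖ ≤ ‖v‖ / 2 * ‖x - y‖ := by
    rw [← h5]
    exact h4
  nlinarith [mul_pos h6 hv0]

theorem ent_abs {G : ℂ × ℂ → ℂ × ℂ} (hG : ContDiff ℂ 2 G) (hinj : Function.Injective G)
    (hder : ∀ w, Function.Injective (fderiv ℂ G w)) (hreal : ∀ z, ∃ z', G (cx z) = cx z') {q : ℂ}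
    (hq : G (cx q) = cx q) {M : M2} (hM : HasFDerivAt G (LC M) (cx q)) {μ ν : ℝ}
    (ht : tr M = μ + ν) (hd : dt M = μ * ν) (hμ : 1 < |μ|) (hν : |ν| < |μ|) :
    ∃ ψ, Ent G μ q ψ := by
  have hne : μ ≠ ν := by
    rintro rfl
    exact lt_irrefl _ hν
  have hμ0 : (μ : ℂ) ≠ 0 := by
    intro h
    have h1 : μ = 0 := by exact_mod_cast h
    rw [h1, abs_zero] at hμ
    linarith
  have hμn : 1 < ‖(μ : ℂ)‖ := by
    rw [Complex.norm_real]
    exact hμ
  obtain ⟨P, hP, hPr, hPsr⟩ := diag_basis hne ht hd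
  obtain ⟨G1, hG1⟩ : ∃ G1 : ℂ × ℂ → ℂ × ℂ, G1 = fun w => P.symm (G (cx q + P w) - cx q) :=
    ⟨_, rfl⟩
  have hG1d : ContDiff ℂ 2 G1 := by
    rw [hG1]
    exact P.symm.contDiff.comp ((hG.comp (contDiff_const.add P.contDiff)).sub contDiff_const)
  have hG10 : G1 0 = 0 := by
    rw [hG1]
    simp only
    rw [map_zero, add_zero, hq, sub_self, map_zero]
  have hf1 : HasFDerivAt G1 ((P.symm : (ℂ × ℂ) →L[ℂ] (ℂ × ℂ)).comp ((LC M).comp
      (P : (ℂ × ℂ) →L[ℂ] (ℂ × ℂ)))) 0 := by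
    rw [hG1]
    refine P.symm.hasFDerivAt.comp (0 : ℂ × ℂ) (HasFDerivAt.sub_const _ ?_)
    have h1 : HasFDerivAt (fun w => cx q + P w) (P : (ℂ × ℂ) →L[ℂ] (ℂ × ℂ)) (0 : ℂ × ℂ) :=
      (P.hasFDerivAt).const_add _
    have h2 : HasFDerivAt G (LC M) (cx q + P 0) := by
      rw [map_zero, add_zero]
      exact hM
    exact h2.comp (0 : ℂ × ℂ) h1
  have hf2 : ∀ w : ℂ × ℂ, fderiv ℂ G1 0 w = ((μ : ℂ) * w.1, (ν : ℂ) * w.2) := by
    intro w
    rw [hf1.fderiv]
    show P.symm (LC M (P w)) = _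
    rw [hP, ContinuousLinearEquiv.symm_apply_apply]
  obtain ⟨K, hK, ρ, hρ, hest⟩ := quad_est hG1d
  have hQE : QE G1 (μ : ℂ) (ν : ℂ) K ρ := by
    refine ⟨hG10, hμn, ?_, hK, hρ, ?_⟩
    · rw [Complex.norm_real, Complex.norm_real]
      exact hν.le
    · intro w w' hw hw'
      have h1 := hest w w' hw hw'
      rw [hf2] at h1
      exact h1
  obtain ⟨ψ1, hd1, ht1, h01, hder1, hconj1⟩ := ent_lim hQE (hG1d.differentiable (by norm_num))
  have hPG : ∀ w, P (G1 w) = G (cx q + P w) - cx q := by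
    intro w
    rw [hG1]
    simp only
    rw [ContinuousLinearEquiv.apply_symm_apply]
  obtain ⟨ψ, hψ⟩ : ∃ ψ : ℂ → ℂ × ℂ, ψ = fun z => cx q + P (ψ1 z) := ⟨_, rfl⟩
  have hdiff : Differentiable ℂ ψ := by
    rw [hψ]
    exact (P.differentiable.comp hd1).const_add _
  have hconj : ∀ z, G (ψ z) = ψ (μ * z) := by
    intro z
    rw [hψ]
    simp only
    rw [← hconj1, hPG]
    abel
  have hzero : ψ 0 = cx q := by
    rw [hψ]
    simp only
    rw [h01, map_zero, add_zero]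
  have hd0 : HasDerivAt ψ (P ((1, 0) : ℂ × ℂ)) 0 := by
    rw [hψ]
    have h1 : HasDerivAt (fun z => P (ψ1 z)) (P ((1, 0) : ℂ × ℂ)) 0 :=
      (P : (ℂ × ℂ) →L[ℂ] (ℂ × ℂ)).hasFDerivAt.comp_hasDerivAt (0 : ℂ) hder1
    exact h1.const_add _
  have hP10 : P ((1, 0) : ℂ × ℂ) ≠ 0 := by
    intro h
    have h1 : ((1, 0) : ℂ × ℂ) = 0 := by
      rw [← P.symm_apply_apply ((1, 0) : ℂ × ℂ), h, map_zero]
    exact one_ne_zero (congrArg Prod.fst h1)
  have hcont : Continuous (deriv ψ) :=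
    (hdiff.contDiff (n := 1)).continuous_deriv le_rfl
  have hiter : ∀ (n : ℕ) (z : ℂ), G^[n] (ψ z) = ψ ((μ : ℂ) ^ n * z) := by
    intro n
    induction n with
    | zero =>
      intro z
      rw [Function.iterate_zero, id, pow_zero, one_mul]
    | succ n ih =>
      intro z
      rw [Function.iterate_succ_apply', ih, hconj, pow_succ']
      congr 1
      ring
  have htend : ∀ z : ℂ, Tendsto (fun n : ℕ => z / (μ : ℂ) ^ n) atTop (𝓝 0) := by
    intro z
    have h1 : Tendsto (fun n : ℕ => ((μ : ℂ)⁻¹) ^ n) atTop (𝓝 0) := by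
      apply tendsto_pow_atTop_nhds_zero_of_norm_lt_one
      rw [norm_inv]
      exact inv_lt_one_of_one_lt₀ hμn
    have h2 := h1.const_mul z
    rw [mul_zero] at h2
    refine h2.congr fun n => ?_
    rw [inv_pow, div_eq_mul_inv]
  have hstep : ∀ w, deriv ψ w ≠ 0 → deriv ψ ((μ : ℂ) * w) ≠ 0 := by
    intro w hw h0
    apply hw
    apply hder (ψ w)
    rw [map_zero]
    have h1 : HasDerivAt (fun z => G (ψ z)) (fderiv ℂ G (ψ w) (deriv ψ w)) w :=
      ((hG.differentiable (by norm_num)) (ψ w)).hasFDerivAt.comp_hasDerivAt w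
        (hdiff w).hasDerivAt
    have h2 : HasDerivAt (fun z => ψ ((μ : ℂ) * z)) ((μ : ℂ) • deriv ψ ((μ : ℂ) * w)) w := by
      have h3 : HasDerivAt (fun z : ℂ => (μ : ℂ) * z) (μ : ℂ) w := by
        simpa using (hasDerivAt_id w).const_mul (μ : ℂ)
      exact (hdiff ((μ : ℂ) * w)).hasDerivAt.scomp w h3
    have h4 : (fun z => G (ψ z)) = fun z => ψ ((μ : ℂ) * z) := funext hconj
    rw [h4] at h1
    rw [h1.unique h2, h0, smul_zero]
  have hstepn : ∀ (n : ℕ) (w : ℂ), deriv ψ w ≠ 0 → deriv ψ ((μ : ℂ) ^ n * w) ≠ 0 := by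
    intro n
    induction n with
    | zero =>
      intro w hw
      rw [pow_zero, one_mul]
      exact hw
    | succ n ih =>
      intro w hw
      rw [pow_succ', mul_assoc]
      exact hstep _ (ih w hw)
  obtain ⟨δ, hδ, hloc⟩ := ea_locinj
    (((hdiff.contDiff (n := 1)).contDiffAt).hasStrictDerivAt' hd0 one_ne_zero) hP10
  refine ⟨ψ, hdiff, ?_, ?_, hconj, hzero, ?_⟩
  · intro z1 z2 h
    have e1 : ∀ᶠ n : ℕ in atTop, ‖z1 / (μ : ℂ) ^ n‖ < δ := by
      have := (htend z1).norm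
      rw [norm_zero] at this
      exact this.eventually (gt_mem_nhds hδ)
    have e2 : ∀ᶠ n : ℕ in atTop, ‖z2 / (μ : ℂ) ^ n‖ < δ := by
      have := (htend z2).norm
      rw [norm_zero] at this
      exact this.eventually (gt_mem_nhds hδ)
    obtain ⟨n, hn1, hn2⟩ := (e1.and e2).exists
    have hpn : (μ : ℂ) ^ n ≠ 0 := pow_ne_zero n hμ0
    have h1 : ψ (z1 / (μ : ℂ) ^ n) = ψ (z2 / (μ : ℂ) ^ n) := by
      apply hinj.iterate n
      rw [hiter, hiter, mul_div_cancel₀ _ hpn, mul_div_cancel₀ _ hpn]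
      exact h
    have h2 := hloc _ _ hn1 hn2 h1
    rw [div_left_inj' hpn] at h2
    exact h2
  · intro z
    have e1 : ∀ᶠ n : ℕ in atTop, deriv ψ (z / (μ : ℂ) ^ n) ≠ 0 := by
      have h1 : Tendsto (fun n : ℕ => deriv ψ (z / (μ : ℂ) ^ n)) atTop (𝓝 (deriv ψ 0)) :=
        (hcont.tendsto 0).comp (htend z)
      have h2 : deriv ψ 0 ≠ 0 := by
        rw [hd0.deriv]
        exact hP10
      exact h1.eventually_ne h2
    obtain ⟨n, hn⟩ := e1.exists
    have h1 := hstepn n _ hn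
    rw [mul_div_cancel₀ _ (pow_ne_zero n hμ0)] at h1
    exact h1
  · intro t
    apply eaS_eq
    have hG1S : ∀ w ∈ eaS, G1 w ∈ eaS := by
      intro w hw
      rw [hG1]
      exact eaS_map hPsr (eaS_sub (eaS_map hreal (eaS_add (eaS_cx q) (eaS_map hPr hw)))
        (eaS_cx q))
    have hit : ∀ (n : ℕ) (w : ℂ × ℂ), w ∈ eaS → G1^[n] w ∈ eaS := by
      intro n
      induction n with
      | zero =>
        intro w hw
        exact hw
      | succ n ih =>
        intro w hw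
        rw [Function.iterate_succ_apply']
        exact hG1S _ (ih w hw)
    have h1 : ψ1 t ∈ eaS := by
      refine eaS_closed.mem_of_tendsto (ht1 t) (Eventually.of_forall fun n => ?_)
      unfold phi
      apply hit
      constructor
      · show ((t : ℂ) / (μ : ℂ) ^ n).im = 0
        rw [← Complex.ofReal_pow, ← Complex.ofReal_div, Complex.ofReal_im]
      · show (0 : ℂ).im = 0
        exact Complex.zero_im
    rw [hψ]
    exact eaS_add (eaS_cx q) (eaS_map hPr h1)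

end Pool.Agent.HE
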