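import Pool.Agent.HE.HDefs
import Pool.Agent.HD.Fd

set_option autoImplicit false

/-!
HE-HDer. Derivatives of the iterates of the Henon map: strict derivatives of the iterates of the complex and of the
real map at the real points in terms of the matrix `mat`, and the derivative of the inverse iterate at a periodic point.
-/

namespace Pool.Agent.HE

open Set Topology Filter Pool.Agent.HD

/-- points of the plane as pairs -/
def pr (z : ℂ) : ℝ × ℝ := (z.re, z.im)

theorem pr_fN (b c : ℝ) (hb : b ≠ 0) (N : ℕ) (z : ℂ) :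
    pr (fN b c hb N z) = (G 1 b c)^[N] (pr z) := by
  induction N with
  | zero => rfl
  | succ n ih =>
    rw [Function.iterate_succ_apply', ← ih]
    refine Prod.ext ?_ ?_
    · simp [pr, fN, fh, G]
    · simp [pr, fN, fh, G]

theorem gC_fC {b c : ℝ} (hb : b ≠ 0) (w : ℂ × ℂ) : gC b c (fC b c w) = w := by
  have hb' : (b : ℂ) ≠ 0 := Complex.ofReal_ne_zero.2 hb
  refine Prod.ext ?_ ?_
  · rfl
  · simp only [gC, fC]
    field_simp
    ring

theorem fC_gC {b c : ℝ} (hb : b ≠ 0) (w : ℂ × ℂ) : fC b c (gC b c w) = w := by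
  have hb' : (b : ℂ) ≠ 0 := Complex.ofReal_ne_zero.2 hb
  refine Prod.ext ?_ ?_
  · simp only [gC, fC]
    field_simp
    ring
  · rfl

theorem contDiff_fC (b c : ℝ) (N : ℕ) : ContDiff ℂ 2 ((fC b c)^[N]) := by
  induction N with
  | zero => exact contDiff_id
  | succ n ih =>
    rw [Function.iterate_succ']
    have h : ContDiff ℂ 2 (fC b c) := by
      unfold fC
      fun_prop
    exact h.comp ih

theorem contDiff_gC (b c : ℝ) (N : ℕ) : ContDiff ℂ 2 ((gC b c)^[N]) := by
  induction N with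
  | zero => exact contDiff_id
  | succ n ih =>
    rw [Function.iterate_succ']
    have h : ContDiff ℂ 2 (gC b c) := by
      have h1 : ContDiff ℂ 2 fun w : ℂ × ℂ => (w.2, (w.2 ^ 2 + c - w.1) * (b : ℂ)⁻¹) := by
        fun_prop
      exact h1
    exact h.comp ih

private lemma hder_left {f g : ℂ × ℂ → ℂ × ℂ} (hf : ContDiff ℂ 2 f) (hg : ContDiff ℂ 2 g)
    (h : ∀ w, g (f w) = w) (w : ℂ × ℂ) :
    (fderiv ℂ g (f w)).comp (fderiv ℂ f w) = ContinuousLinearMap.id ℂ (ℂ × ℂ) := by
  have h1 : HasFDerivAt f (fderiv ℂ f w) w := (hf.differentiable two_ne_zero w).hasFDerivAt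
  have h2 : HasFDerivAt g (fderiv ℂ g (f w)) (f w) :=
    (hg.differentiable two_ne_zero (f w)).hasFDerivAt
  have h3 := h2.comp w h1
  have h4 : g ∘ f = id := funext h
  rw [h4] at h3
  exact h3.unique (hasFDerivAt_id w)

private lemma hder_inj {f g : ℂ × ℂ → ℂ × ℂ} (hf : ContDiff ℂ 2 f) (hg : ContDiff ℂ 2 g)
    (h : ∀ w, g (f w) = w) (w : ℂ × ℂ) : Function.Injective (fderiv ℂ f w) := by
  have h1 := hder_left hf hg h w
  intro x y hxy
  have h2 := congrArg (fun L : (ℂ × ℂ) →L[ℂ] (ℂ × ℂ) => L x) h1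
  have h3 := congrArg (fun L : (ℂ × ℂ) →L[ℂ] (ℂ × ℂ) => L y) h1
  simp only [ContinuousLinearMap.comp_apply, ContinuousLinearMap.id_apply] at h2 h3
  rw [← h2, ← h3, hxy]

theorem fderiv_fC_inj {b c : ℝ} (hb : b ≠ 0) (N : ℕ) (w : ℂ × ℂ) :
    Function.Injective (fderiv ℂ ((fC b c)^[N]) w) :=
  hder_inj (contDiff_fC b c N) (contDiff_gC b c N)
    (Function.LeftInverse.iterate (fun w => gC_fC hb w) N) w

theorem fderiv_gC_inj {b c : ℝ} (hb : b ≠ 0) (N : ℕ) (w : ℂ × ℂ) :
    Function.Injective (fderiv ℂ ((gC b c)^[N]) w) :=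
  hder_inj (contDiff_gC b c N) (contDiff_fC b c N)
    (Function.LeftInverse.iterate (fun w => fC_gC hb w) N) w

private def cp (p : ℝ × ℝ) : ℂ × ℂ := ((p.1 : ℂ), (p.2 : ℂ))

private lemma fC_cp (b c : ℝ) (p : ℝ × ℝ) : fC b c (cp p) = cp (G 1 b c p) := by
  refine Prod.ext ?_ ?_
  · simp [fC, cp, G]
  · simp [fC, cp, G]

private lemma fC_iter_cp (b c : ℝ) (n : ℕ) (p : ℝ × ℝ) :
    (fC b c)^[n] (cp p) = cp ((G 1 b c)^[n] p) := by
  induction n with
  | zero => rfl
  | succ n ih => rw [Function.iterate_succ_apply', ih, fC_cp, Function.iterate_succ_apply']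

private lemma LC_one : LC ((1, 0), (0, 1)) = ContinuousLinearMap.id ℂ (ℂ × ℂ) := by
  refine ContinuousLinearMap.ext fun w => ?_
  rw [LC_apply]
  refine Prod.ext ?_ ?_
  · simp
  · simp

private lemma LC_mm (M N : M2) : LC (mm M N) = (LC M).comp (LC N) := by
  refine ContinuousLinearMap.ext fun w => ?_
  rw [ContinuousLinearMap.comp_apply, LC_apply, LC_apply, LC_apply]
  refine Prod.ext ?_ ?_
  · simp only [mm]
    push_cast
    ring
  · simp only [mm]
    push_cast
    ring

private lemma LR_one : LR ((1, 0), (0, 1)) = ContinuousLinearMap.id ℝ ℂ := by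
  refine ContinuousLinearMap.ext fun w => ?_
  rw [LR_apply]
  refine Complex.ext ?_ ?_
  · simp
  · simp

private lemma LR_mm (M N : M2) : LR (mm M N) = (LR M).comp (LR N) := by
  refine ContinuousLinearMap.ext fun w => ?_
  rw [ContinuousLinearMap.comp_apply, LR_apply, LR_apply, LR_apply]
  refine Complex.ext ?_ ?_
  · simp only [mm]
    ring
  · simp only [mm]
    ring

private lemma hder_fC1 (b c : ℝ) (p : ℝ × ℝ) :
    HasStrictFDerivAt (fC b c) (LC (der 1 b p)) (cp p) := by
  have h1 : HasStrictFDerivAt (fun p : ℂ × ℂ => p.1) (ContinuousLinearMap.fst ℂ ℂ ℂ) (cp p) :=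
    hasStrictFDerivAt_fst
  have h2 : HasStrictFDerivAt (fun p : ℂ × ℂ => p.2) (ContinuousLinearMap.snd ℂ ℂ ℂ) (cp p) :=
    hasStrictFDerivAt_snd
  have h3 := (((h1.pow 2).add_const (c : ℂ)).sub (h2.const_mul (b : ℂ))).prodMk h1
  refine h3.congr_fderiv ?_
  refine ContinuousLinearMap.ext fun v => ?_
  rw [LC_apply]
  refine Prod.ext ?_ ?_
  · simp [der, cp]
    ring
  · simp [der]

private lemma hder_fh1 (b c : ℝ) (hb : b ≠ 0) (z : ℂ) :
    HasStrictFDerivAt (fh b c hb) (LR (der 1 b (z.re, z.im))) z := by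
  have h1 : HasStrictFDerivAt (fun z : ℂ => z.re) Complex.reCLM z :=
    Complex.reCLM.hasStrictFDerivAt
  have h2 : HasStrictFDerivAt (fun z : ℂ => z.im) Complex.imCLM z :=
    Complex.imCLM.hasStrictFDerivAt
  have h3 := (((((h1.pow 2).add_const c).sub (h2.const_mul b)).smul_const (1 : ℂ))).add
    (h1.smul_const Complex.I)
  have h4 : (fun y : ℂ => (y.re ^ 2 + c - b * y.im) • (1 : ℂ) + y.re • Complex.I) = fh b c hb := by
    funext y
    refine Complex.ext ?_ ?_
    · simp only [fh, Complex.add_re, Complex.smul_re, Complex.one_re, Complex.I_re, smul_eq_mul,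
        mul_one, mul_zero, add_zero]
      rfl
    · simp only [fh, Complex.add_im, Complex.smul_im, Complex.one_im, Complex.I_im, smul_eq_mul,
        mul_one, mul_zero, zero_add]
      rfl
  have h5 : HasStrictFDerivAt
      (fun y : ℂ => (y.re ^ 2 + c - b * y.im) • (1 : ℂ) + y.re • Complex.I) _ z := h3
  rw [h4] at h5
  refine h5.congr_fderiv ?_
  refine ContinuousLinearMap.ext fun v => ?_
  rw [LR_apply]
  refine Complex.ext ?_ ?_
  · simp [der]
    ring
  · simp [der]

theorem hasStrict_fC (b c : ℝ) (N : ℕ) (q : ℂ) :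
    HasStrictFDerivAt ((fC b c)^[N]) (LC (mat b c N q)) (cx q) := by
  induction N with
  | zero =>
    rw [Function.iterate_zero]
    have : LC (mat b c 0 q) = ContinuousLinearMap.id ℂ (ℂ × ℂ) := LC_one
    rw [this]
    exact hasStrictFDerivAt_id _
  | succ n ih =>
    rw [Function.iterate_succ']
    have h1 : LC (mat b c (n + 1) q) =
        (LC (der 1 b ((G 1 b c)^[n] (q.re, q.im)))).comp (LC (mat b c n q)) := LC_mm _ _
    rw [h1]
    have h2 : (fC b c)^[n] (cx q) = cp ((G 1 b c)^[n] (q.re, q.im)) :=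
      fC_iter_cp b c n (q.re, q.im)
    have h3 := hder_fC1 b c ((G 1 b c)^[n] (q.re, q.im))
    rw [← h2] at h3
    exact h3.comp (cx q) ih

theorem hasStrict_fN (b c : ℝ) (hb : b ≠ 0) (N : ℕ) (q : ℂ) :
    HasStrictFDerivAt (fN b c hb N) (LR (mat b c N q)) q := by
  induction N with
  | zero =>
    have : LR (mat b c 0 q) = ContinuousLinearMap.id ℝ ℂ := LR_one
    rw [this]
    exact hasStrictFDerivAt_id _
  | succ n ih =>
    have h1 : LR (mat b c (n + 1) q) =
        (LR (der 1 b ((G 1 b c)^[n] (q.re, q.im)))).comp (LR (mat b c n q)) := LR_mm _ _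
    rw [h1]
    have h3 := hder_fh1 b c hb (fN b c hb n q)
    have h2 : ((fN b c hb n q).re, (fN b c hb n q).im) = (G 1 b c)^[n] (q.re, q.im) :=
      pr_fN b c hb n q
    rw [h2] at h3
    exact h3.comp q ih

theorem hasFDerivAt_gC {b c : ℝ} (hb : b ≠ 0) {N : ℕ} {q : ℂ} (hq : fN b c hb N q = q) :
    HasFDerivAt ((gC b c)^[N]) (LC ((b ^ N)⁻¹ • adj (mat b c N q))) (cx q) := by
  have hf : (fC b c)^[N] (cx q) = cx q := by rw [fC_iter_cx b c hb, hq]
  have h1 : HasFDerivAt ((gC b c)^[N]) (fderiv ℂ ((gC b c)^[N]) (cx q)) (cx q) :=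
    ((contDiff_gC b c N).differentiable two_ne_zero _).hasFDerivAt
  have h2 := hder_left (contDiff_fC b c N) (contDiff_gC b c N)
    (Function.LeftInverse.iterate (fun w => gC_fC hb w) N) (cx q)
  rw [hf, (hasStrict_fC b c N q).hasFDerivAt.fderiv] at h2
  have hbN : b ^ N ≠ 0 := pow_ne_zero N hb
  have h3 : mm (mat b c N q) ((b ^ N)⁻¹ • adj (mat b c N q)) = ((1, 0), (0, 1)) := by
    have h := dt_mat b c N q
    generalize mat b c N q = M at h
    obtain ⟨⟨x, y⟩, ⟨z, w⟩⟩ := M
    simp only [dt] at h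
    simp only [mm, adj, Prod.smul_mk, smul_eq_mul, Prod.mk.injEq]
    refine ⟨⟨?_, ?_⟩, ?_, ?_⟩
    · field_simp
      linarith
    · field_simp
      ring
    · field_simp
      ring
    · field_simp
      linarith
  have h4 : (LC (mat b c N q)).comp (LC ((b ^ N)⁻¹ • adj (mat b c N q))) =
      ContinuousLinearMap.id ℂ (ℂ × ℂ) := by
    rw [← LC_mm, h3, LC_one]
  have h5 : fderiv ℂ ((gC b c)^[N]) (cx q) = LC ((b ^ N)⁻¹ • adj (mat b c N q)) := by
    calc fderiv ℂ ((gC b c)^[N]) (cx q)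
        = (fderiv ℂ ((gC b c)^[N]) (cx q)).comp (ContinuousLinearMap.id ℂ (ℂ × ℂ)) := by
          rw [ContinuousLinearMap.comp_id]
      _ = ((fderiv ℂ ((gC b c)^[N]) (cx q)).comp (LC (mat b c N q))).comp
          (LC ((b ^ N)⁻¹ • adj (mat b c N q))) := by
          rw [← h4, ContinuousLinearMap.comp_assoc]
      _ = LC ((b ^ N)⁻¹ • adj (mat b c N q)) := by
          rw [h2, ContinuousLinearMap.id_comp]
  rw [← h5]
  exact h1

theorem mat_add (b c : ℝ) (hb : b ≠ 0) (m n : ℕ) (q : ℂ) :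
    mat b c (m + n) q = mm (mat b c m (fN b c hb n q)) (mat b c n q) := by
  have h2 : ((fN b c hb n q).re, (fN b c hb n q).im) = (G 1 b c)^[n] (q.re, q.im) :=
    pr_fN b c hb n q
  unfold mat
  rw [h2, add_comm m n, co_add]

/-- the continuous linear map of a matrix -/
private noncomputable def hdL (M : M2) : E2 →L[ℝ] E2 :=
  LinearMap.toContinuousLinearMap
    { toFun := act M, map_add' := act_add M, map_smul' := fun t v => act_smul M t v }

private lemma hdL_apply (M : M2) (v : E2) : hdL M v = act M v := rfl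

private lemma hdL_mm (M N : M2) : hdL (mm M N) = (hdL M).comp (hdL N) := by
  refine ContinuousLinearMap.ext fun v => ?_
  rw [ContinuousLinearMap.comp_apply, hdL_apply, hdL_apply, hdL_apply, act_mm]

private lemma hdL_one : hdL ((1, 0), (0, 1)) = ContinuousLinearMap.id ℝ E2 := by
  refine ContinuousLinearMap.ext fun v => ?_
  rw [ContinuousLinearMap.id_apply, hdL_apply, act_one]

private lemma hdL_G (a b c : ℝ) (p : E2) : HasFDerivAt (G a b c) (hdL (der a b p)) p := by
  have h1 : HasFDerivAt (fun p : E2 => p.1) (ContinuousLinearMap.fst ℝ ℝ ℝ) p := hasFDerivAt_fst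
  have h2 : HasFDerivAt (fun p : E2 => p.2) (ContinuousLinearMap.snd ℝ ℝ ℝ) p := hasFDerivAt_snd
  have h3 := ((((h1.pow 2).const_mul a).add_const c).sub (h2.const_mul b)).prodMk h1
  refine h3.congr_fderiv ?_
  refine ContinuousLinearMap.ext fun v => ?_
  rw [hdL_apply]
  refine Prod.ext ?_ ?_
  · simp [act, der]
    ring
  · simp [act, der]

private lemma hdL_hasFDerivAt (a b c : ℝ) (p : E2) (n : ℕ) :
    HasFDerivAt ((G a b c)^[n]) (hdL (co a b c p n)) p := by
  induction n with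
  | zero =>
    rw [Function.iterate_zero]
    have : hdL (co a b c p 0) = ContinuousLinearMap.id ℝ E2 := hdL_one
    rw [this]
    exact hasFDerivAt_id p
  | succ n ih =>
    rw [Function.iterate_succ']
    have : hdL (co a b c p (n + 1)) =
        (hdL (der a b ((G a b c)^[n] p))).comp (hdL (co a b c p n)) := hdL_mm _ _
    rw [this]
    exact (hdL_G a b c _).comp p ih

theorem fderiv_G (b c : ℝ) (N : ℕ) (q : ℂ) (v : ℝ × ℝ) :
    fderiv ℝ ((G 1 b c)^[N]) (pr q) v = act (mat b c N q) v := by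
  rw [(hdL_hasFDerivAt 1 b c (pr q) N).fderiv]
  rfl

end Pool.Agent.HE
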