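import Pool.Agent.HE.EntAbs
import Pool.Agent.HE.HDer

set_option autoImplicit false

/-!
HE-EntHen. Entire stable and unstable curves of the Henon map.
-/

namespace Pool.Agent.HE

open Set Topology Filter Pool.Agent.HD

theorem ent_u {b c : ℝ} (hb : b ≠ 0) {N : ℕ} {q : ℂ} (hq : fN b c hb N q = q) {μ ν : ℝ}
    (ht : tr (mat b c N q) = μ + ν) (hd : b ^ N = μ * ν) (hμ : 1 < |μ|) (hν : |ν| < |μ|) :
    ∃ ψ, Ent ((fC b c)^[N]) μ q ψ := by
  refine ent_abs (contDiff_fC b c N)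
    (Function.LeftInverse.iterate (fun w => gC_fC hb w) N).injective (fderiv_fC_inj hb N)
    (fun z => ⟨fN b c hb N z, fC_iter_cx b c hb N z⟩) ?_ (hasStrict_fC b c N q).hasFDerivAt ht
    ((dt_mat b c N q).trans hd) hμ hν
  rw [fC_iter_cx b c hb, hq]

theorem ent_s {b c : ℝ} (hb : b ≠ 0) {N : ℕ} {q : ℂ} (hq : fN b c hb N q = q) {μ ν : ℝ}
    (ht : tr (mat b c N q) = μ + ν) (hd : b ^ N = μ * ν) (hν : |ν| < 1) (hμ : |ν| < |μ|) :
    ∃ ψ, Ent ((fC b c)^[N]) ν q ψ := by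
  have hbN : b ^ N ≠ 0 := pow_ne_zero N hb
  have hμ0 : μ ≠ 0 := by
    intro h
    rw [hd, h, zero_mul] at hbN
    exact hbN rfl
  have hν0 : ν ≠ 0 := by
    intro h
    rw [hd, h, mul_zero] at hbN
    exact hbN rfl
  have hνa : 0 < |ν| := abs_pos.2 hν0
  have hμa : 0 < |μ| := abs_pos.2 hμ0
  have hleft : ∀ w, (gC b c)^[N] ((fC b c)^[N] w) = w :=
    Function.LeftInverse.iterate (fun w => gC_fC hb w) N
  have hright : ∀ w, (fC b c)^[N] ((gC b c)^[N] w) = w :=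
    Function.LeftInverse.iterate (fun w => fC_gC hb w) N
  have hreal : ∀ z, (gC b c)^[N] (cx z) = cx ((fN b c hb N).symm z) := by
    intro z
    have h1 := fC_iter_cx b c hb N ((fN b c hb N).symm z)
    rw [Homeomorph.apply_symm_apply] at h1
    rw [← h1, hleft]
  have hq' : (gC b c)^[N] (cx q) = cx q := by
    have h1 : (fC b c)^[N] (cx q) = cx q := by rw [fC_iter_cx b c hb, hq]
    have h2 := hleft (cx q)
    rwa [h1] at h2
  have ht' : tr ((b ^ N)⁻¹ • adj (mat b c N q)) = 1 / ν + 1 / μ := by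
    have h1 : tr ((b ^ N)⁻¹ • adj (mat b c N q)) = (b ^ N)⁻¹ * tr (mat b c N q) := by
      generalize mat b c N q = M
      obtain ⟨⟨x, y⟩, ⟨z, w⟩⟩ := M
      simp only [tr, adj, Prod.smul_mk, smul_eq_mul]
      ring
    rw [h1, ht, hd]
    field_simp
  have hd' : dt ((b ^ N)⁻¹ • adj (mat b c N q)) = 1 / ν * (1 / μ) := by
    have h1 : dt ((b ^ N)⁻¹ • adj (mat b c N q)) = (b ^ N)⁻¹ * (b ^ N)⁻¹ * dt (mat b c N q) := by
      generalize mat b c N q = M
      obtain ⟨⟨x, y⟩, ⟨z, w⟩⟩ := M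
      simp only [dt, adj, Prod.smul_mk, smul_eq_mul]
      ring
    rw [h1, dt_mat, hd]
    field_simp
  have hm1 : 1 < |1 / ν| := by
    rw [abs_div, abs_one, lt_div_iff₀ hνa]
    linarith
  have hm2 : |1 / μ| < |1 / ν| := by
    rw [abs_div, abs_div, abs_one]
    exact one_div_lt_one_div_of_lt hνa hμ
  obtain ⟨ψ, h⟩ := ent_abs (contDiff_gC b c N)
    (Function.LeftInverse.iterate (fun w => fC_gC hb w) N).injective (fderiv_gC_inj hb N)
    (fun z => ⟨(fN b c hb N).symm z, hreal z⟩) hq' (hasFDerivAt_gC hb hq) ht' hd' hm1 hm2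
  refine ⟨ψ, h.diff, h.inj, h.der, ?_, h.zero, h.real⟩
  intro z
  have h1 := h.conj ((ν : ℂ) * z)
  have hνc : (ν : ℂ) ≠ 0 := Complex.ofReal_ne_zero.2 hν0
  have h2 : ((1 / ν : ℝ) : ℂ) * ((ν : ℂ) * z) = z := by
    push_cast
    field_simp
  rw [h2] at h1
  rw [← h1, hright]

end Pool.Agent.HE
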