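import Pool.Agent.HE.HDefs

set_option autoImplicit false

/-!
HE-EntLin. Quadratic estimate for twice differentiable maps; diagonalisation of real matrices.

`quad_est`: mean value inequality and the Lipschitz property of the derivative near `0`. `diag_basis`: explicit real eigenvectors.
-/

namespace Pool.Agent.HE

open Set Topology Filter Pool.Agent.HD

theorem quad_est {G : ℂ × ℂ → ℂ × ℂ} (hG : ContDiff ℂ 2 G) :
    ∃ K ≥ 0, ∃ ρ > 0, ∀ w w' : ℂ × ℂ, ‖w‖ ≤ ρ → ‖w'‖ ≤ ρ →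
      ‖G w - G w' - fderiv ℂ G 0 (w - w')‖ ≤ K * (‖w‖ + ‖w'‖) * ‖w - w'‖ := by
  have h1 : ContDiff ℂ 1 (fderiv ℂ G) := hG.fderiv_right (m := 1) (by norm_num)
  obtain ⟨K, t, ht, hK⟩ := (h1.contDiffAt (x := (0 : ℂ × ℂ))).exists_lipschitzOnWith
  obtain ⟨ε, hε, hball⟩ := Metric.mem_nhds_iff.1 ht
  refine ⟨K, K.2, ε / 2, half_pos hε, ?_⟩
  intro w w' hw hw'
  set m : ℝ := max ‖w‖ ‖w'‖ with hm
  have hm0 : 0 ≤ m := (norm_nonneg w).trans (le_max_left _ _)
  have hme : m < ε := lt_of_le_of_lt (max_le hw hw') (half_lt_self hε)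
  have h0 : (0 : ℂ × ℂ) ∈ t := hball (Metric.mem_ball_self hε)
  have h2 : ∀ v ∈ Metric.closedBall (0 : ℂ × ℂ) m, ‖fderiv ℂ G v - fderiv ℂ G 0‖ ≤ K * m := by
    intro v hv
    have hv1 : ‖v‖ ≤ m := by simpa using hv
    have hvt : v ∈ t := hball (by simpa using lt_of_le_of_lt hv1 hme)
    have h3 := hK.dist_le_mul v hvt 0 h0
    rw [dist_eq_norm, dist_zero_right] at h3
    exact h3.trans (mul_le_mul_of_nonneg_left hv1 K.2)
  have h4 := Convex.norm_image_sub_le_of_norm_fderiv_le' (𝕜 := ℂ) (f := G) (φ := fderiv ℂ G 0)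
    (fun v _ => (hG.differentiable (by norm_num)) v) h2 (convex_closedBall (0 : ℂ × ℂ) m)
    (x := w') (y := w) (by simp [hm]) (by simp [hm])
  refine h4.trans (mul_le_mul_of_nonneg_right (mul_le_mul_of_nonneg_left ?_ K.2) (norm_nonneg _))
  exact max_le_add_of_nonneg (norm_nonneg _) (norm_nonneg _)

private theorem lc_cx (M : M2) (z : ℂ) : LC M (cx z) = cx (LR M z) := by
  rw [LC_apply, LR_apply]
  refine Prod.ext ?_ ?_
  · simp [cx]
  · simp [cx]

private theorem db_aux {M : M2} {μ ν : ℝ} (x y : ℝ × ℝ)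
    (hx1 : M.1.1 * x.1 + M.1.2 * x.2 = μ * x.1) (hx2 : M.2.1 * x.1 + M.2.2 * x.2 = μ * x.2)
    (hy1 : M.1.1 * y.1 + M.1.2 * y.2 = ν * y.1) (hy2 : M.2.1 * y.1 + M.2.2 * y.2 = ν * y.2)
    (hD : x.1 * y.2 - x.2 * y.1 ≠ 0) :
    ∃ P : (ℂ × ℂ) ≃L[ℂ] (ℂ × ℂ), (∀ w : ℂ × ℂ, LC M (P w) = P ((μ : ℂ) * w.1, (ν : ℂ) * w.2)) ∧
      (∀ z, ∃ z', P (cx z) = cx z') ∧ ∀ z, ∃ z', P.symm (cx z) = cx z' := by
  set Q : M2 := ((x.1, y.1), (x.2, y.2)) with hQ
  set D : ℝ := x.1 * y.2 - x.2 * y.1 with hDD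
  set Q' : M2 := ((y.2 / D, -y.1 / D), (-x.2 / D, x.1 / D)) with hQ'
  have hDc : (D : ℂ) ≠ 0 := Complex.ofReal_ne_zero.2 hD
  have hDe : (D : ℂ) = x.1 * y.2 - x.2 * y.1 := by
    rw [hDD]
    push_cast
    ring
  clear_value D
  have hl : Function.LeftInverse (LC Q') (LC Q) := by
    intro w
    rw [LC_apply, LC_apply]
    refine Prod.ext ?_ ?_
    · simp only [hQ, hQ']
      push_cast
      field_simp
      linear_combination (-w.1) * hDe
    · simp only [hQ, hQ']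
      push_cast
      field_simp
      linear_combination (-w.2) * hDe
  have hr : Function.RightInverse (LC Q') (LC Q) := by
    intro w
    rw [LC_apply, LC_apply]
    refine Prod.ext ?_ ?_
    · simp only [hQ, hQ']
      push_cast
      field_simp
      linear_combination (-w.1) * hDe
    · simp only [hQ, hQ']
      push_cast
      field_simp
      linear_combination (-w.2) * hDe
  refine ⟨ContinuousLinearEquiv.equivOfInverse (LC Q) (LC Q') hl hr, ?_, ?_, ?_⟩
  · intro w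
    show LC M (LC Q w) = LC Q ((μ : ℂ) * w.1, (ν : ℂ) * w.2)
    rw [LC_apply, LC_apply, LC_apply]
    have e1 : (M.1.1 : ℂ) * x.1 + M.1.2 * x.2 = μ * x.1 := by exact_mod_cast hx1
    have e2 : (M.2.1 : ℂ) * x.1 + M.2.2 * x.2 = μ * x.2 := by exact_mod_cast hx2
    have e3 : (M.1.1 : ℂ) * y.1 + M.1.2 * y.2 = ν * y.1 := by exact_mod_cast hy1
    have e4 : (M.2.1 : ℂ) * y.1 + M.2.2 * y.2 = ν * y.2 := by exact_mod_cast hy2
    refine Prod.ext ?_ ?_
    · simp only [hQ]
      linear_combination w.1 * e1 + w.2 * e3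
    · simp only [hQ]
      linear_combination w.1 * e2 + w.2 * e4
  · intro z
    exact ⟨LR Q z, lc_cx Q z⟩
  · intro z
    exact ⟨LR Q' z, lc_cx Q' z⟩

theorem diag_basis {M : M2} {μ ν : ℝ} (hne : μ ≠ ν) (ht : tr M = μ + ν) (hd : dt M = μ * ν) :
    ∃ P : (ℂ × ℂ) ≃L[ℂ] (ℂ × ℂ), (∀ w : ℂ × ℂ, LC M (P w) = P ((μ : ℂ) * w.1, (ν : ℂ) * w.2)) ∧
      (∀ z, ∃ z', P (cx z) = cx z') ∧ ∀ z, ∃ z', P.symm (cx z) = cx z' := by
  unfold tr at ht
  unfold dt at hd
  have hs : μ - ν ≠ 0 := sub_ne_zero.2 hne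
  by_cases h1 : M.1.2 = 0
  · by_cases h2 : M.2.1 = 0
    · rw [h1, zero_mul, sub_zero] at hd
      have h3 : (M.1.1 - μ) * (M.1.1 - ν) = 0 := by linear_combination M.1.1 * ht - hd
      rcases mul_eq_zero.1 h3 with h4 | h4
      · have e1 : M.1.1 = μ := by linarith
        have e2 : M.2.2 = ν := by linarith
        exact db_aux (1, 0) (0, 1) (by simp [e1]) (by simp [h2]) (by simp [h1]) (by simp [e2])
          (by norm_num)
      · have e1 : M.1.1 = ν := by linarith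
        have e2 : M.2.2 = μ := by linarith
        exact db_aux (0, 1) (1, 0) (by simp [h1]) (by simp [e2]) (by simp [e1]) (by simp [h2])
          (by norm_num)
    · refine db_aux (μ - M.2.2, M.2.1) (ν - M.2.2, M.2.1) ?_ ?_ ?_ ?_ ?_
      · simp only
        linear_combination μ * ht - hd
      · simp only
        ring
      · simp only
        linear_combination ν * ht - hd
      · simp only
        ring
      · have e : (μ - M.2.2) * M.2.1 - M.2.1 * (ν - M.2.2) = (μ - ν) * M.2.1 := by ring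
        simp only
        rw [e]
        exact mul_ne_zero hs h2
  · refine db_aux (M.1.2, μ - M.1.1) (M.1.2, ν - M.1.1) ?_ ?_ ?_ ?_ ?_
    · simp only
      ring
    · simp only
      linear_combination μ * ht - hd
    · simp only
      ring
    · simp only
      linear_combination ν * ht - hd
    · have e : M.1.2 * (ν - M.1.1) - (μ - M.1.1) * M.1.2 = -((μ - ν) * M.1.2) := by ring
      simp only
      rw [e]
      exact neg_ne_zero.2 (mul_ne_zero hs h1)

end Pool.Agent.HE
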