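import Mathlib

set_option autoImplicit false

/-!
HE-EntSeq. Iterates of a map with a fixed point: the sequence `phi` converges to the linearising curve. The orbit of
`(z / μ ^ n, 0)` is bounded by `u (1 + c u)` with `u = a ^ k * t`, `c = 4 K / (a (a - 1))`; the same computation bounds
the difference of two consecutive orbits and the distance to the linear orbit.
-/

namespace Pool.Agent.HE

open Set Topology Filter

/-- quadratic estimate at a fixed point `0` with diagonal linear part -/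
structure QE (G : ℂ × ℂ → ℂ × ℂ) (μ ν : ℂ) (K ρ : ℝ) : Prop where
  h0 : G 0 = 0
  hμ : 1 < ‖μ‖
  hν : ‖ν‖ ≤ ‖μ‖
  hK : 0 ≤ K
  hρ : 0 < ρ
  est : ∀ w w' : ℂ × ℂ, ‖w‖ ≤ ρ → ‖w'‖ ≤ ρ →
    ‖G w - G w' - (μ * (w.1 - w'.1), ν * (w.2 - w'.2))‖ ≤ K * (‖w‖ + ‖w'‖) * ‖w - w'‖

/-- the approximating curves -/
noncomputable def phi (G : ℂ × ℂ → ℂ × ℂ) (μ : ℂ) (n : ℕ) (z : ℂ) : ℂ × ℂ :=
  G^[n] ((z / μ ^ n, 0) : ℂ × ℂ)

private theorem lin_le {μ ν : ℂ} (hν : ‖ν‖ ≤ ‖μ‖) (x y : ℂ) :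
    ‖((μ * x, ν * y) : ℂ × ℂ)‖ ≤ ‖μ‖ * ‖((x, y) : ℂ × ℂ)‖ := by
  rw [Prod.norm_def, Prod.norm_def]
  refine max_le ?_ ?_
  · dsimp only
    rw [norm_mul]
    exact mul_le_mul_of_nonneg_left (le_max_left _ _) (norm_nonneg _)
  · dsimp only
    rw [norm_mul]
    exact mul_le_mul hν (le_max_right _ _) (norm_nonneg _) (norm_nonneg _)

private theorem one_err {G : ℂ × ℂ → ℂ × ℂ} {μ ν : ℂ} {K ρ : ℝ} (H : QE G μ ν K ρ) {w : ℂ × ℂ}
    (hw : ‖w‖ ≤ ρ) : ‖G w - (μ * w.1, ν * w.2)‖ ≤ K * ‖w‖ ^ 2 := by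
  have h := H.est w 0 hw (by rw [norm_zero]; exact H.hρ.le)
  rw [H.h0, sub_zero, Prod.fst_zero, Prod.snd_zero, sub_zero, sub_zero, norm_zero, add_zero,
    sub_zero] at h
  calc _ ≤ K * ‖w‖ * ‖w‖ := h
    _ = K * ‖w‖ ^ 2 := by ring

private theorem one_le {G : ℂ × ℂ → ℂ × ℂ} {μ ν : ℂ} {K ρ : ℝ} (H : QE G μ ν K ρ) {w : ℂ × ℂ}
    (hw : ‖w‖ ≤ ρ) : ‖G w‖ ≤ ‖μ‖ * ‖w‖ + K * ‖w‖ ^ 2 := by
  have h1 := one_err H hw
  have h2 := lin_le H.hν w.1 w.2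
  have h3 : ‖G w‖ ≤ ‖G w - (μ * w.1, ν * w.2)‖ + ‖((μ * w.1, ν * w.2) : ℂ × ℂ)‖ :=
    norm_le_norm_sub_add _ _
  have h4 : ((w.1, w.2) : ℂ × ℂ) = w := rfl
  rw [h4] at h2
  linarith

private theorem two_le {G : ℂ × ℂ → ℂ × ℂ} {μ ν : ℂ} {K ρ : ℝ} (H : QE G μ ν K ρ) {w w' : ℂ × ℂ}
    (hw : ‖w‖ ≤ ρ) (hw' : ‖w'‖ ≤ ρ) :
    ‖G w - G w'‖ ≤ (‖μ‖ + K * (‖w‖ + ‖w'‖)) * ‖w - w'‖ := by
  have h1 := H.est w w' hw hw'
  have h2 := lin_le H.hν (w.1 - w'.1) (w.2 - w'.2)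
  have h3 : ‖G w - G w'‖ ≤ ‖G w - G w' - (μ * (w.1 - w'.1), ν * (w.2 - w'.2))‖ +
      ‖((μ * (w.1 - w'.1), ν * (w.2 - w'.2)) : ℂ × ℂ)‖ := norm_le_norm_sub_add _ _
  have h4 : ((w.1 - w'.1, w.2 - w'.2) : ℂ × ℂ) = w - w' := rfl
  rw [h4] at h2
  linarith

/-- the orbit, `u k = a ^ k * t` -/
private theorem orbit {G : ℂ × ℂ → ℂ × ℂ} {μ ν : ℂ} {K ρ c T : ℝ} (H : QE G μ ν K ρ)
    (hc : c * (‖μ‖ * (‖μ‖ - 1)) = 4 * K) (hc0 : 0 ≤ c) (hcT : c * T ≤ 1) (hT : 2 * T ≤ ρ)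
    {t : ℝ} (ht : 0 ≤ t) {w0 : ℂ × ℂ} (hw0 : ‖w0‖ ≤ t) {n : ℕ} (hn : ‖μ‖ ^ n * t ≤ T) :
    ∀ k ≤ n, ‖G^[k] w0‖ ≤ ‖μ‖ ^ k * t * (1 + c * (‖μ‖ ^ k * t)) ∧
      ‖G^[k] w0‖ ≤ 2 * (‖μ‖ ^ k * t) ∧ ‖μ‖ ^ k * t ≤ T ∧ ‖G^[k] w0‖ ≤ ρ := by
  have ha := H.hμ
  have hfin : ∀ k ≤ n, ‖G^[k] w0‖ ≤ ‖μ‖ ^ k * t * (1 + c * (‖μ‖ ^ k * t)) →
      ‖G^[k] w0‖ ≤ ‖μ‖ ^ k * t * (1 + c * (‖μ‖ ^ k * t)) ∧
      ‖G^[k] w0‖ ≤ 2 * (‖μ‖ ^ k * t) ∧ ‖μ‖ ^ k * t ≤ T ∧ ‖G^[k] w0‖ ≤ ρ := by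
    intro k hk h
    have h1 : ‖μ‖ ^ k * t ≤ T :=
      (mul_le_mul_of_nonneg_right (pow_le_pow_right₀ ha.le hk) ht).trans hn
    have h2 : 0 ≤ ‖μ‖ ^ k * t := by positivity
    have h3 : c * (‖μ‖ ^ k * t) ≤ 1 := (mul_le_mul_of_nonneg_left h1 hc0).trans hcT
    have h4 : ‖G^[k] w0‖ ≤ 2 * (‖μ‖ ^ k * t) := by
      refine h.trans ?_
      nlinarith
    exact ⟨h, h4, h1, by linarith⟩
  intro k
  induction k with
  | zero =>
    intro _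
    refine hfin 0 (Nat.zero_le _) ?_
    rw [pow_zero, one_mul, Function.iterate_zero_apply]
    refine hw0.trans ?_
    nlinarith [mul_nonneg hc0 (mul_nonneg ht ht)]
  | succ k ih =>
    intro hk
    obtain ⟨h1, h2, h3, h4⟩ := ih (by omega)
    refine hfin (k + 1) hk ?_
    rw [Function.iterate_succ_apply']
    have h5 := one_le H h4
    have h6 : 0 ≤ ‖μ‖ ^ k * t := by positivity
    have e : ‖μ‖ ^ (k + 1) * t = ‖μ‖ * (‖μ‖ ^ k * t) := by rw [pow_succ]; ring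
    rw [e]
    generalize ‖μ‖ ^ k * t = u at h1 h2 h3 h6
    have h7 : K * ‖G^[k] w0‖ ^ 2 ≤ K * (2 * u) ^ 2 :=
      mul_le_mul_of_nonneg_left (pow_le_pow_left₀ (norm_nonneg _) h2 2) H.hK
    have h8 : ‖μ‖ * ‖G^[k] w0‖ ≤ ‖μ‖ * (u * (1 + c * u)) :=
      mul_le_mul_of_nonneg_left h1 (norm_nonneg _)
    calc ‖G (G^[k] w0)‖ ≤ ‖μ‖ * (u * (1 + c * u)) + K * (2 * u) ^ 2 := by linarith
      _ = ‖μ‖ * u + ‖μ‖ * c * u ^ 2 + 4 * K * u ^ 2 := by ring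
      _ = ‖μ‖ * u + ‖μ‖ * c * u ^ 2 + c * (‖μ‖ * (‖μ‖ - 1)) * u ^ 2 := by rw [hc]
      _ = ‖μ‖ * u * (1 + c * (‖μ‖ * u)) := by ring

theorem ent_seq {G : ℂ × ℂ → ℂ × ℂ} {μ ν : ℂ} {K ρ : ℝ} (H : QE G μ ν K ρ) :
    ∃ δ > 0, ∃ B > 0, ∀ (n : ℕ) (z : ℂ), ‖z‖ ≤ δ → ‖phi G μ n z‖ ≤ 2 * ‖z‖ ∧
      ‖phi G μ (n + 1) z - phi G μ n z‖ ≤ B / ‖μ‖ ^ n ∧
      ‖phi G μ n z - (z, 0)‖ ≤ B * ‖z‖ ^ 2 := by
  have ha := H.hμ
  have hK := H.hK
  have hρ := H.hρ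
  have hD : 0 < ‖μ‖ * (‖μ‖ - 1) := mul_pos (by linarith) (by linarith)
  set D : ℝ := ‖μ‖ * (‖μ‖ - 1) with hDd
  set δ : ℝ := min (ρ / 2) (D / (8 * (K + 1))) with hδ
  have hδ0 : 0 < δ := lt_min (by positivity) (by positivity)
  have hδ1 : 2 * δ ≤ ρ := by
    have : δ ≤ ρ / 2 := min_le_left _ _
    linarith
  have hδ2 : 8 * K * δ ≤ D := by
    have h1 : δ ≤ D / (8 * (K + 1)) := min_le_right _ _
    rw [le_div_iff₀ (by positivity)] at h1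
    nlinarith
  set c : ℝ := 4 * K / D with hcd
  have hc0 : 0 ≤ c := by positivity
  have hcD : c * D = 4 * K := by rw [hcd]; field_simp
  have hcδ : 2 * (c * δ) ≤ 1 := by
    have h1 : 2 * (c * δ) = 8 * K * δ / D := by rw [hcd]; ring
    rw [h1, div_le_one hD]
    exact hδ2
  have hcδ1 : c * δ ≤ 1 := by
    have : 0 ≤ c * δ := by positivity
    linarith
  refine ⟨δ, hδ0, 2 * K * δ ^ 2 + c + 1, by positivity, ?_⟩
  intro n z hz
  have hz0 := norm_nonneg z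
  have hpos : ∀ m : ℕ, 0 < ‖μ‖ ^ m := fun m => by positivity
  have hstart : ∀ m : ℕ, ‖((z / μ ^ m, 0) : ℂ × ℂ)‖ = ‖z‖ / ‖μ‖ ^ m := by
    intro m
    rw [Prod.norm_def]
    dsimp only
    rw [norm_zero, max_eq_left (norm_nonneg _), norm_div, norm_pow]
  have hμ0 : μ ≠ 0 := by
    intro h
    rw [h, norm_zero] at ha
    linarith
  have horb : ∀ m k : ℕ, k ≤ m → _ := fun m k hk =>
    orbit H hcD hc0 hcδ1 hδ1 (t := ‖z‖ / ‖μ‖ ^ m) (by positivity) (hstart m).le (n := m)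
      (by rw [mul_div_cancel₀ _ (hpos m).ne']; exact hz) k hk
  have hun : ‖μ‖ ^ n * (‖z‖ / ‖μ‖ ^ n) = ‖z‖ := mul_div_cancel₀ _ (hpos n).ne'
  refine ⟨?_, ?_, ?_⟩
  · have h := (horb n n le_rfl).2.1
    rw [hun] at h
    exact h
  · -- the difference
    set W : ℕ → ℂ × ℂ := fun k => G^[k] ((z / μ ^ n, 0) : ℂ × ℂ) with hW
    set W' : ℕ → ℂ × ℂ := fun k => G^[k + 1] ((z / μ ^ (n + 1), 0) : ℂ × ℂ) with hW'
    set u : ℕ → ℝ := fun k => ‖μ‖ ^ k * (‖z‖ / ‖μ‖ ^ n) with hu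
    have hu0 : ∀ k, 0 ≤ u k := fun k => by rw [hu]; positivity
    have hus : ∀ k, u (k + 1) = ‖μ‖ * u k := fun k => by
      rw [hu]
      dsimp only
      rw [pow_succ]
      ring
    have hu' : ∀ k, ‖μ‖ ^ (k + 1) * (‖z‖ / ‖μ‖ ^ (n + 1)) = u k := fun k => by
      rw [hu]
      dsimp only
      rw [pow_succ, pow_succ]
      have := hpos n
      field_simp
    have hd0 : ‖W 0 - W' 0‖ ≤ K * (‖z‖ / ‖μ‖ ^ (n + 1)) ^ 2 := by
      have h1 := one_err H (w := ((z / μ ^ (n + 1), 0) : ℂ × ℂ))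
        (horb (n + 1) 0 (Nat.zero_le _)).2.2.2
      rw [hstart] at h1
      dsimp only at h1
      rw [mul_zero] at h1
      have h2 : μ * (z / μ ^ (n + 1)) = z / μ ^ n := by
        rw [pow_succ]
        field_simp
      rw [h2] at h1
      have h3 : W 0 - W' 0 = -(G ((z / μ ^ (n + 1), 0) : ℂ × ℂ) - ((z / μ ^ n, 0) : ℂ × ℂ)) := by
        rw [neg_sub]
        rfl
      rw [h3, norm_neg]
      exact h1
    have hd : ∀ k ≤ n, ‖W k - W' k‖ ≤ ‖μ‖ ^ k * (1 + 2 * (c * u k)) * ‖W 0 - W' 0‖ := by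
      intro k
      induction k with
      | zero =>
        intro _
        rw [pow_zero, one_mul]
        have h1 : 0 ≤ 2 * (c * u 0) := by
          have := hu0 0
          positivity
        nlinarith [norm_nonneg (W 0 - W' 0)]
      | succ k ih =>
        intro hk
        have h1 := ih (by omega)
        obtain ⟨-, h2, h3, h4⟩ := horb n k (by omega)
        obtain ⟨-, h5, -, h6⟩ := horb (n + 1) (k + 1) (by omega)
        rw [hu'] at h5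
        have h7 : ‖W k‖ ≤ 2 * u k := h2
        have h8 : ‖W' k‖ ≤ 2 * u k := h5
        have h9 := two_le H (w := W k) (w' := W' k) h4 h6
        have e1 : W (k + 1) = G (W k) := Function.iterate_succ_apply' _ _ _
        have e2 : W' (k + 1) = G (W' k) := Function.iterate_succ_apply' _ _ _
        rw [e1, e2, hus, pow_succ]
        have h10 : u k ≤ δ := h3
        have h11 := hu0 k
        have h12 : 2 * (c * u k) ≤ 1 := by
          have := mul_le_mul_of_nonneg_left h10 hc0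
          linarith
        have h13 : K * (‖W k‖ + ‖W' k‖) ≤ K * (4 * u k) :=
          mul_le_mul_of_nonneg_left (by linarith) hK
        have h14 : 0 ≤ ‖W k - W' k‖ := norm_nonneg _
        have h15 : 0 ≤ ‖W 0 - W' 0‖ := norm_nonneg _
        have hm := hpos k
        have h16 : (‖μ‖ + K * (4 * u k)) * (1 + 2 * (c * u k)) ≤
            ‖μ‖ * (1 + 2 * (c * (‖μ‖ * u k))) := by
          have e3 : ‖μ‖ * (1 + 2 * (c * (‖μ‖ * u k))) =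
              ‖μ‖ + 2 * (‖μ‖ * c * u k) + 2 * (c * D) * u k := by
            rw [hDd]
            ring
          rw [e3, hcD]
          have h17 : K * (4 * u k) * (2 * (c * u k)) ≤ K * (4 * u k) * 1 :=
            mul_le_mul_of_nonneg_left h12 (by positivity)
          nlinarith
        calc ‖G (W k) - G (W' k)‖ ≤ (‖μ‖ + K * (‖W k‖ + ‖W' k‖)) * ‖W k - W' k‖ := h9
          _ ≤ (‖μ‖ + K * (4 * u k)) * ‖W k - W' k‖ :=
              mul_le_mul_of_nonneg_right (by linarith) h14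
          _ ≤ (‖μ‖ + K * (4 * u k)) * (‖μ‖ ^ k * (1 + 2 * (c * u k)) * ‖W 0 - W' 0‖) :=
              mul_le_mul_of_nonneg_left h1 (by positivity)
          _ = ‖μ‖ ^ k * ‖W 0 - W' 0‖ * ((‖μ‖ + K * (4 * u k)) * (1 + 2 * (c * u k))) := by ring
          _ ≤ ‖μ‖ ^ k * ‖W 0 - W' 0‖ * (‖μ‖ * (1 + 2 * (c * (‖μ‖ * u k)))) :=
              mul_le_mul_of_nonneg_left h16 (by positivity)
          _ = _ := by ring
    have hn := hd n le_rfl
    have hun' : u n = ‖z‖ := hun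
    rw [hun'] at hn
    have h12 : 2 * (c * ‖z‖) ≤ 1 := by
      have := mul_le_mul_of_nonneg_left hz hc0
      linarith
    have e4 : phi G μ (n + 1) z - phi G μ n z = -(W n - W' n) := by
      rw [neg_sub]
      rfl
    rw [e4, norm_neg, le_div_iff₀ (hpos n)]
    have hm := hpos n
    have hz2 : ‖z‖ ^ 2 ≤ δ ^ 2 := pow_le_pow_left₀ hz0 hz 2
    have h18 : ‖W n - W' n‖ ≤ ‖μ‖ ^ n * 2 * (K * (‖z‖ / ‖μ‖ ^ (n + 1)) ^ 2) := by
      refine hn.trans ?_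
      refine mul_le_mul ?_ hd0 (norm_nonneg _) (by positivity)
      exact mul_le_mul_of_nonneg_left (by linarith) hm.le
    calc ‖W n - W' n‖ * ‖μ‖ ^ n
        ≤ ‖μ‖ ^ n * 2 * (K * (‖z‖ / ‖μ‖ ^ (n + 1)) ^ 2) * ‖μ‖ ^ n :=
          mul_le_mul_of_nonneg_right h18 hm.le
      _ = 2 * K * ‖z‖ ^ 2 / ‖μ‖ ^ 2 := by
          field_simp
          ring
      _ ≤ 2 * K * ‖z‖ ^ 2 := by
          apply div_le_self (by positivity)
          exact one_le_pow₀ ha.le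
      _ ≤ 2 * K * δ ^ 2 := mul_le_mul_of_nonneg_left hz2 (by positivity)
      _ ≤ 2 * K * δ ^ 2 + c + 1 := by linarith
  · have he : ∀ k ≤ n, ‖G^[k] ((z / μ ^ n, 0) : ℂ × ℂ) - (μ ^ k * (z / μ ^ n), 0)‖ ≤
        c * (‖μ‖ ^ k * (‖z‖ / ‖μ‖ ^ n)) ^ 2 := by
      intro k
      induction k with
      | zero =>
        intro _
        rw [Function.iterate_zero_apply, pow_zero, one_mul, sub_self, norm_zero]
        positivity
      | succ k ih =>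
        intro hk
        have h1 := ih (by omega)
        obtain ⟨-, h2, -, h4⟩ := horb n k (by omega)
        rw [Function.iterate_succ_apply']
        have h5 := one_err H h4
        set w := G^[k] ((z / μ ^ n, 0) : ℂ × ℂ) with hw
        have h6 := lin_le H.hν (w.1 - μ ^ k * (z / μ ^ n)) (w.2 - 0)
        have h7 : ((w.1 - μ ^ k * (z / μ ^ n), w.2 - 0) : ℂ × ℂ) =
            w - (μ ^ k * (z / μ ^ n), 0) := rfl
        rw [h7] at h6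
        have e1 : G w - (μ ^ (k + 1) * (z / μ ^ n), 0) =
            (G w - (μ * w.1, ν * w.2)) +
              ((μ * (w.1 - μ ^ k * (z / μ ^ n)), ν * (w.2 - 0)) : ℂ × ℂ) := by
          ext
          · simp only [Prod.fst_sub, Prod.fst_add]
            rw [pow_succ]
            ring
          · simp only [Prod.snd_sub, Prod.snd_add]
            ring
        rw [e1]
        refine (norm_add_le _ _).trans ?_
        have h8 : K * ‖w‖ ^ 2 ≤ K * (2 * (‖μ‖ ^ k * (‖z‖ / ‖μ‖ ^ n))) ^ 2 :=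
          mul_le_mul_of_nonneg_left (pow_le_pow_left₀ (norm_nonneg _) h2 2) hK
        have h9 := mul_le_mul_of_nonneg_left h1 (norm_nonneg μ)
        have e2 : ‖μ‖ ^ (k + 1) * (‖z‖ / ‖μ‖ ^ n) = ‖μ‖ * (‖μ‖ ^ k * (‖z‖ / ‖μ‖ ^ n)) := by
          rw [pow_succ]
          ring
        rw [e2]
        generalize ‖μ‖ ^ k * (‖z‖ / ‖μ‖ ^ n) = v at h8 h9
        have e3 : c * (‖μ‖ * v) ^ 2 = ‖μ‖ * (c * v ^ 2) + c * D * v ^ 2 := by
          rw [hDd]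
          ring
        rw [e3, hcD]
        have e4 : K * (2 * v) ^ 2 = 4 * K * v ^ 2 := by ring
        linarith
    have h := he n le_rfl
    rw [hun] at h
    have h1 : μ ^ n * (z / μ ^ n) = z := mul_div_cancel₀ _ (pow_ne_zero n hμ0)
    rw [h1] at h
    refine h.trans ?_
    refine mul_le_mul_of_nonneg_right ?_ (by positivity)
    have : 0 ≤ 2 * K * δ ^ 2 := by positivity
    linarith

end Pool.Agent.HE
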