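import Pool.Agent.HE.Germ
import Pool.Agent.HE.Nest

set_option autoImplicit false

/-!
HE-Star. A good crosscut meets its image.

If `κ` and `F '' κ` were disjoint, the bounded components `D` and `F '' D` would be nested by
`nest`; the germs before and after `t0` show `D ⊆ F '' D`, so the backward orbit of `D` would be
bounded.
-/

namespace Pool.Agent.HE

open Set Topology Filter

variable {F : ℂ ≃ₜ ℂ} {γ : ℝ → ℂ} {lam : ℝ} {ell : ℝ → ℝ → ℂ}

private theorem star_xx (C : Ctx F γ lam ell) (κ : Set ℂ) :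
    XX γ ∪ F '' κ = F '' (XX γ ∪ κ) := by
  rw [image_union, xx_image C]

private theorem star_mem (C : Ctx F γ lam ell) (κ : Set ℂ) (t : ℝ) :
    γ (lam * t) ∈ closure (F '' κ) ↔ γ t ∈ closure κ := by
  rw [← F.image_closure, ← C.conj t]
  exact F.injective.mem_set_image

theorem cut_image (C : Ctx F γ lam ell) {κ : Set ℂ} (K : Cut γ κ) : Cut γ (F '' κ) := by
  have hlam := C.lam0
  refine ⟨K.pre.image F F.continuous.continuousOn, ?_, ?_, ?_⟩
  · rw [← xx_image C]
    exact (disjoint_image_iff F.injective).2 K.disj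
  · rw [star_xx C]
    exact F.isClosed_image.2 K.closed
  · refine (K.fin.image fun t => lam * t).subset ?_
    rintro t ⟨ht, htk⟩
    have h1 : lam * (t / lam) = t := by field_simp
    refine ⟨t / lam, ⟨div_pos ht hlam, ?_⟩, h1⟩
    rw [← star_mem C κ (t / lam), h1]
    exact htk

theorem cmp_F (C : Ctx F γ lam ell) {κ D : Set ℂ} (hD : IsCmp (XX γ ∪ κ) D) :
    IsCmp (XX γ ∪ F '' κ) (F '' D) := by
  rw [star_xx C]
  exact isCmp_image F hD

theorem lg_map (C : Ctx F γ lam ell) {κ D : Set ℂ} (hD : IsCmp (XX γ ∪ κ) D) {t : ℝ}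
    (ht : 0 < t) (hk : γ t ∉ closure κ) (h : LG ell D t) : LG ell (F '' D) (lam * t) := by
  have hk' : γ (lam * t) ∉ closure (F '' κ) := fun h' => hk ((star_mem C κ t).1 h')
  rcases lg_or C (mul_pos C.lam0 ht) hk' (cmp_F C hD) with h1 | h1
  · exact h1
  · exfalso
    obtain ⟨ε2, hε2, h2⟩ := h1
    obtain ⟨ε1, hε1, h3⟩ := h
    obtain ⟨δ, hδ, h4⟩ := C.g3 t ht ε2 hε2
    have hm : 0 < min ε1 δ := lt_min hε1 hδ
    have hη1 : min ε1 δ / 2 < ε1 := by
      have := min_le_left ε1 δ
      linarith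
    have hη2 : min ε1 δ / 2 < δ := by
      have := min_le_right ε1 δ
      linarith
    obtain ⟨t', η', e1, e2, e3, e4⟩ := h4 (min ε1 δ / 2) (by linarith) hη2
    have h5 := h3 t (min ε1 δ / 2) (by rw [sub_self, abs_zero]; exact hε1) (by linarith) hη1
    have h6 := h2 t' η' e1 e2 e3
    rw [← e4] at h6
    exact h6 (mem_image_of_mem F h5)

theorem star (C : Ctx F γ lam ell) {κ D : Set ℂ} {t0 : ℝ} (G : Good γ ell κ D t0)
    (hF : Disjoint (F '' κ) κ) : False := by
  have hlam := C.lam0
  have hlam1 := C.lam1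
  have K' := cut_image C G.cut
  have hD' := cmp_F C G.cmp
  have hb' : Bornology.IsBounded (F '' D) := bdd_image F G.bdd
  have hdiv : ∀ t : ℝ, lam * (t / lam) = t := fun t => by field_simp
  have hdl : ∀ t : ℝ, 0 < t → t < t / lam := by
    intro t ht
    rw [lt_div_iff₀ hlam]
    nlinarith
  -- step 1
  have h1 : (D ∩ F '' D).Nonempty := by
    obtain ⟨M, hM⟩ := G.cut.fin.bddAbove
    set t := max M t0 + 1 with ht
    have htM : M < t := by
      have := le_max_left M t0
      linarith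
    have ht0 : t0 < t := by
      have := le_max_right M t0
      linarith
    have htp : 0 < t := G.pos.trans ht0
    have hn : ∀ s, t ≤ s → γ s ∉ closure κ := by
      intro s hs hk
      have := hM (show s ∈ {t : ℝ | 0 < t ∧ γ t ∈ closure κ} from ⟨htp.trans_le hs, hk⟩)
      linarith
    have e1 := G.after t ht0 (hn t le_rfl)
    have e2 := G.after (t / lam) (ht0.trans (hdl t htp)) (hn _ (hdl t htp).le)
    have e3 := lg_map C G.cmp (div_pos htp hlam) (hn _ (hdl t htp).le) e2
    rw [hdiv] at e3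
    exact e1.inter e3
  -- step 2
  have h2 : ¬ F '' D ⊆ D := by
    obtain ⟨tm, htm0, htm, hb⟩ := G.before
    have hlt : max tm (lam * t0) < t0 := max_lt htm (by nlinarith [G.pos])
    have hinf : (Ioo (max tm (lam * t0)) t0).Infinite := Ioo_infinite hlt
    have hfin : ((fun t => lam * t) '' {t : ℝ | 0 < t ∧ γ t ∈ closure κ}).Finite :=
      G.cut.fin.image _
    obtain ⟨t, ht, htn⟩ := hinf.exists_notMem_finite hfin
    have htm' : tm < t := lt_of_le_of_lt (le_max_left _ _) ht.1
    have htl : lam * t0 < t := lt_of_le_of_lt (le_max_right _ _) ht.1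
    have htp : 0 < t := htm0.trans htm'
    have ht0 : t0 < t / lam := by
      rw [lt_div_iff₀ hlam, mul_comm]
      exact htl
    have hk : γ (t / lam) ∉ closure κ := by
      intro hk
      exact htn ⟨t / lam, ⟨div_pos htp hlam, hk⟩, hdiv t⟩
    have e2 := G.after (t / lam) ht0 hk
    have e3 := lg_map C G.cmp (div_pos htp hlam) hk e2
    rw [hdiv] at e3
    have e4 := hb t ⟨htm', ht.2⟩
    obtain ⟨x, hx1, hx2⟩ := e3.inter e4
    exact fun hs => hx2 (hs hx1)
  -- step 3
  have h3 := nest (xx_nonsep C) G.cut.pre K'.pre G.cut.disj K'.disj G.cut.closed K'.closed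
    G.cmp hD' G.bdd hb' hF.symm h1
  have h4 : D ⊆ F '' D := h3.resolve_right h2
  have h5 : ∀ k : ℕ, ∀ z ∈ D, (F.symm : ℂ → ℂ)^[k] z ∈ D := by
    intro k
    induction k with
    | zero => exact fun z hz => hz
    | succ k ih =>
      intro z hz
      rw [Function.iterate_succ_apply]
      apply ih
      obtain ⟨w, hw, hwz⟩ := h4 hz
      rw [← hwz, F.symm_apply_apply]
      exact hw
  obtain ⟨R, hR⟩ := G.bdd.exists_norm_le
  exact C.no D (G.cmp.isOpen G.cut.closed) G.cmp.nonempty ⟨R, fun k z hz => hR _ (h5 k z hz)⟩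

end Pool.Agent.HE
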