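import Pool.Agent.HE.Cover
import Pool.Agent.HE.Star

set_option autoImplicit false

/-!
HE-FixP. Good crosscuts accumulate at a fixed point of the limit set.

`cover` with `δ = 1 / (n + 1)` gives good gaps `κ_n` of circles with centres `z_n ∈ AA`, radii `< 1 / (n + 1)`; a
subsequence of `z_n` converges to `r ∈ AA` (compact). If `F r ≠ r` then `F '' κ` and `κ` are disjoint for a good `κ`
in a small disc around `r`: contradiction to `star`.
-/

namespace Pool.Agent.HE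

open Set Topology Filter

variable {F : ℂ ≃ₜ ℂ} {γ : ℝ → ℂ} {lam : ℝ} {ell : ℝ → ℝ → ℂ}

theorem fixp (C : Ctx F γ lam ell) : ∃ r ∈ AA γ, F r = r ∧
    ∀ ε > 0, ∃ κ D t0, Good γ ell κ D t0 ∧ ∀ z ∈ κ, dist z r < ε := by
  have h : ∀ n : ℕ, ∃ z ∈ AA γ, ∃ ρ, 0 < ρ ∧ ρ < 1 / ((n : ℝ) + 1) ∧ ∃ κ D t0,
      IsGap (circ z ρ) (XX γ) κ ∧ Good γ ell κ D t0 := fun n => cover C (by positivity)
  choose z hz ρ hρ0 hρ κ D t0 hgap hgood using h
  obtain ⟨r, hr, φ, hφ, hlim⟩ := (aa_compact C).tendsto_subseq hz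
  have key : ∀ ε > 0, ∃ κ D t0, Good γ ell κ D t0 ∧ ∀ w ∈ κ, dist w r < ε := by
    intro ε hε
    have h1 : ∀ᶠ n in atTop, dist (z (φ n)) r < ε / 2 := by
      have := (tendsto_iff_dist_tendsto_zero.1 hlim).eventually (gt_mem_nhds (half_pos hε))
      exact this
    have h2 : ∀ᶠ n in atTop, 1 / (((φ n : ℕ) : ℝ) + 1) < ε / 2 :=
      (tendsto_one_div_add_atTop_nhds_zero_nat.comp hφ.tendsto_atTop).eventually
        (gt_mem_nhds (half_pos hε))
    obtain ⟨n, hn1, hn2⟩ := (h1.and h2).exists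
    refine ⟨κ (φ n), D (φ n), t0 (φ n), hgood (φ n), ?_⟩
    intro w hw
    obtain ⟨s1, s2, -, -, -, -, -, hκ⟩ := hgap (φ n)
    rw [hκ] at hw
    obtain ⟨s, -, rfl⟩ := hw
    have h3 := dist_circ (z (φ n)) (hρ0 (φ n)).le s
    calc dist (circ (z (φ n)) (ρ (φ n)) s) r
        ≤ dist (circ (z (φ n)) (ρ (φ n)) s) (z (φ n)) + dist (z (φ n)) r := dist_triangle _ _ _
      _ < ε / 2 + ε / 2 := by
        rw [h3]
        exact add_lt_add ((hρ (φ n)).trans hn2) hn1
      _ = ε := add_halves ε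
  refine ⟨r, hr, ?_, key⟩
  by_contra hne
  have hd : 0 < dist (F r) r := dist_pos.2 hne
  obtain ⟨δ, hδ, hcont⟩ := Metric.continuousAt_iff.1 (F.continuous.continuousAt (x := r))
    (dist (F r) r / 2) (half_pos hd)
  obtain ⟨κ', D', t0', hG, hκ'⟩ := key (min δ (dist (F r) r / 2)) (lt_min hδ (half_pos hd))
  refine star C hG (disjoint_left.2 ?_)
  rintro w ⟨u, hu, rfl⟩ hw
  have h1 : dist (F u) (F r) < dist (F r) r / 2 := hcont ((hκ' u hu).trans_le (min_le_left _ _))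
  have h2 : dist (F u) r < dist (F r) r / 2 := (hκ' _ hw).trans_le (min_le_right _ _)
  have h3 : dist (F r) r ≤ dist (F u) (F r) + dist (F u) r := by
    rw [dist_comm (F u) (F r)]
    exact dist_triangle _ _ _
  linarith

end Pool.Agent.HE
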