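import Pool.Agent.HE.Bas

set_option autoImplicit false

/-!
HE-Flat: definitions for the non-accumulation of a bounded stable branch on its own saddle.
-/

namespace Pool.Agent.HE

open Set Topology Filter

/-- a bounded stable branch in a chart at its own saddle `0` -/
structure Flat (F : ℂ ≃ₜ ℂ) (γ : ℝ → ℂ) (lam h sm sp lm lp : ℝ) : Prop where
  lam0 : 0 < lam
  lam1 : lam < 1
  cont : Continuous γ
  inj : Function.Injective γ
  conj : ∀ t, F (γ t) = γ (lam * t)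
  no : NO F
  bdd : Bornology.IsBounded (γ '' Ioi 0)
  g0 : γ 0 = 0
  hh : 0 < h
  hsm : 1 < sm
  hlm : 0 < lm
  hlp : lp < 1
  re_sign : ∀ z : ℂ, |z.re| < h → |z.im| < h → 0 ≤ z.re * (F z).re
  im_sign : ∀ z : ℂ, |z.re| < h → |z.im| < h → 0 ≤ z.im * (F z).im
  re_low : ∀ z : ℂ, |z.re| < h → |z.im| < h → sm * |z.re| ≤ |(F z).re|
  re_up : ∀ z : ℂ, |z.re| < h → |z.im| < h → |(F z).re| ≤ sp * |z.re|
  im_low : ∀ z : ℂ, |z.re| < h → |z.im| < h → lm * |z.im| ≤ |(F z).im|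
  im_up : ∀ z : ℂ, |z.re| < h → |z.im| < h → |(F z).im| ≤ lp * |z.im|
  ax : ∃ t0 > 0, ∀ t ∈ Icc 0 t0, (γ t).re = 0 ∧ 0 ≤ (γ t).im

/-- the point with parameter `y` on the ray of slope `m` on the side `e = ± 1` -/
def ray (e m y : ℝ) : ℂ := ⟨e * y, m * y⟩

/-- open initial segment of a ray -/
def seg (e m x : ℝ) : Set ℂ := ray e m '' Ioo 0 x

/-- an initial arc of the branch together with a segment -/
def YY (γ : ℝ → ℂ) (e m u x : ℝ) : Set ℂ := γ '' Icc 0 u ∪ seg e m x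

/-- `ray e m x` is the first point of the arc `γ [0, u]` on the ray -/
structure FH (γ : ℝ → ℂ) (h e m u x : ℝ) : Prop where
  he : e = 1 ∨ e = -1
  hm : m ≠ 0
  hu : 0 ≤ u
  pos : 0 < x
  xh : x < h
  mh : |m| * x < h
  mem : ray e m x ∈ γ '' Icc 0 u
  free : ∀ y ∈ Ioo 0 x, ray e m y ∉ γ '' Icc 0 u

/-- the sector between the ray and the positive imaginary axis -/
def SR (e m : ℝ) : Set ℂ := {z | 0 < e * z.re ∧ m * (e * z.re) < z.im}

/-- the complementary sector -/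
def SL (e m : ℝ) : Set ℂ := {z | e * z.re < 0 ∨ z.im < m * (e * z.re)}

/-- `D` is the component of the complement of `YY` containing the sector `SR` near `0` -/
def IsA (γ : ℝ → ℂ) (e m u x : ℝ) (D : Set ℂ) : Prop :=
  IsCmp (YY γ e m u x) D ∧ ∃ ε > 0, ∀ z ∈ SR e m, ‖z‖ < ε → z ∈ D

/-- `D` is the component of the complement of `YY` containing the sector `SL` near `0` -/
def IsB (γ : ℝ → ℂ) (e m u x : ℝ) (D : Set ℂ) : Prop :=
  IsCmp (YY γ e m u x) D ∧ ∃ ε > 0, ∀ z ∈ SL e m, ‖z‖ < ε → z ∈ D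

lemma Flat.F0 {F : ℂ ≃ₜ ℂ} {γ : ℝ → ℂ} {lam h sm sp lm lp : ℝ} (H : Flat F γ lam h sm sp lm lp) :
    F 0 = 0 := by
  have h1 := H.conj 0
  rw [mul_zero, H.g0] at h1
  exact h1

end Pool.Agent.HE
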