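import Pool.Agent.HE.Bas
import Pool.Agent.HE.Unb

set_option autoImplicit false

/-!
HE-NoSep. Compact sets with bounded backward orbit do not separate; conjugation by homeomorphisms of
the plane.
-/

namespace Pool.Agent.HE

open Set Topology Filter

private theorem cmp_image_aux (Φ : ℂ ≃ₜ ℂ) (Y : Set ℂ) {a : ℂ} (ha : a ∉ Y) :
    Cmp (Φ '' Y) (Φ a) = Φ '' Cmp Y a := by
  unfold Cmp
  rw [Φ.image_connectedComponentIn (show a ∈ Yᶜ from ha), Set.image_compl_eq Φ.bijective]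

private theorem bdd_image_aux (Φ : ℂ ≃ₜ ℂ) {D : Set ℂ} (h : Bornology.IsBounded D) :
    Bornology.IsBounded (Φ '' D) :=
  ((h.isCompact_closure.image Φ.continuous).isBounded).subset (Set.image_mono subset_closure)

private theorem exists_iter (F : ℂ ≃ₜ ℂ) (k : ℕ) :
    ∃ Ψ : ℂ ≃ₜ ℂ, ∀ z, Ψ z = (F.symm : ℂ → ℂ)^[k] z := by
  induction k with
  | zero => exact ⟨Homeomorph.refl ℂ, fun z => rfl⟩
  | succ k ih =>
    obtain ⟨Ψ, hΨ⟩ := ih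
    refine ⟨Ψ.trans F.symm, fun z => ?_⟩
    rw [Function.iterate_succ_apply', ← hΨ z]
    rfl

theorem nonsep_of_NO {F : ℂ ≃ₜ ℂ} (hF : NO F) {Y : Set ℂ} (hY : IsCompact Y) {R : ℝ}
    (hR : ∀ k : ℕ, ∀ z ∈ Y, ‖(F.symm : ℂ → ℂ)^[k] z‖ ≤ R) : NonSep Y := by
  intro a ha hb
  refine hF (Cmp Y a) (cmp_open hY.isClosed a) ⟨a, mem_cmp ha⟩ ⟨max R 0, fun k z hz => ?_⟩
  obtain ⟨Ψ, hΨ⟩ := exists_iter F k
  have h1 : ∀ w ∈ Ψ '' Y, ‖w‖ ≤ max R 0 := by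
    rintro w ⟨y, hy, rfl⟩
    rw [hΨ y]
    exact (hR k y hy).trans (le_max_left _ _)
  have h2 : Bornology.IsBounded (Cmp (Ψ '' Y) (Ψ a)) := by
    rw [cmp_image_aux Ψ Y ha]
    exact bdd_image_aux Ψ hb
  have h3 := cmp_sub_ball (le_max_right R 0) h1 h2 (Ψ z) (by
    rw [cmp_image_aux Ψ Y ha]
    exact Set.mem_image_of_mem _ hz)
  rwa [hΨ z] at h3

theorem NO_conj {F : ℂ ≃ₜ ℂ} (hF : NO F) (Φ : ℂ ≃ₜ ℂ) : NO ((Φ.symm.trans F).trans Φ) := by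
  rintro D hD ⟨z0, hz0⟩ ⟨R, hR⟩
  have hbd : Bornology.IsBounded (Φ.symm '' Metric.closedBall 0 R) :=
    bdd_image_aux Φ.symm Metric.isBounded_closedBall
  obtain ⟨R', hR'⟩ := hbd.exists_norm_le
  refine hF (Φ ⁻¹' D) (hD.preimage Φ.continuous) ⟨Φ.symm z0, by simpa using hz0⟩
    ⟨R', fun k w hw => ?_⟩
  have hsc : Function.Semiconj Φ.symm (((Φ.symm.trans F).trans Φ).symm : ℂ → ℂ)
      (F.symm : ℂ → ℂ) := by
    intro z
    simp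
  have h1 := (hsc.iterate_right k) (Φ w)
  rw [Homeomorph.symm_apply_apply] at h1
  rw [← h1]
  apply hR'
  refine Set.mem_image_of_mem _ ?_
  rw [mem_closedBall_zero_iff]
  exact hR k (Φ w) hw

theorem cmp_image (Φ : ℂ ≃ₜ ℂ) (Y : Set ℂ) {a : ℂ} (ha : a ∉ Y) :
    Cmp (Φ '' Y) (Φ a) = Φ '' Cmp Y a :=
  cmp_image_aux Φ Y ha

theorem isCmp_image (Φ : ℂ ≃ₜ ℂ) {Y D : Set ℂ} (h : IsCmp Y D) : IsCmp (Φ '' Y) (Φ '' D) := by
  obtain ⟨a, ha, rfl⟩ := h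
  refine ⟨Φ a, ?_, (cmp_image Φ Y ha).symm⟩
  rintro ⟨y, hy, hya⟩
  rw [Φ.injective hya] at hy
  exact ha hy

theorem bdd_image (Φ : ℂ ≃ₜ ℂ) {D : Set ℂ} (h : Bornology.IsBounded D) :
    Bornology.IsBounded (Φ '' D) :=
  bdd_image_aux Φ h

theorem nonsep_image {Y : Set ℂ} (h : NonSep Y) (Φ : ℂ ≃ₜ ℂ) : NonSep (Φ '' Y) := by
  intro b hb hbd
  have ha : Φ.symm b ∉ Y := by
    intro hy
    exact hb ⟨Φ.symm b, hy, Φ.apply_symm_apply b⟩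
  apply h (Φ.symm b) ha
  have h1 : Cmp (Φ '' Y) b = Φ '' Cmp Y (Φ.symm b) := by
    rw [← cmp_image Φ Y ha, Φ.apply_symm_apply]
  rw [h1] at hbd
  have h2 := bdd_image Φ.symm hbd
  rwa [← Set.image_comp, Homeomorph.symm_comp_self, Set.image_id] at h2

end Pool.Agent.HE
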