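import Pool.Agent.HE.NoSep

set_option autoImplicit false

/-!
HE-GBas. Basic facts on a bounded stable branch: `XX γ` and `AA γ` are compact and invariant, `XX γ` does not
separate the plane, `XX γ = γ '' Ici 0 ∪ AA γ`, and the branch accumulates exactly on `AA γ`.
-/

namespace Pool.Agent.HE

open Set Topology Filter

variable {F : ℂ ≃ₜ ℂ} {γ : ℝ → ℂ} {lam : ℝ} {ell : ℝ → ℝ → ℂ}

private theorem gb_img (C : Ctx F γ lam ell) (S : Set ℝ) :
    F '' (γ '' S) = γ '' ((fun t => lam * t) '' S) := by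
  rw [image_image, image_image]
  exact image_congr fun t _ => C.conj t

private theorem gb_ioi (C : Ctx F γ lam ell) : (fun t => lam * t) '' Ioi (0 : ℝ) = Ioi 0 := by
  ext t
  constructor
  · rintro ⟨s, hs, rfl⟩
    exact mul_pos C.lam0 hs
  · intro ht
    refine ⟨t / lam, div_pos ht C.lam0, ?_⟩
    have := C.lam0.ne'
    show lam * (t / lam) = t
    field_simp

private theorem gb_ici (C : Ctx F γ lam ell) (T : ℝ) :
    (fun t => lam * t) '' Ici (T / lam) = Ici T := by
  have h0 := C.lam0.ne'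
  ext t
  constructor
  · rintro ⟨s, hs, rfl⟩
    have h1 : T / lam ≤ s := hs
    rw [div_le_iff₀ C.lam0] at h1
    show T ≤ lam * s
    linarith
  · intro ht
    refine ⟨t / lam, ?_, ?_⟩
    · show T / lam ≤ t / lam
      exact div_le_div_of_nonneg_right ht C.lam0.le
    · show lam * (t / lam) = t
      field_simp

private theorem gb_mem_aa {z : ℂ} : z ∈ AA γ ↔ ∀ T : ℝ, z ∈ closure (γ '' Ici T) := by
  unfold AA
  exact mem_iInter

private theorem gb_cluster {z : ℂ} {f : Filter ℝ} (hf : f ≤ atTop)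
    (hz : ClusterPt z (map γ f)) : z ∈ AA γ := by
  rw [gb_mem_aa]
  intro T
  rw [mem_closure_iff_clusterPt]
  refine hz.mono ?_
  rw [le_principal_iff]
  exact image_mem_map (hf (Ici_mem_atTop T))

private theorem gb_aa_iff (C : Ctx F γ lam ell) (z : ℂ) : F z ∈ AA γ ↔ z ∈ AA γ := by
  have h1 : ∀ T : ℝ, F z ∈ closure (γ '' Ici T) ↔ z ∈ closure (γ '' Ici (T / lam)) := by
    intro T
    have h2 : closure (γ '' Ici T) = F '' closure (γ '' Ici (T / lam)) := by
      rw [F.image_closure, gb_img C, gb_ici C]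
    rw [h2]
    exact F.injective.mem_set_image
  rw [gb_mem_aa, gb_mem_aa]
  constructor
  · intro h T
    have h2 := (h1 (lam * T)).1 (h _)
    rwa [mul_div_cancel_left₀ T C.lam0.ne'] at h2
  · intro h T
    exact (h1 T).2 (h _)

theorem xx_compact (C : Ctx F γ lam ell) : IsCompact (XX γ) := by
  exact C.bdd.isCompact_closure


theorem xx_conn (C : Ctx F γ lam ell) : IsConnected (XX γ) := by
  exact (isConnected_Ioi.image γ C.cont.continuousOn).closure


theorem xx_image (C : Ctx F γ lam ell) : F '' XX γ = XX γ := by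
  unfold XX
  rw [F.image_closure, gb_img C, gb_ioi C]


theorem xx_nonsep (C : Ctx F γ lam ell) : NonSep (XX γ) := by
  obtain ⟨R, hR⟩ := (xx_compact C).isBounded.exists_norm_le
  refine nonsep_of_NO C.no (xx_compact C) (R := R) fun k z hz => hR _ ?_
  have h1 : MapsTo (F.symm : ℂ → ℂ) (XX γ) (XX γ) := by
    intro w hw
    rw [← xx_image C] at hw
    obtain ⟨x, hx, rfl⟩ := hw
    rw [F.symm_apply_apply]
    exact hx
  exact h1.iterate k hz


theorem mem_xx (C : Ctx F γ lam ell) {t : ℝ} (ht : 0 ≤ t) : γ t ∈ XX γ := by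
  have h1 : t ∈ closure (Ioi (0 : ℝ)) := by
    rw [closure_Ioi]
    exact ht
  exact C.cont.continuousWithinAt.mem_closure_image h1


theorem aa_sub (C : Ctx F γ lam ell) : AA γ ⊆ XX γ := by
  intro z hz
  have h1 := gb_mem_aa.1 hz 1
  refine closure_mono (image_mono fun t ht => ?_) h1
  have h2 : (1 : ℝ) ≤ t := ht
  show (0 : ℝ) < t
  linarith


theorem aa_compact (C : Ctx F γ lam ell) : IsCompact (AA γ) := by
  have h1 : IsClosed (AA γ) := isClosed_iInter fun _ => isClosed_closure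
  exact (xx_compact C).of_isClosed_subset h1 (aa_sub C)


theorem aa_nonempty (C : Ctx F γ lam ell) : (AA γ).Nonempty := by
  have h1 : map γ atTop ≤ 𝓟 (XX γ) := by
    rw [le_principal_iff, mem_map]
    filter_upwards [Ici_mem_atTop (0 : ℝ)] with t ht
    exact mem_xx C ht
  obtain ⟨z, _, hz⟩ := (xx_compact C) h1
  exact ⟨z, gb_cluster le_rfl hz⟩


theorem aa_image (C : Ctx F γ lam ell) : F '' AA γ = AA γ := by
  ext w
  constructor
  · rintro ⟨z, hz, rfl⟩
    exact (gb_aa_iff C z).2 hz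
  · intro hw
    refine ⟨F.symm w, (gb_aa_iff C _).1 ?_, F.apply_symm_apply w⟩
    rw [F.apply_symm_apply]
    exact hw


theorem xx_eq (C : Ctx F γ lam ell) : XX γ = γ '' Ici 0 ∪ AA γ := by
  apply Subset.antisymm
  · intro z hz
    by_cases hA : z ∈ AA γ
    · exact Or.inr hA
    · left
      rw [gb_mem_aa] at hA
      push Not at hA
      obtain ⟨T, hT⟩ := hA
      have h1 : γ '' Ioi 0 ⊆ γ '' Icc 0 T ∪ γ '' Ici T := by
        rw [← image_union]
        refine image_mono fun t ht => ?_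
        have ht' : (0 : ℝ) < t := ht
        rcases le_total t T with h | h
        · exact Or.inl ⟨ht'.le, h⟩
        · exact Or.inr h
      have h2 : IsClosed (γ '' Icc 0 T) := (isCompact_Icc.image C.cont).isClosed
      have h3 := closure_mono h1 hz
      rw [closure_union, h2.closure_eq] at h3
      rcases h3 with h3 | h3
      · exact image_mono (fun t ht => ht.1) h3
      · exact absurd h3 hT
  · rintro z (⟨t, ht, rfl⟩ | hz)
    · exact mem_xx C ht
    · exact aa_sub C hz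


theorem aa_notin (C : Ctx F γ lam ell) {t : ℝ} (ht : 0 ≤ t) : γ t ∉ AA γ := by
  intro h
  have h1 : ∀ n : ℕ, γ (lam ^ n * t) ∈ AA γ := by
    intro n
    induction n with
    | zero => simpa using h
    | succ n ih =>
      have h2 := (gb_aa_iff C _).2 ih
      rw [C.conj] at h2
      rw [pow_succ']
      rwa [← mul_assoc] at h2
  have h2 : Tendsto (fun n : ℕ => γ (lam ^ n * t)) atTop (𝓝 (γ 0)) := by
    have h3 : Tendsto (fun n : ℕ => lam ^ n * t) atTop (𝓝 (0 * t)) :=
      (tendsto_pow_atTop_nhds_zero_of_lt_one C.lam0.le C.lam1).mul_const t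
    rw [zero_mul] at h3
    exact (C.cont.tendsto 0).comp h3
  have h3 : IsClosed (AA γ) := isClosed_iInter fun _ => isClosed_closure
  exact C.nacc (h3.mem_of_tendsto h2 (Eventually.of_forall h1))


theorem aa_dist (C : Ctx F γ lam ell) (T : ℝ) :
    ∃ δ > 0, ∀ t, 0 ≤ t → t ≤ T → ∀ z ∈ AA γ, δ ≤ dist (γ t) z := by
  have h1 : IsClosed (AA γ) := isClosed_iInter fun _ => isClosed_closure
  have h2 : Disjoint (γ '' Icc 0 T) (AA γ) := by
    rw [disjoint_left]
    rintro z ⟨t, ht, rfl⟩ hz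
    exact aa_notin C ht.1 hz
  obtain ⟨r, hr, h⟩ := Metric.exists_pos_forall_lt_edist (isCompact_Icc.image C.cont) h1 h2
  refine ⟨r, hr, fun t h0 hT z hz => ?_⟩
  have h3 := h (γ t) ⟨t, ⟨h0, hT⟩, rfl⟩ z hz
  rw [edist_nndist, ENNReal.coe_lt_coe] at h3
  have h4 : (r : ℝ) < (nndist (γ t) z : ℝ) := h3
  rw [coe_nndist] at h4
  exact h4.le


theorem aa_near (C : Ctx F γ lam ell) {ε : ℝ} (hε : 0 < ε) :
    ∃ T : ℝ, ∀ t, T ≤ t → ∃ z ∈ AA γ, dist (γ t) z < ε := by
  by_contra hcon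
  push Not at hcon
  have hfr : ∃ᶠ t in (atTop : Filter ℝ), t ∈ {t : ℝ | ∀ z ∈ AA γ, ε ≤ dist (γ t) z} := by
    rw [frequently_atTop]
    intro T
    obtain ⟨t, ht, h⟩ := hcon T
    exact ⟨t, ht, h⟩
  rw [frequently_mem_iff_neBot] at hfr
  have h1 : map γ (atTop ⊓ 𝓟 {t : ℝ | ∀ z ∈ AA γ, ε ≤ dist (γ t) z}) ≤ 𝓟 (XX γ) := by
    rw [le_principal_iff, mem_map]
    refine mem_inf_of_left ?_
    filter_upwards [Ici_mem_atTop (0 : ℝ)] with t ht
    exact mem_xx C ht
  obtain ⟨z, _, hz⟩ := (xx_compact C) h1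
  have hzA : z ∈ AA γ := gb_cluster inf_le_left hz
  have hcl : IsClosed {w : ℂ | ∀ z ∈ AA γ, ε ≤ dist w z} := by
    have h2 : {w : ℂ | ∀ z ∈ AA γ, ε ≤ dist w z} = ⋂ z ∈ AA γ, {w : ℂ | ε ≤ dist w z} := by
      ext w
      simp
    rw [h2]
    exact isClosed_biInter fun z _ =>
      isClosed_le continuous_const (continuous_id.dist continuous_const)
  have h3 : z ∈ {w : ℂ | ∀ z ∈ AA γ, ε ≤ dist w z} := by
    rw [← hcl.closure_eq, mem_closure_iff_clusterPt]
    refine hz.mono ?_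
    rw [le_principal_iff, mem_map]
    exact mem_inf_of_right (mem_principal_self _)
  have h4 := h3 z hzA
  rw [dist_self] at h4
  linarith


theorem aa_acc {z : ℂ} (hz : z ∈ AA γ) (T : ℝ) {ε : ℝ} (hε : 0 < ε) :
    ∃ t, T ≤ t ∧ dist (γ t) z < ε := by
  have h1 := gb_mem_aa.1 hz T
  rw [Metric.mem_closure_iff] at h1
  obtain ⟨b, ⟨t, ht, rfl⟩, h2⟩ := h1 ε hε
  exact ⟨t, ht, by rwa [dist_comm] at h2⟩


end Pool.Agent.HE
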