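import Pool.Agent.HE.GBas

set_option autoImplicit false

/-!
HE-Germ. Left germs of the branch and components of the complement of `XX ∪ κ`: near a parameter
`t > 0` with `γ t ∉ closure κ` the collar points `ell t' η` (`η > 0` small) form a connected set in the
complement of `XX ∪ κ`, so they are in one component, which is locally constant in the parameter.
-/

namespace Pool.Agent.HE

open Set Topology Filter

variable {F : ℂ ≃ₜ ℂ} {γ : ℝ → ℂ} {lam : ℝ} {ell : ℝ → ℝ → ℂ}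

theorem LG.mono {D D' : Set ℂ} {t : ℝ} (h : LG ell D t) (hs : D ⊆ D') : LG ell D' t := by
  obtain ⟨ε, hε, h1⟩ := h
  exact ⟨ε, hε, fun t' η a b c => hs (h1 t' η a b c)⟩

/-- germs are open in the parameter -/
theorem LG.nhds {D : Set ℂ} {t : ℝ} (h : LG ell D t) : ∀ᶠ s in 𝓝 t, LG ell D s := by
  obtain ⟨ε, hε, h1⟩ := h
  filter_upwards [Metric.ball_mem_nhds t (half_pos hε)] with s hs
  rw [Metric.mem_ball, Real.dist_eq] at hs
  refine ⟨ε / 2, half_pos hε, fun t' η a b c => h1 t' η ?_ b (by linarith)⟩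
  have h2 : |t' - t| ≤ |t' - s| + |s - t| := by
    have h3 := abs_add_le (t' - s) (s - t)
    rwa [sub_add_sub_cancel] at h3
  linarith

theorem LG.inter {D D' : Set ℂ} {t : ℝ} (h : LG ell D t) (h' : LG ell D' t) :
    (D ∩ D').Nonempty := by
  obtain ⟨ε, hε, h1⟩ := h
  obtain ⟨ε', hε', h1'⟩ := h'
  have hm : 0 < min ε ε' := lt_min hε hε'
  refine ⟨ell t (min ε ε' / 2), h1 _ _ (by simpa using hε) (half_pos hm) ?_,
    h1' _ _ (by simpa using hε') (half_pos hm) ?_⟩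
  · exact (half_lt_self hm).trans_le (min_le_left _ _)
  · exact (half_lt_self hm).trans_le (min_le_right _ _)

private theorem good_nbd (C : Ctx F γ lam ell) {κ : Set ℂ} {t : ℝ} (ht : 0 < t)
    (hk : γ t ∉ closure κ) : ∃ δ > 0, ∀ t' η : ℝ, |t' - t| < δ → 0 < η → η < δ →
      ell t' η ∉ XX γ ∪ κ := by
  obtain ⟨δ1, hδ1, h1⟩ := C.g1 t ht
  have h2 : ∀ᶠ x : ℝ × ℝ in 𝓝 (t, 0), ell x.1 x.2 ∈ (closure κ)ᶜ := by
    refine C.ellc.continuousAt.eventually_mem (isClosed_closure.isOpen_compl.mem_nhds ?_)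
    show ell t 0 ∈ (closure κ)ᶜ
    rw [C.ell0 t]
    exact hk
  obtain ⟨δ2, hδ2, h3⟩ := Metric.eventually_nhds_iff.1 h2
  refine ⟨min δ1 δ2, lt_min hδ1 hδ2, fun t' η a b c => ?_⟩
  rintro (hx | hx)
  · exact h1 t' η (a.trans_le (min_le_left _ _)) b (c.trans_le (min_le_left _ _)) hx
  · have h4 : dist ((t', η) : ℝ × ℝ) (t, 0) < δ2 := by
      rw [Prod.dist_eq, max_lt_iff]
      constructor
      · show dist t' t < δ2
        rw [Real.dist_eq]
        exact a.trans_le (min_le_right _ _)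
      · show dist η 0 < δ2
        rw [Real.dist_eq, sub_zero, abs_of_pos b]
        exact c.trans_le (min_le_right _ _)
    exact h3 h4 (subset_closure hx)

private theorem lg_point (C : Ctx F γ lam ell) {κ : Set ℂ} {t : ℝ} (ht : 0 < t)
    (hk : γ t ∉ closure κ) : ∃ δ > 0, ∃ S : Set ℂ, IsPreconnected S ∧ Disjoint S (XX γ ∪ κ) ∧
      ∀ t' η : ℝ, |t' - t| < δ → 0 < η → η < δ → ell t' η ∈ S := by
  obtain ⟨δ, hδ, h1⟩ := good_nbd C ht hk
  refine ⟨δ, hδ, (fun x : ℝ × ℝ => ell x.1 x.2) '' (Ioo (t - δ) (t + δ) ×ˢ Ioo 0 δ), ?_, ?_, ?_⟩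
  · exact (isPreconnected_Ioo.prod isPreconnected_Ioo).image _ C.ellc.continuousOn
  · rw [disjoint_left]
    rintro _ ⟨⟨t', η⟩, ⟨⟨a1, a2⟩, b1, b2⟩, rfl⟩
    refine h1 t' η ?_ b1 b2
    rw [abs_lt]
    simp only at a1 a2
    constructor <;> linarith
  · intro t' η a b c
    rw [abs_lt] at a
    exact ⟨(t', η), ⟨⟨by simp only; linarith [a.1], by simp only; linarith [a.2]⟩, b, c⟩, rfl⟩

theorem lg_exists (C : Ctx F γ lam ell) {κ : Set ℂ} {t : ℝ} (ht : 0 < t)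
    (hk : γ t ∉ closure κ) : ∃ D, IsCmp (XX γ ∪ κ) D ∧ LG ell D t := by
  obtain ⟨δ, hδ, S, hS, hd, h1⟩ := lg_point C ht hk
  have h0 : ell t (δ / 2) ∈ S :=
    h1 t (δ / 2) (by simpa using hδ) (half_pos hδ) (half_lt_self hδ)
  have h0' : ell t (δ / 2) ∉ XX γ ∪ κ := fun h => disjoint_left.1 hd h0 h
  exact ⟨Cmp (XX γ ∪ κ) (ell t (δ / 2)), isCmp_cmp h0', δ, hδ, fun t' η a b c =>
    sub_cmp hS hd ⟨_, h0, mem_cmp h0'⟩ (h1 t' η a b c)⟩

theorem lg_or (C : Ctx F γ lam ell) {κ : Set ℂ} {t : ℝ} (ht : 0 < t) (hk : γ t ∉ closure κ)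
    {D : Set ℂ} (hD : IsCmp (XX γ ∪ κ) D) : LG ell D t ∨ LG ell Dᶜ t := by
  obtain ⟨D', hD', h1⟩ := lg_exists C ht hk
  by_cases hm : (D ∩ D').Nonempty
  · left
    rw [hD.eq_of_inter hD' hm]
    exact h1
  · right
    refine h1.mono fun x hx hxD => hm ⟨x, hxD, hx⟩

theorem lg_const (C : Ctx F γ lam ell) {κ : Set ℂ} {s t : ℝ}
    (h : ∀ x ∈ uIcc s t, 0 < x ∧ γ x ∉ closure κ) {D : Set ℂ} (hD : IsCmp (XX γ ∪ κ) D)
    (hs : LG ell D s) : LG ell D t := by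
  by_contra hnt
  have ho1 : IsOpen {x : ℝ | LG ell D x} := isOpen_iff_mem_nhds.2 fun x hx => LG.nhds hx
  have ho2 : IsOpen {x : ℝ | LG ell Dᶜ x} := isOpen_iff_mem_nhds.2 fun x hx => LG.nhds hx
  have hpre : IsPreconnected (uIcc s t) := isPreconnected_uIcc
  have ht2 : LG ell Dᶜ t := by
    obtain ⟨a, b⟩ := h t right_mem_uIcc
    exact (lg_or C a b hD).resolve_left hnt
  obtain ⟨x, -, hx1, hx2⟩ := hpre _ _ ho1 ho2
    (fun x hx => lg_or C (h x hx).1 (h x hx).2 hD)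
    ⟨s, left_mem_uIcc, hs⟩ ⟨t, right_mem_uIcc, ht2⟩
  obtain ⟨z, hz1, hz2⟩ := LG.inter hx1 hx2
  exact hz2 hz1

/-- a point of the collar segment over `t` decides the germ -/
theorem lg_seg (C : Ctx F γ lam ell) {κ : Set ℂ} {t η : ℝ} (ht : 0 < t) (hη : 0 < η)
    (hk : γ t ∉ closure κ) (h : ∀ x, 0 < x → x ≤ η → ell t x ∉ XX γ ∪ κ) :
    LG ell (Cmp (XX γ ∪ κ) (ell t η)) t := by
  obtain ⟨δ, hδ, S, hS, hd, h1⟩ := lg_point C ht hk
  have hη' : ell t η ∉ XX γ ∪ κ := h η hη le_rfl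
  have hc : Continuous fun x : ℝ => ell t x :=
    C.ellc.comp (continuous_const.prodMk continuous_id)
  have hseg : (fun x : ℝ => ell t x) '' Ioc 0 η ⊆ Cmp (XX γ ∪ κ) (ell t η) := by
    refine sub_cmp (isPreconnected_Ioc.image _ hc.continuousOn) ?_
      ⟨ell t η, ⟨η, ⟨hη, le_rfl⟩, rfl⟩, mem_cmp hη'⟩
    rw [disjoint_left]
    rintro _ ⟨x, hx, rfl⟩
    exact h x hx.1 hx.2
  have hm : 0 < min η (δ / 2) := lt_min hη (half_pos hδ)
  have h0 : ell t (min η (δ / 2)) ∈ S :=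
    h1 t _ (by simpa using hδ) hm ((min_le_right _ _).trans_lt (half_lt_self hδ))
  have h0' : ell t (min η (δ / 2)) ∈ Cmp (XX γ ∪ κ) (ell t η) :=
    hseg ⟨_, ⟨hm, min_le_left _ _⟩, rfl⟩
  exact ⟨δ, hδ, fun t' η' a b c => sub_cmp hS hd ⟨_, h0, h0'⟩ (h1 t' η' a b c)⟩

end Pool.Agent.HE
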