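import Pool.Agent.HE.HDefs
import Pool.Agent.HD.Area

set_option autoImplicit false

/-!
HE-HArea. No open set has a bounded backward orbit: all backward iterates of the image of the set in `ℝ × ℝ` are
in a fixed ball (also the intermediate ones, by compactness), which `noLoop` of HD-Area excludes.
-/

namespace Pool.Agent.HE

open Set Topology Filter Pool.Agent.HD MeasureTheory

private theorem e_symm {b c : ℝ} (hb : b ≠ 0) (z : ℂ) :
    (((fh b c hb).symm z).re, ((fh b c hb).symm z).im) = Gi 1 b c (z.re, z.im) := by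
  show (z.im, (z.im ^ 2 + c - z.re) / b) = (z.im, (1 * z.im ^ 2 + c - z.re) / b)
  rw [one_mul]

private theorem e_iter {b c : ℝ} (hb : b ≠ 0) (n : ℕ) (z : ℂ) :
    (((fh b c hb).symm^[n] z).re, ((fh b c hb).symm^[n] z).im) =
      (Gi 1 b c)^[n] (z.re, z.im) := by
  induction n with
  | zero => rfl
  | succ n ih => rw [Function.iterate_succ_apply', Function.iterate_succ_apply', ← ih, e_symm]

private theorem norm_e (z : ℂ) : ‖((z.re, z.im) : ℝ × ℝ)‖ ≤ ‖z‖ := by
  rw [Prod.norm_def]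
  exact max_le (Complex.abs_re_le_norm z) (Complex.abs_im_le_norm z)

theorem no_fN {b c : ℝ} (hb : b ≠ 0) (hb1 : |b| < 1) {N : ℕ} (hN : 1 ≤ N) :
    NO (fN b c hb N) := by
  rintro D hD hne ⟨R, hR⟩
  have hK : IsCompact (Metric.closedBall (0 : ℝ × ℝ) R) := isCompact_closedBall _ _
  have hS : IsCompact (⋃ j ∈ Finset.range N, (Gi 1 b c)^[j] '' Metric.closedBall (0 : ℝ × ℝ) R) :=
    (Finset.range N).isCompact_biUnion fun j _ => hK.image (continuous_Gi_iter 1 b c j)
  obtain ⟨M, hM⟩ := hS.isBounded.exists_norm_le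
  have key : ∀ z ∈ D, ∀ n : ℕ, ‖(Gi 1 b c)^[n] (z.re, z.im)‖ ≤ M := by
    intro z hz n
    apply hM
    have h1 : (Gi 1 b c)^[n] (z.re, z.im) =
        (Gi 1 b c)^[n % N] ((Gi 1 b c)^[N * (n / N)] (z.re, z.im)) := by
      rw [← Function.iterate_add_apply, Nat.mod_add_div]
    rw [h1]
    refine Set.mem_biUnion (x := n % N) (Finset.mem_coe.2 (Finset.mem_range.2
      (Nat.mod_lt _ (by omega)))) ⟨_, ?_, rfl⟩
    rw [mem_closedBall_zero_iff, ← e_iter hb]
    refine (norm_e _).trans ?_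
    have h2 := hR (n / N) z hz
    rw [fN_symm_coe, ← Function.iterate_mul] at h2
    exact h2
  have hop : IsOpen (Complex.equivRealProdCLM.toHomeomorph '' D) :=
    Complex.equivRealProdCLM.toHomeomorph.isOpenMap D hD
  have hU : ∀ w ∈ Complex.equivRealProdCLM.toHomeomorph '' D, ∀ n : ℕ,
      ‖(Gi 1 b c)^[n] w‖ ≤ M := by
    rintro w ⟨z, hz, rfl⟩ n
    exact key z hz n
  refine noLoop hb hb1 hop (hne.image _) ?_ (M := M) ?_ (c := c)
  · rw [isBounded_iff_forall_norm_le]
    exact ⟨M, fun w hw => hU w hw 0⟩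
  · intro w hw n
    have hcl : IsClosed {w : ℝ × ℝ | ‖(Gi 1 b c)^[n] w‖ ≤ M} :=
      isClosed_le (continuous_norm.comp (continuous_Gi_iter 1 b c n)) continuous_const
    exact closure_minimal (fun w hw => hU w hw n) hcl (frontier_subset_closure hw)

end Pool.Agent.HE
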