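import Pool.Agent.HE.Bas

set_option autoImplicit false

/-!
HE-HChart. Charts at saddles from linearised invariant curves: in the coordinates which straighten the
two invariant curves (a Lipschitz perturbation of the identity after a linear change of
coordinates) the map is close to its linear part, coordinatewise.
-/

namespace Pool.Agent.HE

open Set Topology Filter

/-- truncation -/
private def kk (a x : ℝ) : ℝ := max (-a) (min a x)

private theorem kk_eq {a x : ℝ} (h : |x| ≤ a) : kk a x = x := by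
  unfold kk
  obtain ⟨h1, h2⟩ := abs_le.1 h
  rw [min_eq_right h2, max_eq_right h1]

private theorem kk_le {a : ℝ} (ha : 0 ≤ a) (x : ℝ) : |kk a x| ≤ a := by
  unfold kk
  rw [abs_le]
  exact ⟨le_max_left _ _, max_le (by linarith) (min_le_left _ _)⟩

private theorem kk_lip (a x y : ℝ) : |kk a x - kk a y| ≤ |x - y| := by
  unfold kk
  refine (abs_max_sub_max_le_max _ _ _ _).trans ?_
  rw [sub_self, abs_zero]
  refine max_le (abs_nonneg _) ((abs_min_sub_min_le_max _ _ _ _).trans ?_)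
  rw [sub_self, abs_zero]
  exact max_le (abs_nonneg _) le_rfl

/-- from strict differentiability -/
private theorem lin_curve {u : ℝ → ℂ} {v : ℂ} (du : HasStrictDerivAt u v 0) {ε : ℝ} (hε : 0 < ε) :
    ∃ a > 0, ∀ x y : ℝ, |x| ≤ a → |y| ≤ a → ‖u x - u y - ((x - y : ℝ) : ℂ) * v‖ ≤ ε * |x - y| := by
  obtain ⟨S, hS, hSa⟩ := du.hasStrictFDerivAt.approximates_deriv_on_nhds
    (c := ⟨ε, hε.le⟩) (Or.inr (by exact_mod_cast hε))
  obtain ⟨a, ha, haS⟩ := Metric.nhds_basis_closedBall.mem_iff.1 hS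
  refine ⟨a, ha, fun x y hx hy => ?_⟩
  have h1 := hSa x (haS (by rwa [Metric.mem_closedBall, dist_zero_right, Real.norm_eq_abs])) y
    (haS (by rwa [Metric.mem_closedBall, dist_zero_right, Real.norm_eq_abs]))
  rw [Real.norm_eq_abs] at h1
  have h2 : (ContinuousLinearMap.toSpanSingleton ℝ v) (x - y) = ((x - y : ℝ) : ℂ) * v := by
    rw [ContinuousLinearMap.toSpanSingleton_apply, Complex.real_smul]
  rw [h2] at h1
  exact h1

private theorem lin_map {F1 : ℂ → ℂ} {A1 : ℂ →L[ℝ] ℂ} (hA : HasStrictFDerivAt F1 A1 0) {ε : ℝ}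
    (hε : 0 < ε) :
    ∃ a > 0, ∀ x y : ℂ, ‖x‖ ≤ a → ‖y‖ ≤ a → ‖F1 x - F1 y - A1 (x - y)‖ ≤ ε * ‖x - y‖ := by
  obtain ⟨S, hS, hSa⟩ := hA.approximates_deriv_on_nhds
    (c := ⟨ε, hε.le⟩) (Or.inr (by exact_mod_cast hε))
  obtain ⟨a, ha, haS⟩ := Metric.nhds_basis_closedBall.mem_iff.1 hS
  refine ⟨a, ha, fun x y hx hy => ?_⟩
  exact hSa x (haS (by rwa [Metric.mem_closedBall, dist_zero_right])) y
    (haS (by rwa [Metric.mem_closedBall, dist_zero_right]))

private theorem core {F1 : ℂ → ℂ} {A1 : ℂ →L[ℝ] ℂ} {u s : ℝ → ℂ}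
    (hA : HasStrictFDerivAt F1 A1 0)
    (hu0 : u 0 = 0) (hs0 : s 0 = 0) (du : HasStrictDerivAt u 1 0)
    (ds : HasStrictDerivAt s Complex.I 0) {ε' : ℝ} (hε' : 0 < ε') :
    ∃ (Ψ : ℂ ≃ₜ ℂ) (a δ0 : ℝ), 0 < a ∧ 0 < δ0 ∧ (∀ x : ℝ, |x| ≤ a → Ψ (x : ℂ) = u x) ∧
      (∀ y : ℝ, |y| ≤ a → Ψ (y * Complex.I) = s y) ∧
      ∀ z z' w w' : ℂ, ‖z‖ ≤ δ0 → ‖z'‖ ≤ δ0 → Ψ w = F1 (Ψ z) → Ψ w' = F1 (Ψ z') →
        ‖(w - w') - A1 (z - z')‖ ≤ ε' * ‖z - z'‖ := by
  set K : ℝ := ‖A1‖ + 1 with hK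
  have hA0 : 0 ≤ ‖A1‖ := norm_nonneg _
  have hK1 : 1 ≤ K := by linarith
  set ε : ℝ := min (1 / 4) (ε' / (10 * K)) with hε
  have hε0 : 0 < ε := lt_min (by norm_num) (by positivity)
  have hε4 : ε ≤ 1 / 4 := min_le_left _ _
  have hεK : 10 * ε * K ≤ ε' := by
    have h1 : ε ≤ ε' / (10 * K) := min_le_right _ _
    rw [le_div_iff₀ (by positivity)] at h1
    linarith
  obtain ⟨a1, ha1, hu⟩ := lin_curve du hε0
  obtain ⟨a2, ha2, hs⟩ := lin_curve ds hε0
  obtain ⟨δ, hδ, hF⟩ := lin_map hA hε0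
  set a : ℝ := min a1 a2 with ha
  have ha0 : 0 < a := lt_min ha1 ha2
  set g : ℂ → ℂ := fun z => z + ((u (kk a z.re) - kk a z.re) +
    (s (kk a z.im) - kk a z.im * Complex.I)) with hg
  have hgl : ∀ z z' : ℂ, ‖g z - g z' - (z - z')‖ ≤ 2 * ε * ‖z - z'‖ := by
    intro z z'
    have h1 : g z - g z' - (z - z') =
        (u (kk a z.re) - u (kk a z'.re) - ((kk a z.re - kk a z'.re : ℝ) : ℂ) * 1) +
        (s (kk a z.im) - s (kk a z'.im) - ((kk a z.im - kk a z'.im : ℝ) : ℂ) * Complex.I) := by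
      rw [hg]
      push_cast
      ring
    rw [h1]
    have h2 := hu (kk a z.re) (kk a z'.re) ((kk_le ha0.le _).trans (min_le_left _ _))
      ((kk_le ha0.le _).trans (min_le_left _ _))
    have h3 := hs (kk a z.im) (kk a z'.im) ((kk_le ha0.le _).trans (min_le_right _ _))
      ((kk_le ha0.le _).trans (min_le_right _ _))
    have h4 : |kk a z.re - kk a z'.re| ≤ ‖z - z'‖ := by
      refine (kk_lip _ _ _).trans ?_
      rw [← Complex.sub_re]
      exact Complex.abs_re_le_norm _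
    have h5 : |kk a z.im - kk a z'.im| ≤ ‖z - z'‖ := by
      refine (kk_lip _ _ _).trans ?_
      rw [← Complex.sub_im]
      exact Complex.abs_im_le_norm _
    refine (norm_add_le _ _).trans ?_
    have h6 := mul_le_mul_of_nonneg_left h4 hε0.le
    have h7 := mul_le_mul_of_nonneg_left h5 hε0.le
    linarith
  obtain ⟨c, hc⟩ : ∃ c : NNReal, (c : ℝ) = 2 * ε := ⟨⟨2 * ε, by positivity⟩, rfl⟩
  have hga : ApproximatesLinearOn g ((ContinuousLinearEquiv.refl ℝ ℂ : ℂ ≃L[ℝ] ℂ) : ℂ →L[ℝ] ℂ)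
      univ c := by
    intro z _ z' _
    rw [hc]
    exact hgl z z'
  have hgc : Subsingleton ℂ ∨ c <
      ‖(((ContinuousLinearEquiv.refl ℝ ℂ : ℂ ≃L[ℝ] ℂ)).symm : ℂ →L[ℝ] ℂ)‖₊⁻¹ := by
    right
    have h1 : ‖(((ContinuousLinearEquiv.refl ℝ ℂ : ℂ ≃L[ℝ] ℂ)).symm : ℂ →L[ℝ] ℂ)‖₊ = 1 := by
      have h2 : ‖ContinuousLinearMap.id ℝ ℂ‖ = 1 := ContinuousLinearMap.norm_id
      exact NNReal.coe_injective h2
    rw [h1, inv_one, ← NNReal.coe_lt_coe, hc, NNReal.coe_one]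
    linarith
  set Ψ : ℂ ≃ₜ ℂ := hga.toHomeomorph g hgc with hΨ
  have hΨg : ∀ z, Ψ z = g z := fun z => rfl
  refine ⟨Ψ, a, δ / 2, ha0, by positivity, ?_, ?_, ?_⟩
  · intro x hx
    rw [hΨg, hg]
    simp only [Complex.ofReal_re, Complex.ofReal_im]
    rw [kk_eq hx, kk_eq (by rw [abs_zero]; exact ha0.le), hs0]
    simp
  · intro y hy
    rw [hΨg, hg]
    simp only [Complex.mul_re, Complex.mul_im, Complex.ofReal_re, Complex.ofReal_im, Complex.I_re,
      Complex.I_im, mul_zero, mul_one, sub_zero, add_zero]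
    rw [kk_eq hy, kk_eq (by rw [abs_zero]; exact ha0.le), hu0]
    simp
  · have hΨ0 : Ψ 0 = 0 := by
      rw [hΨg, hg]
      simp only [Complex.zero_re, Complex.zero_im]
      rw [kk_eq (by rw [abs_zero]; exact ha0.le), hu0, hs0]
      simp
    have hΨn : ∀ z : ℂ, ‖z‖ ≤ δ / 2 → ‖Ψ z‖ ≤ δ := by
      intro z hz
      have h1 := hgl z 0
      rw [← hΨg, ← hΨg, hΨ0, sub_zero, sub_zero] at h1
      have h2 : ‖Ψ z‖ ≤ ‖Ψ z - z‖ + ‖z‖ := norm_le_norm_sub_add _ _
      have h3 : 2 * ε * ‖z‖ ≤ 1 * ‖z‖ := mul_le_mul_of_nonneg_right (by linarith) (norm_nonneg _)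
      linarith
    intro z z' w w' hz hz' hw hw'
    set r : ℝ := ‖z - z'‖ with hr
    have hr0 : 0 ≤ r := norm_nonneg _
    have h1 : ‖Ψ z - Ψ z' - (z - z')‖ ≤ 2 * ε * r := hgl z z'
    have h2 : ‖Ψ z - Ψ z'‖ ≤ 2 * r := by
      have h3 : ‖Ψ z - Ψ z'‖ ≤ ‖Ψ z - Ψ z' - (z - z')‖ + ‖z - z'‖ := norm_le_norm_sub_add _ _
      have h4 : 2 * ε * r ≤ 1 * r := mul_le_mul_of_nonneg_right (by linarith) hr0
      linarith
    have h3 : ‖Ψ w - Ψ w' - A1 (Ψ z - Ψ z')‖ ≤ ε * (2 * r) := by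
      rw [hw, hw']
      exact (hF _ _ (hΨn z hz) (hΨn z' hz')).trans (mul_le_mul_of_nonneg_left h2 hε0.le)
    have h4 : ‖A1 (Ψ z - Ψ z') - A1 (z - z')‖ ≤ ‖A1‖ * (2 * ε * r) := by
      rw [← map_sub]
      exact (A1.le_opNorm _).trans (mul_le_mul_of_nonneg_left h1 hA0)
    have h5 : ‖Ψ w - Ψ w' - A1 (z - z')‖ ≤ 2 * ε * K * r := by
      have h6 := norm_sub_le_norm_sub_add_norm_sub (Ψ w - Ψ w') (A1 (Ψ z - Ψ z')) (A1 (z - z'))
      have h7 : 2 * ε * K * r = ε * (2 * r) + ‖A1‖ * (2 * ε * r) := by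
        rw [hK]
        ring
      linarith
    have h6 : ‖Ψ w - Ψ w'‖ ≤ 2 * K * r := by
      have h7 : ‖Ψ w - Ψ w'‖ ≤ ‖Ψ w - Ψ w' - A1 (z - z')‖ + ‖A1 (z - z')‖ :=
        norm_le_norm_sub_add _ _
      have h8 : ‖A1 (z - z')‖ ≤ ‖A1‖ * r := A1.le_opNorm _
      have h9 : 2 * ε * K * r ≤ 1 * (K * r) := by
        have h10 : 0 ≤ K * r := by positivity
        have h11 : 2 * ε * (K * r) ≤ 1 * (K * r) :=
          mul_le_mul_of_nonneg_right (by linarith) h10
        linarith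
      have h10 : ‖A1‖ * r ≤ K * r := mul_le_mul_of_nonneg_right (by linarith) hr0
      linarith
    have h7 : ‖Ψ w - Ψ w' - (w - w')‖ ≤ 2 * ε * ‖w - w'‖ := hgl w w'
    have h8 : ‖w - w'‖ ≤ 4 * K * r := by
      have h9 : ‖w - w'‖ ≤ ‖w - w' - (Ψ w - Ψ w')‖ + ‖Ψ w - Ψ w'‖ := norm_le_norm_sub_add _ _
      rw [norm_sub_rev (w - w')] at h9
      have h10 : 2 * ε * ‖w - w'‖ ≤ 1 / 2 * ‖w - w'‖ :=
        mul_le_mul_of_nonneg_right (by linarith) (norm_nonneg _)
      linarith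
    have h9 := norm_sub_le_norm_sub_add_norm_sub (w - w') (Ψ w - Ψ w') (A1 (z - z'))
    rw [norm_sub_rev (w - w') (Ψ w - Ψ w')] at h9
    have h10 : 2 * ε * ‖w - w'‖ ≤ 2 * ε * (4 * K * r) :=
      mul_le_mul_of_nonneg_left h8 (by positivity)
    have h11 : 10 * ε * K * r ≤ ε' * r := mul_le_mul_of_nonneg_right hεK hr0
    linarith

private theorem exists_Q {vu vs : ℂ}
    (h : ∀ a b : ℝ, (a : ℂ) * vu + b * vs = 0 → a = 0 ∧ b = 0) :
    ∃ Q : ℂ ≃L[ℝ] ℂ, ∀ z, Q z = (z.re : ℂ) * vu + z.im * vs := by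
  let f : ℂ →ₗ[ℝ] ℂ :=
    { toFun := fun z => (z.re : ℂ) * vu + z.im * vs
      map_add' := by
        intro x y
        simp only [Complex.add_re, Complex.add_im, Complex.ofReal_add]
        ring
      map_smul' := by
        intro c x
        simp only [Complex.real_smul, Complex.re_ofReal_mul, Complex.im_ofReal_mul,
          Complex.ofReal_mul, RingHom.id_apply]
        ring }
  have hf : Function.Injective f := by
    rw [injective_iff_map_eq_zero]
    intro z hz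
    obtain ⟨h1, h2⟩ := h z.re z.im hz
    exact Complex.ext h1 h2
  exact ⟨(LinearEquiv.ofInjectiveEndo f hf).toContinuousLinearEquiv, fun z => rfl⟩

private theorem eigen {F : ℂ ≃ₜ ℂ} {r : ℂ} {A : ℂ →L[ℝ] ℂ} (hA : HasStrictFDerivAt F A r)
    {μ : ℝ} {η : ℝ → ℂ} {v : ℂ} (h0 : η 0 = r) (d : HasStrictDerivAt η v 0)
    (c : ∀ t, F (η t) = η (μ * t)) : A v = μ * v := by
  have h1 : HasDerivAt (F ∘ η) (A v) 0 := hA.hasFDerivAt.comp_hasDerivAt_of_eq 0 d.hasDerivAt h0.symm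
  have h2 : HasDerivAt (fun t : ℝ => μ * t) μ 0 := by
    have := (hasDerivAt_id (0 : ℝ)).const_mul μ
    rwa [mul_one] at this
  have h3 : HasDerivAt (η ∘ fun t : ℝ => μ * t) (μ • v) 0 :=
    d.hasDerivAt.scomp_of_eq 0 h2 (by rw [mul_zero])
  have h4 : (F ∘ η) = (η ∘ fun t : ℝ => μ * t) := funext c
  rw [h4] at h1
  rw [h1.unique h3, Complex.real_smul]

theorem exists_chart {F : ℂ ≃ₜ ℂ} {r : ℂ} {A : ℂ →L[ℝ] ℂ} (hA : HasStrictFDerivAt F A r)
    {e μ ν : ℝ} (he : e = 1 ∨ e = -1) (hμ : 1 < e * μ) (hν0 : 0 < e * ν) (hν : e * ν < 1)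
    {ηu ηs : ℝ → ℂ} {vu vs : ℂ} (hu0 : ηu 0 = r) (hs0 : ηs 0 = r) (hvu : vu ≠ 0) (hvs : vs ≠ 0)
    (du : HasStrictDerivAt ηu vu 0) (ds : HasStrictDerivAt ηs vs 0)
    (cu : ∀ t, F (ηu t) = ηu (μ * t)) (cs : ∀ t, F (ηs t) = ηs (ν * t)) :
    ∃ (Φ : ℂ ≃ₜ ℂ) (h sm sp lm lp : ℝ), Chart F Φ r e h sm sp lm lp ∧
      (∀ z, |(Φ z).re| < h → |(Φ z).im| < h → (Φ z).re = 0 → ∃ t, ηs t = z) ∧
      (∀ z, |(Φ z).re| < h → |(Φ z).im| < h → (Φ z).im = 0 → ∃ t, ηu t = z) ∧
      ∃ t0 > 0, ∀ t, |t| ≤ t0 → (Φ (ηs t)).re = 0 := by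
  have hr : F r = r := by
    have h1 := cu 0
    rwa [mul_zero, hu0] at h1
  have hee : e * e = 1 := by
    rcases he with rfl | rfl <;> norm_num
  have heabs : |e| = 1 := by
    rcases he with rfl | rfl <;> norm_num
  have hμν : μ ≠ ν := by
    rintro rfl
    linarith
  -- the linear coordinates
  have hvu' := eigen hA hu0 du cu
  have hvs' := eigen hA hs0 ds cs
  have hind : ∀ a b : ℝ, (a : ℂ) * vu + b * vs = 0 → a = 0 ∧ b = 0 := by
    intro a b hab
    have h1 : A ((a : ℂ) * vu + b * vs) = (a : ℂ) * (μ * vu) + b * (ν * vs) := by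
      rw [map_add, ← Complex.real_smul, ← Complex.real_smul, map_smul, map_smul, hvu', hvs',
        Complex.real_smul, Complex.real_smul]
    rw [hab, map_zero] at h1
    have h2 : (b : ℂ) * ((ν : ℂ) - μ) * vs = 0 := by
      linear_combination -h1 - μ * hab
    have h3 : (ν : ℂ) - μ ≠ 0 := by
      rw [sub_ne_zero]
      exact fun h => hμν (Complex.ofReal_injective h).symm
    have h4 : (b : ℂ) = 0 := by
      rcases mul_eq_zero.1 h2 with h5 | h5
      · rcases mul_eq_zero.1 h5 with h6 | h6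
        · exact h6
        · exact absurd h6 h3
      · exact absurd h5 hvs
    rw [h4, zero_mul, add_zero] at hab
    have h5 : (a : ℂ) = 0 := by
      rcases mul_eq_zero.1 hab with h6 | h6
      · exact h6
      · exact absurd h6 hvu
    exact ⟨Complex.ofReal_eq_zero.1 h5, Complex.ofReal_eq_zero.1 h4⟩
  obtain ⟨Q, hQ⟩ := exists_Q hind
  set P : ℂ ≃L[ℝ] ℂ := Q.symm with hP
  have hPQ : ∀ z, P (Q z) = z := fun z => Q.symm_apply_apply z
  have hQP : ∀ z, Q (P z) = z := fun z => Q.apply_symm_apply z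
  have hPu : P vu = 1 := by
    have h1 : Q 1 = vu := by
      rw [hQ]
      simp
    rw [← h1, hPQ]
  have hPs : P vs = Complex.I := by
    have h1 : Q Complex.I = vs := by
      rw [hQ]
      simp
    rw [← h1, hPQ]
  set F1 : ℂ → ℂ := fun z => P (F (r + Q z) - r) with hF1
  set A1 : ℂ →L[ℝ] ℂ := (P : ℂ →L[ℝ] ℂ).comp (A.comp (Q : ℂ →L[ℝ] ℂ)) with hA1
  have hA1z : ∀ z : ℂ, A1 z = (μ * z.re : ℝ) + (ν * z.im : ℝ) * Complex.I := by
    intro z
    have h1 : A (Q z) = ((μ * z.re : ℝ) : ℂ) * vu + ((ν * z.im : ℝ) : ℂ) * vs := by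
      rw [hQ, map_add, ← Complex.real_smul, ← Complex.real_smul, map_smul, map_smul, hvu', hvs',
        Complex.real_smul, Complex.real_smul]
      push_cast
      ring
    have h2 : A1 z = P (A (Q z)) := rfl
    rw [h2, h1, map_add, ← Complex.real_smul, ← Complex.real_smul, map_smul, map_smul, hPu, hPs,
      Complex.real_smul, Complex.real_smul, mul_one]
  have hA1d : HasStrictFDerivAt F1 A1 0 := by
    have h1 : HasStrictFDerivAt (fun z : ℂ => r + Q z) (Q : ℂ →L[ℝ] ℂ) 0 :=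
      Q.hasStrictFDerivAt.const_add r
    have h2 : HasStrictFDerivAt F A (r + Q 0) := by
      rwa [map_zero, add_zero]
    have h3 : HasStrictFDerivAt (fun z : ℂ => F (r + Q z) - r) (A.comp (Q : ℂ →L[ℝ] ℂ)) 0 :=
      (h2.comp (0 : ℂ) h1).sub_const r
    exact P.hasStrictFDerivAt.comp (0 : ℂ) h3
  set u : ℝ → ℂ := fun t => P (ηu t - r) with hu
  set s : ℝ → ℂ := fun t => P (ηs t - r) with hs
  have hu0' : u 0 = 0 := by
    rw [hu]
    simp only [hu0, sub_self, map_zero]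
  have hs0' : s 0 = 0 := by
    rw [hs]
    simp only [hs0, sub_self, map_zero]
  have du' : HasStrictDerivAt u 1 0 := by
    have h1 := P.hasStrictFDerivAt (x := ηu 0 - r) |>.comp_hasStrictDerivAt (0 : ℝ) (du.sub_const r)
    rw [← hPu]
    exact h1
  have ds' : HasStrictDerivAt s Complex.I 0 := by
    have h1 := P.hasStrictFDerivAt (x := ηs 0 - r) |>.comp_hasStrictDerivAt (0 : ℝ) (ds.sub_const r)
    rw [← hPs]
    exact h1
  have hF1u : ∀ t, F1 (u t) = u (μ * t) := by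
    intro t
    rw [hF1, hu]
    simp only [hQP, add_sub_cancel, cu]
  have hF1s : ∀ t, F1 (s t) = s (ν * t) := by
    intro t
    rw [hF1, hs]
    simp only [hQP, add_sub_cancel, cs]
  -- the constants
  set M : ℝ := e * μ with hM
  set n : ℝ := e * ν with hn
  set ε : ℝ := min ((M - 1) / 2) (n * (1 - n) / 8) with hε
  have hn1 : 0 < 1 - n := by linarith
  have hε0 : 0 < ε := lt_min (by linarith) (by positivity)
  have hεM : ε ≤ (M - 1) / 2 := min_le_left _ _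
  have hεn : ε ≤ n * (1 - n) / 8 := min_le_right _ _
  have hnn : n * (1 - n) ≤ n := by nlinarith
  have hnn' : n * (1 - n) ≤ 1 - n := by nlinarith
  have hμabs : |μ| = M := by
    have h1 : |e * μ| = |μ| := by rw [abs_mul, heabs, one_mul]
    rw [← h1, abs_of_pos (by linarith)]
  have hνabs : |ν| = n := by
    have h1 : |e * ν| = |ν| := by rw [abs_mul, heabs, one_mul]
    rw [← h1, abs_of_pos hν0]
  obtain ⟨Ψ, a, δ0, ha, hδ0, hΨu, hΨs, hΨ⟩ := core hA1d hu0' hs0' du' ds' hε0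
  set h : ℝ := min (a / M) (δ0 / 2) with hh
  have hM0 : 0 < M := by linarith
  have hh0 : 0 < h := lt_min (by positivity) (by positivity)
  have hhM : M * h ≤ a := by
    have h1 : h ≤ a / M := min_le_left _ _
    rw [le_div_iff₀ hM0] at h1
    linarith
  have hha : h ≤ a := by nlinarith
  have hhδ : 2 * h ≤ δ0 := by
    have h1 : h ≤ δ0 / 2 := min_le_right _ _
    linarith
  have hΨ0 : Ψ 0 = 0 := by
    have h1 := hΨu 0 (by rw [abs_zero]; exact ha.le)
    rwa [Complex.ofReal_zero, hu0'] at h1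
  have hbox : ∀ z : ℂ, |z.re| < h → |z.im| < h → ‖z‖ ≤ δ0 := by
    intro z h1 h2
    have h3 := Complex.norm_le_abs_re_add_abs_im z
    linarith
  -- the estimates
  have key : ∀ z w : ℂ, |z.re| < h → |z.im| < h → Ψ w = F1 (Ψ z) →
      |w.re - μ * z.re| ≤ ε * |z.re| ∧ |w.im - ν * z.im| ≤ ε * |z.im| := by
    intro z w h1 h2 hw
    constructor
    · have h3 := hΨ z (z.im * Complex.I) w ((ν * z.im : ℝ) * Complex.I) (hbox z h1 h2)
        (hbox _ (by simpa using hh0) (by simpa using h2)) hw (by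
          rw [hΨs z.im (h2.le.trans hha), hF1s, hΨs]
          rw [abs_mul, hνabs]
          nlinarith [abs_nonneg z.im])
      have h4 : z - z.im * Complex.I = (z.re : ℂ) := by
        apply Complex.ext <;> simp
      rw [h4, Complex.norm_real, Real.norm_eq_abs, hA1z] at h3
      refine le_trans ?_ h3
      refine le_trans (le_of_eq ?_) (Complex.abs_re_le_norm _)
      congr 1
      simp
    · have h3 := hΨ z (z.re : ℂ) w ((μ * z.re : ℝ) : ℂ) (hbox z h1 h2)
        (hbox _ (by simpa using h1) (by simpa using hh0)) hw (by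
          rw [hΨu z.re (h1.le.trans hha), hF1u, hΨu]
          rw [abs_mul, hμabs]
          nlinarith [abs_nonneg z.re])
      have h4 : z - (z.re : ℂ) = z.im * Complex.I := by
        apply Complex.ext <;> simp
      rw [h4, norm_mul, Complex.norm_I, mul_one, Complex.norm_real, Real.norm_eq_abs, hA1z] at h3
      refine le_trans ?_ h3
      refine le_trans (le_of_eq ?_) (Complex.abs_im_le_norm _)
      congr 1
      simp
  have keym : ∀ z z' w w' : ℂ, |z.re| < h → |z.im| < h → |z'.re| < h → z.im = z'.im →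
      Ψ w = F1 (Ψ z) → Ψ w' = F1 (Ψ z') →
      |(w.re - w'.re) - μ * (z.re - z'.re)| ≤ ε * |z.re - z'.re| := by
    intro z z' w w' h1 h2 h3 h4 hw hw'
    have h5 := hΨ z z' w w' (hbox z h1 h2) (hbox z' h3 (h4 ▸ h2)) hw hw'
    have h6 : z - z' = ((z.re - z'.re : ℝ) : ℂ) := by
      apply Complex.ext
      · simp
      · simp [h4]
    rw [h6, Complex.norm_real, Real.norm_eq_abs, hA1z] at h5
    refine le_trans ?_ h5
    refine le_trans (le_of_eq ?_) (Complex.abs_re_le_norm _)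
    congr 1
    simp
  -- the chart
  set Φ : ℂ ≃ₜ ℂ := ((Homeomorph.subRight r).trans P.toHomeomorph).trans Ψ.symm with hΦ
  have hΨΦ : ∀ z, Ψ (Φ z) = P (z - r) := fun z => Ψ.apply_symm_apply _
  have hΨF : ∀ z, Ψ (Φ (F z)) = F1 (Ψ (Φ z)) := by
    intro z
    rw [hΨΦ, hΨΦ, hF1]
    simp only [hQP, add_sub_cancel]
  have hinj : ∀ z z', P (z - r) = P (z' - r) → z = z' := by
    intro z z' h1
    have h2 := P.injective h1
    exact sub_left_injective h2
  have abs_e : ∀ x : ℝ, |x| = |e * x| := fun x => by rw [abs_mul, heabs, one_mul]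
  have sign : ∀ {k x y : ℝ}, ε ≤ e * k → |y - k * x| ≤ ε * |x| → 0 ≤ e * x * y := by
    intro k x y hk h1
    have h2 : -(ε * |x| * |x|) ≤ e * x * (y - k * x) := by
      have h3 : |e * x * (y - k * x)| ≤ ε * |x| * |x| := by
        rw [abs_mul, ← abs_e, mul_comm]
        exact mul_le_mul_of_nonneg_right h1 (abs_nonneg x)
      exact (abs_le.1 h3).1
    have h3 : |x| * |x| = x * x := abs_mul_abs_self x
    have h4 : ε * (x * x) ≤ e * k * (x * x) := mul_le_mul_of_nonneg_right hk (mul_self_nonneg x)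
    have h5 : ε * |x| * |x| = ε * (x * x) := by rw [mul_assoc, h3]
    nlinarith
  have lowup : ∀ {k x y K : ℝ}, |k| = K → |y - k * x| ≤ ε * |x| →
      (K - ε) * |x| ≤ |y| ∧ |y| ≤ (K + ε) * |x| := by
    intro k x y K hk h1
    have h2 : |k * x| = K * |x| := by rw [abs_mul, hk]
    have h3 : |k * x| ≤ |y| + |y - k * x| := by
      have := abs_sub_abs_le_abs_sub (k * x) y
      rw [abs_sub_comm] at this
      linarith
    have h4 : |y| ≤ |k * x| + |y - k * x| := by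
      have := abs_sub_abs_le_abs_sub y (k * x)
      linarith
    constructor
    · rw [sub_mul]
      linarith
    · rw [add_mul]
      linarith
  refine ⟨Φ, h, M - ε, M + ε, n - ε, n + ε, ⟨he, hh0, by linarith, by linarith, by linarith,
    by nlinarith, ?_, ?_, ?_, ?_, ?_, ?_, ?_, ?_⟩, ?_, ?_, a, ha, ?_⟩
  · have h1 : Ψ (Φ r) = Ψ 0 := by
      rw [hΨΦ, sub_self, map_zero, hΨ0]
    exact Ψ.injective h1
  · intro z h1 h2
    exact sign (by linarith) (key _ _ h1 h2 (hΨF z)).1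
  · intro z h1 h2
    exact sign (by linarith) (key _ _ h1 h2 (hΨF z)).2
  · intro z h1 h2
    exact (lowup hμabs (key _ _ h1 h2 (hΨF z)).1).1
  · intro z h1 h2
    exact (lowup hμabs (key _ _ h1 h2 (hΨF z)).1).2
  · intro z h1 h2
    exact (lowup hνabs (key _ _ h1 h2 (hΨF z)).2).1
  · intro z h1 h2
    exact (lowup hνabs (key _ _ h1 h2 (hΨF z)).2).2
  · intro z1 z2 h1 h2 h3 h4 h5
    have h6 := keym _ _ _ _ h1 h3 h2 h4 (hΨF z1) (hΨF z2)
    set x1 := (Φ z1).re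
    set x2 := (Φ z2).re
    set y1 := (Φ (F z1)).re
    set y2 := (Φ (F z2)).re
    have h7 : |x1 - x2| = x2 - x1 := by rw [abs_of_neg (by linarith)]; ring
    rw [h7, abs_e] at h6
    have h8 := (abs_le.1 h6).2
    have h9 : e * (y1 - y2 - μ * (x1 - x2)) = e * y1 - e * y2 + M * (x2 - x1) := by
      rw [hM]
      ring
    rw [h9] at h8
    have h10 : 0 < (M - ε) * (x2 - x1) := mul_pos (by linarith) (by linarith)
    linarith
  · intro z h1 h2 h3
    refine ⟨(Φ z).im, ?_⟩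
    have h4 : Φ z = (Φ z).im * Complex.I := by
      apply Complex.ext
      · simpa using h3
      · simp
    have h5 : Ψ (Φ z) = s (Φ z).im := by
      have h6 := hΨs (Φ z).im (h2.le.trans hha)
      rwa [← h4] at h6
    rw [hΨΦ] at h5
    exact (hinj _ _ h5).symm
  · intro z h1 h2 h3
    refine ⟨(Φ z).re, ?_⟩
    have h4 : Φ z = ((Φ z).re : ℂ) := by
      apply Complex.ext
      · simp
      · simpa using h3
    have h5 : Ψ (Φ z) = u (Φ z).re := by
      have h6 := hΨu (Φ z).re (h1.le.trans hha)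
      rwa [← h4] at h6
    rw [hΨΦ] at h5
    exact (hinj _ _ h5).symm
  · intro t ht
    have h1 : Ψ (Φ (ηs t)) = Ψ (t * Complex.I) := by
      rw [hΨΦ, hΨs t ht]
    rw [Ψ.injective h1]
    simp

end Pool.Agent.HE
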