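import Pool.Agent.HE.HDefs

set_option autoImplicit false

/-!
HE-HCurve. The real curve of an entire curve: smooth, injective, immersed, conjugates the iterate to the
multiplication by the multiplier, and meets every circle in a countable set (unless it is contained in it).
-/

namespace Pool.Agent.HE

open Set Topology Filter Pool.Agent.HD

variable {b c : ℝ} {N : ℕ} {μ : ℝ} {q : ℂ} {ψ : ℂ → ℂ × ℂ}

/-- `rp` as a real linear map -/
private noncomputable def rpL : (ℂ × ℂ) →L[ℝ] ℂ :=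
  (Complex.reCLM.comp (ContinuousLinearMap.fst ℝ ℂ ℂ)).smulRight (1 : ℂ) +
    (Complex.reCLM.comp (ContinuousLinearMap.snd ℝ ℂ ℂ)).smulRight Complex.I

private lemma rpL_apply (w : ℂ × ℂ) : rpL w = rp w := by
  refine Complex.ext ?_ ?_
  · simp [rpL, rp]
  · simp [rpL, rp]

/-- `cx` as a real linear map -/
private noncomputable def cxL : ℂ →L[ℝ] (ℂ × ℂ) :=
  (Complex.ofRealCLM.comp Complex.reCLM).prod (Complex.ofRealCLM.comp Complex.imCLM)

private lemma cxL_apply (z : ℂ) : cxL z = cx z := by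
  simp [cxL, cx]

theorem crv_cd (E : Ent ((fC b c)^[N]) μ q ψ) : ContDiff ℝ 2 (crv ψ) := by
  have h1 : ContDiff ℝ 2 ψ := (E.diff.contDiff (n := 2)).restrict_scalars ℝ
  have h2 : ContDiff ℝ 2 (fun t : ℝ => (t : ℂ)) := Complex.ofRealCLM.contDiff
  have h3 : ContDiff ℝ 2 (rpL ∘ ψ ∘ fun t : ℝ => (t : ℂ)) :=
    rpL.contDiff.comp (h1.comp h2)
  have h4 : crv ψ = rpL ∘ ψ ∘ fun t : ℝ => (t : ℂ) := by
    funext t
    exact (rpL_apply _).symm
  rw [h4]
  exact h3

theorem crv_inj (E : Ent ((fC b c)^[N]) μ q ψ) : Function.Injective (crv ψ) := by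
  intro s t h
  have h1 : rp (ψ s) = rp (ψ t) := h
  have h2 : ψ (s : ℂ) = ψ (t : ℂ) := by rw [E.real s, E.real t, h1]
  exact_mod_cast E.inj h2

theorem crv_der (E : Ent ((fC b c)^[N]) μ q ψ) (t : ℝ) : deriv (crv ψ) t ≠ 0 := by
  have h1 : HasDerivAt (fun s : ℝ => ψ s) (deriv ψ t) t := by
    have h0 : HasDerivAt (fun s : ℝ => (s : ℂ)) 1 t := (hasDerivAt_id t).ofReal_comp
    have h3 := HasDerivAt.scomp t (E.diff (t : ℂ)).hasDerivAt h0
    rw [one_smul] at h3
    exact h3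
  have h2 : HasDerivAt (crv ψ) (rpL (deriv ψ t)) t := by
    have h3 := rpL.hasFDerivAt.comp_hasDerivAt t h1
    have h4 : crv ψ = rpL ∘ fun s : ℝ => ψ s := by
      funext s
      exact (rpL_apply _).symm
    rw [h4]
    exact h3
  have h5 : HasDerivAt (fun s : ℝ => ψ s) (cxL (rpL (deriv ψ t))) t := by
    have h6 := cxL.hasFDerivAt.comp_hasDerivAt t h2
    have h7 : (fun s : ℝ => ψ s) = cxL ∘ crv ψ := by
      funext s
      rw [Function.comp_apply, cxL_apply]
      exact E.real s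
    rw [h7]
    exact h6
  rw [h2.deriv]
  intro h8
  apply E.der t
  rw [h1.unique h5, h8, map_zero]

theorem crv_conj (hb : b ≠ 0) (E : Ent ((fC b c)^[N]) μ q ψ) (t : ℝ) :
    fN b c hb N (crv ψ t) = crv ψ (μ * t) := by
  apply cx_inj
  rw [← fC_iter_cx]
  have h1 : cx (crv ψ t) = ψ t := (E.real t).symm
  have h2 : cx (crv ψ (μ * t)) = ψ ((μ * t : ℝ) : ℂ) := (E.real (μ * t)).symm
  rw [h1, h2, E.conj, Complex.ofReal_mul]

theorem crv_zero (E : Ent ((fC b c)^[N]) μ q ψ) : crv ψ 0 = q := by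
  unfold crv
  rw [Complex.ofReal_zero, E.zero, rp_cx]

private lemma dist_sq_eq (w z : ℂ) : dist w z ^ 2 = (w.re - z.re) ^ 2 + (w.im - z.im) ^ 2 := by
  rw [Complex.dist_eq, ← Complex.normSq_eq_norm_sq, Complex.normSq_apply]
  simp only [Complex.sub_re, Complex.sub_im]
  ring

theorem crv_circ (E : Ent ((fC b c)^[N]) μ q ψ) {z : ℂ} {ρ : ℝ}
    (h : ∃ t, dist (crv ψ t) z ≠ ρ) : {t : ℝ | dist (crv ψ t) z = ρ}.Countable := by
  set S : Set ℝ := {t : ℝ | dist (crv ψ t) z = ρ} with hS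
  set g : ℂ → ℂ := fun w => ((ψ w).1 - (z.re : ℂ)) ^ 2 + ((ψ w).2 - (z.im : ℂ)) ^ 2 -
    (ρ : ℂ) ^ 2 with hg
  have hgd : Differentiable ℂ g := by
    have h1 : Differentiable ℂ fun w => (ψ w).1 := E.diff.fst
    have h2 : Differentiable ℂ fun w => (ψ w).2 := E.diff.snd
    exact (((h1.sub_const _).pow 2).add ((h2.sub_const _).pow 2)).sub_const _
  have hgr : ∀ t : ℝ, g t = ((dist (crv ψ t) z ^ 2 - ρ ^ 2 : ℝ) : ℂ) := by
    intro t
    have h1 : ψ t = cx (crv ψ t) := E.real t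
    rw [dist_sq_eq, hg]
    simp only
    rw [h1]
    simp [cx]
  by_cases hfin : ∀ n : ℕ, (S ∩ Icc (-(n : ℝ)) n).Finite
  · have h1 : S ⊆ ⋃ n : ℕ, S ∩ Icc (-(n : ℝ)) n := by
      intro t ht
      obtain ⟨n, hn⟩ := exists_nat_ge |t|
      exact mem_iUnion.2 ⟨n, ht, abs_le.1 hn⟩
    exact (countable_iUnion fun n => (hfin n).countable).mono h1
  · push Not at hfin
    obtain ⟨n, hn⟩ := hfin
    exfalso
    obtain ⟨x, -, hx⟩ := Set.Infinite.exists_accPt_of_subset_isCompact hn isCompact_Icc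
      inter_subset_right
    have hx1 : ∃ᶠ t in 𝓝[≠] x, t ∈ S := by
      have h1 := accPt_iff_frequently_nhdsNE.1 hx
      exact h1.mono fun t ht => ht.1
    obtain ⟨t0, ht0⟩ : S.Nonempty := hx1.exists
    have hρ : 0 ≤ ρ := by
      have h1 : dist (crv ψ t0) z = ρ := ht0
      rw [← h1]
      exact dist_nonneg
    have htend : Tendsto (fun t : ℝ => (t : ℂ)) (𝓝[≠] x) (𝓝[≠] (x : ℂ)) := by
      refine tendsto_nhdsWithin_iff.2 ⟨?_, ?_⟩
      · exact (Complex.continuous_ofReal.tendsto x).mono_left nhdsWithin_le_nhds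
      · filter_upwards [self_mem_nhdsWithin] with t ht
        intro h2
        apply ht
        have h3 : (t : ℂ) = (x : ℂ) := h2
        exact_mod_cast h3
    have hfr : ∃ᶠ w in 𝓝[≠] (x : ℂ), g w = 0 := by
      refine htend.frequently (hx1.mono fun t ht => ?_)
      have h1 : dist (crv ψ t) z = ρ := ht
      rw [hgr, h1, sub_self, Complex.ofReal_zero]
    have han : AnalyticOnNhd ℂ g univ := fun w _ => hgd.analyticAt w
    have hz := han.eqOn_zero_of_preconnected_of_frequently_eq_zero isPreconnected_univ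
      (mem_univ (x : ℂ)) hfr
    obtain ⟨t, ht⟩ := h
    apply ht
    have h1 : g t = 0 := hz (mem_univ (t : ℂ))
    rw [hgr] at h1
    have h2 : dist (crv ψ t) z ^ 2 - ρ ^ 2 = 0 := by exact_mod_cast h1
    have h3 : dist (crv ψ t) z ^ 2 = ρ ^ 2 := by linarith
    exact (pow_left_inj₀ dist_nonneg hρ two_ne_zero).1 h3

/-- reversing the parameter -/
theorem ent_neg {g : ℂ × ℂ → ℂ × ℂ} (E : Ent g μ q ψ) : Ent g μ q fun z => ψ (-z) where
  diff := E.diff.comp differentiable_neg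
  inj z w h := neg_injective (E.inj h)
  der z := by
    rw [deriv_comp_neg]
    exact neg_ne_zero.2 (E.der (-z))
  conj z := by
    rw [E.conj, mul_neg]
  zero := by
    rw [neg_zero]
    exact E.zero
  real t := by
    have h := E.real (-t)
    rw [Complex.ofReal_neg] at h
    exact h

end Pool.Agent.HE
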