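import Pool.Agent.HE.HDefs

set_option autoImplicit false

/-!
HE-HGerm. The left collar of a smooth curve. The collar map is a local homeomorphism at `(t, 0)` (inverse
function theorem), the closure of the branch is, near `γ t`, the curve itself, and a real linear map
with positive determinant preserves the left side.
-/

namespace Pool.Agent.HE

open Set Topology Filter Pool.Agent.HD

/-- left collar -/
noncomputable def col (γ : ℝ → ℂ) (t η : ℝ) : ℂ := γ t + η * (Complex.I * deriv γ t)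

private theorem hg_deriv {γ : ℝ → ℂ} (hγ : ContDiff ℝ 2 γ) : ContDiff ℝ 1 (deriv γ) := by
  have h : ContDiff ℝ (1 + 1) γ := by
    have e : ((1 : WithTop ℕ∞) + 1) = 2 := by norm_num
    rw [e]
    exact hγ
  exact (contDiff_succ_iff_deriv.1 h).2.2

private theorem hg_smooth {γ : ℝ → ℂ} (hγ : ContDiff ℝ 2 γ) :
    ContDiff ℝ 1 fun x : ℝ × ℝ => col γ x.1 x.2 := by
  unfold col
  have h1 : ContDiff ℝ 1 γ := hγ.of_le (by norm_num)
  have h2 := hg_deriv hγ
  have h3 : ContDiff ℝ 1 fun x : ℝ × ℝ => (x.2 : ℂ) :=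
    Complex.ofRealCLM.contDiff.comp contDiff_snd
  exact (h1.comp contDiff_fst).add (h3.mul (contDiff_const.mul (h2.comp contDiff_fst)))

theorem col_cont {γ : ℝ → ℂ} (hγ : ContDiff ℝ 2 γ) : Continuous fun x : ℝ × ℝ => col γ x.1 x.2 :=
  (hg_smooth hγ).continuous

/-- the derivative of the collar map at `(t, 0)` -/
private noncomputable def hgE (v : ℂ) (hv : v ≠ 0) : (ℝ × ℝ) ≃L[ℝ] ℂ :=
  Complex.equivRealProdCLM.symm.trans (ContinuousLinearEquiv.smulLeft (Units.mk0 v hv))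

private theorem hgE_apply (v : ℂ) (hv : v ≠ 0) (x : ℝ × ℝ) :
    hgE v hv x = v * (x.1 + x.2 * Complex.I) := by
  show v * (Complex.equivRealProdCLM.symm x) = _
  rw [Complex.equivRealProdCLM_symm_apply]

private theorem hg_strict {γ : ℝ → ℂ} (hγ : ContDiff ℝ 2 γ) {t : ℝ} (hd : deriv γ t ≠ 0) :
    HasStrictFDerivAt (fun x : ℝ × ℝ => col γ x.1 x.2) (hgE (deriv γ t) hd : (ℝ × ℝ) →L[ℝ] ℂ)
      (t, 0) := by
  refine (hg_smooth hγ).contDiffAt.hasStrictFDerivAt' ?_ one_ne_zero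
  have h1 : HasDerivAt γ (deriv γ t) t :=
    (hγ.differentiable (by norm_num)).differentiableAt.hasDerivAt
  have h2 : HasDerivAt (deriv γ) (deriv (deriv γ) t) t :=
    ((hg_deriv hγ).differentiable (by norm_num)).differentiableAt.hasDerivAt
  have h3 : HasFDerivAt (fun x : ℝ × ℝ => x.1) (ContinuousLinearMap.fst ℝ ℝ ℝ) (t, (0 : ℝ)) :=
    hasFDerivAt_fst
  have h4 : HasFDerivAt (fun x : ℝ × ℝ => (x.2 : ℂ))
      (Complex.ofRealCLM.comp (ContinuousLinearMap.snd ℝ ℝ ℝ)) (t, (0 : ℝ)) :=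
    Complex.ofRealCLM.hasFDerivAt.comp _ hasFDerivAt_snd
  have h5 : HasFDerivAt (fun x : ℝ × ℝ => γ x.1)
      ((ContinuousLinearMap.toSpanSingleton ℝ (deriv γ t)).comp (ContinuousLinearMap.fst ℝ ℝ ℝ))
      (t, (0 : ℝ)) :=
    HasFDerivAt.comp (g := γ) (f := fun x : ℝ × ℝ => x.1) (t, (0 : ℝ)) h1.hasFDerivAt h3
  have h6 : HasFDerivAt (fun x : ℝ × ℝ => deriv γ x.1)
      ((ContinuousLinearMap.toSpanSingleton ℝ (deriv (deriv γ) t)).comp
        (ContinuousLinearMap.fst ℝ ℝ ℝ)) (t, (0 : ℝ)) :=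
    HasFDerivAt.comp (g := deriv γ) (f := fun x : ℝ × ℝ => x.1) (t, (0 : ℝ)) h2.hasFDerivAt h3
  have h7 := h5.add (h4.mul (h6.const_mul Complex.I))
  refine h7.congr_fderiv ?_
  ext
  · simp [hgE_apply]
  · simp [hgE_apply, mul_comm]

theorem germ1 {γ : ℝ → ℂ} (hγ : ContDiff ℝ 2 γ) (hinj : Function.Injective γ)
    (hb : Bornology.IsBounded (γ '' Ioi 0)) {t : ℝ} (ht : 0 < t) (hd : deriv γ t ≠ 0)
    (hA : γ t ∉ AA γ) : ∃ δ > 0, ∀ t' η : ℝ, |t' - t| < δ → 0 < η → η < δ → col γ t' η ∉ XX γ := by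
  have hst := hg_strict hγ hd
  have hγc : Continuous γ := hγ.continuous
  -- local injectivity
  have hinj1 := hst.eventually_left_inverse
  obtain ⟨ρ, hρ, hρ1⟩ := Metric.eventually_nhds_iff.1 hinj1
  -- the rest of the closure of the branch is closed and does not contain `γ t`
  have hT : ∃ T : ℝ, γ t ∉ closure (γ '' Ici T) := by
    by_contra h
    push Not at h
    exact hA (mem_iInter.2 h)
  obtain ⟨T, hT⟩ := hT
  have hK : IsCompact (γ '' (Icc 0 T \ Ioo (t - ρ) (t + ρ))) :=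
    (isCompact_Icc.diff isOpen_Ioo).image hγc
  have hKt : γ t ∉ γ '' (Icc 0 T \ Ioo (t - ρ) (t + ρ)) := by
    rintro ⟨s, hs, hst'⟩
    have h1 := hinj hst'
    rw [h1] at hs
    exact hs.2 ⟨by linarith, by linarith⟩
  have hsub : XX γ ⊆ γ '' Ioo (t - ρ) (t + ρ) ∪
      (γ '' (Icc 0 T \ Ioo (t - ρ) (t + ρ)) ∪ closure (γ '' Ici T)) := by
    have h1 : γ '' Ioi 0 ⊆ γ '' Icc 0 T ∪ closure (γ '' Ici T) := by
      rintro z ⟨s, hs, rfl⟩
      rcases le_total s T with h | h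
      · exact Or.inl ⟨s, ⟨le_of_lt hs, h⟩, rfl⟩
      · exact Or.inr (subset_closure ⟨s, h, rfl⟩)
    have h2 : XX γ ⊆ γ '' Icc 0 T ∪ closure (γ '' Ici T) :=
      closure_minimal h1 ((isCompact_Icc.image hγc).isClosed.union isClosed_closure)
    intro z hz
    rcases h2 hz with ⟨s, hs, rfl⟩ | h
    · by_cases h3 : s ∈ Ioo (t - ρ) (t + ρ)
      · exact Or.inl ⟨s, h3, rfl⟩
      · exact Or.inr (Or.inl ⟨s, ⟨hs, h3⟩, rfl⟩)
    · exact Or.inr (Or.inr h)
  have hopen : IsOpen (γ '' (Icc 0 T \ Ioo (t - ρ) (t + ρ)) ∪ closure (γ '' Ici T))ᶜ :=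
    (hK.isClosed.union isClosed_closure).isOpen_compl
  have hmem : γ t ∈ (γ '' (Icc 0 T \ Ioo (t - ρ) (t + ρ)) ∪ closure (γ '' Ici T))ᶜ := by
    rintro (h | h)
    · exact hKt h
    · exact hT h
  have hcol0 : ∀ s, col γ s 0 = γ s := by
    intro s
    unfold col
    simp
  have hev : ∀ᶠ x : ℝ × ℝ in 𝓝 (t, 0), col γ x.1 x.2 ∈
      (γ '' (Icc 0 T \ Ioo (t - ρ) (t + ρ)) ∪ closure (γ '' Ici T))ᶜ := by
    refine (col_cont hγ).continuousAt.eventually_mem ?_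
    refine hopen.mem_nhds ?_
    show col γ t 0 ∈ _
    rw [hcol0]
    exact hmem
  obtain ⟨δ, hδ, hδ1⟩ := Metric.eventually_nhds_iff.1 hev
  refine ⟨min δ ρ, lt_min hδ hρ, fun t' η h1 h2 h3 hX => ?_⟩
  have hd1 : dist (t', η) ((t, 0) : ℝ × ℝ) < min δ ρ := by
    rw [Prod.dist_eq, max_lt_iff, Real.dist_eq, Real.dist_eq, sub_zero, abs_of_pos h2]
    exact ⟨h1, h3⟩
  have h4 := hδ1 (lt_of_lt_of_le hd1 (min_le_left _ _))
  have h5 : col γ t' η ∈ γ '' Ioo (t - ρ) (t + ρ) := by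
    rcases hsub hX with h | h
    · exact h
    · exact absurd h h4
  obtain ⟨s, hs, hs1⟩ := h5
  have h6 := hρ1 (lt_of_lt_of_le hd1 (min_le_right _ _))
  have hd2 : dist (s, (0 : ℝ)) ((t, 0) : ℝ × ℝ) < ρ := by
    rw [Prod.dist_eq, max_lt_iff, Real.dist_eq, Real.dist_eq, sub_zero, abs_zero, abs_lt]
    exact ⟨⟨by linarith [hs.1], by linarith [hs.2]⟩, hρ⟩
  have h7 := hρ1 hd2
  have h8 : col γ (t', η).1 (t', η).2 = col γ (s, (0 : ℝ)).1 (s, (0 : ℝ)).2 := by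
    show col γ t' η = col γ s 0
    rw [hcol0, hs1]
  rw [h8, h7] at h6
  have h9 : (0 : ℝ) = η := congrArg Prod.snd h6
  linarith

theorem germ3 {γ : ℝ → ℂ} (hγ : ContDiff ℝ 2 γ) {F : ℂ ≃ₜ ℂ} {M : M2} {lam t : ℝ}
    (hF : HasFDerivAt F (LR M) (γ t)) (hM : 0 < dt M) (hlam : 0 < lam)
    (hc : ∀ s, F (γ s) = γ (lam * s)) (hd : deriv γ t ≠ 0) (hd' : deriv γ (lam * t) ≠ 0) :
    ∀ ε > 0, ∃ δ > 0, ∀ η : ℝ, 0 < η → η < δ →
      ∃ t' η' : ℝ, |t' - lam * t| < ε ∧ 0 < η' ∧ η' < ε ∧ F (col γ t η) = col γ t' η' := by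
  have hst := hg_strict hγ hd'
  have hst0 := hg_strict hγ hd
  have hcol0 : ∀ s, col γ s 0 = γ s := by
    intro s
    unfold col
    simp
  have hFt : F (γ t) = γ (lam * t) := hc t
  obtain ⟨Z, hZ⟩ : ∃ Z : ℂ → ℝ × ℝ, Z = hst.localInverse _ _ _ := ⟨_, rfl⟩
  have hZ0 : Z (γ (lam * t)) = (lam * t, 0) := by
    rw [hZ]
    have h := hst.localInverse_apply_image
    have h1 : col γ (lam * t, (0 : ℝ)).1 (lam * t, (0 : ℝ)).2 = γ (lam * t) := hcol0 _
    beta_reduce at h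
    rw [h1] at h
    exact h
  have hZd : HasFDerivAt Z ((hgE (deriv γ (lam * t)) hd').symm : ℂ →L[ℝ] ℝ × ℝ) (γ (lam * t)) := by
    rw [hZ]
    have h := hst.to_localInverse.hasFDerivAt
    have h1 : col γ (lam * t, (0 : ℝ)).1 (lam * t, (0 : ℝ)).2 = γ (lam * t) := hcol0 _
    beta_reduce at h
    rw [h1] at h
    exact h
  have hZr : ∀ᶠ z in 𝓝 (γ (lam * t)), col γ (Z z).1 (Z z).2 = z := by
    rw [hZ]
    have h := hst.eventually_right_inverse
    have h1 : col γ (lam * t, (0 : ℝ)).1 (lam * t, (0 : ℝ)).2 = γ (lam * t) := hcol0 _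
    beta_reduce at h
    rw [h1] at h
    exact h
  -- the curve `η ↦ F (col γ t η)`
  have hcd : HasDerivAt (fun η : ℝ => col γ t η) (Complex.I * deriv γ t) 0 := by
    unfold col
    have h1 : HasDerivAt (fun η : ℝ => (η : ℂ)) 1 0 := Complex.ofRealCLM.hasDerivAt
    have h2 := (h1.mul_const (Complex.I * deriv γ t)).const_add (γ t)
    rw [one_mul] at h2
    exact h2
  have hFd : HasDerivAt (fun η : ℝ => F (col γ t η)) (LR M (Complex.I * deriv γ t)) 0 := by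
    have h1 : HasFDerivAt F (LR M) (col γ t 0) := by
      rw [hcol0]
      exact hF
    exact h1.comp_hasDerivAt 0 hcd
  obtain ⟨w, hw⟩ : ∃ w, w = (hgE (deriv γ (lam * t)) hd').symm (LR M (Complex.I * deriv γ t)) :=
    ⟨_, rfl⟩
  obtain ⟨g, hg⟩ : ∃ g : ℝ → ℝ × ℝ, g = fun η => Z (F (col γ t η)) := ⟨_, rfl⟩
  have hg0 : g 0 = (lam * t, 0) := by
    rw [hg]
    show Z (F (col γ t 0)) = _
    rw [hcol0, hFt, hZ0]
  have hgd : HasDerivAt g w 0 := by
    rw [hg, hw]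
    have h1 : HasFDerivAt Z ((hgE (deriv γ (lam * t)) hd').symm : ℂ →L[ℝ] ℝ × ℝ)
        (F (col γ t 0)) := by
      rw [hcol0, hFt]
      exact hZd
    exact h1.comp_hasDerivAt 0 hFd
  have hg2 : HasDerivAt (fun η => (g η).2) w.2 0 := by
    have h1 := (ContinuousLinearMap.snd ℝ ℝ ℝ).hasFDerivAt.comp_hasDerivAt (0 : ℝ) hgd
    exact h1
  -- the derivative of the curve
  have hv : LR M (deriv γ t) = lam * deriv γ (lam * t) := by
    have h1 : HasDerivAt γ (deriv γ t) t :=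
      (hγ.differentiable (by norm_num)).differentiableAt.hasDerivAt
    have h2 : HasDerivAt γ (deriv γ (lam * t)) (lam * t) :=
      (hγ.differentiable (by norm_num)).differentiableAt.hasDerivAt
    have h3 : HasDerivAt (fun s => F (γ s)) (LR M (deriv γ t)) t := hF.comp_hasDerivAt t h1
    have h4 : HasDerivAt (fun s : ℝ => γ (lam * s)) (lam • deriv γ (lam * t)) t := by
      have h5 : HasDerivAt (fun s : ℝ => lam * s) lam t := by
        have h6 := (hasDerivAt_id t).const_mul lam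
        rw [mul_one] at h6
        exact h6
      exact HasDerivAt.scomp t h2 h5
    have h5 : (fun s => F (γ s)) = fun s : ℝ => γ (lam * s) := funext hc
    rw [h5] at h3
    have h6 := h3.unique h4
    rw [h6, Complex.real_smul]
  have hw1 : deriv γ (lam * t) * (w.1 + w.2 * Complex.I) = LR M (Complex.I * deriv γ t) := by
    rw [← hgE_apply _ hd', hw]
    exact (hgE (deriv γ (lam * t)) hd').apply_symm_apply _
  have hw2 : 0 < w.2 := by
    obtain ⟨v, hvd⟩ : ∃ v, v = deriv γ t := ⟨_, rfl⟩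
    obtain ⟨v', hvd'⟩ : ∃ v', v' = deriv γ (lam * t) := ⟨_, rfl⟩
    rw [← hvd, ← hvd'] at hv
    rw [← hvd, ← hvd'] at hw1
    rw [← hvd] at hd
    rw [← hvd'] at hd'
    rw [LR_apply] at hv hw1
    have a1 := congrArg Complex.re hv
    have a2 := congrArg Complex.im hv
    have b1 := congrArg Complex.re hw1
    have b2 := congrArg Complex.im hw1
    simp at a1 a2 b1 b2
    have hn : 0 < v.re ^ 2 + v.im ^ 2 := by
      rcases eq_or_ne v.re 0 with h | h
      · have h1 : v.im ≠ 0 := fun h2 => hd (Complex.ext h h2)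
        positivity
      · positivity
    have hn' : 0 < v'.re ^ 2 + v'.im ^ 2 := by
      rcases eq_or_ne v'.re 0 with h | h
      · have h1 : v'.im ≠ 0 := fun h2 => hd' (Complex.ext h h2)
        positivity
      · positivity
    have key : lam * (v'.re ^ 2 + v'.im ^ 2) * w.2 = dt M * (v.re ^ 2 + v.im ^ 2) := by
      unfold dt
      linear_combination (-(M.2.2 * v.re - M.2.1 * v.im)) * a1 + (M.1.2 * v.re - M.1.1 * v.im) * a2 +
        (-(lam * v'.im)) * b1 + (lam * v'.re) * b2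
    by_contra hle
    rw [not_lt] at hle
    have h1 : lam * (v'.re ^ 2 + v'.im ^ 2) * w.2 ≤ 0 :=
      mul_nonpos_of_nonneg_of_nonpos (by positivity) hle
    have h2 : 0 < dt M * (v.re ^ 2 + v.im ^ 2) := by positivity
    linarith
  intro ε hε
  have e1 : ∀ᶠ η : ℝ in 𝓝 0, dist (g η) (g 0) < ε :=
    hgd.continuousAt.eventually (Metric.ball_mem_nhds _ hε)
  have e2 : ∀ᶠ η : ℝ in 𝓝 0, col γ (g η).1 (g η).2 = F (col γ t η) := by
    rw [hg]
    have h1 : Tendsto (fun η : ℝ => F (col γ t η)) (𝓝 0) (𝓝 (γ (lam * t))) := by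
      have h2 := hFd.continuousAt.tendsto
      rw [hcol0, hFt] at h2
      exact h2
    exact h1.eventually hZr
  have e3 : ∀ᶠ η : ℝ in 𝓝[>] 0, 0 < (g η).2 := by
    have h1 := hasDerivAt_iff_tendsto_slope.1 hg2
    have h2 : ∀ᶠ η : ℝ in 𝓝[≠] 0, 0 < slope (fun η => (g η).2) 0 η :=
      h1.eventually (lt_mem_nhds hw2)
    have h3 : 𝓝[>] (0 : ℝ) ≤ 𝓝[≠] 0 := nhdsWithin_mono _ fun x hx => ne_of_gt hx
    filter_upwards [h3 h2, self_mem_nhdsWithin] with η h4 h5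
    rw [slope_def_field, hg0, sub_zero, sub_zero] at h4
    exact (div_pos_iff_of_pos_right h5).1 h4
  have e4 := e3.and (((e1.and e2).filter_mono nhdsWithin_le_nhds))
  obtain ⟨δ, hδ, hδ1⟩ := mem_nhdsGT_iff_exists_Ioo_subset.1 e4
  refine ⟨δ, hδ, fun η h1 h2 => ?_⟩
  obtain ⟨h3, h4, h5⟩ := hδ1 ⟨h1, h2⟩
  rw [hg0, Prod.dist_eq, max_lt_iff, Real.dist_eq, Real.dist_eq, sub_zero] at h4
  exact ⟨(g η).1, (g η).2, h4.1, h3, (le_abs_self _).trans_lt h4.2, h5.symm⟩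

end Pool.Agent.HE
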