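import Pool.Agent.HE.NoSep
import Pool.Agent.HE.Cross

set_option autoImplicit false

/-!
HE-HHit. If a bounded stable branch meets an unstable curve then they have an arc in common.
The unstable arc over one period joins two points of the stable arc; by `cross` a part of it outside the stable arc would
give a separating compact set with bounded backward orbit. So it is contained in the stable arc, and it covers it by
connectedness.
-/

namespace Pool.Agent.HE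

open Set Topology Filter

private theorem hit_bdd {F : ℂ ≃ₜ ℂ} {γ : ℝ → ℂ} {lam : ℝ} (l0 : 0 < lam)
    (cγ : ∀ t, F (γ t) = γ (lam * t)) (m : ℕ) :
    ∀ z ∈ γ '' Ioi 0, (F.symm : ℂ → ℂ)^[m] z ∈ γ '' Ioi 0 := by
  induction m with
  | zero => exact fun z hz => hz
  | succ m ih =>
    rintro z ⟨s, hs, rfl⟩
    rw [Function.iterate_succ_apply]
    apply ih
    refine ⟨s / lam, div_pos hs l0, ?_⟩
    rw [eq_comm, Homeomorph.symm_apply_eq, cγ, mul_div_cancel₀ _ l0.ne']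

private theorem hit_bdd' {F : ℂ ≃ₜ ℂ} {η : ℝ → ℂ} {σ T : ℝ} (hσ : 1 < |σ|)
    (cη : ∀ t, F (η t) = η (σ * t)) (m : ℕ) :
    ∀ z ∈ η '' Icc (-T) T, (F.symm : ℂ → ℂ)^[m] z ∈ η '' Icc (-T) T := by
  have hσ0 : σ ≠ 0 := by
    rintro rfl
    rw [abs_zero] at hσ
    linarith
  induction m with
  | zero => exact fun z hz => hz
  | succ m ih =>
    rintro z ⟨τ, hτ, rfl⟩
    rw [Function.iterate_succ_apply]
    apply ih
    refine ⟨τ / σ, ?_, ?_⟩
    · have h1 : |τ| ≤ T := abs_le.2 hτ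
      have h2 : |τ / σ| ≤ |τ| := by
        rw [abs_div]
        exact div_le_self (abs_nonneg _) hσ.le
      exact abs_le.1 (h2.trans h1)
    · rw [eq_comm, Homeomorph.symm_apply_eq, cη, mul_div_cancel₀ _ hσ0]

theorem no_hit {F : ℂ ≃ₜ ℂ} (no : NO F) {γ η : ℝ → ℂ} {lam σ : ℝ} (l0 : 0 < lam) (l1 : lam < 1)
    (hσ : 1 < |σ|) (hγ : Continuous γ) (hγi : Function.Injective γ) (hη : Differentiable ℝ η)
    (hηi : Function.Injective η) (hηd : ∀ t, deriv η t ≠ 0) (cγ : ∀ t, F (γ t) = γ (lam * t))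
    (cη : ∀ t, F (η t) = η (σ * t)) (hb : Bornology.IsBounded (γ '' Ioi 0)) {t0 τ0 : ℝ}
    (ht : 0 < t0) (hτ : τ0 ≠ 0) (h : γ t0 = η τ0) :
    ∀ s ∈ Icc (lam ^ 2 * t0) t0, ∃ τ, |τ| ≤ σ ^ 2 * |τ0| ∧ γ s = η τ := by
  have hσ2 : 1 < σ ^ 2 := by
    have h1 : 1 < |σ| ^ 2 := by nlinarith
    rwa [sq_abs] at h1
  have hl2 : lam ^ 2 * t0 ≤ t0 := by
    have h1 : lam ^ 2 ≤ 1 := by nlinarith
    nlinarith
  have hl2p : 0 < lam ^ 2 * t0 := by positivity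
  have hend : η (σ ^ 2 * τ0) = γ (lam ^ 2 * t0) := by
    have h1 : F (F (η τ0)) = η (σ ^ 2 * τ0) := by
      rw [cη, cη]
      congr 1
      ring
    have h2 : F (F (γ t0)) = γ (lam ^ 2 * t0) := by
      rw [cγ, cγ]
      congr 1
      ring
    rw [← h1, ← h2, h]
  have hψc : Continuous fun k : ℝ => η (k * τ0) :=
    hη.continuous.comp (continuous_id.mul continuous_const)
  have hIc : IsCompact (γ '' Icc (lam ^ 2 * t0) t0) := isCompact_Icc.image hγ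
  have hIcon : IsConnected (γ '' Icc (lam ^ 2 * t0) t0) :=
    (isConnected_Icc hl2).image _ hγ.continuousOn
  have hψ1 : η (1 * τ0) ∈ γ '' Icc (lam ^ 2 * t0) t0 := by
    rw [one_mul, ← h]
    exact ⟨t0, ⟨hl2, le_refl _⟩, rfl⟩
  have hψ2 : η (σ ^ 2 * τ0) ∈ γ '' Icc (lam ^ 2 * t0) t0 := by
    rw [hend]
    exact ⟨lam ^ 2 * t0, ⟨le_refl _, hl2⟩, rfl⟩
  have step1 : ∀ k ∈ Icc 1 (σ ^ 2), η (k * τ0) ∈ γ '' Icc (lam ^ 2 * t0) t0 := by
    intro k0 hk0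
    by_contra hk
    have hScl : IsClosed {k : ℝ | η (k * τ0) ∈ γ '' Icc (lam ^ 2 * t0) t0} :=
      hIc.isClosed.preimage hψc
    obtain ⟨k1, hk1, hk1m⟩ := ((isCompact_Icc (a := (1 : ℝ)) (b := k0)).inter_right
      hScl).exists_isGreatest ⟨1, ⟨le_refl _, hk0.1⟩, hψ1⟩
    obtain ⟨k2, hk2, hk2m⟩ := ((isCompact_Icc (a := k0) (b := σ ^ 2)).inter_right
      hScl).exists_isLeast ⟨σ ^ 2, ⟨hk0.2, le_refl _⟩, hψ2⟩
    have h10 : k1 < k0 := by
      refine lt_of_le_of_ne hk1.1.2 ?_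
      rintro rfl
      exact hk hk1.2
    have h02 : k0 < k2 := by
      refine lt_of_le_of_ne hk2.1.1 ?_
      rintro rfl
      exact hk hk2.2
    have hdis : ∀ s ∈ Ioo k1 k2, η (s * τ0) ∉ γ '' Icc (lam ^ 2 * t0) t0 := by
      intro s hs hmem
      rcases le_total s k0 with h1 | h1
      · exact absurd (hk1m ⟨⟨hk1.1.1.trans hs.1.le, h1⟩, hmem⟩) (not_le.2 hs.1)
      · exact absurd (hk2m ⟨⟨h1, hs.2.le.trans hk2.1.2⟩, hmem⟩) (not_le.2 hs.2)
    have hd : HasDerivAt (fun k : ℝ => η (k * τ0)) (τ0 • deriv η (k0 * τ0)) k0 :=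
      (hη (k0 * τ0)).hasDerivAt.scomp k0 (hasDerivAt_mul_const τ0)
    refine cross hIc hIcon h10 h02 hψc.continuousOn ?_ hk1.2 hk2.2 hdis hd
      (smul_ne_zero hτ (hηd _)) ?_
    · intro x _ y _ hxy
      exact mul_right_cancel₀ hτ (hηi hxy)
    · have hcomp : IsCompact (γ '' Icc (lam ^ 2 * t0) t0 ∪
          (fun k : ℝ => η (k * τ0)) '' Icc k1 k2) := hIc.union (isCompact_Icc.image hψc)
      obtain ⟨R1, hR1⟩ := hb.exists_norm_le
      obtain ⟨R2, hR2⟩ := ((isCompact_Icc (a := -(σ ^ 2 * |τ0|)) (b := σ ^ 2 * |τ0|)).image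
        hη.continuous).isBounded.exists_norm_le
      refine nonsep_of_NO no hcomp (R := max R1 R2) ?_
      intro m z hz
      rcases hz with ⟨s, hs, rfl⟩ | ⟨k, hk', rfl⟩
      · refine (hR1 _ (hit_bdd l0 cγ m _ ⟨s, ?_, rfl⟩)).trans (le_max_left _ _)
        exact lt_of_lt_of_le hl2p hs.1
      · refine (hR2 _ (hit_bdd' hσ cη m _ ⟨k * τ0, ?_, rfl⟩)).trans (le_max_right _ _)
        have hk0' : 0 ≤ k := by linarith [hk1.1.1, hk'.1]
        have hk2' : k ≤ σ ^ 2 := hk'.2.trans hk2.1.2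
        refine abs_le.1 ?_
        rw [abs_mul, abs_of_nonneg hk0']
        exact mul_le_mul_of_nonneg_right hk2' (abs_nonneg _)
  intro s hs
  have hpre : IsPreconnected ((fun k : ℝ => η (k * τ0)) '' Icc 1 (σ ^ 2)) :=
    isPreconnected_Icc.image _ hψc.continuousOn
  rw [isPreconnected_closed_iff] at hpre
  obtain ⟨z, ⟨k, hk, hkz⟩, ⟨s1, hs1, hs1z⟩, ⟨s2, hs2, hs2z⟩⟩ := hpre
    (γ '' Icc (lam ^ 2 * t0) s) (γ '' Icc s t0)
    (isCompact_Icc.image hγ).isClosed (isCompact_Icc.image hγ).isClosed (by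
      rintro z ⟨k, hk, rfl⟩
      obtain ⟨s', hs', hs'z⟩ := step1 k hk
      rcases le_total s' s with h1 | h1
      · exact Or.inl ⟨s', ⟨hs'.1, h1⟩, hs'z⟩
      · exact Or.inr ⟨s', ⟨h1, hs'.2⟩, hs'z⟩)
    ⟨γ (lam ^ 2 * t0), ⟨σ ^ 2, ⟨hσ2.le, le_refl _⟩, hend⟩,
      ⟨lam ^ 2 * t0, ⟨le_refl _, hs.1⟩, rfl⟩⟩
    ⟨γ t0, ⟨1, ⟨le_refl _, hσ2.le⟩, by simp only [one_mul]; exact h.symm⟩,
      ⟨t0, ⟨hs.2, le_refl _⟩, rfl⟩⟩
  have h12 : s1 = s2 := hγi (hs1z.trans hs2z.symm)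
  have hs1s : s1 = s := le_antisymm hs1.2 (h12 ▸ hs2.1)
  refine ⟨k * τ0, ?_, ?_⟩
  · have hk0' : 0 ≤ k := by linarith [hk.1]
    rw [abs_mul, abs_of_nonneg hk0']
    exact mul_le_mul_of_nonneg_right hk.2 (abs_nonneg _)
  · rw [← hs1s, hs1z]
    exact hkz.symm

end Pool.Agent.HE
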