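import Pool.Agent.HE.HDefs

set_option autoImplicit false

/-!
HE-HSink. A sink is not in the limit set of a stable branch: the powers of a matrix with
`0 < det < 1` and `|trace| < 1 + det` tend to `0` (`pow_small`), so an iterate of the map is a
contraction near the sink, and a stable branch which accumulates on the sink starts there.
-/

namespace Pool.Agent.HE

open Set Topology Filter Pool.Agent.HD

private lemma hsink_roots {t d : ℝ} (h1 : d < 1) (h0 : 0 < d) (ht : |t| < 1 + d) :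
    ∃ x y : ℂ, x + y = t ∧ x * y = d ∧ ‖x‖ < 1 ∧ ‖y‖ < 1 := by
  have ht1 := abs_lt.1 ht
  rcases lt_or_ge (t ^ 2 - 4 * d) 0 with hneg | hpos
  · set s : ℝ := Real.sqrt (4 * d - t ^ 2) with hs
    have hs2 : s ^ 2 = 4 * d - t ^ 2 := Real.sq_sqrt (by linarith)
    refine ⟨⟨t / 2, s / 2⟩, ⟨t / 2, -(s / 2)⟩, ?_, ?_, ?_, ?_⟩
    · refine Complex.ext ?_ ?_
      · simp
      · simp
    · refine Complex.ext ?_ ?_
      · simp only [Complex.mul_re, Complex.ofReal_re]
        nlinarith [hs2]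
      · simp only [Complex.mul_im, Complex.ofReal_im]
        ring
    · have h : ‖(⟨t / 2, s / 2⟩ : ℂ)‖ ^ 2 = d := by
        rw [← Complex.normSq_eq_norm_sq, Complex.normSq_mk]
        nlinarith [hs2]
      nlinarith [norm_nonneg (⟨t / 2, s / 2⟩ : ℂ)]
    · have h : ‖(⟨t / 2, -(s / 2)⟩ : ℂ)‖ ^ 2 = d := by
        rw [← Complex.normSq_eq_norm_sq, Complex.normSq_mk]
        nlinarith [hs2]
      nlinarith [norm_nonneg (⟨t / 2, -(s / 2)⟩ : ℂ)]
  · set s : ℝ := Real.sqrt (t ^ 2 - 4 * d) with hs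
    have hs2 : s ^ 2 = t ^ 2 - 4 * d := Real.sq_sqrt hpos
    have hs0 : 0 ≤ s := Real.sqrt_nonneg _
    have hs3 : s < 2 - |t| := by
      have h2 : 0 ≤ 2 - |t| := by linarith
      refine lt_of_pow_lt_pow_left₀ 2 h2 ?_
      have h3 : |t| ^ 2 = t ^ 2 := sq_abs t
      nlinarith
    have ha : t ≤ |t| := le_abs_self t
    have hb : -t ≤ |t| := neg_le_abs t
    refine ⟨((t + s) / 2 : ℝ), ((t - s) / 2 : ℝ), ?_, ?_, ?_, ?_⟩
    · rw [← Complex.ofReal_add]
      congr 1
      ring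
    · rw [← Complex.ofReal_mul]
      congr 1
      nlinarith [hs2]
    · rw [Complex.norm_real, Real.norm_eq_abs, abs_lt]
      constructor <;> linarith
    · rw [Complex.norm_real, Real.norm_eq_abs, abs_lt]
      constructor <;> linarith

private def hsinkA (t d : ℝ) : ℕ → ℝ
  | 0 => 0
  | 1 => 1
  | n + 2 => t * hsinkA t d (n + 1) - d * hsinkA t d n

private lemma hsink_bound {t d : ℝ} {x y : ℂ} (h1 : x + y = t) (h2 : x * y = d) (n : ℕ) :
    ((hsinkA t d (n + 1) : ℝ) : ℂ) = x * (hsinkA t d n : ℝ) + y ^ n := by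
  induction n with
  | zero => simp [hsinkA]
  | succ n ih =>
    have h : hsinkA t d (n + 1 + 1) = t * hsinkA t d (n + 1) - d * hsinkA t d n := rfl
    rw [h]
    push_cast
    rw [← h1, ← h2, pow_succ]
    have h3 : y ^ n = (hsinkA t d (n + 1) : ℝ) - x * (hsinkA t d n : ℝ) := by
      rw [ih]
      ring
    rw [h3]
    ring

private lemma hsink_tend {t d : ℝ} (h1 : d < 1) (h0 : 0 < d) (ht : |t| < 1 + d) :
    Tendsto (hsinkA t d) atTop (𝓝 0) := by
  obtain ⟨x, y, hxy, hm, hx, hy⟩ := hsink_roots h1 h0 ht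
  set θ : ℝ := max ‖x‖ ‖y‖ with hθ
  have hθ0 : 0 ≤ θ := le_max_of_le_left (norm_nonneg _)
  have hθ1 : θ < 1 := max_lt hx hy
  have hb : ∀ n : ℕ, |hsinkA t d (n + 1)| ≤ ((n : ℝ) + 1) * θ ^ n := by
    intro n
    induction n with
    | zero => simp [hsinkA]
    | succ n ih =>
      have h : |hsinkA t d (n + 1 + 1)| ≤ θ * |hsinkA t d (n + 1)| + θ ^ (n + 1) := by
        have h2 : |hsinkA t d (n + 1 + 1)| = ‖((hsinkA t d (n + 1 + 1) : ℝ) : ℂ)‖ := by
          rw [Complex.norm_real, Real.norm_eq_abs]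
        rw [h2, hsink_bound hxy hm]
        refine (norm_add_le _ _).trans ?_
        rw [norm_mul, norm_pow, Complex.norm_real, Real.norm_eq_abs]
        refine add_le_add ?_ ?_
        · exact mul_le_mul_of_nonneg_right (le_max_left _ _) (abs_nonneg _)
        · exact pow_le_pow_left₀ (norm_nonneg _) (le_max_right _ _) _
      refine h.trans ?_
      have h3 := mul_le_mul_of_nonneg_left ih hθ0
      push_cast
      rw [pow_succ]
      nlinarith
  rw [← tendsto_add_atTop_iff_nat 1]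
  have hlim : Tendsto (fun n : ℕ => ((n : ℝ) + 1) * θ ^ n) atTop (𝓝 0) := by
    have ha := tendsto_self_mul_const_pow_of_lt_one hθ0 hθ1
    have hb := tendsto_pow_atTop_nhds_zero_of_lt_one hθ0 hθ1
    have hc := ha.add hb
    rw [add_zero] at hc
    refine hc.congr fun n => ?_
    ring
  exact squeeze_zero_norm (fun n => by rw [Real.norm_eq_abs]; exact hb n) hlim

private lemma hsink_sq (M : M2) (z : ℂ) : LR M (LR M z) = tr M * LR M z - dt M * z := by
  rw [LR_apply, LR_apply]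
  refine Complex.ext ?_ ?_
  · simp [tr, dt]
    ring
  · simp [tr, dt]
    ring

private lemma hsink_pow (M : M2) (n : ℕ) (z : ℂ) :
    ((LR M) ^ (n + 1)) z = hsinkA (tr M) (dt M) (n + 1) * LR M z -
      (dt M * hsinkA (tr M) (dt M) n) * z := by
  induction n generalizing z with
  | zero => simp [hsinkA]
  | succ n ih =>
    have h : hsinkA (tr M) (dt M) (n + 1 + 1) =
      tr M * hsinkA (tr M) (dt M) (n + 1) - dt M * hsinkA (tr M) (dt M) n := rfl
    have h2 : ((LR M) ^ (n + 1 + 1)) z = ((LR M) ^ (n + 1)) (LR M z) := by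
      rw [pow_succ]
      rfl
    rw [h2, ih, h, hsink_sq]
    push_cast
    ring

theorem pow_small {M : M2} (h0 : 0 < dt M) (h1 : dt M < 1) (ht : |tr M| < 1 + dt M) :
    ∃ k : ℕ, 1 ≤ k ∧ ‖(LR M) ^ k‖ ≤ 1 / 3 := by
  have ha := hsink_tend h1 h0 ht
  have hlim : Tendsto (fun n : ℕ => |hsinkA (tr M) (dt M) (n + 1)| * ‖LR M‖ +
      |dt M * hsinkA (tr M) (dt M) n|) atTop (𝓝 0) := by
    have h2 := (((tendsto_add_atTop_iff_nat 1).2 ha).abs.mul_const ‖LR M‖).add
      (ha.const_mul (dt M)).abs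
    rwa [abs_zero, zero_mul, mul_zero, abs_zero, add_zero] at h2
  obtain ⟨n, hn⟩ := (hlim.eventually (gt_mem_nhds (show (0 : ℝ) < 1 / 3 by norm_num))).exists
  refine ⟨n + 1, by omega, ?_⟩
  refine ContinuousLinearMap.opNorm_le_bound _ (by norm_num) fun z => ?_
  rw [hsink_pow]
  have h3 : ‖(hsinkA (tr M) (dt M) (n + 1) : ℂ) * LR M z -
      (dt M * hsinkA (tr M) (dt M) n) * z‖ ≤
      |hsinkA (tr M) (dt M) (n + 1)| * (‖LR M‖ * ‖z‖) + |dt M * hsinkA (tr M) (dt M) n| * ‖z‖ := by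
    refine (norm_sub_le _ _).trans (add_le_add ?_ ?_)
    · rw [norm_mul, Complex.norm_real, Real.norm_eq_abs]
      exact mul_le_mul_of_nonneg_left (ContinuousLinearMap.le_opNorm _ _) (abs_nonneg _)
    · rw [norm_mul, ← Complex.ofReal_mul, Complex.norm_real, Real.norm_eq_abs]
  refine h3.trans ?_
  have h4 := mul_le_mul_of_nonneg_right hn.le (norm_nonneg z)
  linarith

theorem not_sink {F : ℂ ≃ₜ ℂ} {r : ℂ} {M : M2} (hF : F r = r) (hM : HasStrictFDerivAt F (LR M) r)
    (h0 : 0 < dt M) (h1 : dt M < 1) (ht : |tr M| < 1 + dt M) {γ : ℝ → ℂ} {lam : ℝ}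
    (hl0 : 0 < lam) (hl1 : lam < 1) (hγ : Continuous γ) (hc : ∀ t, F (γ t) = γ (lam * t))
    (hr : r ∈ AA γ) : γ 0 = r := by
  obtain ⟨k, hk1, hk⟩ := pow_small h0 h1 ht
  have hd : HasStrictFDerivAt (F^[k]) ((LR M) ^ k) r := hM.iterate hF k
  have hfix : F^[k] r = r := Function.iterate_fixed hF k
  have hloc : ∀ᶠ z in 𝓝 r, ‖F^[k] z - r‖ ≤ 1 / 2 * ‖z - r‖ := by
    have h2 := hd.hasFDerivAt.isLittleO.def (show (0 : ℝ) < 1 / 6 by norm_num)
    filter_upwards [h2] with z hz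
    rw [hfix] at hz
    have h3 : ‖((LR M) ^ k) (z - r)‖ ≤ 1 / 3 * ‖z - r‖ :=
      (ContinuousLinearMap.le_opNorm _ _).trans (mul_le_mul_of_nonneg_right hk (norm_nonneg _))
    have h4 : ‖F^[k] z - r‖ ≤ ‖F^[k] z - r - ((LR M) ^ k) (z - r)‖ + ‖((LR M) ^ k) (z - r)‖ := by
      have h5 := norm_add_le (F^[k] z - r - ((LR M) ^ k) (z - r)) (((LR M) ^ k) (z - r))
      rwa [sub_add_cancel] at h5
    linarith
  obtain ⟨ρ, hρ, hball⟩ := Metric.eventually_nhds_iff.1 hloc
  have hcl : r ∈ closure (γ '' Ici 1) := mem_iInter.1 hr 1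
  obtain ⟨w, ⟨t, _, rfl⟩, htr⟩ := Metric.mem_closure_iff.1 hcl ρ hρ
  rw [dist_comm] at htr
  have hit : ∀ n : ℕ, ∀ s : ℝ, F^[n] (γ s) = γ (lam ^ n * s) := by
    intro n
    induction n with
    | zero => intro s; simp
    | succ n ih =>
      intro s
      rw [Function.iterate_succ_apply, hc, ih, pow_succ, mul_assoc]
  have hj : ∀ j : ℕ, ‖γ (lam ^ (k * j) * t) - r‖ ≤ (1 / 2) ^ j * ‖γ t - r‖ := by
    intro j
    induction j with
    | zero => simp
    | succ j ih =>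
      have h6 : γ (lam ^ (k * (j + 1)) * t) = F^[k] (γ (lam ^ (k * j) * t)) := by
        rw [hit, mul_add, mul_one, pow_add]
        congr 1
        ring
      have h7 : dist (γ (lam ^ (k * j) * t)) r < ρ := by
        rw [dist_eq_norm]
        rw [dist_eq_norm] at htr
        have h8 : ((1 : ℝ) / 2) ^ j ≤ 1 := pow_le_one₀ (by norm_num) (by norm_num)
        have h9 : (1 / 2 : ℝ) ^ j * ‖γ t - r‖ ≤ 1 * ‖γ t - r‖ :=
          mul_le_mul_of_nonneg_right h8 (norm_nonneg _)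
        linarith
      rw [h6]
      refine (hball h7).trans ?_
      rw [pow_succ]
      have h10 := mul_le_mul_of_nonneg_left ih (show (0 : ℝ) ≤ 1 / 2 by norm_num)
      linarith
  have hl1' : Tendsto (fun j : ℕ => γ (lam ^ (k * j) * t)) atTop (𝓝 r) := by
    rw [tendsto_iff_norm_sub_tendsto_zero]
    refine squeeze_zero (fun _ => norm_nonneg _) hj ?_
    have h11 := (tendsto_pow_atTop_nhds_zero_of_lt_one (show (0 : ℝ) ≤ 1 / 2 by norm_num)
      (by norm_num)).mul_const ‖γ t - r‖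
    rwa [zero_mul] at h11
  have hl2 : Tendsto (fun j : ℕ => γ (lam ^ (k * j) * t)) atTop (𝓝 (γ 0)) := by
    refine (hγ.tendsto 0).comp ?_
    have h12 : Tendsto (fun j : ℕ => (lam ^ k) ^ j) atTop (𝓝 0) :=
      tendsto_pow_atTop_nhds_zero_of_lt_one (pow_nonneg hl0.le _)
        (pow_lt_one₀ hl0.le hl1 (by omega))
    have h13 := h12.mul_const t
    rw [zero_mul] at h13
    refine h13.congr fun j => ?_
    rw [pow_mul]
  exact tendsto_nhds_unique hl2 hl1'

end Pool.Agent.HE
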