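import Pool.Agent.HE.HDefs

set_option autoImplicit false

/-!
HE-HTri. Eigenvalues of real `2 × 2` matrices of positive determinant smaller than one.
-/

namespace Pool.Agent.HE

open Set Topology Filter Pool.Agent.HD

private theorem tri_aux {S β : ℝ} (h0 : 0 < β) (h1 : β < 1) (hS : 1 + β < S) :
    ∃ μ ν : ℝ, S = μ + ν ∧ β = μ * ν ∧ 1 < μ ∧ 0 < ν ∧ ν < 1 := by
  obtain ⟨r, hr⟩ : ∃ r : ℝ, r = Real.sqrt (S ^ 2 - 4 * β) := ⟨_, rfl⟩
  have hΔ : (1 - β) ^ 2 < S ^ 2 - 4 * β := by nlinarith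
  have hr0 : 0 ≤ r := by
    rw [hr]
    exact Real.sqrt_nonneg _
  have hr2 : r ^ 2 = S ^ 2 - 4 * β := by
    rw [hr]
    exact Real.sq_sqrt ((sq_nonneg _).trans hΔ.le)
  have hr1 : 1 - β < r := by
    by_contra hc
    push Not at hc
    nlinarith
  have hμ : 1 < (S + r) / 2 := by linarith
  have hp : β = (S + r) / 2 * ((S - r) / 2) := by nlinarith
  refine ⟨(S + r) / 2, (S - r) / 2, by ring, hp, hμ, ?_, ?_⟩
  · by_contra hc
    push Not at hc
    nlinarith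
  · by_contra hc
    push Not at hc
    nlinarith

private theorem ker_aux {p q r s : ℝ} (h : p * s - q * r = 0) :
    ∃ v : ℝ × ℝ, v ≠ 0 ∧ p * v.1 + q * v.2 = 0 ∧ r * v.1 + s * v.2 = 0 := by
  by_cases h1 : q = 0 ∧ p = 0
  · by_cases h2 : r = 0 ∧ s = 0
    · refine ⟨(1, 0), ?_, ?_, ?_⟩
      · intro h3
        have := congrArg Prod.fst h3
        simp at this
      · rw [h1.1, h1.2]
        ring
      · rw [h2.1, h2.2]
        ring
    · refine ⟨(s, -r), ?_, ?_, ?_⟩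
      · intro h3
        have e1 := congrArg Prod.fst h3
        have e2 := congrArg Prod.snd h3
        apply h2
        refine ⟨?_, e1⟩
        have e3 : -r = 0 := e2
        linarith
      · linear_combination h
      · ring
  · refine ⟨(-q, p), ?_, ?_, ?_⟩
    · intro h3
      have e1 : -q = 0 := congrArg Prod.fst h3
      have e2 : p = 0 := congrArg Prod.snd h3
      apply h1
      refine ⟨?_, e2⟩
      linarith
    · ring
    · linear_combination h

theorem tri {T β : ℝ} (h0 : 0 < β) (h1 : β < 1) : |T| < 1 + β ∨ |T| = 1 + β ∨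
    ∃ e μ ν : ℝ, (e = 1 ∨ e = -1) ∧ T = μ + ν ∧ β = μ * ν ∧ 1 < e * μ ∧ 0 < e * ν ∧ e * ν < 1 := by
  rcases lt_trichotomy |T| (1 + β) with h | h | h
  · exact Or.inl h
  · exact Or.inr (Or.inl h)
  · refine Or.inr (Or.inr ?_)
    rcases le_or_gt 0 T with hT | hT
    · rw [abs_of_nonneg hT] at h
      obtain ⟨μ, ν, e1, e2, e3, e4, e5⟩ := tri_aux h0 h1 h
      refine ⟨1, μ, ν, Or.inl rfl, e1, e2, ?_, ?_, ?_⟩ <;> linarith
    · rw [abs_of_neg hT] at h
      obtain ⟨μ, ν, e1, e2, e3, e4, e5⟩ := tri_aux h0 h1 h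
      refine ⟨-1, -μ, -ν, Or.inr rfl, ?_, ?_, ?_, ?_, ?_⟩ <;> linarith

theorem eig_one {M : M2} (h : |tr M| = 1 + dt M) :
    ∃ v : ℝ × ℝ, v ≠ 0 ∧ (act M v = v ∨ act M v = -v) := by
  have h0 : 0 ≤ 1 + dt M := by
    rw [← h]
    exact abs_nonneg _
  rcases (abs_eq h0).1 h with h1 | h1
  · have h2 : (M.1.1 - 1) * (M.2.2 - 1) - M.1.2 * M.2.1 = 0 := by
      unfold tr dt at h1
      linear_combination -h1
    obtain ⟨v, hv, e1, e2⟩ := ker_aux h2
    refine ⟨v, hv, Or.inl ?_⟩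
    refine Prod.ext ?_ ?_
    · show M.1.1 * v.1 + M.1.2 * v.2 = v.1
      linarith
    · show M.2.1 * v.1 + M.2.2 * v.2 = v.2
      linarith
  · have h2 : (M.1.1 + 1) * (M.2.2 + 1) - M.1.2 * M.2.1 = 0 := by
      unfold tr dt at h1
      linear_combination h1
    obtain ⟨v, hv, e1, e2⟩ := ker_aux h2
    refine ⟨v, hv, Or.inr ?_⟩
    refine Prod.ext ?_ ?_
    · show M.1.1 * v.1 + M.1.2 * v.2 = -v.1
      linarith
    · show M.2.1 * v.1 + M.2.2 * v.2 = -v.2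
      linarith

theorem char_eq {M : M2} {μ : ℝ} {v : ℝ × ℝ} (hv : v ≠ 0) (h : act M v = μ • v) :
    μ ^ 2 - tr M * μ + dt M = 0 := by
  have e1 : M.1.1 * v.1 + M.1.2 * v.2 = μ * v.1 := congrArg Prod.fst h
  have e2 : M.2.1 * v.1 + M.2.2 * v.2 = μ * v.2 := congrArg Prod.snd h
  have h1 : (μ ^ 2 - tr M * μ + dt M) * v.1 = 0 := by
    unfold tr dt
    linear_combination (M.2.2 - μ) * e1 - M.1.2 * e2
  have h2 : (μ ^ 2 - tr M * μ + dt M) * v.2 = 0 := by
    unfold tr dt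
    linear_combination (M.1.1 - μ) * e2 - M.2.1 * e1
  by_contra hc
  apply hv
  refine Prod.ext ?_ ?_
  · exact (mul_eq_zero.1 h1).resolve_left hc
  · exact (mul_eq_zero.1 h2).resolve_left hc

theorem tr_sq (M : M2) : tr (mm M M) = tr M ^ 2 - 2 * dt M := by
  unfold tr dt mm
  ring

end Pool.Agent.HE
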