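import Pool.Agent.HE.NAcc

set_option autoImplicit false

/-!
HE-NAccT. A bounded stable branch does not accumulate on its own saddle (chart form): reduction to the flat form `flat_nacc` by
the chart, composed with complex conjugation if the branch leaves the saddle downwards.
-/

namespace Pool.Agent.HE

open Set Topology Filter

private theorem flat_aux {F Φ Ψ : ℂ ≃ₜ ℂ} {γ : ℝ → ℂ} {lam h sm sp lm lp σ : ℝ} {p : ℂ}
    (hσ : σ = 1 ∨ σ = -1) (hre : ∀ z, (Ψ z).re = (Φ z).re) (him : ∀ z, (Ψ z).im = σ * (Φ z).im)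
    (ch : Chart F Φ p 1 h sm sp lm lp) (no : NO F) (l0 : 0 < lam) (l1 : lam < 1)
    (hc : Continuous γ) (hi : Function.Injective γ) (hF : ∀ t, F (γ t) = γ (lam * t))
    (hb : Bornology.IsBounded (γ '' Ioi 0)) (hp : γ 0 = p)
    (ax : ∃ t0 > 0, ∀ t ∈ Icc 0 t0, (Φ (γ t)).re = 0 ∧ 0 ≤ σ * (Φ (γ t)).im) :
    Flat ((Ψ.symm.trans F).trans Ψ) (Ψ ∘ γ) lam h sm sp lm lp := by
  have hσ2 : σ * σ = 1 := by rcases hσ with rfl | rfl <;> norm_num
  have hσa : |σ| = 1 := by rcases hσ with rfl | rfl <;> norm_num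
  have key : ∀ w : ℂ, |w.re| < h → |w.im| < h → ∃ z : ℂ, |(Φ z).re| < h ∧ |(Φ z).im| < h ∧
      (Φ z).re = w.re ∧ (Φ z).im = σ * w.im ∧
      (((Ψ.symm.trans F).trans Ψ) w).re = (Φ (F z)).re ∧
      (((Ψ.symm.trans F).trans Ψ) w).im = σ * (Φ (F z)).im := by
    intro w h1 h2
    have e1 : (Φ (Ψ.symm w)).re = w.re := by rw [← hre, Ψ.apply_symm_apply]
    have e2 : (Φ (Ψ.symm w)).im = σ * w.im := by
      have h3 := him (Ψ.symm w)
      rw [Ψ.apply_symm_apply] at h3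
      rw [h3, ← mul_assoc, hσ2, one_mul]
    refine ⟨Ψ.symm w, ?_, ?_, e1, e2, ?_, ?_⟩
    · rw [e1]
      exact h1
    · rw [e2, abs_mul, hσa, one_mul]
      exact h2
    · show (Ψ (F (Ψ.symm w))).re = _
      rw [hre]
    · show (Ψ (F (Ψ.symm w))).im = _
      rw [him]
  refine
    { lam0 := l0
      lam1 := l1
      cont := Ψ.continuous.comp hc
      inj := Ψ.injective.comp hi
      conj := ?_
      no := NO_conj no Ψ
      bdd := ?_
      g0 := ?_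
      hh := ch.hh
      hsm := ch.hsm
      hlm := ch.hlm
      hlp := ch.hlp
      re_sign := ?_
      im_sign := ?_
      re_low := ?_
      re_up := ?_
      im_low := ?_
      im_up := ?_
      ax := ?_ }
  · intro t
    show Ψ (F (Ψ.symm (Ψ (γ t)))) = Ψ (γ (lam * t))
    rw [Ψ.symm_apply_apply, hF]
  · rw [image_comp]
    exact bdd_image Ψ hb
  · show Ψ (γ 0) = 0
    rw [hp]
    apply Complex.ext
    · rw [hre, ch.zero, Complex.zero_re]
    · rw [him, ch.zero, Complex.zero_im, mul_zero]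
  · intro w h1 h2
    obtain ⟨z, a1, a2, a3, a4, a5, a6⟩ := key w h1 h2
    have h3 := ch.re_sign z a1 a2
    rw [a5, ← a3]
    linarith
  · intro w h1 h2
    obtain ⟨z, a1, a2, a3, a4, a5, a6⟩ := key w h1 h2
    have h3 := ch.im_sign z a1 a2
    rw [a4] at h3
    rw [a6]
    linarith
  · intro w h1 h2
    obtain ⟨z, a1, a2, a3, a4, a5, a6⟩ := key w h1 h2
    have h3 := ch.re_low z a1 a2
    rw [a5, ← a3]
    exact h3
  · intro w h1 h2
    obtain ⟨z, a1, a2, a3, a4, a5, a6⟩ := key w h1 h2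
    have h3 := ch.re_up z a1 a2
    rw [a5, ← a3]
    exact h3
  · intro w h1 h2
    obtain ⟨z, a1, a2, a3, a4, a5, a6⟩ := key w h1 h2
    have h3 := ch.im_low z a1 a2
    rw [a4, abs_mul, hσa, one_mul] at h3
    rw [a6, abs_mul, hσa, one_mul]
    exact h3
  · intro w h1 h2
    obtain ⟨z, a1, a2, a3, a4, a5, a6⟩ := key w h1 h2
    have h3 := ch.im_up z a1 a2
    rw [a4, abs_mul, hσa, one_mul] at h3
    rw [a6, abs_mul, hσa, one_mul]
    exact h3
  · obtain ⟨t0, ht0, h1⟩ := ax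
    refine ⟨t0, ht0, fun t ht => ?_⟩
    show (Ψ (γ t)).re = 0 ∧ 0 ≤ (Ψ (γ t)).im
    rw [hre, him]
    exact h1 t ht

private theorem nacc_aux {F Φ Ψ : ℂ ≃ₜ ℂ} {γ : ℝ → ℂ} {lam h sm sp lm lp σ : ℝ} {p : ℂ}
    (hσ : σ = 1 ∨ σ = -1) (hre : ∀ z, (Ψ z).re = (Φ z).re) (him : ∀ z, (Ψ z).im = σ * (Φ z).im)
    (ch : Chart F Φ p 1 h sm sp lm lp) (no : NO F) (l0 : 0 < lam) (l1 : lam < 1)
    (hc : Continuous γ) (hi : Function.Injective γ) (hF : ∀ t, F (γ t) = γ (lam * t))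
    (hb : Bornology.IsBounded (γ '' Ioi 0)) (hp : γ 0 = p)
    (ax : ∃ t0 > 0, ∀ t ∈ Icc 0 t0, (Φ (γ t)).re = 0 ∧ 0 ≤ σ * (Φ (γ t)).im) : p ∉ AA γ := by
  intro hA
  have H := flat_aux hσ hre him ch no l0 l1 hc hi hF hb hp ax
  apply flat_nacc H
  have h0 : Ψ p = 0 := by
    rw [← hp]
    exact H.g0
  rw [← h0]
  unfold AA at hA ⊢
  rw [mem_iInter] at hA ⊢
  intro T
  rw [image_comp]
  exact image_closure_subset_closure_image Ψ.continuous (mem_image_of_mem Ψ (hA T))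

theorem nacc {F Φ : ℂ ≃ₜ ℂ} {γ : ℝ → ℂ} {lam h sm sp lm lp : ℝ} {p : ℂ}
    (ch : Chart F Φ p 1 h sm sp lm lp) (no : NO F) (l0 : 0 < lam) (l1 : lam < 1)
    (hc : Continuous γ) (hi : Function.Injective γ) (hF : ∀ t, F (γ t) = γ (lam * t))
    (hb : Bornology.IsBounded (γ '' Ioi 0)) (hp : γ 0 = p)
    (ax : ∃ t0 > 0, ∀ t ∈ Icc 0 t0, (Φ (γ t)).re = 0) : p ∉ AA γ := by
  obtain ⟨t0, ht0, hax⟩ := ax
  have hcont : Continuous fun t => (Φ (γ t)).im :=
    Complex.continuous_im.comp (Φ.continuous.comp hc)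
  have h0 : Φ (γ 0) = 0 := by rw [hp, ch.zero]
  have hne : ∀ t ∈ Ioc 0 t0, (Φ (γ t)).im ≠ 0 := by
    intro t ht h1
    have h2 : Φ (γ t) = Φ (γ 0) := by
      rw [h0]
      exact Complex.ext (hax t ⟨ht.1.le, ht.2⟩) h1
    have h3 := hi (Φ.injective h2)
    exact ht.1.ne' h3
  by_cases hpos : ∀ t ∈ Ioc 0 t0, 0 ≤ (Φ (γ t)).im
  · refine nacc_aux (Ψ := Φ) (σ := 1) (Or.inl rfl) (fun _ => rfl) (fun _ => (one_mul _).symm) ch no
      l0 l1 hc hi hF hb hp ⟨t0, ht0, fun t ht => ⟨hax t ht, ?_⟩⟩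
    rw [one_mul]
    rcases ht.1.eq_or_lt with h1 | h1
    · rw [← h1, h0, Complex.zero_im]
    · exact hpos t ⟨h1, ht.2⟩
  · push Not at hpos
    obtain ⟨t1, ht1, hneg⟩ := hpos
    have hall : ∀ t ∈ Ioc 0 t0, (Φ (γ t)).im ≤ 0 := by
      intro t ht
      by_contra hc1
      push Not at hc1
      obtain ⟨s, hs, hs0⟩ := (isPreconnected_Ioc.intermediate_value ht1 ht hcont.continuousOn)
        (show (0 : ℝ) ∈ Icc ((fun t => (Φ (γ t)).im) t1) ((fun t => (Φ (γ t)).im) t) from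
          ⟨hneg.le, hc1.le⟩)
      exact hne s hs hs0
    refine nacc_aux (Ψ := Φ.trans Complex.conjCLE.toHomeomorph) (σ := -1) (Or.inr rfl)
      (fun z => ?_) (fun z => ?_) ch no
      l0 l1 hc hi hF hb hp ⟨t0, ht0, fun t ht => ⟨hax t ht, ?_⟩⟩
    · show ((starRingEnd ℂ) (Φ z)).re = _
      rw [Complex.conj_re]
    · show ((starRingEnd ℂ) (Φ z)).im = _
      rw [Complex.conj_im]
      ring
    · rcases ht.1.eq_or_lt with h1 | h1
      · rw [← h1, h0, Complex.zero_im, mul_zero]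
      · have := hall t ⟨h1, ht.2⟩
        linarith

end Pool.Agent.HE
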