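import Pool.Agent.HE.Defs

set_option autoImplicit false

/-!
HE-PLogH. Homeomorphisms of the plane preserve curves around a point: the homotopy
`Φ (r + exp (τ * L s))`, `τ ∈ [0, 1]`, never vanishes, and a periodic logarithm can be continued along it.
-/

namespace Pool.Agent.HE

open Set Topology Filter

private theorem plog_step {f g : ℝ → ℂ} (hf : Continuous f) (hg : Continuous g)
    (pf : ∀ s, f (s + 1) = f s) (pg : ∀ s, g (s + 1) = g s) (hf0 : ∀ s, f s ≠ 0)
    (hclose : ∀ s, ‖g s - f s‖ < ‖f s‖) (h : PLog f) : PLog g := by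
  obtain ⟨L, hL, hLp, hLe⟩ := h
  have hs : ∀ s, g s / f s ∈ Complex.slitPlane := by
    intro s
    have h1 : ‖(g s - f s) / f s‖ < 1 := by
      rw [norm_div, div_lt_one (norm_pos_iff.2 (hf0 s))]
      exact hclose s
    have h2 := Complex.mem_slitPlane_of_norm_lt_one h1
    have h3 : 1 + (g s - f s) / f s = g s / f s := by
      have := hf0 s
      field_simp
      ring
    rwa [h3] at h2
  refine ⟨fun s => L s + Complex.log (g s / f s), ?_, ?_, ?_⟩
  · exact hL.add ((hg.div hf hf0).clog hs)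
  · intro s
    simp only
    rw [hLp, pf, pg]
  · intro s
    have hg0 : g s / f s ≠ 0 := Complex.slitPlane_ne_zero (hs s)
    simp only
    rw [Complex.exp_add, hLe, Complex.exp_log hg0, mul_div_cancel₀ _ (hf0 s)]

private theorem per_fract {f : ℝ → ℂ} (pf : ∀ s, f (s + 1) = f s) (s : ℝ) :
    f (Int.fract s) = f s := by
  have h : Function.Periodic f 1 := pf
  have h1 := h.sub_zsmul_eq ⌊s⌋ (x := s)
  rw [zsmul_one] at h1
  exact h1

private theorem plog_homotopy {H : ℝ × ℝ → ℂ} (hH : Continuous H)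
    (hper : ∀ τ s, H (τ, s + 1) = H (τ, s)) (h0 : ∀ τ s, H (τ, s) ≠ 0)
    (hstart : PLog fun s => H (0, s)) : PLog fun s => H (1, s) := by
  set K : Set (ℝ × ℝ) := Icc 0 1 ×ˢ Icc 0 1 with hK
  have hKc : IsCompact K := isCompact_Icc.prod isCompact_Icc
  have hKn : K.Nonempty := ⟨(0, 0), ⟨⟨le_rfl, zero_le_one⟩, ⟨le_rfl, zero_le_one⟩⟩⟩
  obtain ⟨x0, hx0, hmin⟩ := hKc.exists_isMinOn hKn hH.norm.continuousOn
  set m := ‖H x0‖ with hm
  have hmpos : 0 < m := norm_pos_iff.2 (h0 x0.1 x0.2)
  have huc := hKc.uniformContinuousOn_of_continuous hH.continuousOn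
  rw [Metric.uniformContinuousOn_iff] at huc
  obtain ⟨δ, hδ, huc⟩ := huc m hmpos
  obtain ⟨N, hN⟩ := exists_nat_gt (1 / δ)
  have hN0 : (0 : ℝ) < N := (one_div_pos.2 hδ).trans hN
  have hstep : ∀ i : ℕ, i ≤ N → PLog fun s => H ((i : ℝ) / N, s) := by
    intro i
    induction i with
    | zero =>
      intro _
      simpa using hstart
    | succ i ih =>
      intro hi
      have hcont : ∀ τ : ℝ, Continuous fun s => H (τ, s) := fun τ =>
        hH.comp (continuous_const.prodMk continuous_id)
      refine plog_step (hcont _) (hcont _) (hper _) (hper _) (fun s => h0 _ s) ?_ (ih (by omega))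
      intro s
      have e1 : H (((i + 1 : ℕ) : ℝ) / N, s) = H (((i + 1 : ℕ) : ℝ) / N, Int.fract s) :=
        (per_fract (f := fun s => H (((i + 1 : ℕ) : ℝ) / N, s)) (hper _) s).symm
      have e2 : H ((i : ℝ) / N, s) = H ((i : ℝ) / N, Int.fract s) :=
        (per_fract (f := fun s => H ((i : ℝ) / N, s)) (hper _) s).symm
      rw [e1, e2]
      have hfr : Int.fract s ∈ Icc (0 : ℝ) 1 := ⟨Int.fract_nonneg s, (Int.fract_lt_one s).le⟩
      have hi1 : ((i : ℝ) / N) ∈ Icc (0 : ℝ) 1 := by
        refine ⟨by positivity, ?_⟩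
        rw [div_le_one hN0]
        exact_mod_cast (by omega : i ≤ N)
      have hi2 : (((i + 1 : ℕ) : ℝ) / N) ∈ Icc (0 : ℝ) 1 := by
        refine ⟨by positivity, ?_⟩
        rw [div_le_one hN0]
        exact_mod_cast hi
      have k1 : ((i : ℝ) / N, Int.fract s) ∈ K := ⟨hi1, hfr⟩
      have k2 : (((i + 1 : ℕ) : ℝ) / N, Int.fract s) ∈ K := ⟨hi2, hfr⟩
      have hd : dist (((i + 1 : ℕ) : ℝ) / N, Int.fract s) ((i : ℝ) / N, Int.fract s) < δ := by
        rw [Prod.dist_eq, dist_self, max_eq_left dist_nonneg, Real.dist_eq]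
        have e : ((i + 1 : ℕ) : ℝ) / N - (i : ℝ) / N = 1 / N := by
          push_cast
          ring
        rw [e, abs_of_pos (by positivity), div_lt_comm₀ hN0 hδ]
        exact hN
      have h1 := huc _ k2 _ k1 hd
      rw [dist_eq_norm] at h1
      have h2 : m ≤ ‖H ((i : ℝ) / N, Int.fract s)‖ := hmin k1
      exact h1.trans_le h2
  have h1 := hstep N le_rfl
  rw [div_self hN0.ne'] at h1
  exact h1

theorem plog_homeo {c : ℝ → ℂ} (hc : Closed1 c) (Φ : ℂ ≃ₜ ℂ) {r : ℂ} (hr : Φ r = 0)
    (h : PLog fun s => c s - r) : PLog fun s => Φ (c s) := by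
  obtain ⟨L, hL, hLp, hLe⟩ := h
  have key := plog_homotopy (H := fun x => Φ (r + Complex.exp ((x.1 : ℂ) * L x.2))) (by
      refine Φ.continuous.comp (continuous_const.add (Complex.continuous_exp.comp ?_))
      exact (Complex.continuous_ofReal.comp continuous_fst).mul (hL.comp continuous_snd))
    (by
      intro τ s
      simp only
      rw [hLp])
    (by
      intro τ s h0
      simp only at h0
      rw [← hr] at h0
      have h1 := Φ.injective h0
      have h2 : Complex.exp ((τ : ℂ) * L s) = 0 := by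
        have h3 : r + Complex.exp ((τ : ℂ) * L s) = r + 0 := by rw [h1, add_zero]
        exact add_left_cancel h3
      exact Complex.exp_ne_zero _ h2)
    (by
      have h1 : Φ (r + 1) ≠ 0 := by
        intro h0
        rw [← hr] at h0
        have h2 := Φ.injective h0
        have h3 : r + 1 = r + 0 := by rw [h2, add_zero]
        exact one_ne_zero (add_left_cancel h3)
      refine ⟨fun _ => Complex.log (Φ (r + 1)), continuous_const, fun _ => rfl, ?_⟩
      intro s
      simp only
      rw [Complex.exp_log h1, Complex.ofReal_zero, zero_mul, Complex.exp_zero])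
  have e : (fun s => Φ (c s)) = fun s => Φ (r + Complex.exp (((1 : ℝ) : ℂ) * L s)) := by
    funext s
    rw [Complex.ofReal_one, one_mul, hLe]
    congr 1
    ring
  rw [e]
  exact key

end Pool.Agent.HE
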