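import Pool.Agent.HE.SDef

set_option autoImplicit false

/-!
HE-SQGap. A gap with an end in an open quadrant is contained in the path of this quadrant.

The point of the closure of the gap is an end of the gap, it lies on the quarter of the closed curve
which is the path of this quadrant, between the parameters `α` and `β`, whose points belong to `X`.
-/

namespace Pool.Agent.HE

open Set Topology Filter

variable {F Φ : ℂ ≃ₜ ℂ}

private theorem per_int {C : ℝ → ℂ} (hC : Closed1 C) (k : ℤ) (s : ℝ) : C (s - k) = C s := by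
  have h : Function.Periodic C 1 := hC.per
  have h1 := h.sub_int_mul_eq (x := s) k
  rwa [mul_one] at h1

private theorem gap_aux {C : ℝ → ℂ} {X : Set ℂ} (hC : Closed1 C) {s1 s2 σ L R : ℝ} {k : ℤ}
    (h12 : s1 < s2) (gap : ∀ s ∈ Ioo s1 s2, Φ.symm (C s) ∉ X) (hL : Φ.symm (C L) ∈ X)
    (hR : Φ.symm (C R) ∈ X) (hσ : σ = s1 ∨ σ = s2) (hLσ : L < σ - k) (hσR : σ - k < R) :
    ∀ s ∈ Ioo s1 s2, L < s - k ∧ s - k < R := by
  have hL' : Φ.symm (C (L + k)) ∈ X := by
    rw [← per_int hC k (L + k), add_sub_cancel_right]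
    exact hL
  have hR' : Φ.symm (C (R + k)) ∈ X := by
    rw [← per_int hC k (R + k), add_sub_cancel_right]
    exact hR
  rcases hσ with rfl | rfl
  · have h1 : s2 ≤ R + k := by
      by_contra h
      exact gap (R + k) ⟨by linarith, by linarith⟩ hR'
    exact fun s hs => ⟨by linarith [hs.1], by linarith [hs.2]⟩
  · have h1 : L + k ≤ s1 := by
      by_contra h
      exact gap (L + k) ⟨by linarith, by linarith⟩ hL'
    exact fun s hs => ⟨by linarith [hs.1], by linarith [hs.2]⟩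

theorem quad_gap {C a : ℝ → ℂ} {X : Set ℂ} {i j p α β : ℝ} (hC : Closed1 C)
    (Q : Quarter C a i j p) (K : Core F Φ X a α β) {κ : Set ℂ}
    (hκ : IsGap (fun s => Φ.symm (C s)) X κ) {w : ℂ} (hw : Φ.symm w ∈ closure κ)
    (hwX : Φ.symm w ∈ X) (h1 : 0 < i * w.re) (h2 : 0 < j * w.im) :
    κ ⊆ (fun x => Φ.symm (a x)) '' Ioo α β := by
  obtain ⟨s1, s2, h12, _, _, _, gap, rfl⟩ := hκ
  have hcont : Continuous (fun s => Φ.symm (C s)) := Φ.symm.continuous.comp hC.cont
  have hcl : closure ((fun s => Φ.symm (C s)) '' Ioo s1 s2) ⊆ (fun s => Φ.symm (C s)) '' Icc s1 s2 :=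
    closure_minimal (image_mono Ioo_subset_Icc_self) (isCompact_Icc.image hcont).isClosed
  obtain ⟨σ, hσ, hσw⟩ := hcl hw
  have hσw' : C σ = w := Φ.symm.injective hσw
  have hσe : σ = s1 ∨ σ = s2 := by
    by_contra h
    rw [not_or] at h
    refine gap σ ⟨lt_of_le_of_ne hσ.1 (Ne.symm h.1), lt_of_le_of_ne hσ.2 h.2⟩ ?_
    change Φ.symm (C σ) ∈ X
    rw [hσw']
    exact hwX
  obtain ⟨k, hk1, hk2⟩ : ∃ k : ℤ, p ≤ σ - k ∧ σ - k < p + 1 :=
    ⟨⌊σ - p⌋, by linarith [Int.floor_le (σ - p)], by linarith [Int.lt_floor_add_one (σ - p)]⟩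
  have hτ : C (σ - k) = w := (per_int hC k σ).trans hσw'
  have hk3 : σ - k < p + 1 / 4 := by
    by_contra h
    refine Q.out (σ - k) ⟨by linarith, hk2.le⟩ ?_
    rw [hτ]
    exact ⟨h1, h2⟩
  have hne : w.re * w.im ≠ 0 := by
    intro h
    rcases mul_eq_zero.1 h with h | h
    · rw [h, mul_zero] at h1
      exact lt_irrefl _ h1
    · rw [h, mul_zero] at h2
      exact lt_irrefl _ h2
  have h0 := K.h0
  have h3 := K.h1
  have hαβ := K.lt
  rcases Q.par with hp | hp
  · have hx := hp (σ - k) ⟨hk1, hk3.le⟩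
    rw [hτ] at hx
    have hx0 : ¬ (4 * (σ - k - p) ≤ α ∨ β ≤ 4 * (σ - k - p)) := fun h => by
      refine hne ?_
      rw [hx]
      exact K.outer _ ⟨by linarith, by linarith⟩ h
    rw [not_or, not_le, not_le] at hx0
    have hL : Φ.symm (C (p + α / 4)) ∈ X := by
      rw [hp (p + α / 4) ⟨by linarith, by linarith⟩, show 4 * (p + α / 4 - p) = α by ring]
      exact K.ma
    have hR : Φ.symm (C (p + β / 4)) ∈ X := by
      rw [hp (p + β / 4) ⟨by linarith, by linarith⟩, show 4 * (p + β / 4 - p) = β by ring]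
      exact K.mb
    have key := gap_aux hC h12 gap hL hR hσe (by linarith [hx0.1] : p + α / 4 < σ - k)
      (by linarith [hx0.2])
    rintro _ ⟨s, hs, rfl⟩
    obtain ⟨g1, g2⟩ := key s hs
    refine ⟨4 * (s - k - p), ⟨by linarith, by linarith⟩, ?_⟩
    change Φ.symm (a (4 * (s - k - p))) = Φ.symm (C s)
    rw [← hp (s - k) ⟨by linarith, by linarith⟩, per_int hC]
  · have hx := hp (σ - k) ⟨hk1, hk3.le⟩
    rw [hτ] at hx
    have hx0 : ¬ (1 - 4 * (σ - k - p) ≤ α ∨ β ≤ 1 - 4 * (σ - k - p)) := fun h => by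
      refine hne ?_
      rw [hx]
      exact K.outer _ ⟨by linarith, by linarith⟩ h
    rw [not_or, not_le, not_le] at hx0
    have hL : Φ.symm (C (p + (1 - β) / 4)) ∈ X := by
      rw [hp (p + (1 - β) / 4) ⟨by linarith, by linarith⟩,
        show 1 - 4 * (p + (1 - β) / 4 - p) = β by ring]
      exact K.mb
    have hR : Φ.symm (C (p + (1 - α) / 4)) ∈ X := by
      rw [hp (p + (1 - α) / 4) ⟨by linarith, by linarith⟩,
        show 1 - 4 * (p + (1 - α) / 4 - p) = α by ring]
      exact K.ma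
    have key := gap_aux hC h12 gap hL hR hσe (by linarith [hx0.2] : p + (1 - β) / 4 < σ - k)
      (by linarith [hx0.1])
    rintro _ ⟨s, hs, rfl⟩
    obtain ⟨g1, g2⟩ := key s hs
    refine ⟨1 - 4 * (s - k - p), ⟨by linarith, by linarith⟩, ?_⟩
    change Φ.symm (a (1 - 4 * (s - k - p))) = Φ.symm (C s)
    rw [← hp (s - k) ⟨by linarith, by linarith⟩, per_int hC]

end Pool.Agent.HE
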