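import Pool.Agent.HE.Dicho
import Pool.Agent.HE.GCut
import Pool.Agent.HE.Nest

set_option autoImplicit false

/-!
HE-Transf. Every closed curve around a point at which good crosscuts accumulate has a good gap.

A small good crosscut near the point is in the bounded component cut off by a gap of the curve, so
its component is contained in that component and the germs at large parameters are in it.
-/

namespace Pool.Agent.HE

open Set Topology Filter

variable {F : ℂ ≃ₜ ℂ} {γ : ℝ → ℂ} {lam : ℝ} {ell : ℝ → ℝ → ℂ}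

theorem transf (C : Ctx F γ lam ell) {r : ℂ}
    (hg : ∀ ε > 0, ∃ κ D t0, Good γ ell κ D t0 ∧ ∀ z ∈ κ, dist z r < ε) :
    ∃ δ0 > 0, ∀ c : ℝ → ℂ, Closed1 c → (¬ PLog fun s => c s - r) → (∀ s, c s ≠ r) →
      (∃ s, c s ∈ XX γ) → (∀ s, ∃ a ∈ AA γ, dist (c s) a < δ0) →
      ∃ κ D t0, IsGap c (XX γ) κ ∧ Good γ ell κ D t0 := by
  obtain ⟨δ0, hδ0, hsmall⟩ := small C
  refine ⟨δ0, hδ0, fun c hc hnl hcr hmeet hnear => ?_⟩
  obtain ⟨ε, hε, hεc⟩ : ∃ ε > 0, ∀ s, ε ≤ dist (c s) r := by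
    have hcont : ContinuousOn (fun s => dist (c s) r) (Icc (0 : ℝ) 1) :=
      (hc.cont.dist continuous_const).continuousOn
    obtain ⟨s0, -, hmin⟩ := isCompact_Icc.exists_isMinOn
      (nonempty_Icc.2 (zero_le_one (α := ℝ))) hcont
    refine ⟨dist (c s0) r, dist_pos.2 (hcr s0), fun s => ?_⟩
    have hper : Function.Periodic c 1 := hc.per
    obtain ⟨y, hy, hys⟩ := hper.exists_mem_Ico₀ one_pos s
    rw [hys]
    exact hmin ⟨hy.1, hy.2.le⟩
  obtain ⟨κn, Dn, tn, hG, hκn⟩ := hg ε hε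
  have hns := xx_nonsep C
  obtain ⟨m, hmf, hm⟩ := frontier_meets hns hG.cut.closed hG.cmp hG.bdd
  have hmX : m ∉ XX γ := fun h => disjoint_left.1 hG.cut.disj hm h
  have hlt : ∀ z ∈ κn, ∀ s, dist z r < dist (c s) r := fun z hz s => (hκn z hz).trans_le (hεc s)
  have hnm : ¬ PLog fun s => c s - m := fun h => hnl (plog_base hc (hlt m hm) h)
  have hne : ∀ z ∈ κn, ∀ s, c s ≠ z := fun z hz s h => by
    have := hlt z hz s
    rw [h] at this
    exact lt_irrefl _ this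
  obtain ⟨κ, hκ, hmκ, hb⟩ := gap (xx_compact C) (xx_conn C) hns hc hmX (hne m hm) hmeet hnm
  have K : Cut γ κ := gap_cut C hc hκ
  have hmY : m ∉ XX γ ∪ κ := fun h => h.elim hmX hmκ
  have hD : IsCmp (XX γ ∪ κ) (Cmp (XX γ ∪ κ) m) := isCmp_cmp hmY
  have hr : ∀ z ∈ κ, ∃ s, c s = z := by
    obtain ⟨s1, s2, -, -, -, -, -, h⟩ := hκ
    rw [h]
    rintro _ ⟨s, -, hs⟩
    exact ⟨s, hs⟩
  have hdk : Disjoint κn κ := by
    rw [disjoint_left]
    intro z hz hz'
    obtain ⟨s, hs⟩ := hr z hz'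
    exact hne z hz s hs
  have hsub : κn ⊆ Cmp (XX γ ∪ κ) m :=
    sub_cmp hG.cut.pre (disjoint_union_right.2 ⟨hG.cut.disj, hdk⟩) ⟨m, hm, mem_cmp hmY⟩
  have hint : (Dn ∩ Cmp (XX γ ∪ κ) m).Nonempty := by
    have h := mem_closure_iff.1 (frontier_subset_closure hmf) _ (cmp_open K.closed m)
      (mem_cmp hmY)
    rwa [inter_comm] at h
  have hDn : Dn ⊆ Cmp (XX γ ∪ κ) m := by
    rcases nest hns hG.cut.pre K.pre hG.cut.disj K.disj hG.cut.closed K.closed hG.cmp hD hG.bdd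
      hb hdk hint with h | h
    · exact h
    · exact absurd (Or.inr hm) (disjoint_left.1 hG.cmp.disj (h (hsub hm)))
  obtain ⟨B, hB⟩ := hG.cut.fin.bddAbove
  obtain ⟨t0, ht0⟩ := good_of_ev C K hD hb (T := max tn B)
    (fun t ht _ => by
      have h1 : tn < t := (le_max_left _ _).trans_lt ht
      have h2 : B < t := (le_max_right _ _).trans_lt ht
      refine (hG.after t h1 fun h3 => ?_).mono hDn
      exact absurd (hB ⟨hG.pos.trans h1, h3⟩) (not_le.2 h2))
    (hsmall κ K (fun z hz => by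
      obtain ⟨s, hs⟩ := hr z hz
      rw [← hs]
      exact hnear s) _ hD hb)
  exact ⟨κ, _, t0, hκ, ht0⟩

end Pool.Agent.HE
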