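import Pool.Agent.HE.ZC

set_option autoImplicit false

/-!
HE-ZD. An entire stable curve and an entire unstable curve of different fixed points have no
accumulating sequence of common points.
-/

namespace Pool.Agent.HE

open Set Topology Filter

variable {ψ φ : ℂ → ℂ × ℂ}

/-- the invariant function attains its minimum -/
theorem exists_min (hψ : Differentiable ℂ ψ) (hφ : Differentiable ℂ φ)
    (hφi : Function.Injective φ) (hd : ∀ ζ, deriv φ ζ ≠ 0) {g : ℂ × ℂ → ℂ × ℂ}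
    (hg : Function.Injective g) {lam σ : ℝ} (l0 : 0 < lam) (l1 : lam < 1) (hσ : 1 < |σ|)
    (c1 : ∀ z, g (ψ z) = ψ (lam * z)) (c2 : ∀ z, g (φ z) = φ (σ * z)) (hne : ψ 0 ≠ φ 0)
    (hOm : (Om ψ φ).Nonempty) :
    ∃ z ∈ Om ψ φ, ∀ w ∈ Om ψ φ, uu ψ φ (kap lam σ) z ≤ uu ψ φ (kap lam σ) w := by
  have hz0 : ∀ z ∈ Om ψ φ, z ≠ 0 := fun z hz h => zero_notMem_om hφi hσ c1 c2 hne (h ▸ hz)
  set V : Set ℝ := uu ψ φ (kap lam σ) '' Om ψ φ with hV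
  have hVn : V.Nonempty := hOm.image _
  have hVb : BddBelow V := by
    refine ⟨0, ?_⟩
    rintro _ ⟨z, -, rfl⟩
    exact mul_nonneg (norm_nonneg _) (Real.rpow_nonneg (norm_nonneg _) _)
  obtain ⟨v, -, hv, hvm⟩ := exists_seq_tendsto_sInf hVn hVb
  have hch : ∀ n, ∃ w ∈ Om ψ φ, lam ≤ ‖w‖ ∧ ‖w‖ ≤ 1 ∧ uu ψ φ (kap lam σ) w = v n := by
    intro n
    obtain ⟨z, hz, hzv⟩ := hvm n
    obtain ⟨w, h1, h2, h3, h4⟩ := exists_annulus hφi hg l0 l1 hσ c1 c2 hz (hz0 z hz)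
    exact ⟨w, h1, h2, h3, h4.trans hzv⟩
  choose w hw1 hw2 hw3 hw4 using hch
  obtain ⟨z0, -, s, hs, hs2⟩ := (isCompact_closedBall (0 : ℂ) 1).tendsto_subseq
    (fun n => mem_closedBall_zero_iff.2 (hw3 n))
  have hz0n : lam ≤ ‖z0‖ := ge_of_tendsto' hs2.norm fun n => hw2 (s n)
  have hz00 : z0 ≠ 0 := norm_pos_iff.1 (lt_of_lt_of_le l0 hz0n)
  have hvs : Tendsto (fun n => v (s n)) atTop (𝓝 (sInf V)) := hv.comp hs.tendsto_atTop
  obtain ⟨M, hM⟩ := hvs.bddAbove_range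
  have hzO : z0 ∈ Om ψ φ := om_of_uu hψ hφ hd (kap_pos l0 l1 hσ) hz00 hs2 (fun n => hw1 (s n))
    (M := M) (fun n => by
      rw [Function.comp_apply, hw4]
      exact hM ⟨n, rfl⟩)
  refine ⟨z0, hzO, fun z hz => ?_⟩
  have h1 : Tendsto (fun n => uu ψ φ (kap lam σ) ((w ∘ s) n)) atTop
      (𝓝 (uu ψ φ (kap lam σ) z0)) := (uu_cont hφi hzO hz00).tendsto.comp hs2
  have h2 : uu ψ φ (kap lam σ) z0 = sInf V := by
    refine tendsto_nhds_unique h1 (hvs.congr fun n => ?_)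
    rw [Function.comp_apply, hw4]
  rw [h2]
  exact csInf_le hVb ⟨z, hz, rfl⟩

theorem om_univ (hψ : Differentiable ℂ ψ) (hφ : Differentiable ℂ φ)
    (hφi : Function.Injective φ) (hd : ∀ ζ, deriv φ ζ ≠ 0) {g : ℂ × ℂ → ℂ × ℂ}
    (hg : Function.Injective g) {lam σ : ℝ} (l0 : 0 < lam) (l1 : lam < 1) (hσ : 1 < |σ|)
    (c1 : ∀ z, g (ψ z) = ψ (lam * z)) (c2 : ∀ z, g (φ z) = φ (σ * z)) (hne : ψ 0 ≠ φ 0)
    (hOm : (Om ψ φ).Nonempty) :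
    ∃ m : ℝ, ∀ z : ℂ, z ≠ 0 → z ∈ Om ψ φ ∧ uu ψ φ (kap lam σ) z = m := by
  have hz0 : ∀ z ∈ Om ψ φ, z ≠ 0 := fun z hz h => zero_notMem_om hφi hσ c1 c2 hne (h ▸ hz)
  obtain ⟨zm, hzm, hmin⟩ := exists_min hψ hφ hφi hd hg l0 l1 hσ c1 c2 hne hOm
  set m := uu ψ φ (kap lam σ) zm with hm
  set S : Set ℂ := {z | z ∈ Om ψ φ ∧ uu ψ φ (kap lam σ) z = m} with hS
  refine ⟨m, ?_⟩
  have hSo : IsOpen S := by
    rw [isOpen_iff_mem_nhds]
    rintro z ⟨hz1, hz2⟩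
    have h1 : ∀ᶠ w in 𝓝 z, w ∈ Om ψ φ := om_open.mem_nhds hz1
    have h2 : ∀ᶠ w in 𝓝 z, uu ψ φ (kap lam σ) z ≤ uu ψ φ (kap lam σ) w := by
      filter_upwards [h1] with w hw
      rw [hz2]
      exact hmin w hw
    have h3 := uu_loc hφi hz1 (hz0 z hz1) (hh_ne_zero hψ.continuous l0 l1 c1 c2 hne hz1) h2
    filter_upwards [h1, h3] with w hw1 hw3
    exact ⟨hw1, hw3.trans hz2⟩
  have hpc : IsPreconnected ({0}ᶜ : Set ℂ) :=
    (isConnected_compl_singleton_of_one_lt_rank (by simp) (0 : ℂ)).isPreconnected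
  have hsub : ({0}ᶜ : Set ℂ) ⊆ S := by
    refine hpc.subset_of_closure_inter_subset hSo ⟨zm, hz0 zm hzm, hzm, rfl⟩ ?_
    rintro z ⟨hz1, hz2⟩
    obtain ⟨x, hx, hxz⟩ := mem_closure_iff_seq_limit.1 hz1
    have hz2' : z ≠ 0 := hz2
    have hzO : z ∈ Om ψ φ := om_of_uu hψ hφ hd (kap_pos l0 l1 hσ) hz2' hxz (fun n => (hx n).1)
      (M := m) (fun n => (hx n).2.le)
    refine ⟨hzO, ?_⟩
    have h1 : Tendsto (fun n => uu ψ φ (kap lam σ) (x n)) atTop (𝓝 (uu ψ φ (kap lam σ) z)) :=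
      (uu_cont hφi hzO hz2').tendsto.comp hxz
    refine tendsto_nhds_unique h1 ?_
    refine tendsto_const_nhds.congr fun n => ?_
    exact (hx n).2.symm
  exact fun z hz => hsub hz

theorem no_conn (hψ : Differentiable ℂ ψ) (hφ : Differentiable ℂ φ)
    (hψi : Function.Injective ψ) (hφi : Function.Injective φ) (hd : ∀ ζ, deriv φ ζ ≠ 0)
    {g : ℂ × ℂ → ℂ × ℂ} (hg : Function.Injective g) {lam σ : ℝ} (l0 : 0 < lam) (l1 : lam < 1)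
    (hσ : 1 < |σ|) (c1 : ∀ z, g (ψ z) = ψ (lam * z)) (c2 : ∀ z, g (φ z) = φ (σ * z))
    (hne : ψ 0 ≠ φ 0) {z ζ : ℕ → ℂ} {z0 ζ0 : ℂ} (hz : Tendsto z atTop (𝓝 z0))
    (hzne : ∀ n, z n ≠ z0) (hζ : Tendsto ζ atTop (𝓝 ζ0)) (h : ∀ n, ψ (z n) = φ (ζ n)) : False := by
  obtain ⟨k, hk, -, hk2⟩ := loc_coinc hψ hφ (hd ζ0) hz hzne hζ h
  obtain ⟨m, hm⟩ := om_univ hψ hφ hφi hd hg l0 l1 hσ c1 c2 hne ⟨z0, k, hk, hk2⟩
  -- `ψ` is bounded
  have hb : Bornology.IsBounded (range ψ) := by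
    have h1 : Bornology.IsBounded (ψ '' Metric.closedBall 0 1) :=
      ((isCompact_closedBall (0 : ℂ) 1).image hψ.continuous).isBounded
    have h2 : Bornology.IsBounded (φ '' Metric.closedBall 0 m) :=
      ((isCompact_closedBall (0 : ℂ) m).image hφ.continuous).isBounded
    refine (h1.union h2).subset ?_
    rintro _ ⟨w, rfl⟩
    rcases le_total ‖w‖ 1 with hw | hw
    · exact Or.inl ⟨w, mem_closedBall_zero_iff.2 hw, rfl⟩
    · right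
      have hw0 : w ≠ 0 := by
        rintro rfl
        rw [norm_zero] at hw
        linarith
      obtain ⟨h3, h4⟩ := hm w hw0
      refine ⟨hh ψ φ w, ?_, hh_spec h3⟩
      rw [mem_closedBall_zero_iff]
      have h5 : 1 ≤ ‖w‖ ^ kap lam σ := Real.one_le_rpow hw (kap_pos l0 l1 hσ).le
      calc ‖hh ψ φ w‖ ≤ ‖hh ψ φ w‖ * ‖w‖ ^ kap lam σ := le_mul_of_one_le_right (norm_nonneg _) h5
        _ = m := h4
  have h2 := hψ.apply_eq_apply_of_bounded hb 0 1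
  exact zero_ne_one (hψi h2)

end Pool.Agent.HE
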