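import Pool.Agent.HE.HDer
import Pool.Agent.HE.ZD

set_option autoImplicit false

/-!
HE-ZMain. A complex stable curve and a complex unstable curve of different fixed points have no common real arc.
-/

namespace Pool.Agent.HE

open Set Topology Filter Pool.Agent.HD

theorem no_common {b c : ℝ} (hb : b ≠ 0) {N : ℕ} (hN : 1 ≤ N) {p r : ℂ} (hpr : p ≠ r)
    {lam σ : ℝ} (l0 : 0 < lam) (l1 : lam < 1) (hσ : 1 < |σ|) {ψs ψu : ℂ → ℂ × ℂ}
    (Es : Ent ((fC b c)^[N]) lam p ψs) (Eu : Ent ((fC b c)^[N]) σ r ψu) {s1 s2 T : ℝ}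
    (h1 : 0 < s1) (h2 : s1 < s2)
    (h : ∀ s ∈ Icc s1 s2, ∃ τ : ℝ, |τ| ≤ T ∧ crv ψs s = crv ψu τ) : False := by
  have hinj : Function.Injective (fC b c) := Function.LeftInverse.injective (gC_fC hb)
  have hg : Function.Injective ((fC b c)^[N]) := hinj.iterate N
  -- a sequence of parameters which tends to `s1`
  set s : ℕ → ℝ := fun n => s1 + (s2 - s1) / (n + 1) with hs
  have hd : 0 < s2 - s1 := by linarith
  have hspos : ∀ n : ℕ, 0 < (s2 - s1) / ((n : ℝ) + 1) := fun n => by positivity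
  have hsm : ∀ n, s n ∈ Icc s1 s2 := by
    intro n
    have h3 : (s2 - s1) / ((n : ℝ) + 1) ≤ s2 - s1 := by
      rw [div_le_iff₀ (by positivity)]
      have : (0 : ℝ) ≤ n := Nat.cast_nonneg n
      nlinarith
    have h4 := hspos n
    constructor
    · simp only [hs]; linarith
    · simp only [hs]; linarith
  have hst : Tendsto s atTop (𝓝 s1) := by
    have h3 : Tendsto (fun n : ℕ => (s2 - s1) * (1 / ((n : ℝ) + 1))) atTop (𝓝 ((s2 - s1) * 0)) :=
      tendsto_one_div_add_atTop_nhds_zero_nat.const_mul _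
    have h4 := h3.const_add s1
    rw [mul_zero, add_zero] at h4
    refine h4.congr fun n => ?_
    simp only [hs]
    ring
  choose τ hτ1 hτ2 using fun n => h (s n) (hsm n)
  obtain ⟨τ0, -, m, hm, hm2⟩ := (isCompact_Icc (a := -T) (b := T)).tendsto_subseq
    (fun n => abs_le.1 (hτ1 n))
  have hne : ψs 0 ≠ ψu 0 := by
    rw [Es.zero, Eu.zero]
    exact fun h' => hpr (cx_inj h')
  refine no_conn Es.diff Eu.diff Es.inj Eu.inj Eu.der hg l0 l1 hσ Es.conj Eu.conj hne
    (z := fun n => ((s (m n) : ℝ) : ℂ)) (ζ := fun n => ((τ (m n) : ℝ) : ℂ)) (z0 := (s1 : ℂ))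
    (ζ0 := (τ0 : ℂ)) ?_ ?_ ?_ ?_
  · exact (Complex.continuous_ofReal.tendsto s1).comp (hst.comp hm.tendsto_atTop)
  · intro n h3
    have h4 : s (m n) = s1 := by exact_mod_cast h3
    have h5 := hspos (m n)
    simp only [hs] at h4
    linarith
  · exact (Complex.continuous_ofReal.tendsto τ0).comp hm2
  · intro n
    have h3 := hτ2 (m n)
    unfold crv at h3
    rw [Es.real, Eu.real, h3]

end Pool.Agent.HE
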