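import Pool.Agent.HE.EntHen
import Pool.Agent.HE.HArea
import Pool.Agent.HE.HCurve
import Pool.Agent.HE.HChart
import Pool.Agent.HE.HGerm
import Pool.Agent.HE.HSink
import Pool.Agent.HE.HTri
import Pool.Agent.HE.HHit
import Pool.Agent.HE.ZMain
import Pool.Agent.HE.NAccT
import Pool.Agent.HE.SFin

set_option autoImplicit false

/-!
# HE-HBr: the stable branches of a periodic saddle are unbounded

`chart_s` is the chart at a saddle of an iterate of the Henon map, given by its entire stable and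
unstable curves. `branch`: a bounded stable branch would satisfy all conditions of `Ctx`, and
`no_ctx` excludes it: the fixed points in the limit set are not sinks, have no eigenvalue `1` or
`-1`, and at a saddle the branch does not meet the local unstable curve.
-/

namespace Pool.Agent.HE

open Set Topology Filter Pool.Agent.HD

private lemma abs_sgn {e x : ℝ} (he : e = 1 ∨ e = -1) (h : 0 < e * x) : |x| = e * x := by
  rcases he with rfl | rfl
  · rw [one_mul] at h ⊢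
    exact abs_of_pos h
  · rw [neg_one_mul] at h ⊢
    exact abs_of_neg (by linarith)

private lemma strict_crv {b c : ℝ} {N : ℕ} {μ : ℝ} {q : ℂ} {ψ : ℂ → ℂ × ℂ}
    (E : Ent ((fC b c)^[N]) μ q ψ) (t : ℝ) :
    HasStrictDerivAt (crv ψ) (deriv (crv ψ) t) t :=
  (crv_cd E).contDiffAt.hasStrictDerivAt (by norm_num)

/-- forward invariance of the limit set -/
private lemma aa_map {F : ℂ ≃ₜ ℂ} {γ : ℝ → ℂ} {lam : ℝ} (l0 : 0 < lam)
    (hF : ∀ t, F (γ t) = γ (lam * t)) {z : ℂ} (hz : z ∈ AA γ) : F z ∈ AA γ := by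
  unfold AA at hz ⊢
  rw [mem_iInter] at hz ⊢
  intro T
  have h1 : F z ∈ closure (F '' (γ '' Ici (T / lam))) :=
    image_closure_subset_closure_image F.continuous (mem_image_of_mem F (hz (T / lam)))
  refine closure_mono ?_ h1
  rintro _ ⟨_, ⟨t, ht, rfl⟩, rfl⟩
  refine ⟨lam * t, ?_, (hF t).symm⟩
  rw [mem_Ici] at ht ⊢
  rw [div_le_iff₀ l0] at ht
  linarith

private lemma aa_closed (γ : ℝ → ℂ) : IsClosed (AA γ) :=
  isClosed_iInter fun _ => isClosed_closure

private lemma not_aa {F : ℂ ≃ₜ ℂ} {γ : ℝ → ℂ} {lam : ℝ} (l0 : 0 < lam) (l1 : lam < 1)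
    (hγ : Continuous γ) (hF : ∀ t, F (γ t) = γ (lam * t)) (h0 : γ 0 ∉ AA γ) (t : ℝ) :
    γ t ∉ AA γ := by
  intro h
  have h1 : ∀ n : ℕ, γ (lam ^ n * t) ∈ AA γ := by
    intro n
    induction n with
    | zero => simpa using h
    | succ n ih =>
      have h2 := aa_map l0 hF ih
      rw [hF] at h2
      have h3 : lam ^ (n + 1) * t = lam * (lam ^ n * t) := by ring
      rw [h3]
      exact h2
  have h2 : Tendsto (fun n : ℕ => lam ^ n * t) atTop (𝓝 (0 * t)) :=
    (tendsto_pow_atTop_nhds_zero_of_lt_one l0.le l1).mul_const t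
  rw [zero_mul] at h2
  have h3 : Tendsto (fun n : ℕ => γ (lam ^ n * t)) atTop (𝓝 (γ 0)) :=
    (hγ.tendsto 0).comp h2
  exact h0 ((aa_closed γ).mem_of_tendsto h3 (Eventually.of_forall h1))

theorem chart_s {b c : ℝ} (hb : b ≠ 0) {N : ℕ} {r : ℂ} (hr : fN b c hb N r = r) {e μ ν : ℝ}
    (he : e = 1 ∨ e = -1) (ht : tr (mat b c N r) = μ + ν) (hd : b ^ N = μ * ν) (hμ : 1 < e * μ)
    (hν0 : 0 < e * ν) (hν : e * ν < 1) :
    ∃ (Φ : ℂ ≃ₜ ℂ) (h sm sp lm lp : ℝ) (ψu : ℂ → ℂ × ℂ),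
      Chart (fN b c hb N) Φ r e h sm sp lm lp ∧ Ent ((fC b c)^[N]) μ r ψu ∧
      ∀ z, |(Φ z).re| < h → |(Φ z).im| < h → (Φ z).im = 0 → ∃ t, crv ψu t = z := by
  have hμ' : 1 < |μ| := by rwa [abs_sgn he (by linarith)]
  have hν' : |ν| < 1 := by rwa [abs_sgn he hν0]
  obtain ⟨ψu, Eu⟩ := ent_u hb hr ht hd hμ' (hν'.trans hμ')
  obtain ⟨ψs, Es⟩ := ent_s hb hr ht hd hν' (hν'.trans hμ')
  obtain ⟨Φ, h, sm, sp, lm, lp, ch, -, h2, -⟩ := exists_chart (hasStrict_fN b c hb N r) he hμ hν0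
    hν (crv_zero Eu) (crv_zero Es) (crv_der Eu 0) (crv_der Es 0) (strict_crv Eu 0)
    (strict_crv Es 0) (crv_conj hb Eu) (crv_conj hb Es)
  exact ⟨Φ, h, sm, sp, lm, lp, ψu, ch, Eu, h2⟩

theorem branch {b c : ℝ} (hb : b ≠ 0) (hb1 : |b| < 1) {n : ℕ} (hn : 1 ≤ n) {p : ℂ}
    {lam σ : ℝ} (l0 : 0 < lam) (l1 : lam < 1) (hσ : 1 < σ)
    (ht : tr (mat b c (2 * n) p) = σ + lam) (hd : b ^ (2 * n) = σ * lam)
    (hsn : ∀ r, fN b c hb (2 * n) r = r → |tr (mat b c (2 * n) r)| ≠ 1 + b ^ (2 * n))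
    {ψ : ℂ → ℂ × ℂ} (E : Ent ((fC b c)^[2 * n]) lam p ψ) :
    ¬ Bornology.IsBounded (crv ψ '' Ioi 0) := by
  intro hbd
  have hβ0 : 0 < b ^ (2 * n) := by
    rw [pow_mul]
    have : 0 < b ^ 2 := by positivity
    positivity
  have hβ1 : b ^ (2 * n) < 1 := by
    have h1 : b ^ 2 < 1 := (sq_lt_one_iff_abs_lt_one b).2 hb1
    rw [pow_mul]
    exact pow_lt_one₀ (sq_nonneg b) h1 (by omega)
  have hN : 1 ≤ 2 * n := by omega
  have hc : Continuous (crv ψ) := (crv_cd E).continuous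
  have hi : Function.Injective (crv ψ) := crv_inj E
  have hF := crv_conj hb E
  have hp0 : crv ψ 0 = p := crv_zero E
  have hp : fN b c hb (2 * n) p = p := by
    have h1 := hF 0
    rwa [mul_zero, hp0] at h1
  have no : NO (fN b c hb (2 * n)) := no_fN hb hb1 hN
  -- the saddle itself is not in the limit set
  have hnacc : p ∉ AA (crv ψ) := by
    have hσ' : 1 < |σ| := by rwa [abs_of_pos (by linarith)]
    have hl' : |lam| < |σ| := by
      rw [abs_of_pos l0]
      linarith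
    obtain ⟨ψu, Eu⟩ := ent_u hb hp ht hd hσ' hl'
    obtain ⟨Φ, h, sm, sp, lm, lp, ch, -, -, t0, ht0, h4⟩ :=
      exists_chart (hasStrict_fN b c hb (2 * n) p) (e := 1) (μ := σ) (ν := lam) (Or.inl rfl)
        (by rwa [one_mul]) (by rwa [one_mul]) (by rwa [one_mul])
        (crv_zero Eu) hp0 (crv_der Eu 0) (crv_der E 0) (strict_crv Eu 0)
        (strict_crv E 0) (crv_conj hb Eu) hF
    exact nacc ch no l0 l1 hc hi hF hbd hp0 ⟨t0, ht0, fun t ht => h4 t (by
      rw [abs_of_nonneg ht.1]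
      exact ht.2)⟩
  have hna : ∀ t, crv ψ t ∉ AA (crv ψ) := not_aa l0 l1 hc hF (by rwa [hp0])
  have C : Ctx (fN b c hb (2 * n)) (crv ψ) lam (col (crv ψ)) :=
    { lam0 := l0
      lam1 := l1
      cont := hc
      inj := hi
      conj := hF
      no := no
      bdd := hbd
      nacc := hna 0
      ellc := col_cont (crv_cd E)
      ell0 := fun t => by
        unfold col
        rw [Complex.ofReal_zero, zero_mul, add_zero]
      g1 := fun t ht => germ1 (crv_cd E) hi hbd ht (crv_der E t) (hna t)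
      g3 := fun t _ => germ3 (crv_cd E) (hasStrict_fN b c hb (2 * n) (crv ψ t)).hasFDerivAt
        (by rw [dt_mat]; exact hβ0) l0 hF (crv_der E t) (crv_der E (lam * t))
      circ := fun z hz ρ hρ => by
        refine crv_circ E ?_
        unfold AA at hz
        rw [mem_iInter] at hz
        obtain ⟨y, ⟨t, -, rfl⟩, h1⟩ := Metric.mem_closure_iff.1 (hz 0) ρ hρ
        refine ⟨t, ?_⟩
        rw [dist_comm]
        exact h1.ne }
  refine no_ctx C fun r hr hFr => ?_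
  have hrp : p ≠ r := by
    rintro rfl
    exact hnacc hr
  rcases tri (T := tr (mat b c (2 * n) r)) hβ0 hβ1 with h1 | h1 | ⟨e, μ, ν, he, hT, hβ, hμ, hν0, hν⟩
  · exfalso
    apply hrp
    rw [← hp0]
    exact not_sink hFr (hasStrict_fN b c hb (2 * n) r) (by rw [dt_mat]; exact hβ0)
      (by rw [dt_mat]; exact hβ1) (by rw [dt_mat]; exact h1) l0 l1 hc hF hr
  · exact absurd h1 (hsn r hFr)
  · obtain ⟨Φ, h, sm, sp, lm, lp, ψu, ch, Eu, h3⟩ := chart_s hb hFr he hT hβ hμ hν0 hν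
    refine ⟨Φ, e, h, sm, sp, lm, lp, ch, fun t ht h1 h2 h0 => ?_⟩
    obtain ⟨τ0, hτ⟩ := h3 (crv ψ t) h1 h2 h0
    have hμ' : 1 < |μ| := by rwa [abs_sgn he (by linarith)]
    have hτ0 : τ0 ≠ 0 := by
      rintro rfl
      rw [crv_zero Eu] at hτ
      rw [hτ] at hr
      exact hna t hr
    have h5 := no_hit no l0 l1 hμ' hc hi ((crv_cd Eu).differentiable (by norm_num)) (crv_inj Eu)
      (crv_der Eu) hF (crv_conj hb Eu) hbd ht hτ0 hτ.symm
    refine no_common hb hN hrp l0 l1 hμ' E Eu (s1 := lam ^ 2 * t) (s2 := t) (by positivity) ?_ h5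
    have h6 : lam ^ 2 < 1 := pow_lt_one₀ l0.le l1 (by norm_num)
    nlinarith

end Pool.Agent.HE
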