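import Pool.Agent.HE.Bas
import Pool.Agent.HD.Orb

set_option autoImplicit false

/-!
HE-HDefs: definitions for the Henon side.

The real plane is `ℂ` (`z.re`, `z.im` are the two coordinates); the complex Henon map is `fC b c` on `ℂ × ℂ`.
-/

namespace Pool.Agent.HE

open Set Topology Filter Pool.Agent.HD

/-- the Henon map on the real plane -/
noncomputable def fh (b c : ℝ) (hb : b ≠ 0) : ℂ ≃ₜ ℂ where
  toFun z := ⟨z.re ^ 2 + c - b * z.im, z.re⟩
  invFun z := ⟨z.im, (z.im ^ 2 + c - z.re) / b⟩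
  left_inv z := by
    refine Complex.ext ?_ ?_
    · simp
    · simp only
      field_simp
      ring
  right_inv z := by
    refine Complex.ext ?_ ?_
    · simp only
      field_simp
      ring
    · simp
  continuous_toFun := by
    have h : Continuous fun z : ℂ => ((z.re ^ 2 + c - b * z.im : ℝ) : ℂ) + (z.re : ℂ) * Complex.I := by
      fun_prop
    exact h.congr fun z => (Complex.mk_eq_add_mul_I _ _).symm
  continuous_invFun := by
    have h : Continuous fun z : ℂ =>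
        ((z.im : ℝ) : ℂ) + (((z.im ^ 2 + c - z.re) / b : ℝ) : ℂ) * Complex.I := by
      fun_prop
    exact h.congr fun z => (Complex.mk_eq_add_mul_I _ _).symm

/-- iterates of the Henon map on the real plane, as homeomorphisms -/
noncomputable def fN (b c : ℝ) (hb : b ≠ 0) : ℕ → (ℂ ≃ₜ ℂ)
  | 0 => Homeomorph.refl ℂ
  | n + 1 => (fN b c hb n).trans (fh b c hb)

lemma fN_coe (b c : ℝ) (hb : b ≠ 0) (n : ℕ) : ⇑(fN b c hb n) = (fh b c hb)^[n] := by
  induction n with
  | zero => rfl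
  | succ n ih =>
    funext z
    rw [Function.iterate_succ_apply', ← ih]
    rfl

lemma fN_symm_coe (b c : ℝ) (hb : b ≠ 0) (n : ℕ) :
    ⇑(fN b c hb n).symm = (fh b c hb).symm^[n] := by
  induction n with
  | zero => rfl
  | succ n ih =>
    funext z
    rw [Function.iterate_succ_apply, ← ih]
    rfl

/-- the complex Henon map -/
def fC (b c : ℝ) (w : ℂ × ℂ) : ℂ × ℂ := (w.1 ^ 2 + c - b * w.2, w.1)

/-- the inverse of the complex Henon map -/
noncomputable def gC (b c : ℝ) (w : ℂ × ℂ) : ℂ × ℂ := (w.2, (w.2 ^ 2 + c - w.1) / b)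

/-- a point of the real plane as a point of `ℂ × ℂ` -/
def cx (z : ℂ) : ℂ × ℂ := ((z.re : ℂ), (z.im : ℂ))

/-- the real parts of the coordinates, as a point of the real plane -/
def rp (w : ℂ × ℂ) : ℂ := ⟨w.1.re, w.2.re⟩

lemma rp_cx (z : ℂ) : rp (cx z) = z := rfl

lemma cx_inj : Function.Injective cx := fun z w h => by
  rw [← rp_cx z, h, rp_cx]

lemma fC_cx (b c : ℝ) (hb : b ≠ 0) (z : ℂ) : fC b c (cx z) = cx (fh b c hb z) := by
  refine Prod.ext ?_ ?_
  · simp [fC, cx, fh]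
  · simp [fC, cx, fh]

lemma fC_iter_cx (b c : ℝ) (hb : b ≠ 0) (n : ℕ) (z : ℂ) :
    (fC b c)^[n] (cx z) = cx (fN b c hb n z) := by
  induction n with
  | zero => rfl
  | succ n ih =>
    rw [Function.iterate_succ_apply', ih, fC_cx b c hb]
    rfl

/-- the complex linear map of a real matrix -/
noncomputable def LC (M : M2) : (ℂ × ℂ) →L[ℂ] (ℂ × ℂ) :=
  ((M.1.1 : ℂ) • ContinuousLinearMap.fst ℂ ℂ ℂ + (M.1.2 : ℂ) • ContinuousLinearMap.snd ℂ ℂ ℂ).prod
    ((M.2.1 : ℂ) • ContinuousLinearMap.fst ℂ ℂ ℂ + (M.2.2 : ℂ) • ContinuousLinearMap.snd ℂ ℂ ℂ)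

/-- the real linear map of a real matrix -/
noncomputable def LR (M : M2) : ℂ →L[ℝ] ℂ :=
  (M.1.1 • Complex.reCLM + M.1.2 • Complex.imCLM).smulRight (1 : ℂ) +
    (M.2.1 • Complex.reCLM + M.2.2 • Complex.imCLM).smulRight Complex.I

lemma LC_apply (M : M2) (w : ℂ × ℂ) :
    LC M w = (M.1.1 * w.1 + M.1.2 * w.2, M.2.1 * w.1 + M.2.2 * w.2) := by
  simp [LC]

lemma LR_apply (M : M2) (z : ℂ) :
    LR M z = ⟨M.1.1 * z.re + M.1.2 * z.im, M.2.1 * z.re + M.2.2 * z.im⟩ := by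
  refine Complex.ext ?_ ?_
  · simp [LR]
  · simp [LR]

/-- the derivative matrix of the `N`-th iterate at the real point `q` -/
noncomputable def mat (b c : ℝ) (N : ℕ) (q : ℂ) : M2 := co 1 b c (q.re, q.im) N

/-- trace -/
def tr (M : M2) : ℝ := M.1.1 + M.2.2

lemma dt_mat (b c : ℝ) (N : ℕ) (q : ℂ) : dt (mat b c N q) = b ^ N := dt_co 1 b c _ N

/-- an entire injective immersion `ψ : ℂ → ℂ × ℂ`, real on the reals, which linearises `g` with
multiplier `μ` at the real point `q` -/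
structure Ent (g : ℂ × ℂ → ℂ × ℂ) (μ : ℝ) (q : ℂ) (ψ : ℂ → ℂ × ℂ) : Prop where
  diff : Differentiable ℂ ψ
  inj : Function.Injective ψ
  der : ∀ z, deriv ψ z ≠ 0
  conj : ∀ z, g (ψ z) = ψ (μ * z)
  zero : ψ 0 = cx q
  real : ∀ t : ℝ, ψ t = cx (rp (ψ t))

/-- the real curve of an entire curve -/
noncomputable def crv (ψ : ℂ → ℂ × ℂ) (t : ℝ) : ℂ := rp (ψ t)

end Pool.Agent.HE
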