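import Pool.Agent.HE.HBr
import Pool.Agent.HD.Lit

set_option autoImplicit false

/-!
HE-HLit. The literal stable set of a periodic saddle is the real stable curve.

`F = fN b c hb (2 * n)`, `pr (F^[k] z) = (G 1 b c)^[2 * n * k] (pr z)`. A point `z` whose orbit is asymptotic to the orbit of `p` has
`F^[k] z → p`; in a chart at `p` the first coordinate of `F^[k0] z` vanishes by expansion, so `F^[k0] z` is on the stable curve, and
so is `z`. Conversely the points of the curve converge exponentially because the curve and the iterates of the Henon map are `C¹`.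
-/

namespace Pool.Agent.HE

open Set Topology Filter Pool.Agent.HD

private theorem lit_cd {γ : ℝ → ℂ} (hγ : ContDiff ℝ 2 γ) (b c : ℝ) (j : ℕ) :
    ContDiff ℝ 1 (fun s => (G 1 b c)^[j] (pr (γ s))) := by
  have h1 : ContDiff ℝ 1 (G 1 b c) := by
    unfold G
    fun_prop
  have h2 : ContDiff ℝ 1 (fun s => pr (γ s)) := by
    have h3 : ContDiff ℝ 1 γ := hγ.of_le (by norm_num)
    exact (Complex.reCLM.contDiff.comp h3).prodMk (Complex.imCLM.contDiff.comp h3)
  have h4 : ContDiff ℝ 1 ((G 1 b c)^[j]) := by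
    induction j with
    | zero => exact contDiff_id
    | succ j ih =>
      rw [Function.iterate_succ']
      exact h1.comp ih
  exact h4.comp h2

private theorem lit_lip {f : ℝ → ℝ × ℝ} (hf : ContDiff ℝ 1 f) (T : ℝ) :
    ∃ M : ℝ, 0 ≤ M ∧ ∀ s, |s| ≤ T → dist (f s) (f 0) ≤ M * |s| := by
  obtain ⟨M, hM⟩ := (isCompact_Icc (a := -T) (b := T)).exists_bound_of_continuousOn
    (hf.continuous_deriv le_rfl).continuousOn
  refine ⟨max M 0, le_max_right _ _, ?_⟩
  intro s hs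
  have hT : 0 ≤ T := (abs_nonneg s).trans hs
  have h := Convex.norm_image_sub_le_of_norm_deriv_le (f := f) (C := max M 0)
    (s := Icc (-T) T) (x := 0) (y := s)
    (fun x _ => (hf.differentiable (by norm_num)).differentiableAt)
    (fun x hx => (hM x hx).trans (le_max_left _ _)) (convex_Icc _ _)
    ⟨by linarith, hT⟩ ⟨(abs_le.1 hs).1, (abs_le.1 hs).2⟩
  rw [dist_eq_norm]
  simpa using h

private theorem lit_exp {lam : ℝ} (l0 : 0 < lam) (l1 : lam < 1) {n : ℕ} (hn : 1 ≤ n) (m : ℕ) :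
    lam ^ (m / (2 * n)) ≤ lam⁻¹ * Real.exp (-(-Real.log lam / (2 * n)) * m) := by
  have hlog : Real.log lam < 0 := Real.log_neg l0 l1
  have h1 : m < 2 * n * (m / (2 * n) + 1) := Nat.lt_mul_div_succ m (by omega)
  have hn0 : (0 : ℝ) < 2 * n := by
    have : (1 : ℝ) ≤ n := by exact_mod_cast hn
    linarith
  have h2 : (m : ℝ) ≤ 2 * n * (((m / (2 * n) : ℕ) : ℝ) + 1) := by exact_mod_cast h1.le
  have h3 : lam ^ (m / (2 * n)) = Real.exp (((m / (2 * n) : ℕ) : ℝ) * Real.log lam) := by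
    rw [Real.exp_nat_mul, Real.exp_log l0]
  have h4 : lam⁻¹ = Real.exp (-Real.log lam) := by
    rw [Real.exp_neg, Real.exp_log l0]
  rw [h3, h4, ← Real.exp_add]
  apply Real.exp_le_exp.2
  have h5 : (m : ℝ) / (2 * n) ≤ ((m / (2 * n) : ℕ) : ℝ) + 1 := by
    rw [div_le_iff₀ hn0]
    linarith
  have h6 : (((m / (2 * n) : ℕ) : ℝ) + 1) * Real.log lam ≤ (m : ℝ) / (2 * n) * Real.log lam :=
    mul_le_mul_of_nonpos_right h5 hlog.le
  have h7 : -(-Real.log lam / (2 * n)) * (m : ℝ) = (m : ℝ) / (2 * n) * Real.log lam := by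
    ring
  rw [h7]
  linarith

private theorem lit_two {b c : ℝ} (hb : b ≠ 0) {n : ℕ} (hn : 1 ≤ n) {p : ℂ} {lam : ℝ}
    (l0 : 0 < lam) (l1 : lam < 1) {γ : ℝ → ℂ} (hγ : ContDiff ℝ 2 γ) (h0 : γ 0 = p)
    (hc : ∀ s, fN b c hb (2 * n) (γ s) = γ (lam * s)) (t : ℝ) :
    ExpC (G 1 b c) (pr p) (pr (γ t)) := by
  have hit : ∀ k s, (G 1 b c)^[2 * n * k] (pr (γ s)) = pr (γ (lam ^ k * s)) := by
    intro k
    induction k with
    | zero =>
      intro s
      simp
    | succ k ih =>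
      intro s
      have e : 2 * n * (k + 1) = 2 * n * k + 2 * n := by ring
      rw [e, Function.iterate_add_apply, ← pr_fN b c hb (2 * n) (γ s), hc, ih, pow_succ,
        mul_assoc]
  choose M hM0 hM using fun j => lit_lip (lit_cd hγ b c j) |t|
  have hlog : Real.log lam < 0 := Real.log_neg l0 l1
  have hn0 : (0 : ℝ) < 2 * n := by
    have : (1 : ℝ) ≤ n := by exact_mod_cast hn
    linarith
  refine ⟨-Real.log lam / (2 * n), div_pos (by linarith) hn0,
    (∑ j ∈ Finset.range (2 * n), M j) * |t| * lam⁻¹, fun m => ?_⟩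
  have hj : m % (2 * n) < 2 * n := Nat.mod_lt _ (by omega)
  have hm : m = m % (2 * n) + 2 * n * (m / (2 * n)) := (Nat.mod_add_div m (2 * n)).symm
  have e1 : (G 1 b c)^[m] (pr (γ t)) =
      (G 1 b c)^[m % (2 * n)] (pr (γ (lam ^ (m / (2 * n)) * t))) := by
    conv_lhs => rw [hm]
    rw [Function.iterate_add_apply, hit]
  have e2 : (G 1 b c)^[m] (pr p) = (G 1 b c)^[m % (2 * n)] (pr (γ 0)) := by
    conv_lhs => rw [hm]
    rw [← h0, Function.iterate_add_apply, hit, mul_zero]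
  rw [e1, e2]
  have hp0 : 0 ≤ lam ^ (m / (2 * n)) := (pow_pos l0 _).le
  have hle : |lam ^ (m / (2 * n)) * t| ≤ |t| := by
    rw [abs_mul, abs_of_nonneg hp0]
    exact mul_le_of_le_one_left (abs_nonneg _) (pow_le_one₀ l0.le l1.le)
  have h1 := hM (m % (2 * n)) _ hle
  have h2 : M (m % (2 * n)) ≤ ∑ j ∈ Finset.range (2 * n), M j :=
    Finset.single_le_sum (f := M) (fun j _ => hM0 j) (Finset.mem_range.2 hj)
  have hS : 0 ≤ ∑ j ∈ Finset.range (2 * n), M j := Finset.sum_nonneg fun j _ => hM0 j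
  have h3 := lit_exp l0 l1 hn m
  calc dist ((G 1 b c)^[m % (2 * n)] (pr (γ (lam ^ (m / (2 * n)) * t))))
        ((G 1 b c)^[m % (2 * n)] (pr (γ 0)))
      ≤ M (m % (2 * n)) * |lam ^ (m / (2 * n)) * t| := h1
    _ ≤ (∑ j ∈ Finset.range (2 * n), M j) * |lam ^ (m / (2 * n)) * t| :=
        mul_le_mul_of_nonneg_right h2 (abs_nonneg _)
    _ = (∑ j ∈ Finset.range (2 * n), M j) * |t| * lam ^ (m / (2 * n)) := by
        rw [abs_mul, abs_of_nonneg hp0]
        ring
    _ ≤ (∑ j ∈ Finset.range (2 * n), M j) * |t| *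
          (lam⁻¹ * Real.exp (-(-Real.log lam / (2 * n)) * m)) :=
        mul_le_mul_of_nonneg_left h3 (mul_nonneg hS (abs_nonneg _))
    _ = (∑ j ∈ Finset.range (2 * n), M j) * |t| * lam⁻¹ *
          Real.exp (-(-Real.log lam / (2 * n)) * m) := by ring

private theorem lit_pr_iter (b c : ℝ) (hb : b ≠ 0) (N k : ℕ) (z : ℂ) :
    pr ((fN b c hb N)^[k] z) = (G 1 b c)^[N * k] (pr z) := by
  rw [Function.iterate_mul]
  exact (Function.Semiconj.iterate_right (f := pr) (ga := fN b c hb N)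
    (gb := (G 1 b c)^[N]) (fun z => pr_fN b c hb N z) k) z

private theorem lit_dist (z w : ℂ) : dist z w ≤ 2 * dist (pr z) (pr w) := by
  rw [dist_eq_norm, Prod.dist_eq]
  refine (Complex.norm_le_abs_re_add_abs_im _).trans ?_
  have h1 : |(z - w).re| ≤ max (dist (pr z).1 (pr w).1) (dist (pr z).2 (pr w).2) := by
    refine le_trans (le_of_eq ?_) (le_max_left _ _)
    rw [Real.dist_eq, Complex.sub_re]
    rfl
  have h2 : |(z - w).im| ≤ max (dist (pr z).1 (pr w).1) (dist (pr z).2 (pr w).2) := by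
    refine le_trans (le_of_eq ?_) (le_max_right _ _)
    rw [Real.dist_eq, Complex.sub_im]
    rfl
  linarith

private theorem lit_tends {b c : ℝ} (hb : b ≠ 0) {N : ℕ} (hN : 1 ≤ N) {p z : ℂ}
    (hp : fN b c hb N p = p) (h : ExpC (G 1 b c) (pr p) (pr z)) :
    Tendsto (fun k => (fN b c hb N)^[k] z) atTop (𝓝 p) := by
  rw [tendsto_iff_dist_tendsto_zero]
  have h1 : Tendsto (fun k : ℕ => N * k) atTop atTop :=
    tendsto_atTop_mono (fun k => Nat.le_mul_of_pos_left k hN) tendsto_id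
  have h2 := (h.tendsto.comp h1).const_mul 2
  rw [mul_zero] at h2
  refine squeeze_zero (fun k => dist_nonneg) (fun k => ?_) h2
  have h3 : (G 1 b c)^[N * k] (pr p) = pr p := by
    rw [← lit_pr_iter b c hb, Function.iterate_fixed hp]
  simp only [Function.comp_apply]
  rw [h3, ← lit_pr_iter b c hb]
  exact lit_dist _ _

private theorem lit_one {b c : ℝ} (hb : b ≠ 0) {n : ℕ} (hn : 1 ≤ n) {p : ℂ}
    (hp : fN b c hb (2 * n) p = p) {lam σ : ℝ} (l0 : 0 < lam) (l1 : lam < 1) (hσ : 1 < σ)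
    (ht : tr (mat b c (2 * n) p) = σ + lam) (hd : b ^ (2 * n) = σ * lam)
    {ψ : ℂ → ℂ × ℂ} (E : Ent ((fC b c)^[2 * n]) lam p ψ) {z : ℂ}
    (h : ExpC (G 1 b c) (pr p) (pr z)) : ∃ t, crv ψ t = z := by
  have hs1 : 1 < |σ| := by rwa [abs_of_pos (by linarith)]
  have hs2 : |lam| < |σ| := by
    rw [abs_of_pos l0]
    linarith
  obtain ⟨ψu, Eu⟩ := ent_u hb hp ht hd hs1 hs2
  have sd : ∀ {μ : ℝ} {φ : ℂ → ℂ × ℂ}, Ent ((fC b c)^[2 * n]) μ p φ →
      HasStrictDerivAt (crv φ) (deriv (crv φ) 0) 0 := fun {μ φ} Eφ =>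
    (crv_cd Eφ).contDiffAt.hasStrictDerivAt (by norm_num)
  obtain ⟨Φ, h', sm, sp, lm, lp, hC, hre, -, -⟩ :=
    exists_chart (hasStrict_fN b c hb (2 * n) p) (e := 1) (Or.inl rfl) (μ := σ) (ν := lam)
      (by linarith) (by linarith) (by linarith) (crv_zero Eu) (crv_zero E) (crv_der Eu 0)
      (crv_der E 0) (sd Eu) (sd E) (crv_conj hb Eu) (crv_conj hb E)
  have hT := lit_tends hb (by omega : 1 ≤ 2 * n) hp h
  have hT2 : Tendsto (fun k => Φ ((fN b c hb (2 * n))^[k] z)) atTop (𝓝 0) := by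
    have := (Φ.continuous.tendsto p).comp hT
    rwa [hC.zero] at this
  have hb1 : ∀ᶠ k in atTop, ‖Φ ((fN b c hb (2 * n))^[k] z)‖ < h' := by
    have h1 := hT2.norm
    rw [norm_zero] at h1
    exact h1.eventually (gt_mem_nhds hC.hh)
  obtain ⟨k0, hk0⟩ := eventually_atTop.1 hb1
  have hbox : ∀ j, |(Φ ((fN b c hb (2 * n))^[k0 + j] z)).re| < h' ∧
      |(Φ ((fN b c hb (2 * n))^[k0 + j] z)).im| < h' := fun j =>
    ⟨(Complex.abs_re_le_norm _).trans_lt (hk0 _ (by omega)),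
      (Complex.abs_im_le_norm _).trans_lt (hk0 _ (by omega))⟩
  have hgrow : ∀ j, sm ^ j * |(Φ ((fN b c hb (2 * n))^[k0] z)).re| ≤
      |(Φ ((fN b c hb (2 * n))^[k0 + j] z)).re| := by
    intro j
    induction j with
    | zero => simp
    | succ j ih =>
      have h1 := hC.re_low _ (hbox j).1 (hbox j).2
      have e : (fN b c hb (2 * n))^[k0 + (j + 1)] z =
          fN b c hb (2 * n) ((fN b c hb (2 * n))^[k0 + j] z) := by
        rw [← add_assoc, Function.iterate_succ_apply']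
      rw [e]
      refine le_trans ?_ h1
      calc sm ^ (j + 1) * |(Φ ((fN b c hb (2 * n))^[k0] z)).re| =
            sm * (sm ^ j * |(Φ ((fN b c hb (2 * n))^[k0] z)).re|) := by ring
        _ ≤ sm * |(Φ ((fN b c hb (2 * n))^[k0 + j] z)).re| :=
            mul_le_mul_of_nonneg_left ih (by linarith [hC.hsm])
  have hre0 : (Φ ((fN b c hb (2 * n))^[k0] z)).re = 0 := by
    by_contra hne
    have hpos : 0 < |(Φ ((fN b c hb (2 * n))^[k0] z)).re| := abs_pos.2 hne
    obtain ⟨j, hj⟩ := pow_unbounded_of_one_lt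
      (h' / |(Φ ((fN b c hb (2 * n))^[k0] z)).re|) hC.hsm
    rw [div_lt_iff₀ hpos] at hj
    have := hgrow j
    have := (hbox j).1
    linarith
  have hb0 := hbox 0
  rw [add_zero] at hb0
  obtain ⟨t, htz⟩ := hre _ hb0.1 hb0.2 hre0
  have hit : ∀ k s, (fN b c hb (2 * n))^[k] (crv ψ s) = crv ψ (lam ^ k * s) := by
    intro k
    induction k with
    | zero =>
      intro s
      simp
    | succ k ih =>
      intro s
      rw [Function.iterate_succ_apply, crv_conj hb E, ih, pow_succ, mul_assoc]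
  refine ⟨t / lam ^ k0, ?_⟩
  apply (fN b c hb (2 * n)).injective.iterate k0
  rw [hit, ← htz]
  congr 1
  field_simp

theorem lit {b c : ℝ} (hb : b ≠ 0) {n : ℕ} (hn : 1 ≤ n) {p : ℂ} (hp : fN b c hb (2 * n) p = p)
    {lam σ : ℝ} (l0 : 0 < lam) (l1 : lam < 1) (hσ : 1 < σ)
    (ht : tr (mat b c (2 * n) p) = σ + lam) (hd : b ^ (2 * n) = σ * lam)
    {ψ : ℂ → ℂ × ℂ} (E : Ent ((fC b c)^[2 * n]) lam p ψ) :
    range (fun t => pr (crv ψ t)) = {q | ExpC (G 1 b c) (pr p) q} := by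
  ext q
  constructor
  · rintro ⟨t, rfl⟩
    exact lit_two hb hn l0 l1 (crv_cd E) (crv_zero E) (crv_conj hb E) t
  · intro hq
    obtain ⟨z, rfl⟩ : ∃ z : ℂ, pr z = q := ⟨⟨q.1, q.2⟩, rfl⟩
    obtain ⟨t, htz⟩ := lit_one hb hn hp l0 l1 hσ ht hd E hq
    exact ⟨t, by rw [← htz]⟩

end Pool.Agent.HE
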