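import Pool.Agent.HE.HLit
import Pool.Agent.HD.Fd

set_option autoImplicit false

/-!
HE-HMain. Main theorem for periodic saddles.

The derivative of the second iterate of the period map has the eigenvalues `m ^ 2 > 1` and `(b ^ n / m) ^ 2 < 1`. The stable curve is the
real curve of the entire curve of `ent_s`; both branches are unbounded by `branch` (for the second one the parameter is reversed),
and the curve is the literal stable set by `lit` and `ws_iff`.
-/

namespace Pool.Agent.HE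

open Set Topology Filter Pool.Agent.HD

private lemma hm_pr_inj : Function.Injective pr := by
  intro z w h
  have h1 : z.re = w.re := congrArg Prod.fst h
  have h2 : z.im = w.im := congrArg Prod.snd h
  exact Complex.ext h1 h2

private lemma hm_pr_cont : Continuous pr := by
  unfold pr
  exact Complex.continuous_re.prodMk Complex.continuous_im

private lemma hm_bdd {S : Set ℂ} (h : Bornology.IsBounded (pr '' S)) : Bornology.IsBounded S := by
  have e : S = (Complex.equivRealProdCLM.symm : ℝ × ℝ → ℂ) '' (pr '' S) := by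
    rw [image_image]
    have : ∀ z : ℂ, (Complex.equivRealProdCLM.symm : ℝ × ℝ → ℂ) (pr z) = z := by
      intro z
      exact Complex.equivRealProdCLM.symm_apply_apply z
    simp only [this, image_id']
  rw [e]
  exact Complex.equivRealProdCLM.symm.lipschitz.isBounded_image h

private lemma hm_unb {b c : ℝ} (hb : b ≠ 0) (hb1 : |b| < 1) {n : ℕ} (hn : 1 ≤ n) {z : ℂ}
    {lam σ : ℝ} (l0 : 0 < lam) (l1 : lam < 1) (hσ : 1 < σ)
    (ht : tr (mat b c (2 * n) z) = σ + lam) (hd : b ^ (2 * n) = σ * lam)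
    (hsn : ∀ r, fN b c hb (2 * n) r = r → |tr (mat b c (2 * n) r)| ≠ 1 + b ^ (2 * n))
    {ψ : ℂ → ℂ × ℂ} (E : Ent ((fC b c)^[2 * n]) lam z ψ) :
    ¬ Bornology.IsBounded ((fun t => pr (crv ψ t)) '' Ioi 0) := by
  intro h
  refine branch hb hb1 hn l0 l1 hσ ht hd hsn E (hm_bdd ?_)
  rw [image_image]
  exact h

theorem saddle {b c : ℝ} (hb : b ≠ 0) (hb1 : |b| < 1) {n : ℕ} (hn : 1 ≤ n) {p : ℝ × ℝ}
    (hp : (G 1 b c)^[n] p = p) {m : ℝ} (hm : 1 < |m|) {v : ℝ × ℝ} (hv : v ≠ 0)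
    (hmv : fderiv ℝ ((G 1 b c)^[n]) p v = m • v)
    (hsn : ∀ r, (G 1 b c)^[2 * n] r = r → ∀ v, v ≠ 0 →
      fderiv ℝ ((G 1 b c)^[2 * n]) r v ≠ v ∧ fderiv ℝ ((G 1 b c)^[2 * n]) r v ≠ -v) :
    ∃ γ : ℝ → ℝ × ℝ, Continuous γ ∧ Function.Injective γ ∧ γ 0 = p ∧
      range γ = Ws (G 1 b c) p ∧ ¬ Bornology.IsBounded (γ '' Ioi 0) ∧
      ¬ Bornology.IsBounded (γ '' Iio 0) := by
  obtain ⟨z, hz⟩ : ∃ z : ℂ, pr z = p := ⟨⟨p.1, p.2⟩, rfl⟩
  have hfix : ∀ (N : ℕ) (r : ℂ), (G 1 b c)^[N] (pr r) = pr r → fN b c hb N r = r := by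
    intro N r hr
    apply hm_pr_inj
    rw [pr_fN, hr]
  have hzn : fN b c hb n z = z := by
    apply hfix
    rw [hz, hp]
  have hz2 : fN b c hb (2 * n) z = z := by
    apply hfix
    rw [hz, two_mul, Function.iterate_add_apply, hp, hp]
  -- the matrix
  have hM : act (mat b c n z) v = m • v := by
    rw [← fderiv_G, hz, hmv]
  have hch := char_eq hv hM
  rw [dt_mat] at hch
  have hm0 : m ≠ 0 := by
    intro h
    rw [h, abs_zero] at hm
    linarith
  have hbn : |b ^ n| < 1 := by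
    rw [abs_pow]
    exact pow_lt_one₀ (abs_nonneg b) hb1 (by omega)
  have hbn0 : b ^ n ≠ 0 := pow_ne_zero n hb
  obtain ⟨m', hm'⟩ : ∃ m' : ℝ, m' = b ^ n / m := ⟨_, rfl⟩
  have hmm' : m * m' = b ^ n := by
    rw [hm']
    field_simp
  have hm'0 : m' ≠ 0 := by
    intro h
    rw [h, mul_zero] at hmm'
    exact hbn0 hmm'.symm
  have hm'1 : |m'| < 1 := by
    have h1 : |m| * |m'| < 1 := by
      rw [← abs_mul, hmm']
      exact hbn
    by_contra h
    rw [not_lt] at h
    have h2 : 1 * 1 ≤ |m| * |m'| := mul_le_mul hm.le h zero_le_one (abs_nonneg m)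
    linarith
  have htr : tr (mat b c n z) = m + m' := by
    have h1 : m * (m + m' - tr (mat b c n z)) = 0 := by
      have h2 : m * (m + m' - tr (mat b c n z)) =
          m ^ 2 - tr (mat b c n z) * m + m * m' := by ring
      rw [h2, hmm', hch]
    rcases mul_eq_zero.1 h1 with h2 | h2
    · exact absurd h2 hm0
    · linarith
  have htr2 : tr (mat b c (2 * n) z) = m ^ 2 + m' ^ 2 := by
    rw [two_mul, mat_add b c hb n n z, hzn, tr_sq, dt_mat, htr, ← hmm']
    ring
  have hdet2 : b ^ (2 * n) = m ^ 2 * m' ^ 2 := by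
    rw [mul_comm 2 n, pow_mul, ← hmm']
    ring
  have hσ : 1 < m ^ 2 := by
    rw [← sq_abs]
    exact one_lt_pow₀ hm (by norm_num)
  have l0 : 0 < m' ^ 2 := by positivity
  have l1 : m' ^ 2 < 1 := by
    rw [← sq_abs]
    exact pow_lt_one₀ (abs_nonneg m') hm'1 (by norm_num)
  have hsn' : ∀ r, fN b c hb (2 * n) r = r → |tr (mat b c (2 * n) r)| ≠ 1 + b ^ (2 * n) := by
    intro r hr habs
    rw [← dt_mat b c (2 * n) r] at habs
    obtain ⟨w, hw0, hw⟩ := eig_one habs
    have hr' : (G 1 b c)^[2 * n] (pr r) = pr r := by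
      rw [← pr_fN b c hb, hr]
    have h1 := hsn (pr r) hr' w hw0
    rw [fderiv_G] at h1
    rcases hw with hw | hw
    · exact h1.1 hw
    · exact h1.2 hw
  obtain ⟨ψ, E⟩ := ent_s hb hz2 htr2 hdet2 (by rw [abs_of_pos l0]; exact l1)
    (by rw [abs_of_pos l0, abs_of_pos (by linarith : (0 : ℝ) < m ^ 2)]; linarith)
  refine ⟨fun t => pr (crv ψ t), ?_, ?_, ?_, ?_, ?_, ?_⟩
  · exact hm_pr_cont.comp (crv_cd E).continuous
  · exact hm_pr_inj.comp (crv_inj E)
  · show pr (crv ψ 0) = p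
    rw [crv_zero E, hz]
  · rw [lit hb hn hz2 l0 l1 hσ htr2 hdet2 E, hz]
    ext q
    exact (ws_iff (G 1 b c) p q).symm
  · exact hm_unb hb hb1 hn l0 l1 hσ htr2 hdet2 hsn' E
  · intro h
    refine hm_unb hb hb1 hn l0 l1 hσ htr2 hdet2 hsn' (ent_neg E) (h.subset ?_)
    rintro _ ⟨t, ht, rfl⟩
    refine ⟨-t, ?_, ?_⟩
    · have h0 : (0 : ℝ) < t := ht
      show -t < 0
      linarith
    · show pr (crv ψ (-t)) = pr (crv (fun z => ψ (-z)) t)
      unfold crv
      simp only [Complex.ofReal_neg]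

end Pool.Agent.HE
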