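import Pool.Agent.HE.LogA

set_option autoImplicit false

/-!
HE-Jump. A compact set which crosses a segment at one point and is connected without this point separates the two ends of
the segment.

Proof: a continuous logarithm of `(z - b) / (z - a)` on `Y` differs from the principal branch by a
constant on `Y \ {q}`, but the principal branch jumps by `2 π i` at `q`.
-/

namespace Pool.Agent.HE

open Set Topology Filter

theorem jump {Y : Set ℂ} (hY : IsCompact Y) {q v : ℂ} (hv : v ≠ 0) (hq : q ∈ Y) {ε : ℝ} (hε : 0 < ε)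
    (h1 : ∀ t : ℝ, |t| ≤ ε → t ≠ 0 → q + t * v ∉ Y) (h2 : IsPreconnected (Y \ {q}))
    (h3 : ∃ᶠ z in 𝓝[Y \ {q}] q, 0 < ((z - q) / v).im)
    (h4 : ∃ᶠ z in 𝓝[Y \ {q}] q, ((z - q) / v).im < 0) :
    q + ε * v ∉ Cmp Y (q - ε * v) := by
  intro hcon
  have hεc : (ε : ℂ) ≠ 0 := by exact_mod_cast hε.ne'
  have hεv : (ε : ℂ) * v ≠ 0 := mul_ne_zero hεc hv
  have hb : q - ε * v ∉ Y := by
    have h5 := h1 (-ε) (by rw [abs_neg, abs_of_pos hε]) (by simpa using hε.ne')
    have e : q + ((-ε : ℝ) : ℂ) * v = q - ε * v := by push_cast; ring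
    rwa [e] at h5
  have ha : q + ε * v ∉ Y := h1 ε (by rw [abs_of_pos hε]) hε.ne'
  obtain ⟨L, hL, hLe⟩ := exists_log_ratio hY hb hcon
  set w : ℂ → ℂ := fun z => (z - (q - ε * v)) / (z - (q + ε * v)) with hw
  set u : ℂ → ℂ := fun z => (z - q) / v with hu
  have hwu : ∀ z, w z = (u z + ε) / (u z - ε) := by
    intro z
    have e0 : u z * v = z - q := div_mul_cancel₀ _ hv
    have e1 : z - (q - ε * v) = (u z + ε) * v := by linear_combination -e0
    have e2 : z - (q + ε * v) = (u z - ε) * v := by linear_combination -e0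
    show (z - (q - ε * v)) / (z - (q + ε * v)) = _
    rw [e1, e2, mul_div_mul_right _ _ hv]
  have hza : ∀ z ∈ Y, z - (q + ε * v) ≠ 0 := by
    intro z hz h5
    exact ha (by rw [← sub_eq_zero.1 h5]; exact hz)
  have hslit : ∀ z ∈ Y \ {q}, w z ∈ Complex.slitPlane := by
    rintro z ⟨hzY, hzq⟩
    by_contra hns
    rw [Complex.mem_slitPlane_iff] at hns
    push Not at hns
    obtain ⟨h5, h6⟩ := hns
    have hw1 : w z = ((w z).re : ℂ) := by
      apply Complex.ext
      · simp
      · simp [h6]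
    obtain ⟨t, ht⟩ : ∃ t : ℝ, t = -(w z).re := ⟨_, rfl⟩
    have ht0 : 0 ≤ t := by rw [ht]; linarith
    have h7 : z - (q - ε * v) = -(t : ℂ) * (z - (q + ε * v)) := by
      have h8 : w z * (z - (q + ε * v)) = z - (q - ε * v) := div_mul_cancel₀ _ (hza z hzY)
      rw [← h8, hw1, ht]
      push_cast
      simp
    have h1t : (0 : ℝ) < 1 + t := by positivity
    have h9 : (1 + (t : ℂ)) ≠ 0 := by exact_mod_cast h1t.ne'
    have h8 : z = q + ((ε * (t - 1) / (1 + t) : ℝ) : ℂ) * v := by
      have h10 : (1 + (t : ℂ)) * (z - q) = ε * (t - 1) * v := by linear_combination h7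
      have h11 : z - q = ε * (t - 1) * v / (1 + (t : ℂ)) := by
        rw [eq_div_iff h9, ← h10]
        ring
      have h12 : z = q + (z - q) := by ring
      rw [h12, h11]
      push_cast
      ring
    by_cases hs : ε * (t - 1) / (1 + t) = 0
    · apply hzq
      rw [h8, hs]
      simp
    · refine h1 _ ?_ hs (h8 ▸ hzY)
      rw [abs_le]
      constructor
      · rw [le_div_iff₀ h1t]
        nlinarith
      · rw [div_le_iff₀ h1t]
        nlinarith
  have hw0 : ∀ z ∈ Y \ {q}, w z ≠ 0 := fun z hz => Complex.slitPlane_ne_zero (hslit z hz)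
  have hwc : ContinuousOn w (Y \ {q}) := by
    apply ContinuousOn.div
    · fun_prop
    · fun_prop
    · intro z hz
      exact hza z hz.1
  have hMc : ContinuousOn (fun z => L z - Complex.log (w z)) (Y \ {q}) :=
    (hL.mono sdiff_subset).sub (hwc.clog hslit)
  have hMe : ∀ z ∈ Y \ {q}, ∃ n : ℤ, L z - Complex.log (w z) = n * (2 * Real.pi * Complex.I) := by
    intro z hz
    rw [← Complex.exp_eq_one_iff, Complex.exp_sub, hLe z hz.1, Complex.exp_log (hw0 z hz)]
    exact div_self (hw0 z hz)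
  have him : ∀ n : ℤ, ((n : ℂ) * (2 * Real.pi * Complex.I)).im = n * (2 * Real.pi) := by
    intro n
    simp
  have hpi := Real.pi_pos
  have hfc : ContinuousOn (fun z => (L z - Complex.log (w z)).im) (Y \ {q}) :=
    Complex.continuous_im.comp_continuousOn hMc
  have hconst : ∀ x ∈ Y \ {q}, ∀ y ∈ Y \ {q},
      (L x - Complex.log (w x)).im ≤ (L y - Complex.log (w y)).im →
      L x - Complex.log (w x) = L y - Complex.log (w y) := by
    intro x hx y hy hxy
    obtain ⟨n, hn⟩ := hMe x hx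
    obtain ⟨m, hm⟩ := hMe y hy
    by_cases hnm : n = m
    · rw [hn, hm, hnm]
    · exfalso
      have hnm' : n < m := by
        rw [hn, hm, him, him] at hxy
        have h5 : (n : ℝ) ≤ m := le_of_mul_le_mul_right hxy (by positivity)
        exact lt_of_le_of_ne (by exact_mod_cast h5) hnm
      have h5 : (n : ℝ) + 1 ≤ m := by exact_mod_cast hnm'
      have h6 : (n : ℝ) * (2 * Real.pi) + Real.pi ∈
          Icc ((L x - Complex.log (w x)).im) ((L y - Complex.log (w y)).im) := by
        rw [hn, hm, him, him]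
        constructor
        · linarith
        · nlinarith
      obtain ⟨z, hz, hzc⟩ := h2.intermediate_value hx hy hfc h6
      obtain ⟨k, hk⟩ := hMe z hz
      have h7 : (k : ℝ) * (2 * Real.pi) = n * (2 * Real.pi) + Real.pi := by
        rw [← him k, ← hk]
        exact hzc
      have h8 : (2 * k : ℝ) = 2 * n + 1 := by
        have h9 : Real.pi * (2 * k : ℝ) = Real.pi * (2 * n + 1) := by linarith
        exact mul_left_cancel₀ hpi.ne' h9
      have h9 : (2 * k : ℤ) = 2 * n + 1 := by exact_mod_cast h8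
      omega
  obtain ⟨z0, -, hz0⟩ := (h3.and_eventually self_mem_nhdsWithin).exists
  obtain ⟨C, hC⟩ : ∃ C, C = L z0 - Complex.log (w z0) := ⟨_, rfl⟩
  have hall : ∀ z ∈ Y \ {q}, L z = C + Complex.log (w z) := by
    intro z hz
    have h5 : L z - Complex.log (w z) = C := by
      rw [hC]
      rcases le_total (L z - Complex.log (w z)).im (L z0 - Complex.log (w z0)).im with h | h
      · exact hconst z hz z0 hz0 h
      · exact (hconst z0 hz0 z hz h).symm
    rw [← h5]
    ring
  have hwq : w q = -1 := by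
    show (q - (q - ε * v)) / (q - (q + ε * v)) = -1
    have e1 : q - (q - ε * v) = ε * v := by ring
    have e2 : q - (q + ε * v) = -(ε * v) := by ring
    rw [e1, e2, div_neg, div_self hεv]
  have hwcq : ContinuousAt w q := by
    apply ContinuousAt.div
    · fun_prop
    · fun_prop
    · exact hza q hq
  have hwt : Tendsto w (𝓝[Y \ {q}] q) (𝓝 (-1)) := by
    have h5 : Tendsto w (𝓝 q) (𝓝 (w q)) := hwcq
    rw [hwq] at h5
    exact h5.mono_left nhdsWithin_le_nhds
  have hlim : ∀ (P : ℂ → Prop) (c : ℂ), (∃ᶠ z in 𝓝[Y \ {q}] q, P z) →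
      Tendsto (fun z => Complex.log (w z)) (𝓝[Y \ {q}] q ⊓ 𝓟 {z | P z}) (𝓝 c) → L q = C + c := by
    intro P c hP hc
    have : NeBot (𝓝[Y \ {q}] q ⊓ 𝓟 {z | P z}) := frequently_iff_neBot.1 hP
    have h5 : Tendsto L (𝓝[Y \ {q}] q ⊓ 𝓟 {z | P z}) (𝓝 (L q)) :=
      (hL q hq).mono_left (inf_le_left.trans (nhdsWithin_mono _ sdiff_subset))
    have h6 : Tendsto (fun z => C + Complex.log (w z)) (𝓝[Y \ {q}] q ⊓ 𝓟 {z | P z})
        (𝓝 (C + c)) := hc.const_add C
    have h7 : L =ᶠ[𝓝[Y \ {q}] q ⊓ 𝓟 {z | P z}] fun z => C + Complex.log (w z) := by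
      have h8 : Y \ {q} ∈ 𝓝[Y \ {q}] q ⊓ 𝓟 {z | P z} :=
        inf_le_left (a := 𝓝[Y \ {q}] q) self_mem_nhdsWithin
      filter_upwards [h8] with z hz
      exact hall z hz
    exact tendsto_nhds_unique h5 (h6.congr' h7.symm)
  have hwim : ∀ z, (w z).im = -2 * ε * (u z).im / Complex.normSq (u z - ε) := by
    intro z
    rw [hwu, Complex.div_im]
    simp only [Complex.add_im, Complex.sub_re, Complex.add_re, Complex.sub_im, Complex.ofReal_re,
      Complex.ofReal_im, add_zero, sub_zero]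
    ring
  have hns : ∀ z, (u z).im ≠ 0 → 0 < Complex.normSq (u z - ε) := by
    intro z hz
    rw [Complex.normSq_pos]
    intro h5
    apply hz
    have h6 := congrArg Complex.im h5
    simpa using h6
  have hp : L q = C + ((Real.log ‖(-1 : ℂ)‖ : ℝ) - Real.pi * Complex.I) := by
    apply hlim (fun z => 0 < (u z).im) _ h3
    have h5 : Tendsto w (𝓝[Y \ {q}] q ⊓ 𝓟 {z | 0 < (u z).im}) (𝓝[{z : ℂ | z.im < 0}] (-1)) := by
      rw [tendsto_nhdsWithin_iff]
      refine ⟨hwt.mono_left inf_le_left, ?_⟩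
      have h8 : {z | 0 < (u z).im} ∈ 𝓝[Y \ {q}] q ⊓ 𝓟 {z | 0 < (u z).im} :=
        inf_le_right (a := 𝓝[Y \ {q}] q) (mem_principal_self _)
      filter_upwards [h8] with z hz
      have hz' : 0 < (u z).im := hz
      show (w z).im < 0
      rw [hwim]
      apply div_neg_of_neg_of_pos _ (hns z hz'.ne')
      nlinarith
    exact (Complex.tendsto_log_nhdsWithin_im_neg_of_re_neg_of_im_zero (by simp) (by simp)).comp h5
  have hn : L q = C + ((Real.log ‖(-1 : ℂ)‖ : ℝ) + Real.pi * Complex.I) := by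
    apply hlim (fun z => (u z).im < 0) _ h4
    have h5 : Tendsto w (𝓝[Y \ {q}] q ⊓ 𝓟 {z | (u z).im < 0}) (𝓝[{z : ℂ | 0 ≤ z.im}] (-1)) := by
      rw [tendsto_nhdsWithin_iff]
      refine ⟨hwt.mono_left inf_le_left, ?_⟩
      have h8 : {z | (u z).im < 0} ∈ 𝓝[Y \ {q}] q ⊓ 𝓟 {z | (u z).im < 0} :=
        inf_le_right (a := 𝓝[Y \ {q}] q) (mem_principal_self _)
      filter_upwards [h8] with z hz
      have hz' : (u z).im < 0 := hz
      show 0 ≤ (w z).im
      rw [hwim]
      apply div_nonneg _ (hns z hz'.ne).le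
      nlinarith
    exact (Complex.tendsto_log_nhdsWithin_im_nonneg_of_re_neg_of_im_zero (by simp) (by simp)).comp h5
  rw [hp] at hn
  have h5 : (Real.pi : ℂ) * Complex.I = 0 := by linear_combination (-1 / 2 : ℂ) * hn
  rcases mul_eq_zero.1 h5 with h6 | h6
  · exact hpi.ne' (by exact_mod_cast h6)
  · exact Complex.I_ne_zero h6

end Pool.Agent.HE
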