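import Pool.Agent.HE.Bas

set_option autoImplicit false

/-!
HE-LogA. Continuous logarithms and components of the complement of a compact set `Y ⊆ ℂ`: the set of points `a'` for
which `(z - a') / g z` has a continuous logarithm on `Y` is open and closed in the complement of `Y`.
-/

namespace Pool.Agent.HE

open Set Topology Filter

private def QL (Y : Set ℂ) (g : ℂ → ℂ) (a : ℂ) : Prop :=
  ∃ L : ℂ → ℂ, ContinuousOn L Y ∧ ∀ z ∈ Y, Complex.exp (L z) = (z - a) / g z

private lemma slit_of_norm {w : ℂ} (h : ‖w‖ < 1) : 1 - w ∈ Complex.slitPlane := by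
  apply Complex.ball_one_subset_slitPlane
  rw [Metric.mem_ball, dist_eq_norm]
  have : (1 : ℂ) - w - 1 = -w := by ring
  rw [this, norm_neg]
  exact h

private lemma QL.step {Y : Set ℂ} {g : ℂ → ℂ} {a b : ℂ} (h : QL Y g a)
    (hab : ∀ z ∈ Y, ‖b - a‖ < ‖z - a‖) : QL Y g b := by
  obtain ⟨L, hL, hE⟩ := h
  have hne : ∀ z ∈ Y, z - a ≠ 0 := fun z hz h0 => by
    have := hab z hz
    rw [h0, norm_zero] at this
    exact absurd this (not_lt.2 (norm_nonneg _))
  have hs : ∀ z ∈ Y, 1 - (b - a) / (z - a) ∈ Complex.slitPlane := fun z hz => by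
    apply slit_of_norm
    rw [norm_div, div_lt_one (norm_pos_iff.2 (hne z hz))]
    exact hab z hz
  refine ⟨fun z => L z + Complex.log (1 - (b - a) / (z - a)), ?_, ?_⟩
  · refine hL.add (ContinuousOn.clog ?_ hs)
    refine continuousOn_const.sub (ContinuousOn.div continuousOn_const ?_ hne)
    exact (continuous_id.sub continuous_const).continuousOn
  · intro z hz
    rw [Complex.exp_add, hE z hz, Complex.exp_log (Complex.slitPlane_ne_zero (hs z hz))]
    have := hne z hz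
    field_simp
    ring

private lemma QL.all {Y : Set ℂ} (hY : IsCompact Y) {g : ℂ → ℂ} {a b c : ℂ} (hb : b ∈ Cmp Y a)
    (hc : c ∈ Cmp Y a) (h : QL Y g b) : QL Y g c := by
  by_contra hn
  have key : ∀ x : ℂ, x ∉ Y → ∃ ε > 0, ∀ y ∈ Metric.ball x ε, y ∉ Y ∧ (QL Y g x ↔ QL Y g y) := by
    intro x hx
    have ho : Yᶜ ∈ 𝓝 x := hY.isClosed.isOpen_compl.mem_nhds hx
    obtain ⟨d, hd, hds⟩ := Metric.mem_nhds_iff.1 ho
    have hdz : ∀ z ∈ Y, d ≤ ‖z - x‖ := fun z hz => by
      by_contra hlt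
      push Not at hlt
      exact hds (by rw [Metric.mem_ball, dist_eq_norm]; exact hlt) hz
    refine ⟨d / 2, by linarith, fun y hy => ?_⟩
    rw [Metric.mem_ball, dist_eq_norm] at hy
    refine ⟨?_, ?_, ?_⟩
    · exact hds (by rw [Metric.mem_ball, dist_eq_norm]; linarith)
    · intro hq
      exact hq.step fun z hz => by linarith [hdz z hz]
    · intro hq
      refine hq.step fun z hz => ?_
      have h1 := hdz z hz
      have h2 : ‖z - x‖ ≤ ‖z - y‖ + ‖y - x‖ := by
        have : z - x = (z - y) + (y - x) := by ring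
        rw [this]
        exact norm_add_le _ _
      have h3 : ‖x - y‖ = ‖y - x‖ := norm_sub_rev _ _
      linarith
  have hU : IsOpen {x : ℂ | x ∉ Y ∧ QL Y g x} := by
    rw [Metric.isOpen_iff]
    rintro x ⟨hx, hq⟩
    obtain ⟨ε, he, h1⟩ := key x hx
    exact ⟨ε, he, fun y hy => ⟨(h1 y hy).1, (h1 y hy).2.1 hq⟩⟩
  have hV : IsOpen {x : ℂ | x ∉ Y ∧ ¬ QL Y g x} := by
    rw [Metric.isOpen_iff]
    rintro x ⟨hx, hq⟩
    obtain ⟨ε, he, h1⟩ := key x hx
    exact ⟨ε, he, fun y hy => ⟨(h1 y hy).1, fun h2 => hq ((h1 y hy).2.2 h2)⟩⟩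
  obtain ⟨x, -, ⟨-, h1⟩, ⟨-, h2⟩⟩ := cmp_pre Y a _ _ hU hV (fun x hx => by
      by_cases hq : QL Y g x
      · exact Or.inl ⟨cmp_sub Y a hx, hq⟩
      · exact Or.inr ⟨cmp_sub Y a hx, hq⟩)
    ⟨b, hb, cmp_sub Y a hb, h⟩ ⟨c, hc, cmp_sub Y a hc, hn⟩
  exact h2 h1

/-- a point in an unbounded component of the complement of `Y`: `z - a` has a continuous logarithm -/
theorem exists_log {Y : Set ℂ} (hY : IsCompact Y) {a : ℂ} (ha : a ∉ Y)
    (h : ¬ Bornology.IsBounded (Cmp Y a)) :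
    ∃ L : ℂ → ℂ, ContinuousOn L Y ∧ ∀ z ∈ Y, Complex.exp (L z) = z - a := by
  obtain ⟨R, hR⟩ := hY.isBounded.exists_norm_le
  have h1 : ∃ b ∈ Cmp Y a, max R 0 < ‖b‖ := by
    by_contra hn
    push Not at hn
    exact h (isBounded_iff_forall_norm_le.2 ⟨max R 0, hn⟩)
  obtain ⟨b, hb, hbR⟩ := h1
  have hb0 : b ≠ 0 := by
    rintro rfl
    rw [norm_zero] at hbR
    exact absurd hbR (not_lt.2 (le_max_right _ _))
  have hq : QL Y (fun _ => 1) b := by
    have hs : ∀ z ∈ Y, 1 - z / b ∈ Complex.slitPlane := fun z hz => by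
      apply slit_of_norm
      rw [norm_div, div_lt_one (norm_pos_iff.2 hb0)]
      exact lt_of_le_of_lt ((hR z hz).trans (le_max_left _ _)) hbR
    refine ⟨fun z => Complex.log (-b) + Complex.log (1 - z / b), ?_, ?_⟩
    · refine continuousOn_const.add (ContinuousOn.clog ?_ hs)
      exact (continuous_const.sub (continuous_id.div_const b)).continuousOn
    · intro z hz
      rw [Complex.exp_add, Complex.exp_log (neg_ne_zero.2 hb0),
        Complex.exp_log (Complex.slitPlane_ne_zero (hs z hz))]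
      field_simp
      ring
  obtain ⟨L, hL, hE⟩ := hq.all hY hb (mem_cmp ha)
  exact ⟨L, hL, fun z hz => by rw [hE z hz, div_one]⟩

/-- two points in one component: `(z - a) / (z - b)` has a continuous logarithm -/
theorem exists_log_ratio {Y : Set ℂ} (hY : IsCompact Y) {a b : ℂ} (ha : a ∉ Y) (hb : b ∈ Cmp Y a) :
    ∃ L : ℂ → ℂ, ContinuousOn L Y ∧ ∀ z ∈ Y, Complex.exp (L z) = (z - a) / (z - b) := by
  have hbY : b ∉ Y := cmp_sub Y a hb
  have hq : QL Y (fun z => z - b) b := by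
    refine ⟨fun _ => 0, continuousOn_const, fun z hz => ?_⟩
    have : z - b ≠ 0 := sub_ne_zero.2 fun h => hbY (h ▸ hz)
    rw [Complex.exp_zero, div_self this]
  exact hq.all hY hb (mem_cmp ha)

end Pool.Agent.HE
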