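import Pool.Agent.HE.FlatB
import Pool.Agent.HE.Cross

set_option autoImplicit false

/-!
HE-UAx. The branch does not meet the unstable axis of its own saddle: otherwise the arc up to the
first such point with a segment of the axis separates the plane (`cross`), but its backward iterates
are bounded (`nonsep_of_NO`); the segment is mapped into itself by the inverse map (`back_box`).
-/

namespace Pool.Agent.HE

open Set Topology Filter

variable {F : ℂ ≃ₜ ℂ} {γ : ℝ → ℂ} {lam h sm sp lm lp : ℝ}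

private lemma box_convex (a b : ℝ) : Convex ℝ {z : ℂ | |z.re| < a ∧ |z.im| < b} := by
  intro z hz w hw s t hs ht hst
  have h1 : ∀ (c p q : ℝ), |p| < c → |q| < c → |s * p + t * q| < c := by
    intro c p q hp hq
    rw [abs_lt] at hp hq ⊢
    constructor
    · rcases eq_or_lt_of_le hs with h | h
      · rw [← h] at hst ⊢
        have : t = 1 := by linarith
        rw [this]
        linarith
      · nlinarith [mul_lt_mul_of_pos_left hp.1 h, mul_le_mul_of_nonneg_left hq.1.le ht]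
    · rcases eq_or_lt_of_le hs with h | h
      · rw [← h] at hst ⊢
        have : t = 1 := by linarith
        rw [this]
        linarith
      · nlinarith [mul_lt_mul_of_pos_left hp.2 h, mul_le_mul_of_nonneg_left hq.2.le ht]
  constructor
  · have h2 : (s • z + t • w).re = s * z.re + t * w.re := by simp
    rw [h2]
    exact h1 a _ _ hz.1 hw.1
  · have h2 : (s • z + t • w).im = s * z.im + t * w.im := by simp
    rw [h2]
    exact h1 b _ _ hz.2 hw.2

namespace Flat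

theorem back_box (H : Flat F γ lam h sm sp lm lp) {h1 : ℝ} (h0 : 0 < h1) (hh : h1 < h) {w : ℂ}
    (hw1 : |w.re| < h1) (hw2 : |w.im| < lm * h1) : |(F.symm w).re| < h1 ∧ |(F.symm w).im| < h1 := by
  have hBo : IsOpen {z : ℂ | |z.re| < h1 ∧ |z.im| < h1} :=
    (isOpen_lt (continuous_abs.comp Complex.continuous_re) continuous_const).inter
      (isOpen_lt (continuous_abs.comp Complex.continuous_im) continuous_const)
  have hKc : IsClosed {z : ℂ | |z.re| ≤ h1 ∧ |z.im| ≤ h1} :=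
    (isClosed_le (continuous_abs.comp Complex.continuous_re) continuous_const).inter
      (isClosed_le (continuous_abs.comp Complex.continuous_im) continuous_const)
  have hW : IsPreconnected {z : ℂ | |z.re| < h1 ∧ |z.im| < lm * h1} :=
    (box_convex h1 (lm * h1)).isPreconnected
  have hU1 : IsOpen (F '' {z : ℂ | |z.re| < h1 ∧ |z.im| < h1}) := F.isOpenMap _ hBo
  have hU2 : IsOpen (F '' {z : ℂ | |z.re| ≤ h1 ∧ |z.im| ≤ h1})ᶜ :=
    (F.isClosedMap _ hKc).isOpen_compl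
  have hdisj : Disjoint (F '' {z : ℂ | |z.re| < h1 ∧ |z.im| < h1})
      (F '' {z : ℂ | |z.re| ≤ h1 ∧ |z.im| ≤ h1})ᶜ := by
    rw [Set.disjoint_left]
    rintro _ ⟨z, hz, rfl⟩ hn
    exact hn ⟨z, ⟨hz.1.le, hz.2.le⟩, rfl⟩
  have hsub : {z : ℂ | |z.re| < h1 ∧ |z.im| < lm * h1} ⊆
      F '' {z : ℂ | |z.re| < h1 ∧ |z.im| < h1} ∪ (F '' {z : ℂ | |z.re| ≤ h1 ∧ |z.im| ≤ h1})ᶜ := by
    intro v hv
    by_cases hK : v ∈ F '' {z : ℂ | |z.re| ≤ h1 ∧ |z.im| ≤ h1}
    · obtain ⟨z, hz, rfl⟩ := hK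
      left
      have hzr : |z.re| < h := hz.1.trans_lt hh
      have hzi : |z.im| < h := hz.2.trans_lt hh
      have h2 := H.re_low z hzr hzi
      have h3 := H.im_low z hzr hzi
      refine ⟨z, ⟨lt_of_le_of_ne hz.1 fun he => ?_, lt_of_le_of_ne hz.2 fun he => ?_⟩, rfl⟩
      · rw [he] at h2
        have h4 := hv.1
        nlinarith [H.hsm]
      · rw [he] at h3
        exact absurd (h3.trans_lt hv.2) (lt_irrefl _)
    · exact Or.inr hK
  have h0W : (0 : ℂ) ∈ {z : ℂ | |z.re| < h1 ∧ |z.im| < lm * h1} := by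
    constructor
    · simpa using h0
    · simpa using mul_pos H.hlm h0
  have h0U : (0 : ℂ) ∈ F '' {z : ℂ | |z.re| < h1 ∧ |z.im| < h1} :=
    ⟨0, ⟨by simpa using h0, by simpa using h0⟩, H.F0⟩
  have hfin := hW.subset_left_of_subset_union hU1 hU2 hdisj hsub ⟨0, h0W, h0U⟩
  obtain ⟨z, hz, hzw⟩ := hfin (show w ∈ _ from ⟨hw1, hw2⟩)
  rw [← hzw, F.symm_apply_apply]
  exact hz

/-- the inverse map on the unstable axis -/
private lemma back_axis (H : Flat F γ lam h sm sp lm lp) {x : ℝ} (hx : |x| < h) {z : ℂ}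
    (hz : z.im = 0 ∧ |z.re| ≤ |x|) : (F.symm z).im = 0 ∧ |(F.symm z).re| ≤ |x| := by
  obtain ⟨h1, hx1, h1h⟩ := exists_between hx
  have h0 : 0 < h1 := (abs_nonneg x).trans_lt hx1
  have h2 := H.back_box h0 h1h (hz.2.trans_lt hx1) (by
    rw [hz.1, abs_zero]
    exact mul_pos H.hlm h0)
  have h3 := H.re_low (F.symm z) (h2.1.trans h1h) (h2.2.trans h1h)
  have h4 := H.im_low (F.symm z) (h2.1.trans h1h) (h2.2.trans h1h)
  rw [F.apply_symm_apply] at h3 h4
  rw [hz.1, abs_zero] at h4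
  constructor
  · by_contra hne
    have h5 := abs_pos.mpr hne
    have h6 := mul_pos H.hlm h5
    linarith
  · have h5 := abs_nonneg (F.symm z).re
    have h6 := H.hsm
    have h7 : |(F.symm z).re| ≤ sm * |(F.symm z).re| := by nlinarith
    linarith [hz.2]

private lemma back_axis_iter (H : Flat F γ lam h sm sp lm lp) {x : ℝ} (hx : |x| < h) {z : ℂ}
    (hz : z.im = 0 ∧ |z.re| ≤ |x|) (k : ℕ) :
    ((F.symm : ℂ → ℂ)^[k] z).im = 0 ∧ |((F.symm : ℂ → ℂ)^[k] z).re| ≤ |x| := by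
  induction k with
  | zero => exact hz
  | succ k ih =>
    rw [Function.iterate_succ_apply']
    exact H.back_axis hx ih

private lemma back_branch (H : Flat F γ lam h sm sp lm lp) {u : ℝ} (hu : 0 ≤ u) (k : ℕ) :
    ∃ v : ℝ, 0 ≤ v ∧ (F.symm : ℂ → ℂ)^[k] (γ u) = γ v := by
  induction k with
  | zero => exact ⟨u, hu, rfl⟩
  | succ k ih =>
    obtain ⟨v, hv, he⟩ := ih
    refine ⟨v / lam, div_nonneg hv H.lam0.le, ?_⟩
    rw [Function.iterate_succ_apply', he]
    apply F.injective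
    rw [F.apply_symm_apply, H.conj, mul_div_cancel₀ _ H.lam0.ne']

theorem uax (H : Flat F γ lam h sm sp lm lp) {t : ℝ} (ht : 0 < t) (h1 : |(γ t).re| < h)
    (h2 : |(γ t).im| < h) : (γ t).im ≠ 0 := by
  intro him
  set x : ℝ := (γ t).re with hx
  have hγt : γ t = (x : ℂ) := by
    apply Complex.ext
    · rw [Complex.ofReal_re]
    · rw [Complex.ofReal_im, him]
  have hx0 : x ≠ 0 := by
    intro h0
    have h3 : γ t = γ 0 := by rw [hγt, h0, H.g0, Complex.ofReal_zero]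
    exact ht.ne' (H.inj h3)
  have hxp : 0 < |x| := abs_pos.mpr hx0
  have hXc : IsCompact (γ '' Icc 0 t) := isCompact_Icc.image H.cont
  have hXn : IsConnected (γ '' Icc 0 t) :=
    (isConnected_Icc ht.le).image γ H.cont.continuousOn
  obtain ⟨ε, hε, hnear⟩ := H.near0 t
  set ψ : ℝ → ℂ := fun s => (s : ℂ) * (x : ℂ) with hψ
  have hψc : Continuous ψ := Complex.continuous_ofReal.mul continuous_const
  have hψr : ∀ s, ψ s = ((s * x : ℝ) : ℂ) := fun s => by
    simp only [hψ]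
    rw [Complex.ofReal_mul]
  have hψn : ∀ s, 0 ≤ s → ‖ψ s‖ = s * |x| := fun s hs => by
    rw [hψr, Complex.norm_real, Real.norm_eq_abs, abs_mul, abs_of_nonneg hs]
  -- small parameters are free
  have hsmall : ∀ s, 0 < s → s * |x| < ε → ψ s ∉ γ '' Icc 0 t := by
    intro s hs hse hmem
    have h3 := (hnear _ hmem (by rw [hψn s hs.le]; exact hse)).1
    rw [hψr, Complex.ofReal_re] at h3
    exact (mul_ne_zero hs.ne' hx0) h3
  obtain ⟨δ, hδ0, hδ1, hδε⟩ : ∃ δ : ℝ, 0 < δ ∧ δ ≤ 1 ∧ δ * |x| < ε := by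
    refine ⟨min 1 (ε / (2 * |x|)), lt_min one_pos (by positivity), min_le_left _ _, ?_⟩
    calc min 1 (ε / (2 * |x|)) * |x| ≤ ε / (2 * |x|) * |x| :=
          mul_le_mul_of_nonneg_right (min_le_right _ _) hxp.le
      _ = ε / 2 := by field_simp
      _ < ε := by linarith
  have hAc : IsCompact (Icc δ 1 ∩ ψ ⁻¹' (γ '' Icc 0 t)) :=
    isCompact_Icc.inter_right (hXc.isClosed.preimage hψc)
  have hAn : (Icc δ 1 ∩ ψ ⁻¹' (γ '' Icc 0 t)).Nonempty := by
    refine ⟨1, ⟨hδ1, le_refl _⟩, ⟨t, ⟨ht.le, le_refl _⟩, ?_⟩⟩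
    rw [hγt, hψr, one_mul]
  obtain ⟨s1, ⟨⟨hs1δ, hs11⟩, hs1X⟩, hs1min⟩ := hAc.exists_isLeast hAn
  have hs10 : 0 < s1 := hδ0.trans_le hs1δ
  have hfree : ∀ s ∈ Ioo 0 s1, ψ s ∉ γ '' Icc 0 t := by
    intro s hs hmem
    rcases lt_or_ge s δ with h3 | h3
    · exact hsmall s hs.1 (lt_of_le_of_lt (mul_le_mul_of_nonneg_right h3.le hxp.le) hδε) hmem
    · have h4 := hs1min ⟨⟨h3, (hs.2.le).trans hs11⟩, hmem⟩
      exact absurd hs.2 (not_lt.mpr h4)
  have hinj : Function.Injective ψ := by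
    intro s s' hss
    rw [hψr, hψr] at hss
    exact mul_right_cancel₀ hx0 (Complex.ofReal_injective hss)
  have hder : HasDerivAt ψ (x : ℂ) (s1 / 2) := by
    have h3 := ((hasDerivAt_id (s1 / 2)).ofReal_comp).mul_const (x : ℂ)
    rw [Complex.ofReal_one, one_mul] at h3
    exact h3
  have hcross := cross hXc hXn (ψ := ψ) (s1 := 0) (s0 := s1 / 2) (s2 := s1) (by linarith)
    (by linarith) hψc.continuousOn hinj.injOn
    ⟨0, ⟨le_refl _, ht.le⟩, by rw [H.g0, hψr, zero_mul, Complex.ofReal_zero]⟩ hs1X hfree hder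
    (by rw [Ne, Complex.ofReal_eq_zero]; exact hx0)
  apply hcross
  have hYc : IsCompact (γ '' Icc 0 t ∪ ψ '' Icc 0 s1) := hXc.union (isCompact_Icc.image hψc)
  obtain ⟨R, hR⟩ := H.bdd.exists_norm_le
  refine nonsep_of_NO H.no hYc (R := max R |x|) ?_
  rintro k z (⟨u, hu, rfl⟩ | ⟨s, hs, rfl⟩)
  · obtain ⟨v, hv, he⟩ := H.back_branch hu.1 k
    rw [he]
    rcases eq_or_lt_of_le hv with h3 | h3
    · rw [← h3, H.g0, norm_zero]
      exact (abs_nonneg x).trans (le_max_right _ _)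
    · exact (hR _ ⟨v, h3, rfl⟩).trans (le_max_left _ _)
  · have h3 := H.back_axis_iter h1 (z := ψ s) ⟨by rw [hψr, Complex.ofReal_im], by
      rw [hψr, Complex.ofReal_re, abs_mul, abs_of_nonneg hs.1]
      have h4 : s ≤ 1 := hs.2.trans hs11
      nlinarith⟩ k
    have h4 : (F.symm : ℂ → ℂ)^[k] (ψ s) = ((((F.symm : ℂ → ℂ)^[k] (ψ s)).re : ℝ) : ℂ) := by
      apply Complex.ext
      · rw [Complex.ofReal_re]
      · rw [Complex.ofReal_im, h3.1]
    rw [h4, Complex.norm_real, Real.norm_eq_abs]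
    exact h3.2.trans (le_max_right _ _)

end Flat

end Pool.Agent.HE
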