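import Pool.Agent.HE.SDef

set_option autoImplicit false

/-!
HE-SArc. The `L`-shaped path from `(0, j s)` over `(i u, j s)` to `(i u, 0)`, and the case of negative
eigenvalues: there the image of the open quadrant part of the path is in the opposite quadrant.
-/

namespace Pool.Agent.HE

open Set Topology Filter

variable {F Φ : ℂ ≃ₜ ℂ} {r : ℂ} {h sm sp lm lp : ℝ}

noncomputable def lpath (i j u s x : ℝ) : ℂ := ⟨i * (u * clp (2 * x)), j * (s * clp (2 - 2 * x))⟩

private lemma lp_re (i j u s x : ℝ) : (lpath i j u s x).re = i * (u * clp (2 * x)) := rfl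

private lemma lp_im (i j u s x : ℝ) : (lpath i j u s x).im = j * (s * clp (2 - 2 * x)) := rfl

private lemma lp_0 (i j u s : ℝ) : lpath i j u s 0 = ⟨0, j * s⟩ := by
  apply Complex.ext
  · rw [lp_re, mul_zero, clp_of_nonpos le_rfl]; simp
  · rw [lp_im, mul_zero, sub_zero, clp_of_one_le (by norm_num)]; simp

private lemma lp_1 (i j u s : ℝ) : lpath i j u s 1 = ⟨i * u, 0⟩ := by
  apply Complex.ext
  · rw [lp_re, mul_one, clp_of_one_le (by norm_num)]; simp
  · rw [lp_im, mul_one, sub_self, clp_of_nonpos le_rfl]; simp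

private lemma sq_one {i : ℝ} (hi : i = 1 ∨ i = -1) : i * i = 1 := by
  rcases hi with rfl | rfl <;> norm_num

private lemma abs_one {i : ℝ} (hi : i = 1 ∨ i = -1) : |i| = 1 := by
  rcases hi with rfl | rfl <;> simp

private lemma lp_cont (i j u s : ℝ) : Continuous (lpath i j u s) := by
  have e : lpath i j u s = fun x => ((i * (u * clp (2 * x)) : ℝ) : ℂ) +
      ((j * (s * clp (2 - 2 * x)) : ℝ) : ℂ) * Complex.I := by
    funext x
    exact Complex.mk_eq_add_mul_I _ _
  rw [e]
  have h1 : Continuous fun x : ℝ => i * (u * clp (2 * x)) :=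
    continuous_const.mul (continuous_const.mul (clp_cont.comp (continuous_const.mul continuous_id)))
  have h2 : Continuous fun x : ℝ => j * (s * clp (2 - 2 * x)) :=
    continuous_const.mul (continuous_const.mul
      (clp_cont.comp (continuous_const.sub (continuous_const.mul continuous_id))))
  exact (Complex.continuous_ofReal.comp h1).add
    ((Complex.continuous_ofReal.comp h2).mul continuous_const)

theorem lpath_q {i j δ u s : ℝ} (hi : i = 1 ∨ i = -1) (hj : j = 1 ∨ j = -1) (hu : 0 < u)
    (hu1 : u < δ) (hs : 0 < s) (hs1 : s < δ) : QPath i j δ u s (lpath i j u s) := by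
  have hii := sq_one hi
  have hjj := sq_one hj
  refine ⟨lp_cont i j u s, ?_, ?_, ?_, lp_0 i j u s, lp_1 i j u s⟩
  · intro x _
    rw [lp_re, lp_im, ← mul_assoc, hii, ← mul_assoc j, hjj, one_mul, one_mul]
    exact ⟨mul_nonneg hu.le (clp_nonneg _), mul_nonneg hs.le (clp_nonneg _)⟩
  · intro x _
    rw [lp_re, lp_im, abs_mul, abs_one hi, abs_mul j, abs_one hj, one_mul, one_mul,
      abs_of_nonneg (mul_nonneg hu.le (clp_nonneg _)),
      abs_of_nonneg (mul_nonneg hs.le (clp_nonneg _))]
    exact ⟨lt_of_le_of_lt (mul_le_of_le_one_right hu.le (clp_le_one _)) hu1,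
      lt_of_le_of_lt (mul_le_of_le_one_right hs.le (clp_le_one _)) hs1⟩
  · intro x _ h0
    have hi0 : i ≠ 0 := by
      rintro rfl
      norm_num at hii
    have hj0 : j ≠ 0 := by
      rintro rfl
      norm_num at hjj
    rcases le_total x (1 / 2) with hx | hx
    · have e : (lpath i j u s x).im = 0 := by rw [h0]; rfl
      rw [lp_im, clp_of_one_le (by linarith), mul_one] at e
      exact (mul_ne_zero hj0 hs.ne') e
    · have e : (lpath i j u s x).re = 0 := by rw [h0]; rfl
      rw [lp_re, clp_of_one_le (by linarith), mul_one] at e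
      exact (mul_ne_zero hi0 hu.ne') e

theorem arc_neg (ch : Chart F Φ r (-1) h sm sp lm lp) {X : Set ℂ} {i j δ u s : ℝ}
    (hi : i = 1 ∨ i = -1) (hj : j = 1 ∨ j = -1) (hδ : δ ≤ h) (hu : 0 < u) (hu1 : u < δ)
    (hs : 0 < s) (hs1 : s < δ) (m1 : Φ.symm ⟨0, j * s⟩ ∈ X) (m2 : Φ.symm ⟨i * u, 0⟩ ∈ X) :
    ∃ c, QPath i j δ u s c ∧ ∃ α β, Core F Φ X c α β := by
  have q := lpath_q hi hj hu hu1 hs hs1
  have hii := sq_one hi
  have pos : ∀ x ∈ Ioo (0 : ℝ) 1, 0 < i * (lpath i j u s x).re := by
    intro x hx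
    rw [lp_re, ← mul_assoc, hii, one_mul]
    apply mul_pos hu
    rcases le_total x (1 / 2) with h1 | h1
    · rw [clp_of_mem (by linarith [hx.1]) (by linarith)]
      linarith [hx.1]
    · rw [clp_of_one_le (by linarith)]
      exact one_pos
  refine ⟨_, q, 0, 1, ⟨le_rfl, one_pos, le_rfl, ?_, ?_, ?_, ?_⟩⟩
  · rw [lp_0]; exact m1
  · rw [lp_1]; exact m2
  · rintro x ⟨h0, h1⟩ (hx | hx)
    · have : x = 0 := le_antisymm hx h0
      subst this
      rw [lp_0]
      simp
    · have : x = 1 := le_antisymm h1 hx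
      subst this
      rw [lp_1]
      simp
  · intro x hx y hy he
    exfalso
    have px := pos x hx
    have py := pos y hy
    have sx := q.small x ⟨hx.1.le, hx.2.le⟩
    have r1 := ch.re_sign (Φ.symm (lpath i j u s x))
      (by rw [Homeomorph.apply_symm_apply]; linarith [sx.1])
      (by rw [Homeomorph.apply_symm_apply]; linarith [sx.2])
    rw [he, Homeomorph.apply_symm_apply, Homeomorph.apply_symm_apply] at r1
    have := mul_pos px py
    have e : i * (lpath i j u s x).re * (i * (lpath i j u s y).re) =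
        (lpath i j u s x).re * (lpath i j u s y).re := by
      calc _ = (i * i) * ((lpath i j u s x).re * (lpath i j u s y).re) := by ring
        _ = _ := by rw [hii, one_mul]
    rw [e] at this
    linarith

end Pool.Agent.HE
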