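import Pool.Agent.HE.SDef
import Pool.Agent.HE.GBas

set_option autoImplicit false

/-!
HE-SBas. Basic facts in the chart at a fixed point of the limit set.

`fix`: `re_up`, `im_up` at `r`.  `back`: connectedness of the image of a box.  `u_back`: backward orbits on the
unstable axis.  `s_axis`: a point of the branch on the stable axis would converge to `r` and to `γ 0`.  `far`: compactness.
-/

namespace Pool.Agent.HE

open Set Topology Filter

variable {F Φ : ℂ ≃ₜ ℂ} {γ : ℝ → ℂ} {lam : ℝ} {ell : ℝ → ℝ → ℂ} {r : ℂ} {e h sm sp lm lp : ℝ}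

theorem Chart.fix (ch : Chart F Φ r e h sm sp lm lp) : F r = r := by
  have h0 : |(Φ r).re| < h := by
    rw [ch.zero, Complex.zero_re, abs_zero]
    exact ch.hh
  have h1 : |(Φ r).im| < h := by
    rw [ch.zero, Complex.zero_im, abs_zero]
    exact ch.hh
  have h2 := ch.re_up r h0 h1
  have h3 := ch.im_up r h0 h1
  rw [ch.zero, Complex.zero_re, abs_zero, mul_zero] at h2
  rw [ch.zero, Complex.zero_im, abs_zero, mul_zero] at h3
  have h4 : (Φ (F r)).re = 0 := abs_eq_zero.1 (le_antisymm h2 (abs_nonneg _))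
  have h5 : (Φ (F r)).im = 0 := abs_eq_zero.1 (le_antisymm h3 (abs_nonneg _))
  apply Φ.injective
  rw [ch.zero]
  exact Complex.ext h4 h5

private theorem box_conv (a b : ℝ) : Convex ℝ {z : ℂ | |z.re| < a ∧ |z.im| < b} := by
  have h1 : {z : ℂ | |z.re| < a ∧ |z.im| < b} =
      (Complex.reLm : ℂ →ₗ[ℝ] ℝ) ⁻¹' Ioo (-a) a ∩ (Complex.imLm : ℂ →ₗ[ℝ] ℝ) ⁻¹' Ioo (-b) b := by
    ext z
    simp only [mem_inter_iff, mem_preimage, mem_Ioo]
    show |z.re| < a ∧ |z.im| < b ↔ _
    rw [abs_lt, abs_lt]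
    rfl
  rw [h1]
  exact ((convex_Ioo _ _).linear_preimage _).inter ((convex_Ioo _ _).linear_preimage _)

private theorem box_open (a b : ℝ) : IsOpen {z : ℂ | |z.re| < a ∧ |z.im| < b} := by
  have h1 : IsOpen {z : ℂ | |z.re| < a} :=
    isOpen_lt (continuous_abs.comp Complex.continuous_re) continuous_const
  have h2 : IsOpen {z : ℂ | |z.im| < b} :=
    isOpen_lt (continuous_abs.comp Complex.continuous_im) continuous_const
  exact h1.inter h2

private theorem box_compact (a : ℝ) : IsCompact {z : ℂ | |z.re| ≤ a ∧ |z.im| ≤ a} := by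
  have h1 : IsClosed {z : ℂ | |z.re| ≤ a} :=
    isClosed_le (continuous_abs.comp Complex.continuous_re) continuous_const
  have h2 : IsClosed {z : ℂ | |z.im| ≤ a} :=
    isClosed_le (continuous_abs.comp Complex.continuous_im) continuous_const
  refine Metric.isCompact_of_isClosed_isBounded (h1.inter h2) ?_
  refine Metric.isBounded_closedBall.subset (t := Metric.closedBall (0 : ℂ) (a + a)) ?_
  rintro z ⟨h3, h4⟩
  rw [mem_closedBall_zero_iff]
  exact (Complex.norm_le_abs_re_add_abs_im z).trans (add_le_add h3 h4)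

theorem Chart.back (ch : Chart F Φ r e h sm sp lm lp) {h1 : ℝ} (h0 : 0 < h1) (hh : h1 < h) {w : ℂ}
    (hw1 : |(Φ w).re| < h1) (hw2 : |(Φ w).im| < lm * h1) :
    |(Φ (F.symm w)).re| < h1 ∧ |(Φ (F.symm w)).im| < h1 := by
  have hlm := ch.hlm
  set B : Set ℂ := Φ ⁻¹' {z : ℂ | |z.re| < h1 ∧ |z.im| < h1} with hB
  set K : Set ℂ := Φ ⁻¹' {z : ℂ | |z.re| ≤ h1 ∧ |z.im| ≤ h1} with hK
  set W : Set ℂ := Φ ⁻¹' {z : ℂ | |z.re| < h1 ∧ |z.im| < lm * h1} with hW
  have hBo : IsOpen (F '' B) := F.isOpenMap _ ((box_open h1 h1).preimage Φ.continuous)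
  have hKc : IsClosed (F '' K) := by
    have h2 : IsCompact K := Φ.isCompact_preimage.2 (box_compact h1)
    exact (h2.image F.continuous).isClosed
  have hBK : B ⊆ K := fun z hz => ⟨hz.1.le, hz.2.le⟩
  have hWp : IsPreconnected W := by
    have h2 : W = Φ.symm '' {z : ℂ | |z.re| < h1 ∧ |z.im| < lm * h1} := by
      rw [hW, ← Φ.image_symm]
    rw [h2]
    exact (box_conv _ _).isPreconnected.image _ Φ.symm.continuous.continuousOn
  have hsub : W ⊆ F '' B ∪ (F '' K)ᶜ := by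
    intro w' hw'
    by_cases hk : w' ∈ F '' K
    · left
      obtain ⟨z, hz, rfl⟩ := hk
      have hz1 : |(Φ z).re| ≤ h1 := hz.1
      have hz2 : |(Φ z).im| ≤ h1 := hz.2
      have hw1' : |(Φ (F z)).re| < h1 := hw'.1
      have hw2' : |(Φ (F z)).im| < lm * h1 := hw'.2
      refine ⟨z, ⟨?_, ?_⟩, rfl⟩
      · have h3 := ch.re_low z (by linarith) (by linarith)
        have h4 := ch.hsm
        have h5 := abs_nonneg (Φ z).re
        show |(Φ z).re| < h1
        nlinarith
      · have h3 := ch.im_low z (by linarith) (by linarith)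
        show |(Φ z).im| < h1
        exact lt_of_mul_lt_mul_left (h3.trans_lt hw2') hlm.le
    · exact Or.inr hk
  have hr : r ∈ W ∩ F '' B := by
    constructor
    · show |(Φ r).re| < h1 ∧ |(Φ r).im| < lm * h1
      rw [ch.zero, Complex.zero_re, Complex.zero_im, abs_zero]
      exact ⟨h0, mul_pos hlm h0⟩
    · refine ⟨r, ?_, ch.fix⟩
      show |(Φ r).re| < h1 ∧ |(Φ r).im| < h1
      rw [ch.zero, Complex.zero_re, Complex.zero_im, abs_zero]
      exact ⟨h0, h0⟩
  have hdis : Disjoint (F '' B) (F '' K)ᶜ :=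
    disjoint_left.2 fun x hx hx' => hx' (image_mono hBK hx)
  have h2 : W ⊆ F '' B :=
    hWp.subset_left_of_subset_union hBo hKc.isOpen_compl hdis hsub ⟨r, hr⟩
  obtain ⟨z, hz, hzw⟩ := h2 (show w ∈ W from ⟨hw1, hw2⟩)
  have h3 : F.symm w = z := by
    rw [← hzw, F.symm_apply_apply]
  rw [h3]
  exact hz

theorem Chart.u_back (ch : Chart F Φ r e h sm sp lm lp) {w : ℂ} (hw : (Φ w).im = 0)
    (hw1 : |(Φ w).re| < h) (k : ℕ) : (Φ ((F.symm : ℂ → ℂ)^[k] w)).im = 0 ∧
      |(Φ ((F.symm : ℂ → ℂ)^[k] w)).re| ≤ |(Φ w).re| := by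
  induction k with
  | zero => exact ⟨hw, le_rfl⟩
  | succ k ih =>
    rw [Function.iterate_succ_apply']
    obtain ⟨h1, h2⟩ := ih
    set w' := (F.symm : ℂ → ℂ)^[k] w with hw'
    have h3 := abs_nonneg (Φ w').re
    have h4 : |(Φ w').re| < (|(Φ w').re| + h) / 2 := by linarith
    have h5 : (|(Φ w').re| + h) / 2 < h := by linarith
    have h6 : 0 < (|(Φ w').re| + h) / 2 := by linarith [ch.hh]
    obtain ⟨h7, h8⟩ := ch.back h6 h5 h4 (by
      rw [h1, abs_zero]
      exact mul_pos ch.hlm h6)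
    have h9 := ch.im_low (F.symm w') (h7.trans h5) (h8.trans h5)
    have h10 := ch.re_low (F.symm w') (h7.trans h5) (h8.trans h5)
    rw [F.apply_symm_apply] at h9 h10
    rw [h1, abs_zero] at h9
    have h11 := abs_nonneg (Φ (F.symm w')).im
    have h12 := abs_nonneg (Φ (F.symm w')).re
    have h13 := ch.hlm
    have h14 := ch.hsm
    constructor
    · have h15 : |(Φ (F.symm w')).im| ≤ 0 := by
        by_contra hcon
        push Not at hcon
        have := mul_pos h13 hcon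
        linarith
      exact abs_eq_zero.1 (le_antisymm h15 h11)
    · nlinarith

private theorem lp_pos (ch : Chart F Φ r e h sm sp lm lp) : 0 < lp := by
  have hh := ch.hh
  have h0 : Φ (Φ.symm (⟨0, h / 2⟩ : ℂ)) = ⟨0, h / 2⟩ := Φ.apply_symm_apply _
  have h1 : |(Φ (Φ.symm (⟨0, h / 2⟩ : ℂ))).re| < h := by
    rw [h0, abs_zero]
    exact hh
  have h2 : |(Φ (Φ.symm (⟨0, h / 2⟩ : ℂ))).im| = h / 2 := by
    rw [h0]
    exact abs_of_pos (by linarith)
  have h3 : |(Φ (Φ.symm (⟨0, h / 2⟩ : ℂ))).im| < h := by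
    rw [h2]
    linarith
  have h4 := (ch.im_low _ h1 h3).trans (ch.im_up _ h1 h3)
  rw [h2] at h4
  have h5 : lm ≤ lp := le_of_mul_le_mul_right h4 (by linarith)
  linarith [ch.hlm]

theorem s_axis (C : Ctx F γ lam ell) (ch : Chart F Φ r e h sm sp lm lp) (hr : r ∈ AA γ) {t : ℝ}
    (ht : 0 ≤ t) (h1 : |(Φ (γ t)).re| < h) (h2 : |(Φ (γ t)).im| < h) : (Φ (γ t)).re ≠ 0 := by
  intro h3
  have hlp := lp_pos ch
  have key : ∀ k : ℕ, (Φ (γ (lam ^ k * t))).re = 0 ∧
      |(Φ (γ (lam ^ k * t))).im| ≤ lp ^ k * |(Φ (γ t)).im| := by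
    intro k
    induction k with
    | zero =>
      rw [pow_zero, pow_zero, one_mul, one_mul]
      exact ⟨h3, le_rfl⟩
    | succ k ih =>
      obtain ⟨h4, h5⟩ := ih
      have h6 : γ (lam ^ (k + 1) * t) = F (γ (lam ^ k * t)) := by
        rw [C.conj, pow_succ', mul_assoc]
      have h7 : |(Φ (γ (lam ^ k * t))).re| < h := by
        rw [h4, abs_zero]
        exact ch.hh
      have h8 : |(Φ (γ (lam ^ k * t))).im| < h := by
        have h9 : lp ^ k * |(Φ (γ t)).im| ≤ 1 * |(Φ (γ t)).im| :=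
          mul_le_mul_of_nonneg_right (pow_le_one₀ hlp.le ch.hlp.le) (abs_nonneg _)
        linarith
      rw [h6]
      constructor
      · have h9 := ch.re_up _ h7 h8
        rw [h4, abs_zero, mul_zero] at h9
        exact abs_eq_zero.1 (le_antisymm h9 (abs_nonneg _))
      · refine (ch.im_up _ h7 h8).trans ?_
        rw [pow_succ', mul_assoc]
        exact mul_le_mul_of_nonneg_left h5 hlp.le
  have ht1 : Tendsto (fun k : ℕ => γ (lam ^ k * t)) atTop (𝓝 (γ 0)) := by
    have h4 : Tendsto (fun k : ℕ => lam ^ k * t) atTop (𝓝 (0 * t)) :=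
      (tendsto_pow_atTop_nhds_zero_of_lt_one C.lam0.le C.lam1).mul_const t
    rw [zero_mul] at h4
    exact (C.cont.tendsto 0).comp h4
  have ht2 : Tendsto (fun k : ℕ => Φ (γ (lam ^ k * t))) atTop (𝓝 0) := by
    rw [tendsto_zero_iff_norm_tendsto_zero]
    have h4 : Tendsto (fun k : ℕ => lp ^ k * |(Φ (γ t)).im|) atTop (𝓝 (0 * |(Φ (γ t)).im|)) :=
      (tendsto_pow_atTop_nhds_zero_of_lt_one hlp.le ch.hlp).mul_const _
    rw [zero_mul] at h4
    refine squeeze_zero (fun k => norm_nonneg _) (fun k => ?_) h4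
    refine (Complex.norm_le_abs_re_add_abs_im _).trans ?_
    rw [(key k).1, abs_zero, zero_add]
    exact (key k).2
  have ht3 : Tendsto (fun k : ℕ => γ (lam ^ k * t)) atTop (𝓝 r) := by
    have h4 := (Φ.symm.continuous.tendsto 0).comp ht2
    have h5 : Φ.symm 0 = r := by
      rw [← ch.zero, Φ.symm_apply_apply]
    rw [h5] at h4
    have h6 : ((Φ.symm : ℂ → ℂ) ∘ fun k : ℕ => Φ (γ (lam ^ k * t))) =
        fun k : ℕ => γ (lam ^ k * t) := by
      funext k
      exact Φ.symm_apply_apply _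
    rwa [h6] at h4
  have h4 : r = γ 0 := tendsto_nhds_unique ht3 ht1
  rw [h4] at hr
  exact C.nacc hr

theorem far (C : Ctx F γ lam ell) (hr : r ∈ AA γ) (h0 : Φ r = 0) (T : ℝ) :
    ∃ δ > 0, ∀ t, 0 ≤ t → t ≤ T → δ ≤ |(Φ (γ t)).re| ∨ δ ≤ |(Φ (γ t)).im| := by
  rcases lt_or_ge T 0 with hT | hT
  · exact ⟨1, one_pos, fun t h1 h2 => absurd (h1.trans h2) (not_le.2 hT)⟩
  · have hc : Continuous fun t : ℝ => max |(Φ (γ t)).re| |(Φ (γ t)).im| := by
      have h1 : Continuous fun t : ℝ => Φ (γ t) := Φ.continuous.comp C.cont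
      exact (continuous_abs.comp (Complex.continuous_re.comp h1)).max
        (continuous_abs.comp (Complex.continuous_im.comp h1))
    obtain ⟨t0, ht0, hmin⟩ := isCompact_Icc.exists_isMinOn (nonempty_Icc.2 hT) hc.continuousOn
    refine ⟨max |(Φ (γ t0)).re| |(Φ (γ t0)).im|, ?_, ?_⟩
    · by_contra hcon
      have h1 : max |(Φ (γ t0)).re| |(Φ (γ t0)).im| ≤ 0 := not_lt.1 hcon
      have h2 : (Φ (γ t0)).re = 0 :=
        abs_eq_zero.1 (le_antisymm ((le_max_left _ _).trans h1) (abs_nonneg _))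
      have h3 : (Φ (γ t0)).im = 0 :=
        abs_eq_zero.1 (le_antisymm ((le_max_right _ _).trans h1) (abs_nonneg _))
      have h4 : γ t0 = r := by
        apply Φ.injective
        rw [h0]
        exact Complex.ext h2 h3
      apply aa_notin C ht0.1
      rw [h4]
      exact hr
    · intro t h1 h2
      exact le_max_iff.1 (hmin ⟨h1, h2⟩)

end Pool.Agent.HE
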