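import Pool.Agent.HE.SDef
import Pool.Agent.HE.NoLog

set_option autoImplicit false

/-!
HE-SClose. Four quarter paths form a closed curve around `0`.
-/

namespace Pool.Agent.HE

open Set Topology Filter

private noncomputable def scl (a b c d : ℝ → ℂ) (s : ℝ) : ℂ :=
  a (1 - clp (4 * s)) + (b (clp (4 * s - 1)) - b 0) + (c (1 - clp (4 * s - 2)) - c 1) +
    (d (clp (4 * s - 3)) - d 0)

private lemma scl_cont {a b c d : ℝ → ℂ} (ha : Continuous a) (hb : Continuous b)
    (hc : Continuous c) (hd : Continuous d) : Continuous (scl a b c d) := by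
  unfold scl
  have h := clp_cont
  refine ((ha.comp ?_).add ((hb.comp ?_).sub continuous_const)).add
    ((hc.comp ?_).sub continuous_const) |>.add ((hd.comp ?_).sub continuous_const)
  · exact continuous_const.sub (h.comp (by fun_prop))
  · exact h.comp (by fun_prop)
  · exact continuous_const.sub (h.comp (by fun_prop))
  · exact h.comp (by fun_prop)

private lemma scl_a {a b c d : ℝ → ℂ} {s : ℝ} (h0 : 0 ≤ s) (h1 : s ≤ 1 / 4) :
    scl a b c d s = a (1 - 4 * s) := by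
  unfold scl
  rw [clp_of_mem (x := 4 * s) (by linarith) (by linarith),
    clp_of_nonpos (x := 4 * s - 1) (by linarith), clp_of_nonpos (x := 4 * s - 2) (by linarith),
    clp_of_nonpos (x := 4 * s - 3) (by linarith), sub_zero]
  ring

private lemma scl_b {a b c d : ℝ → ℂ} (hab : a 0 = b 0) {s : ℝ} (h0 : 1 / 4 ≤ s) (h1 : s ≤ 1 / 2) :
    scl a b c d s = b (4 * s - 1) := by
  unfold scl
  rw [clp_of_one_le (x := 4 * s) (by linarith),
    clp_of_mem (x := 4 * s - 1) (by linarith) (by linarith),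
    clp_of_nonpos (x := 4 * s - 2) (by linarith),
    clp_of_nonpos (x := 4 * s - 3) (by linarith), sub_zero, sub_self, hab]
  ring

private lemma scl_c {a b c d : ℝ → ℂ} (hab : a 0 = b 0) (hbc : b 1 = c 1) {s : ℝ} (h0 : 1 / 2 ≤ s)
    (h1 : s ≤ 3 / 4) : scl a b c d s = c (1 - (4 * s - 2)) := by
  unfold scl
  rw [clp_of_one_le (x := 4 * s) (by linarith), clp_of_one_le (x := 4 * s - 1) (by linarith),
    clp_of_mem (x := 4 * s - 2) (by linarith) (by linarith),
    clp_of_nonpos (x := 4 * s - 3) (by linarith), sub_self, hab, hbc]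
  ring

private lemma scl_d {a b c d : ℝ → ℂ} (hab : a 0 = b 0) (hbc : b 1 = c 1) (hcd : c 0 = d 0) {s : ℝ}
    (h0 : 3 / 4 ≤ s) (h1 : s ≤ 1) : scl a b c d s = d (4 * s - 3) := by
  unfold scl
  rw [clp_of_one_le (x := 4 * s) (by linarith), clp_of_one_le (x := 4 * s - 1) (by linarith),
    clp_of_one_le (x := 4 * s - 2) (by linarith),
    clp_of_mem (x := 4 * s - 3) (by linarith) (by linarith), sub_self, hab, hbc, hcd]
  ring

theorem closeup {δ u1 u2 s1 s2 : ℝ} {a b c d : ℝ → ℂ} (ha : QPath 1 1 δ u1 s1 a)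
    (hb : QPath (-1) 1 δ u2 s1 b) (hc : QPath (-1) (-1) δ u2 s2 c) (hd : QPath 1 (-1) δ u1 s2 d) :
    ∃ C : ℝ → ℂ, Closed1 C ∧ (∀ s, C s ≠ 0) ∧ (∀ s, |(C s).re| < δ ∧ |(C s).im| < δ) ∧
      ¬ PLog C ∧ Quarter C a 1 1 0 ∧ Quarter C b (-1) 1 (1 / 4) ∧
      Quarter C c (-1) (-1) (1 / 2) ∧ Quarter C d 1 (-1) (3 / 4) := by
  have hab : a 0 = b 0 := by rw [ha.c0, hb.c0]
  have hbc : b 1 = c 1 := by rw [hb.c1, hc.c1]
  have hcd : c 0 = d 0 := by rw [hc.c0, hd.c0]
  have hda : d 1 = a 1 := by rw [hd.c1, ha.c1]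
  set C0 : ℝ → ℂ := scl a b c d with hC0
  have e0 : C0 0 = a 1 := by
    rw [hC0, scl_a (le_refl 0) (by norm_num)]
    norm_num
  have e1 : C0 1 = a 1 := by
    rw [hC0, scl_d hab hbc hcd (by norm_num) (le_refl 1)]
    norm_num
    exact hda
  have hcont : Continuous C0 := scl_cont ha.cont hb.cont hc.cont hd.cont
  set C : ℝ → ℂ := C0 ∘ Int.fract with hC
  have hCc : Continuous C := hcont.continuousOn.comp_fract'' (e0.trans e1.symm)
  have hper : ∀ s, C (s + 1) = C s := by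
    intro s
    simp only [hC, Function.comp]
    rw [Int.fract_add_one]
  have hI : ∀ s ∈ Icc (0 : ℝ) 1, C s = C0 s := by
    intro s hs
    rcases hs.2.eq_or_lt with h | h
    · rw [h]
      have h2 : C 1 = C 0 := by
        have := hper 0
        rwa [zero_add] at this
      rw [h2]
      simp only [hC, Function.comp]
      rw [Int.fract_zero, e0, e1]
    · simp only [hC, Function.comp]
      rw [Int.fract_eq_self.2 ⟨hs.1, h⟩]
  have qa : ∀ s ∈ Icc (0 : ℝ) (1 / 4), C s = a (1 - 4 * s) := by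
    intro s hs
    rw [hI s ⟨hs.1, by linarith [hs.2]⟩, hC0, scl_a hs.1 hs.2]
  have qb : ∀ s ∈ Icc (1 / 4 : ℝ) (1 / 2), C s = b (4 * s - 1) := by
    intro s hs
    rw [hI s ⟨by linarith [hs.1], by linarith [hs.2]⟩, hC0, scl_b hab hs.1 hs.2]
  have qc : ∀ s ∈ Icc (1 / 2 : ℝ) (3 / 4), C s = c (1 - (4 * s - 2)) := by
    intro s hs
    rw [hI s ⟨by linarith [hs.1], by linarith [hs.2]⟩, hC0, scl_c hab hbc hs.1 hs.2]
  have qd : ∀ s ∈ Icc (3 / 4 : ℝ) 1, C s = d (4 * s - 3) := by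
    intro s hs
    rw [hI s ⟨by linarith [hs.1], hs.2⟩, hC0, scl_d hab hbc hcd hs.1 hs.2]
  -- the four quarters
  have fa : ∀ s ∈ Icc (0 : ℝ) (1 / 4), 0 ≤ (C s).re ∧ 0 ≤ (C s).im := by
    intro s hs
    rw [qa s hs]
    have := ha.quad (1 - 4 * s) ⟨by linarith [hs.2], by linarith [hs.1]⟩
    simpa using this
  have fb : ∀ s ∈ Icc (1 / 4 : ℝ) (1 / 2), (C s).re ≤ 0 ∧ 0 ≤ (C s).im := by
    intro s hs
    rw [qb s hs]
    have := hb.quad (4 * s - 1) ⟨by linarith [hs.1], by linarith [hs.2]⟩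
    exact ⟨by linarith [this.1], by linarith [this.2]⟩
  have fc : ∀ s ∈ Icc (1 / 2 : ℝ) (3 / 4), (C s).re ≤ 0 ∧ (C s).im ≤ 0 := by
    intro s hs
    rw [qc s hs]
    have := hc.quad (1 - (4 * s - 2)) ⟨by linarith [hs.2], by linarith [hs.1]⟩
    exact ⟨by linarith [this.1], by linarith [this.2]⟩
  have fd : ∀ s ∈ Icc (3 / 4 : ℝ) 1, 0 ≤ (C s).re ∧ (C s).im ≤ 0 := by
    intro s hs
    rw [qd s hs]
    have := hd.quad (4 * s - 3) ⟨by linarith [hs.1], by linarith [hs.2]⟩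
    exact ⟨by linarith [this.1], by linarith [this.2]⟩
  have hall : ∀ s ∈ Icc (0 : ℝ) 1, C s ≠ 0 ∧ |(C s).re| < δ ∧ |(C s).im| < δ := by
    intro s hs
    rcases le_total s (1 / 4) with h1 | h1
    · rw [qa s ⟨hs.1, h1⟩]
      have hm : (1 - 4 * s) ∈ Icc (0 : ℝ) 1 := ⟨by linarith, by linarith [hs.1]⟩
      exact ⟨ha.ne _ hm, ha.small _ hm⟩
    · rcases le_total s (1 / 2) with h2 | h2
      · rw [qb s ⟨h1, h2⟩]
        have hm : (4 * s - 1) ∈ Icc (0 : ℝ) 1 := ⟨by linarith, by linarith⟩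
        exact ⟨hb.ne _ hm, hb.small _ hm⟩
      · rcases le_total s (3 / 4) with h3 | h3
        · rw [qc s ⟨h2, h3⟩]
          have hm : (1 - (4 * s - 2)) ∈ Icc (0 : ℝ) 1 := ⟨by linarith, by linarith⟩
          exact ⟨hc.ne _ hm, hc.small _ hm⟩
        · rw [qd s ⟨h3, hs.2⟩]
          have hm : (4 * s - 3) ∈ Icc (0 : ℝ) 1 := ⟨by linarith, by linarith [hs.2]⟩
          exact ⟨hd.ne _ hm, hd.small _ hm⟩
  have hfr : ∀ s, C s = C (Int.fract s) := by
    intro s
    simp only [hC, Function.comp]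
    rw [Int.fract_fract]
  have hfrm : ∀ s : ℝ, Int.fract s ∈ Icc (0 : ℝ) 1 := fun s =>
    ⟨Int.fract_nonneg s, (Int.fract_lt_one s).le⟩
  have hCl : Closed1 C := ⟨hCc, hper⟩
  have hne : ∀ s, C s ≠ 0 := fun s => by rw [hfr s]; exact (hall _ (hfrm s)).1
  have hsh : ∀ s, C s = C (s - 1) := fun s => by
    have := hper (s - 1)
    rwa [sub_add_cancel] at this
  refine ⟨C, hCl, hne, fun s => by rw [hfr s]; exact (hall _ (hfrm s)).2,
    no_plog_quad hCl hne fa fb fc fd, ⟨Or.inr ?_, ?_⟩, ⟨Or.inl ?_, ?_⟩, ⟨Or.inr ?_, ?_⟩,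
    ⟨Or.inl ?_, ?_⟩⟩
  · intro s hs
    rw [qa s ⟨hs.1, by linarith [hs.2]⟩, sub_zero]
  · intro s hs h
    rcases le_total s (1 / 2) with h2 | h2
    · have := fb s ⟨by linarith [hs.1], h2⟩
      linarith [h.1]
    · rcases le_total s (3 / 4) with h3 | h3
      · have := fc s ⟨h2, h3⟩
        linarith [h.1]
      · have := fd s ⟨h3, by linarith [hs.2]⟩
        linarith [h.2]
  · intro s hs
    rw [qb s ⟨by linarith [hs.1], by linarith [hs.2]⟩]
    congr 1
    ring
  · intro s hs h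
    rcases le_total s (3 / 4) with h3 | h3
    · have := fc s ⟨by linarith [hs.1], h3⟩
      linarith [h.2]
    · rcases le_total s 1 with h4 | h4
      · have := fd s ⟨h3, h4⟩
        linarith [h.2]
      · rw [hsh s] at h
        have := fa (s - 1) ⟨by linarith, by linarith [hs.2]⟩
        linarith [h.1]
  · intro s hs
    rw [qc s ⟨by linarith [hs.1], by linarith [hs.2]⟩]
    congr 1
    ring
  · intro s hs h
    rcases le_total s 1 with h4 | h4
    · have := fd s ⟨by linarith [hs.1], h4⟩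
      linarith [h.1]
    · rw [hsh s] at h
      rcases le_total (s - 1) (1 / 4) with h5 | h5
      · have := fa (s - 1) ⟨by linarith, h5⟩
        linarith [h.1]
      · have := fb (s - 1) ⟨h5, by linarith [hs.2]⟩
        linarith [h.2]
  · intro s hs
    rw [qd s ⟨by linarith [hs.1], by linarith [hs.2]⟩]
    congr 1
    ring
  · intro s hs h
    rw [hsh s] at h
    rcases le_total (s - 1) (1 / 4) with h5 | h5
    · have := fa (s - 1) ⟨by linarith [hs.1], h5⟩
      linarith [h.2]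
    · rcases le_total (s - 1) (1 / 2) with h6 | h6
      · have := fb (s - 1) ⟨h5, h6⟩
        linarith [h.2]
      · have := fc (s - 1) ⟨h6, by linarith [hs.2]⟩
        linarith [h.1]

end Pool.Agent.HE
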