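import Pool.Agent.HE.SBas
import Pool.Agent.HE.Cross
import Pool.Agent.HE.NoSep

set_option autoImplicit false

/-!
HE-SSeg. Segments of the unstable axis contained in the closure of the branch.

`seg_full`: a gap of the segment from `0` to `x0` would be a crosscut of the set `Φ '' XX γ`, which would separate
the plane by `cross`, but its backward iterates are bounded.
`unst_seg`: the iterates of points of the visited quadrant leave the box along the unstable axis, so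
the axis contains a point of the branch closure on the right side.
-/

namespace Pool.Agent.HE

open Set Topology Filter

variable {F Φ : ℂ ≃ₜ ℂ} {γ : ℝ → ℂ} {lam : ℝ} {ell : ℝ → ℝ → ℂ} {r : ℂ} {e h sm sp lm lp : ℝ}

private theorem symm_mem_xx (C : Ctx F γ lam ell) {w : ℂ} (hw : w ∈ XX γ) : F.symm w ∈ XX γ := by
  rw [← xx_image C] at hw
  obtain ⟨x, hx, rfl⟩ := hw
  rw [F.symm_apply_apply]
  exact hx

private theorem map_mem_xx (C : Ctx F γ lam ell) {w : ℂ} (hw : w ∈ XX γ) : F w ∈ XX γ := by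
  rw [← xx_image C]
  exact mem_image_of_mem _ hw

theorem seg_full (C : Ctx F γ lam ell) (ch : Chart F Φ r e h sm sp lm lp) (hr : r ∈ AA γ)
    {x0 : ℝ} (h0 : x0 ≠ 0) (hx : |x0| < h) (hm : Φ.symm (x0 : ℂ) ∈ XX γ) {θ : ℝ}
    (hθ : θ ∈ Icc (0 : ℝ) 1) : Φ.symm ((θ * x0 : ℝ) : ℂ) ∈ XX γ := by
  by_contra hcon
  set ψ : ℝ → ℂ := fun s => ((s * x0 : ℝ) : ℂ) with hψ
  have hψc : Continuous ψ := by
    rw [hψ]
    fun_prop
  set Y : Set ℂ := Φ '' XX γ with hY
  have hYc : IsCompact Y := (xx_compact C).image Φ.continuous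
  have hYn : IsConnected Y := (xx_conn C).image Φ Φ.continuous.continuousOn
  have hmemY : ∀ z, z ∈ Y ↔ Φ.symm z ∈ XX γ := by
    intro z
    constructor
    · rintro ⟨w, hw, rfl⟩
      rw [Φ.symm_apply_apply]
      exact hw
    · intro hz
      exact ⟨Φ.symm z, hz, Φ.apply_symm_apply z⟩
  have hψ0 : ψ 0 ∈ Y := by
    refine ⟨r, aa_sub C hr, ?_⟩
    rw [ch.zero, hψ]
    simp
  have hψ1 : ψ 1 ∈ Y := by
    rw [hmemY, hψ]
    simpa using hm
  have hψθ : ψ θ ∉ Y := by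
    rw [hmemY]
    exact hcon
  have hSc : IsClosed {s : ℝ | ψ s ∈ Y} := hYc.isClosed.preimage hψc
  have c1 : IsCompact ({s : ℝ | ψ s ∈ Y} ∩ Icc 0 θ) := isCompact_Icc.inter_left hSc
  have c2 : IsCompact ({s : ℝ | ψ s ∈ Y} ∩ Icc θ 1) := isCompact_Icc.inter_left hSc
  obtain ⟨s1, ⟨hs1Y, hs1I⟩, hs1⟩ := c1.exists_isGreatest ⟨0, hψ0, le_refl _, hθ.1⟩
  obtain ⟨s2, ⟨hs2Y, hs2I⟩, hs2⟩ := c2.exists_isLeast ⟨1, hψ1, hθ.2, le_refl _⟩
  have h10 : s1 < θ := by
    rcases lt_or_eq_of_le hs1I.2 with h | h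
    · exact h
    · exact absurd (h ▸ hs1Y) hψθ
  have h02 : θ < s2 := by
    rcases lt_or_eq_of_le hs2I.1 with h | h
    · exact h
    · exact absurd (h ▸ hs2Y) hψθ
  have hfree : ∀ s ∈ Ioo s1 s2, ψ s ∉ Y := by
    intro s hs hsY
    rcases le_total s θ with h | h
    · have := hs1 ⟨hsY, hs1I.1.trans hs.1.le, h⟩
      exact absurd this (not_le.mpr hs.1)
    · have := hs2 ⟨hsY, h, hs.2.le.trans hs2I.2⟩
      exact absurd this (not_le.mpr hs.2)
  have hinj : InjOn ψ (Ioo s1 s2) := by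
    intro a _ b _ hab
    have hab' : ((a * x0 : ℝ) : ℂ) = ((b * x0 : ℝ) : ℂ) := hab
    have h1 : a * x0 = b * x0 := by exact_mod_cast hab'
    exact mul_right_cancel₀ h0 h1
  have hd : HasDerivAt ψ (x0 : ℂ) θ := by
    have h1 : HasDerivAt (fun s : ℝ => s * x0) x0 θ := by
      simpa using (hasDerivAt_id θ).mul_const x0
    exact h1.ofReal_comp
  have hns := cross hYc hYn h10 h02 hψc.continuousOn hinj hs1Y hs2Y hfree hd
    (by exact_mod_cast h0)
  apply hns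
  have hG := NO_conj C.no Φ
  have hsc : Function.Semiconj Φ (F.symm : ℂ → ℂ)
      (((Φ.symm.trans F).trans Φ).symm : ℂ → ℂ) := by
    intro z
    simp
  obtain ⟨R, hR⟩ := hYc.isBounded.exists_norm_le
  refine nonsep_of_NO hG (hYc.union (isCompact_Icc.image hψc)) (R := max R |x0|) ?_
  intro k z hz
  rcases hz with hz | ⟨s, hs, rfl⟩
  · refine le_trans (hR _ ?_) (le_max_left _ _)
    obtain ⟨w, hw, rfl⟩ := hz
    have h1 := (hsc.iterate_right k) w
    rw [← h1]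
    have h2 : MapsTo (F.symm : ℂ → ℂ) (XX γ) (XX γ) := fun w hw => symm_mem_xx C hw
    exact mem_image_of_mem _ (h2.iterate k hw)
  · refine le_trans ?_ (le_max_right _ _)
    have h1 := (hsc.iterate_right k) (Φ.symm (ψ s))
    rw [Φ.apply_symm_apply] at h1
    rw [← h1]
    have hs0 : 0 ≤ s := hs1I.1.trans hs.1
    have hs1' : s ≤ 1 := hs.2.trans hs2I.2
    have hre : (Φ (Φ.symm (ψ s))).re = s * x0 := by
      rw [Φ.apply_symm_apply, hψ]
      simp
    have him : (Φ (Φ.symm (ψ s))).im = 0 := by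
      rw [Φ.apply_symm_apply, hψ]
      simp
    have habs : |s * x0| ≤ |x0| := by
      rw [abs_mul, abs_of_nonneg hs0]
      nlinarith [abs_nonneg x0]
    obtain ⟨g1, g2⟩ := ch.u_back him (by rw [hre]; exact lt_of_le_of_lt habs hx) k
    rw [hre] at g2
    refine le_trans (Complex.norm_le_abs_re_add_abs_im _) ?_
    rw [g1, abs_zero, add_zero]
    exact g2.trans habs

private theorem orb (ch : Chart F Φ r e h sm sp lm lp) {h' i : ℝ} (hh' : h' ≤ h)
    {z : ℂ} (hz1 : 0 < i * (Φ z).re) (hz2 : |(Φ z).im| < h) (n : ℕ)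
    (hn : ∀ k < n, |(Φ ((F : ℂ → ℂ)^[k] z)).re| < h') :
    |(Φ ((F : ℂ → ℂ)^[n] z)).im| ≤ |(Φ z).im| ∧
      sm ^ n * |(Φ z).re| ≤ |(Φ ((F : ℂ → ℂ)^[n] z)).re| ∧
      (e = 1 → 0 < i * (Φ ((F : ℂ → ℂ)^[n] z)).re) := by
  induction n with
  | zero =>
    refine ⟨le_refl _, ?_, fun _ => hz1⟩
    rw [pow_zero, one_mul]
    exact le_refl _
  | succ n ih =>
    obtain ⟨a1, a2, a3⟩ := ih (fun k hk => hn k (hk.trans (Nat.lt_succ_self n)))
    have b1 : |(Φ ((F : ℂ → ℂ)^[n] z)).re| < h := lt_of_lt_of_le (hn n (Nat.lt_succ_self n)) hh'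
    have b2 : |(Φ ((F : ℂ → ℂ)^[n] z)).im| < h := lt_of_le_of_lt a1 hz2
    rw [Function.iterate_succ_apply']
    have c1 := ch.im_up _ b1 b2
    have c2 := ch.re_low _ b1 b2
    have c3 := ch.re_sign _ b1 b2
    have hsm := ch.hsm
    have hlp := ch.hlp
    have hz0 : (Φ z).re ≠ 0 := by
      intro h0
      rw [h0, mul_zero] at hz1
      exact lt_irrefl _ hz1
    have hz0' : 0 < |(Φ z).re| := abs_pos.mpr hz0
    refine ⟨?_, ?_, ?_⟩
    · nlinarith [abs_nonneg (Φ ((F : ℂ → ℂ)^[n] z)).im]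
    · calc sm ^ (n + 1) * |(Φ z).re| = sm * (sm ^ n * |(Φ z).re|) := by ring
        _ ≤ sm * |(Φ ((F : ℂ → ℂ)^[n] z)).re| := mul_le_mul_of_nonneg_left a2 (by linarith)
        _ ≤ _ := c2
    · intro he
      have d1 := a3 he
      rw [he, one_mul] at c3
      have d2 : 0 < |(Φ ((F : ℂ → ℂ)^[n] z)).re| :=
        lt_of_lt_of_le (mul_pos (pow_pos (by linarith) n) hz0') a2
      have d3 : 0 < |(Φ (F ((F : ℂ → ℂ)^[n] z))).re| :=
        lt_of_lt_of_le (mul_pos (by linarith) d2) c2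
      have d4 : (Φ ((F : ℂ → ℂ)^[n] z)).re ≠ 0 := abs_pos.mp d2
      have d5 : (Φ (F ((F : ℂ → ℂ)^[n] z))).re ≠ 0 := abs_pos.mp d3
      have d6 : 0 < (Φ ((F : ℂ → ℂ)^[n] z)).re * (Φ (F ((F : ℂ → ℂ)^[n] z))).re :=
        lt_of_le_of_ne c3 (mul_ne_zero d4 d5).symm
      by_contra hc
      push Not at hc
      have hi : i ≠ 0 := by
        rintro rfl
        rw [zero_mul] at d1
        exact lt_irrefl _ d1
      have d7 : 0 < i ^ 2 * ((Φ ((F : ℂ → ℂ)^[n] z)).re * (Φ (F ((F : ℂ → ℂ)^[n] z))).re) :=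
        mul_pos (by positivity) d6
      have d8 : i ^ 2 * ((Φ ((F : ℂ → ℂ)^[n] z)).re * (Φ (F ((F : ℂ → ℂ)^[n] z))).re) =
        (i * (Φ ((F : ℂ → ℂ)^[n] z)).re) * (i * (Φ (F ((F : ℂ → ℂ)^[n] z))).re) := by ring
      rw [d8] at d7
      have d9 := mul_nonpos_of_nonneg_of_nonpos d1.le hc
      linarith

private theorem iter_mem_xx (C : Ctx F γ lam ell) {w : ℂ} (hw : w ∈ XX γ) (k : ℕ) :
    (F : ℂ → ℂ)^[k] w ∈ XX γ := by
  have h2 : MapsTo (F : ℂ → ℂ) (XX γ) (XX γ) := fun w hw => map_mem_xx C hw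
  exact h2.iterate k hw

private theorem exit (C : Ctx F γ lam ell) (ch : Chart F Φ r e h sm sp lm lp)
    {i j : ℝ} (V : Vis Φ γ i j) (hsp : 1 < sp) {ε : ℝ} (hε : 0 < ε) :
    ∃ w ∈ XX γ, |(Φ w).im| ≤ ε ∧ h / (2 * sp) ≤ |(Φ w).re| ∧ |(Φ w).re| ≤ h / 2 ∧
      (e = 1 → 0 ≤ i * (Φ w).re) := by
  have hh := ch.hh
  have hsm := ch.hsm
  have hlp := ch.hlp
  set h' : ℝ := h / (2 * sp) with hh'
  have hp : 0 < h' := by positivity
  have hle : h' ≤ h / 2 := by
    rw [hh']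
    exact div_le_div_of_nonneg_left hh.le (by norm_num) (by linarith)
  have hle2 : h' ≤ h := by linarith
  obtain ⟨t, ht, v1, v2, v3, v4⟩ := V (min h' (min ε h)) (lt_min hp (lt_min hε hh))
  have v3' : |(Φ (γ t)).re| < h' := lt_of_lt_of_le v3 (min_le_left _ _)
  have v4' : |(Φ (γ t)).im| < ε :=
    lt_of_lt_of_le v4 ((min_le_right _ _).trans (min_le_left _ _))
  have v4'' : |(Φ (γ t)).im| < h :=
    lt_of_lt_of_le v4 ((min_le_right _ _).trans (min_le_right _ _))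
  have hre0 : (Φ (γ t)).re ≠ 0 := by
    intro h0
    rw [h0, mul_zero] at v1
    exact lt_irrefl _ v1
  have hre : 0 < |(Φ (γ t)).re| := abs_pos.mpr hre0
  have hex : ∃ m, h' ≤ |(Φ ((F : ℂ → ℂ)^[m] (γ t))).re| := by
    by_contra hc
    push Not at hc
    obtain ⟨n, hn⟩ := pow_unbounded_of_one_lt (h' / |(Φ (γ t)).re|) hsm
    have h1 := (orb ch hle2 v1 v4'' n (fun k _ => hc k)).2.1
    rw [div_lt_iff₀ hre] at hn
    linarith [hc n]
  classical
  set m := Nat.find hex with hmdef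
  have hm := Nat.find_spec hex
  rw [← hmdef] at hm
  have hmin : ∀ k < m, |(Φ ((F : ℂ → ℂ)^[k] (γ t))).re| < h' := by
    intro k hk
    exact not_le.mp (Nat.find_min hex hk)
  obtain ⟨o1, o2, o3⟩ := orb ch hle2 v1 v4'' m hmin
  have hm0 : m ≠ 0 := by
    intro h0
    rw [h0] at hm
    exact absurd hm (not_le.mpr v3')
  obtain ⟨k, hk⟩ := Nat.exists_eq_succ_of_ne_zero hm0
  have hkm : k < m := by omega
  obtain ⟨p1, p2, p3⟩ := orb ch hle2 v1 v4'' k (fun l hl => hmin l (hl.trans hkm))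
  refine ⟨(F : ℂ → ℂ)^[m] (γ t), iter_mem_xx C (mem_xx C ht.le) m, (o1.trans v4'.le), hm, ?_,
    fun he => (o3 he).le⟩
  have q1 := ch.re_up _ (lt_of_lt_of_le (hmin k hkm) hle2) (lt_of_le_of_lt p1 v4'')
  rw [hk, Function.iterate_succ_apply']
  refine q1.trans ?_
  have q2 : sp * |(Φ ((F : ℂ → ℂ)^[k] (γ t))).re| ≤ sp * h' :=
    mul_le_mul_of_nonneg_left (hmin k hkm).le (by linarith)
  refine q2.trans (le_of_eq ?_)
  rw [hh']
  field_simp

private theorem limit_pt (C : Ctx F γ lam ell) (ch : Chart F Φ r e h sm sp lm lp)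
    {i j : ℝ} (V : Vis Φ γ i j) (hsp : 1 < sp) :
    ∃ w ∈ XX γ, (Φ w).im = 0 ∧ (Φ w).re ≠ 0 ∧ |(Φ w).re| < h ∧ (e = 1 → 0 ≤ i * (Φ w).re) := by
  have hh := ch.hh
  set K : Set ℂ := XX γ ∩ {w | h / (2 * sp) ≤ |(Φ w).re| ∧ |(Φ w).re| ≤ h / 2 ∧
    (e = 1 → 0 ≤ i * (Φ w).re)} with hK
  have cre : Continuous fun w : ℂ => (Φ w).re := Complex.continuous_re.comp Φ.continuous
  have cim : Continuous fun w : ℂ => (Φ w).im := Complex.continuous_im.comp Φ.continuous
  have hcl : IsClosed {w : ℂ | h / (2 * sp) ≤ |(Φ w).re| ∧ |(Φ w).re| ≤ h / 2 ∧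
      (e = 1 → 0 ≤ i * (Φ w).re)} := by
    have k1 : IsClosed {w : ℂ | h / (2 * sp) ≤ |(Φ w).re|} := isClosed_le continuous_const cre.abs
    have k2 : IsClosed {w : ℂ | |(Φ w).re| ≤ h / 2} := isClosed_le cre.abs continuous_const
    have k3 : IsClosed {w : ℂ | e = 1 → 0 ≤ i * (Φ w).re} := by
      by_cases he : e = 1
      · have : {w : ℂ | e = 1 → 0 ≤ i * (Φ w).re} = {w : ℂ | 0 ≤ i * (Φ w).re} := by
          ext w
          simp [he]
        rw [this]
        exact isClosed_le continuous_const (continuous_const.mul cre)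
      · have : {w : ℂ | e = 1 → 0 ≤ i * (Φ w).re} = univ := by
          ext w
          simp [he]
        rw [this]
        exact isClosed_univ
    exact (k1.inter (k2.inter k3))
  have hKc : IsCompact K := (xx_compact C).inter_right hcl
  have hKn : K.Nonempty := by
    obtain ⟨w, w1, w2, w3, w4, w5⟩ := exit C ch V hsp one_pos
    exact ⟨w, w1, w3, w4, w5⟩
  obtain ⟨w0, hw0, hmin⟩ := hKc.exists_isMinOn hKn cim.abs.continuousOn
  have him : (Φ w0).im = 0 := by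
    by_contra hne
    have hp : 0 < |(Φ w0).im| := abs_pos.mpr hne
    obtain ⟨w, w1, w2, w3, w4, w5⟩ := exit C ch V hsp (half_pos hp)
    have := hmin (show w ∈ K from ⟨w1, w3, w4, w5⟩)
    have h2 : |(Φ w0).im| ≤ |(Φ w).im| := this
    linarith
  obtain ⟨g1, g2, g3, g4⟩ := hw0
  refine ⟨w0, g1, him, ?_, by linarith, g4⟩
  have : 0 < h / (2 * sp) := by positivity
  exact abs_pos.mp (lt_of_lt_of_le this g2)

private theorem from_pt (C : Ctx F γ lam ell) (ch : Chart F Φ r e h sm sp lm lp) (hr : r ∈ AA γ)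
    {i : ℝ} (hi : i = 1 ∨ i = -1) {w : ℂ} (hw : w ∈ XX γ) (h1 : (Φ w).im = 0)
    (h2 : |(Φ w).re| < h) (h3 : 0 < i * (Φ w).re) :
    ∃ a > 0, ∀ x, 0 < x → x < a → Φ.symm ⟨i * x, 0⟩ ∈ XX γ := by
  have hx0 : (Φ w).re ≠ 0 := by
    intro h0
    rw [h0, mul_zero] at h3
    exact lt_irrefl _ h3
  have hw' : Φ w = (((Φ w).re : ℝ) : ℂ) := by
    apply Complex.ext
    · simp
    · simp [h1]
  have hm : Φ.symm (((Φ w).re : ℝ) : ℂ) ∈ XX γ := by
    rw [← hw', Φ.symm_apply_apply]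
    exact hw
  refine ⟨i * (Φ w).re, h3, fun x hx hxa => ?_⟩
  have hθ : x / (i * (Φ w).re) ∈ Icc (0 : ℝ) 1 :=
    ⟨div_nonneg hx.le h3.le, (div_le_one h3).mpr hxa.le⟩
  have := seg_full C ch hr hx0 h2 hm hθ
  have hii : i * i = 1 := by
    rcases hi with rfl | rfl <;> norm_num
  have hi0 : i ≠ 0 := by
    rintro rfl
    norm_num at hii
  have he : x / (i * (Φ w).re) * (Φ w).re = i * x := by
    field_simp
    rw [pow_two, hii]
  rw [he] at this
  exact this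

theorem unst_seg (C : Ctx F γ lam ell) (ch : Chart F Φ r e h sm sp lm lp) (hr : r ∈ AA γ)
    {i j : ℝ} (hi : i = 1 ∨ i = -1) (hj : j = 1 ∨ j = -1) (V : Vis Φ γ i j) :
    ∃ a > 0, ∀ x, 0 < x → x < a → Φ.symm ⟨i * x, 0⟩ ∈ XX γ := by
  have _ := hj
  have hh := ch.hh
  have hsm := ch.hsm
  have hsp : 1 < sp := by
    obtain ⟨t, ht, v1, v2, v3, v4⟩ := V h hh
    have hre0 : (Φ (γ t)).re ≠ 0 := by
      intro h0
      rw [h0, mul_zero] at v1
      exact lt_irrefl _ v1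
    have hre : 0 < |(Φ (γ t)).re| := abs_pos.mpr hre0
    have g1 := ch.re_low _ v3 v4
    have g2 := ch.re_up _ v3 v4
    have g3 : sm ≤ sp := le_of_mul_le_mul_right (g1.trans g2) hre
    linarith
  obtain ⟨w, w1, w2, w3, w4, w5⟩ := limit_pt C ch V hsp
  have hi0 : i ≠ 0 := by
    rcases hi with rfl | rfl <;> norm_num
  rcases lt_or_gt_of_ne (mul_ne_zero hi0 w3) with hneg | hpos
  · have he : e = -1 := by
      rcases ch.he with he | he
      · exact absurd (w5 he) (not_le.mpr hneg)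
      · exact he
    have hu := ch.u_back w2 w4 1
    simp only [Function.iterate_one] at hu
    obtain ⟨u1, u2⟩ := hu
    have b1 : |(Φ (F.symm w)).re| < h := lt_of_le_of_lt u2 w4
    have b2 : |(Φ (F.symm w)).im| < h := by
      rw [u1, abs_zero]
      exact hh
    have g1 := ch.re_sign _ b1 b2
    have g2 := ch.re_up _ b1 b2
    rw [F.apply_symm_apply] at g1 g2
    have hne : (Φ (F.symm w)).re ≠ 0 := by
      intro h0
      rw [h0, abs_zero, mul_zero] at g2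
      exact w3 (abs_eq_zero.mp (le_antisymm g2 (abs_nonneg _)))
    refine from_pt C ch hr hi (symm_mem_xx C w1) u1 b1 ?_
    rw [he] at g1
    by_contra hc
    push Not at hc
    have hc' : i * (Φ (F.symm w)).re < 0 := lt_of_le_of_ne hc (mul_ne_zero hi0 hne)
    have k1 : 0 < (i * (Φ (F.symm w)).re) * (i * (Φ w).re) := mul_pos_of_neg_of_neg hc' hneg
    have hii : i * i = 1 := by
      rcases hi with rfl | rfl <;> norm_num
    have k2 : (i * (Φ (F.symm w)).re) * (i * (Φ w).re) = (Φ (F.symm w)).re * (Φ w).re := by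
      calc (i * (Φ (F.symm w)).re) * (i * (Φ w).re) = (i * i) * ((Φ (F.symm w)).re * (Φ w).re) := by
            ring
        _ = _ := by rw [hii, one_mul]
    rw [k2] at k1
    linarith
  · exact from_pt C ch hr hi w1 w2 w4 hpos

end Pool.Agent.HE
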