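import Pool.Agent.HE.SRat
import Pool.Agent.HE.SSeg
import Pool.Agent.HE.SArc
import Pool.Agent.HE.SArcP
import Pool.Agent.HE.SClose

set_option autoImplicit false

/-!
HE-SCurve. The closed curve around a saddle of the limit set.
-/

namespace Pool.Agent.HE

open Set Topology Filter

variable {F Φ : ℂ ≃ₜ ℂ} {γ : ℝ → ℂ} {lam : ℝ} {ell : ℝ → ℝ → ℂ} {r : ℂ} {e h sm sp lm lp : ℝ}

private theorem sc_lp_pos (ch : Chart F Φ r e h sm sp lm lp) : 0 < lp := by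
  have hh := ch.hh
  have h1 := ch.im_low (Φ.symm ⟨0, h / 2⟩)
  have h2 := ch.im_up (Φ.symm ⟨0, h / 2⟩)
  rw [Φ.apply_symm_apply] at h1 h2
  have a1 : |((⟨0, h / 2⟩ : ℂ)).re| < h := by
    show |(0 : ℝ)| < h
    rw [abs_zero]
    exact hh
  have a2 : |((⟨0, h / 2⟩ : ℂ)).im| = h / 2 := by
    show |h / 2| = h / 2
    exact abs_of_pos (by linarith)
  have a3 : |((⟨0, h / 2⟩ : ℂ)).im| < h := by
    rw [a2]
    linarith
  have h1' := h1 a1 a3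
  have h2' := h2 a1 a3
  rw [a2] at h1' h2'
  have hlm := ch.hlm
  have h3 : lm * (h / 2) ≤ lp * (h / 2) := h1'.trans h2'
  have h4 : lm ≤ lp := le_of_mul_le_mul_right h3 (by linarith)
  linarith

theorem vis_some (C : Ctx F γ lam ell) (ch : Chart F Φ r e h sm sp lm lp) (hr : r ∈ AA γ)
    (hu : ∀ t > 0, |(Φ (γ t)).re| < h → |(Φ (γ t)).im| < h → (Φ (γ t)).im ≠ 0) :
    ∃ i j : ℝ, (i = 1 ∨ i = -1) ∧ (j = 1 ∨ j = -1) ∧ Vis Φ γ i j := by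
  by_contra hcon
  push Not at hcon
  have hex : ∀ i j : ℝ, (i = 1 ∨ i = -1) → (j = 1 ∨ j = -1) → ∃ δ > 0, ∀ t > 0,
      0 < i * (Φ (γ t)).re → 0 < j * (Φ (γ t)).im → |(Φ (γ t)).re| < δ →
        ¬ |(Φ (γ t)).im| < δ := by
    intro i j hi hj
    have h1 := hcon i j hi hj
    unfold Vis at h1
    push Not at h1
    obtain ⟨δ, hδ, h2⟩ := h1
    exact ⟨δ, hδ, fun t ht a b c => not_lt.2 (h2 t ht a b c)⟩
  obtain ⟨d1, hd1, k1⟩ := hex 1 1 (Or.inl rfl) (Or.inl rfl)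
  obtain ⟨d2, hd2, k2⟩ := hex 1 (-1) (Or.inl rfl) (Or.inr rfl)
  obtain ⟨d3, hd3, k3⟩ := hex (-1) 1 (Or.inr rfl) (Or.inl rfl)
  obtain ⟨d4, hd4, k4⟩ := hex (-1) (-1) (Or.inr rfl) (Or.inr rfl)
  obtain ⟨d, hd, e1, e2, e3, e4, e5⟩ : ∃ d > 0, d ≤ d1 ∧ d ≤ d2 ∧ d ≤ d3 ∧ d ≤ d4 ∧ d ≤ h := by
    refine ⟨min d1 (min d2 (min d3 (min d4 h))), ?_, ?_, ?_, ?_, ?_, ?_⟩
    · exact lt_min hd1 (lt_min hd2 (lt_min hd3 (lt_min hd4 ch.hh)))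
    · exact min_le_left _ _
    · exact (min_le_right _ _).trans (min_le_left _ _)
    · exact (min_le_right _ _).trans ((min_le_right _ _).trans (min_le_left _ _))
    · exact (min_le_right _ _).trans ((min_le_right _ _).trans ((min_le_right _ _).trans
        (min_le_left _ _)))
    · exact (min_le_right _ _).trans ((min_le_right _ _).trans ((min_le_right _ _).trans
        (min_le_right _ _)))
  have hc : ContinuousAt (fun w => Φ w) r := Φ.continuous.continuousAt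
  rw [Metric.continuousAt_iff] at hc
  obtain ⟨η, hη, hc'⟩ := hc d hd
  obtain ⟨t, ht1, ht2⟩ := aa_acc hr 1 hη
  have ht0 : 0 < t := by linarith
  have hn : ‖Φ (γ t)‖ < d := by
    have h3 := hc' ht2
    rwa [ch.zero, dist_zero_right] at h3
  have hre : |(Φ (γ t)).re| < d := (Complex.abs_re_le_norm _).trans_lt hn
  have him : |(Φ (γ t)).im| < d := (Complex.abs_im_le_norm _).trans_lt hn
  have n1 : (Φ (γ t)).re ≠ 0 := s_axis C ch hr ht0.le (by linarith) (by linarith)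
  have n2 : (Φ (γ t)).im ≠ 0 := hu t ht0 (by linarith) (by linarith)
  rcases lt_or_gt_of_ne n1 with n1 | n1 <;> rcases lt_or_gt_of_ne n2 with n2 | n2
  · exact k4 t ht0 (by linarith) (by linarith) (by linarith) (by linarith)
  · exact k3 t ht0 (by linarith) (by linarith) (by linarith) (by linarith)
  · exact k2 t ht0 (by linarith) (by linarith) (by linarith) (by linarith)
  · exact k1 t ht0 (by linarith) (by linarith) (by linarith) (by linarith)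

theorem curve (C : Ctx F γ lam ell) (ch : Chart F Φ r e h sm sp lm lp) (hr : r ∈ AA γ)
    (hu : ∀ t > 0, |(Φ (γ t)).re| < h → |(Φ (γ t)).im| < h → (Φ (γ t)).im ≠ 0) {δ : ℝ}
    (hδ : 0 < δ) (hδh : δ ≤ h) :
    ∃ c : ℝ → ℂ, Closed1 c ∧ (∀ s, c s ≠ 0) ∧ (∀ s, |(c s).re| < δ ∧ |(c s).im| < δ) ∧
      ¬ PLog c ∧ (∃ s, Φ.symm (c s) ∈ XX γ) ∧ ∀ i j : ℝ, (i = 1 ∨ i = -1) → (j = 1 ∨ j = -1) →
        Vis Φ γ i j → ∃ a p α β, Quarter c a i j p ∧ Core F Φ (XX γ) a α β := by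
  have hlp0 : 0 < lp := sc_lp_pos ch
  have hlp1 := ch.hlp
  have hS : ∀ j : ℝ, (j = 1 ∨ j = -1) → ∃ s, 0 < s ∧ s < lp * δ ∧
      ∀ i : ℝ, (i = 1 ∨ i = -1) → Vis Φ γ i j → Φ.symm ⟨0, j * s⟩ ∈ XX γ := by
    intro j hj
    by_cases hV : ∃ i : ℝ, (i = 1 ∨ i = -1) ∧ Vis Φ γ i j
    · obtain ⟨i, hi, V⟩ := hV
      obtain ⟨s, hs, hs1, hs2⟩ := stab_pt C ch hr hi hj V (mul_pos hlp0 hδ)
      exact ⟨s, hs, hs1, fun _ _ _ => aa_sub C hs2⟩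
    · have h1 := mul_pos hlp0 hδ
      exact ⟨lp * δ / 2, by linarith, by linarith, fun i hi V => absurd ⟨i, hi, V⟩ hV⟩
  have hU : ∀ i : ℝ, (i = 1 ∨ i = -1) → ∃ u, 0 < u ∧ u < δ ∧
      ∀ j : ℝ, (j = 1 ∨ j = -1) → Vis Φ γ i j →
        ∀ x, 0 < x → x ≤ u → Φ.symm ⟨i * x, 0⟩ ∈ XX γ := by
    intro i hi
    by_cases hV : ∃ j : ℝ, (j = 1 ∨ j = -1) ∧ Vis Φ γ i j
    · obtain ⟨j, hj, V⟩ := hV
      obtain ⟨a, ha, ha1⟩ := unst_seg C ch hr hi hj V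
      have hm : 0 < min a δ := lt_min ha hδ
      have hm1 := min_le_left a δ
      have hm2 := min_le_right a δ
      exact ⟨min a δ / 2, by linarith, by linarith, fun _ _ _ x hx hx1 =>
        ha1 x hx (by linarith)⟩
    · exact ⟨δ / 2, by linarith, by linarith, fun j hj V => absurd ⟨j, hj, V⟩ hV⟩
  have hQ : ∀ i j : ℝ, (i = 1 ∨ i = -1) → (j = 1 ∨ j = -1) → ∀ u s : ℝ, 0 < u → u < δ → 0 < s →
      s < lp * δ → (Vis Φ γ i j → Φ.symm ⟨0, j * s⟩ ∈ XX γ) →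
      (Vis Φ γ i j → ∀ x, 0 < x → x ≤ u → Φ.symm ⟨i * x, 0⟩ ∈ XX γ) →
      ∃ c, QPath i j δ u s c ∧ (Vis Φ γ i j → ∃ α β, Core F Φ (XX γ) c α β) := by
    intro i j hi hj u s hu0 hu1 hs0 hs1 m1 m2
    have hs2 : s / lp < δ := by
      rw [div_lt_iff₀ hlp0]
      linarith
    have hs3 : s < δ := by nlinarith
    by_cases V : Vis Φ γ i j
    · rcases ch.he with he | he
      · subst he
        obtain ⟨c, hc, hc'⟩ := arc_pos C ch hi hj V hδh hu0 hu1 hs0 hs2 (m1 V) (m2 V)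
        exact ⟨c, hc, fun _ => hc'⟩
      · subst he
        obtain ⟨c, hc, hc'⟩ := arc_neg ch hi hj hδh hu0 hu1 hs0 hs3 (m1 V) (m2 V u hu0 le_rfl)
        exact ⟨c, hc, fun _ => hc'⟩
    · exact ⟨_, lpath_q hi hj hu0 hu1 hs0 hs3, fun V' => absurd V' V⟩
  obtain ⟨s1, hs1, hs1', ms1⟩ := hS 1 (Or.inl rfl)
  obtain ⟨s2, hs2, hs2', ms2⟩ := hS (-1) (Or.inr rfl)
  obtain ⟨u1, hu1, hu1', mu1⟩ := hU 1 (Or.inl rfl)
  obtain ⟨u2, hu2, hu2', mu2⟩ := hU (-1) (Or.inr rfl)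
  obtain ⟨a, qa, ca⟩ := hQ 1 1 (Or.inl rfl) (Or.inl rfl) u1 s1 hu1 hu1' hs1 hs1'
    (ms1 1 (Or.inl rfl)) (mu1 1 (Or.inl rfl))
  obtain ⟨b, qb, cb⟩ := hQ (-1) 1 (Or.inr rfl) (Or.inl rfl) u2 s1 hu2 hu2' hs1 hs1'
    (ms1 (-1) (Or.inr rfl)) (mu2 1 (Or.inl rfl))
  obtain ⟨c, qc, cc⟩ := hQ (-1) (-1) (Or.inr rfl) (Or.inr rfl) u2 s2 hu2 hu2' hs2 hs2'
    (ms2 (-1) (Or.inr rfl)) (mu2 (-1) (Or.inr rfl))
  obtain ⟨d, qd, cd⟩ := hQ 1 (-1) (Or.inl rfl) (Or.inr rfl) u1 s2 hu1 hu1' hs2 hs2'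
    (ms2 1 (Or.inl rfl)) (mu1 (-1) (Or.inr rfl))
  obtain ⟨K, k1, k2, k3, k4, ka, kb, kc, kd⟩ := closeup qa qb qc qd
  have hpt : ∀ (w : ℝ → ℂ) (i j p s : ℝ), Quarter K w i j p → w 0 = ⟨0, j * s⟩ →
      Φ.symm ⟨0, j * s⟩ ∈ XX γ → ∃ s, Φ.symm (K s) ∈ XX γ := by
    intro w i j p s hq h0 hm
    rcases hq.par with hp | hp
    · refine ⟨p, ?_⟩
      rw [hp p ⟨le_rfl, by linarith⟩, sub_self, mul_zero, h0]
      exact hm
    · refine ⟨p + 1 / 4, ?_⟩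
      rw [hp (p + 1 / 4) ⟨by linarith, le_rfl⟩]
      have h5 : (1 : ℝ) - 4 * (p + 1 / 4 - p) = 0 := by ring
      rw [h5, h0]
      exact hm
  refine ⟨K, k1, k2, k3, k4, ?_, ?_⟩
  · obtain ⟨i, j, hi, hj, V⟩ := vis_some C ch hr hu
    rcases hi with rfl | rfl <;> rcases hj with rfl | rfl
    · exact hpt a _ _ _ _ ka qa.c0 (ms1 1 (Or.inl rfl) V)
    · exact hpt d _ _ _ _ kd qd.c0 (ms2 1 (Or.inl rfl) V)
    · exact hpt b _ _ _ _ kb qb.c0 (ms1 (-1) (Or.inr rfl) V)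
    · exact hpt c _ _ _ _ kc qc.c0 (ms2 (-1) (Or.inr rfl) V)
  · intro i j hi hj V
    rcases hi with rfl | rfl <;> rcases hj with rfl | rfl
    · obtain ⟨α, β, hαβ⟩ := ca V
      exact ⟨a, _, α, β, ka, hαβ⟩
    · obtain ⟨α, β, hαβ⟩ := cd V
      exact ⟨d, _, α, β, kd, hαβ⟩
    · obtain ⟨α, β, hαβ⟩ := cb V
      exact ⟨b, _, α, β, kb, hαβ⟩
    · obtain ⟨α, β, hαβ⟩ := cc V
      exact ⟨c, _, α, β, kc, hαβ⟩

end Pool.Agent.HE
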