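import Pool.Agent.HE.Bas

set_option autoImplicit false

/-!
HE-SDef: definitions for the local analysis at a saddle of the limit set.
-/

namespace Pool.Agent.HE

open Set Topology Filter

/-- the branch visits the quadrant `(i, j)` (`i, j = ± 1`) of the chart arbitrarily near `0` -/
def Vis (Φ : ℂ ≃ₜ ℂ) (γ : ℝ → ℂ) (i j : ℝ) : Prop :=
  ∀ δ > 0, ∃ t > 0, 0 < i * (Φ (γ t)).re ∧ 0 < j * (Φ (γ t)).im ∧ |(Φ (γ t)).re| < δ ∧
    |(Φ (γ t)).im| < δ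

/-- truncation to `[0, 1]` -/
noncomputable def clp (x : ℝ) : ℝ := max 0 (min 1 x)

/-- a path in the closed quadrant `(i, j)` from the point `(0, j s)` to the point `(i u, 0)` -/
structure QPath (i j δ u s : ℝ) (c : ℝ → ℂ) : Prop where
  cont : Continuous c
  quad : ∀ x ∈ Icc (0 : ℝ) 1, 0 ≤ i * (c x).re ∧ 0 ≤ j * (c x).im
  small : ∀ x ∈ Icc (0 : ℝ) 1, |(c x).re| < δ ∧ |(c x).im| < δ
  ne : ∀ x ∈ Icc (0 : ℝ) 1, c x ≠ 0
  c0 : c 0 = ⟨0, j * s⟩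
  c1 : c 1 = ⟨i * u, 0⟩

/-- the part of the path in the open quadrant is disjoint from its image, outside `X` -/
structure Core (F Φ : ℂ ≃ₜ ℂ) (X : Set ℂ) (c : ℝ → ℂ) (α β : ℝ) : Prop where
  h0 : 0 ≤ α
  lt : α < β
  h1 : β ≤ 1
  ma : Φ.symm (c α) ∈ X
  mb : Φ.symm (c β) ∈ X
  outer : ∀ x ∈ Icc (0 : ℝ) 1, (x ≤ α ∨ β ≤ x) → (c x).re * (c x).im = 0
  free : ∀ x ∈ Ioo α β, ∀ y ∈ Ioo α β, F (Φ.symm (c x)) = Φ.symm (c y) → Φ.symm (c y) ∈ X

/-- the closed curve `C` is the path `a` on the quarter `[p, p + 1/4]` and outside the open quadrant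
`(i, j)` elsewhere -/
structure Quarter (C a : ℝ → ℂ) (i j p : ℝ) : Prop where
  par : (∀ s ∈ Icc p (p + 1 / 4), C s = a (4 * (s - p))) ∨
    (∀ s ∈ Icc p (p + 1 / 4), C s = a (1 - 4 * (s - p)))
  out : ∀ s ∈ Icc (p + 1 / 4) (p + 1), ¬ (0 < i * (C s).re ∧ 0 < j * (C s).im)

lemma clp_cont : Continuous clp := by
  unfold clp
  fun_prop

lemma clp_nonneg (x : ℝ) : 0 ≤ clp x := le_max_left _ _

lemma clp_le_one (x : ℝ) : clp x ≤ 1 := max_le zero_le_one (min_le_left _ _)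

lemma clp_of_nonpos {x : ℝ} (h : x ≤ 0) : clp x = 0 := by
  unfold clp
  rw [min_eq_right (by linarith), max_eq_left h]

lemma clp_of_one_le {x : ℝ} (h : 1 ≤ x) : clp x = 1 := by
  unfold clp
  rw [min_eq_left h, max_eq_right zero_le_one]

lemma clp_of_mem {x : ℝ} (h0 : 0 ≤ x) (h1 : x ≤ 1) : clp x = x := by
  unfold clp
  rw [min_eq_right h1, max_eq_right h0]

end Pool.Agent.HE
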