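import Pool.Agent.HE.SBas

set_option autoImplicit false

/-!
HE-SRat. Backward iterates of points of a visited quadrant; points of the limit set on the stable axis.

`vis_ratio`: the backward orbit of a point of the branch near `0` in the visited quadrant leaves the
strip `|im| ≤ lp * s` with `lp * s < |im| < s / lp` and still small `|re|`. `stab_pt`: limit points of such
points are in the limit set and on the stable axis.
-/

namespace Pool.Agent.HE

open Set Topology Filter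

variable {F Φ : ℂ ≃ₜ ℂ} {γ : ℝ → ℂ} {lam : ℝ} {ell : ℝ → ℝ → ℂ} {r : ℂ} {e h sm sp lm lp : ℝ}

private theorem lp_ge (ch : Chart F Φ r e h sm sp lm lp) : lm ≤ lp := by
  have hh := ch.hh
  have e1 : Φ (Φ.symm ⟨0, h / 2⟩) = ⟨0, h / 2⟩ := Φ.apply_symm_apply _
  have a1 : |(Φ (Φ.symm ⟨0, h / 2⟩)).re| < h := by
    rw [e1]
    simpa using hh
  have a2 : |(Φ (Φ.symm ⟨0, h / 2⟩)).im| < h := by
    rw [e1]
    show |h / 2| < h
    rw [abs_of_pos (half_pos hh)]
    linarith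
  have b1 := ch.im_low _ a1 a2
  have b2 := ch.im_up _ a1 a2
  have b3 : |(Φ (Φ.symm ⟨0, h / 2⟩)).im| = h / 2 := by
    rw [e1]
    exact abs_of_pos (half_pos hh)
  rw [b3] at b1 b2
  have b4 := b1.trans b2
  exact le_of_mul_le_mul_right b4 (half_pos hh)

private theorem sign_aux {i x y : ℝ} (hi : i = 1 ∨ i = -1) (hx : 0 < i * x) (hy : y ≠ 0)
    (hxy : 0 ≤ y * x) : 0 < i * y := by
  have hii : i * i = 1 := by rcases hi with rfl | rfl <;> norm_num
  have h1 : 0 ≤ (i * y) * (i * x) := by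
    have : (i * y) * (i * x) = (i * i) * (y * x) := by ring
    rw [this, hii, one_mul]
    exact hxy
  have h2 : 0 ≤ i * y := by
    by_contra hn
    have := mul_neg_of_neg_of_pos (not_le.1 hn) hx
    linarith
  rcases h2.lt_or_eq with h3 | h3
  · exact h3
  · exfalso
    have h4 : i * y = 0 := h3.symm
    rcases mul_eq_zero.1 h4 with h5 | h5
    · rw [h5, zero_mul] at hii
      exact zero_ne_one hii
    · exact hy h5

private theorem back_it (C : Ctx F γ lam ell) (t : ℝ) (m : ℕ) :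
    F (γ (t / lam ^ (m + 1))) = γ (t / lam ^ m) := by
  rw [C.conj]
  congr 1
  have := C.lam0.ne'
  field_simp
  ring

private theorem step_aux (C : Ctx F γ lam ell) (ch : Chart F Φ r e h sm sp lm lp) {i j : ℝ}
    (hi : i = 1 ∨ i = -1) (hj : j = 1 ∨ j = -1) {s h1 ε : ℝ} (hs : 0 < s)
    (h1a : s / lp < h1) (h1b : h1 < h) (hεh : ε ≤ h1) {t : ℝ} {m : ℕ}
    (p1 : |(Φ (γ (t / lam ^ m))).re| < ε) (p2 : 0 < |(Φ (γ (t / lam ^ m))).re|)
    (p3 : 0 < |(Φ (γ (t / lam ^ m))).im|) (p4 : |(Φ (γ (t / lam ^ m))).im| ≤ lp * s) :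
    |(Φ (γ (t / lam ^ (m + 1)))).re| < ε ∧ 0 < |(Φ (γ (t / lam ^ (m + 1)))).re| ∧
      |(Φ (γ (t / lam ^ m))).im| ≤ lp * |(Φ (γ (t / lam ^ (m + 1)))).im| ∧
      |(Φ (γ (t / lam ^ (m + 1)))).im| < s / lp ∧
      (e = 1 → 0 < i * (Φ (γ (t / lam ^ m))).re → 0 < i * (Φ (γ (t / lam ^ (m + 1)))).re) ∧
      (e = 1 → 0 < j * (Φ (γ (t / lam ^ m))).im → 0 < j * (Φ (γ (t / lam ^ (m + 1)))).im) := by
  have hlp : 0 < lp := ch.hlm.trans_le (lp_ge ch)
  have hlm := ch.hlm
  have hh1 : 0 < h1 := (div_pos hs hlp).trans h1a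
  have hs1 : s < h1 * lp := (div_lt_iff₀ hlp).1 h1a
  have hlh : lp * s < lm * h1 := by
    have a := ch.hll
    nlinarith
  have hF := back_it C t m
  have hsym : F.symm (γ (t / lam ^ m)) = γ (t / lam ^ (m + 1)) := by
    rw [← hF]
    exact F.symm_apply_apply _
  obtain ⟨q1, q2⟩ := ch.back hh1 h1b (w := γ (t / lam ^ m)) (p1.trans_le hεh) (p4.trans_lt hlh)
  rw [hsym] at q1 q2
  have q1' := q1.trans h1b
  have q2' := q2.trans h1b
  have r1 := ch.re_low _ q1' q2'
  have r2 := ch.re_up _ q1' q2'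
  have r3 := ch.im_low _ q1' q2'
  have r4 := ch.im_up _ q1' q2'
  have r5 := ch.re_sign _ q1' q2'
  have r6 := ch.im_sign _ q1' q2'
  rw [hF] at r1 r2 r3 r4 r5 r6
  have u1 : 0 < |(Φ (γ (t / lam ^ (m + 1)))).re| := by
    rcases (abs_nonneg (Φ (γ (t / lam ^ (m + 1)))).re).lt_or_eq with h2 | h2
    · exact h2
    · rw [← h2, mul_zero] at r2
      linarith
  have u2 : 0 < |(Φ (γ (t / lam ^ (m + 1)))).im| := by
    rcases (abs_nonneg (Φ (γ (t / lam ^ (m + 1)))).im).lt_or_eq with h2 | h2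
    · exact h2
    · rw [← h2, mul_zero] at r4
      linarith
  refine ⟨?_, u1, r4, ?_, ?_, ?_⟩
  · have a := ch.hsm
    nlinarith
  · rw [lt_div_iff₀ hlp]
    have a1 : lm * |(Φ (γ (t / lam ^ (m + 1)))).im| ≤ lp * s := r3.trans p4
    have a2 : lp * (lm * |(Φ (γ (t / lam ^ (m + 1)))).im|) ≤ lp * (lp * s) :=
      mul_le_mul_of_nonneg_left a1 hlp.le
    have a3 : lp * (lp * s) < lm * s := by
      have a := ch.hll
      nlinarith
    have a4 : lm * (|(Φ (γ (t / lam ^ (m + 1)))).im| * lp) < lm * s := by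
      calc lm * (|(Φ (γ (t / lam ^ (m + 1)))).im| * lp) =
          lp * (lm * |(Φ (γ (t / lam ^ (m + 1)))).im|) := by ring
        _ ≤ lp * (lp * s) := a2
        _ < lm * s := a3
    exact lt_of_mul_lt_mul_left a4 hlm.le
  · intro he hx
    rw [he, one_mul] at r5
    exact sign_aux hi hx (abs_pos.1 u1) r5
  · intro he hx
    rw [he, one_mul] at r6
    exact sign_aux hj hx (abs_pos.1 u2) r6

theorem vis_ratio (C : Ctx F γ lam ell) (ch : Chart F Φ r e h sm sp lm lp) {i j : ℝ}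
    (hi : i = 1 ∨ i = -1) (hj : j = 1 ∨ j = -1) (V : Vis Φ γ i j) {s : ℝ} (hs : 0 < s)
    (hs1 : s / lp < h) {ε : ℝ} (hε : 0 < ε) :
    ∃ t > 0, |(Φ (γ t)).re| < ε ∧ lp * s < |(Φ (γ t)).im| ∧ |(Φ (γ t)).im| < s / lp ∧
      (e = 1 → 0 < i * (Φ (γ t)).re ∧ 0 < j * (Φ (γ t)).im) := by
  have hlp : 0 < lp := ch.hlm.trans_le (lp_ge ch)
  obtain ⟨h1, h1a, h1b⟩ := exists_between hs1
  have hh1 : 0 < h1 := (div_pos hs hlp).trans h1a
  have hε' : 0 < min ε h1 := lt_min hε hh1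
  have hls : 0 < lp * s := mul_pos hlp hs
  obtain ⟨t, ht, v1, v2, v3, v4⟩ := V (min (min ε h1) (lp * s)) (lt_min hε' hls)
  have w3 : |(Φ (γ t)).re| < min ε h1 := v3.trans_le (min_le_left _ _)
  have w4 : |(Φ (γ t)).im| < lp * s := v4.trans_le (min_le_right _ _)
  have x1 : 0 < |(Φ (γ t)).re| := by
    rw [abs_pos]
    rintro h0
    rw [h0, mul_zero] at v1
    exact lt_irrefl _ v1
  have x2 : 0 < |(Φ (γ t)).im| := by
    rw [abs_pos]
    rintro h0
    rw [h0, mul_zero] at v2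
    exact lt_irrefl _ v2
  -- the state after `m` steps
  have key : ∀ m : ℕ, (∀ k < m, |(Φ (γ (t / lam ^ k))).im| ≤ lp * s) →
      |(Φ (γ (t / lam ^ m))).re| < min ε h1 ∧ 0 < |(Φ (γ (t / lam ^ m))).re| ∧
      |(Φ (γ t)).im| ≤ lp ^ m * |(Φ (γ (t / lam ^ m))).im| ∧
      |(Φ (γ (t / lam ^ m))).im| < s / lp ∧
      (e = 1 → 0 < i * (Φ (γ (t / lam ^ m))).re ∧ 0 < j * (Φ (γ (t / lam ^ m))).im) := by
    intro m
    induction m with
    | zero =>
      intro _
      rw [pow_zero, div_one, pow_zero, one_mul]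
      refine ⟨w3, x1, le_rfl, ?_, fun _ => ⟨v1, v2⟩⟩
      refine w4.trans ?_
      rw [lt_div_iff₀ hlp]
      have a := ch.hlp
      nlinarith
    | succ m ih =>
      intro hk
      obtain ⟨q1, q2, q3, q4, q5⟩ := ih fun k hk' => hk k (hk'.trans (Nat.lt_succ_self m))
      have hpm : 0 < lp ^ m := pow_pos hlp m
      have q6 : 0 < |(Φ (γ (t / lam ^ m))).im| := by
        rcases (abs_nonneg (Φ (γ (t / lam ^ m))).im).lt_or_eq with h2 | h2
        · exact h2
        · rw [← h2, mul_zero] at q3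
          linarith
      obtain ⟨a1, a2, a3, a4, a5, a6⟩ := step_aux C ch hi hj hs h1a h1b (min_le_right ε h1) q1 q2 q6
        (hk m (Nat.lt_succ_self m))
      refine ⟨a1, a2, ?_, a4, fun he => ⟨a5 he (q5 he).1, a6 he (q5 he).2⟩⟩
      calc |(Φ (γ t)).im| ≤ lp ^ m * |(Φ (γ (t / lam ^ m))).im| := q3
        _ ≤ lp ^ m * (lp * |(Φ (γ (t / lam ^ (m + 1)))).im|) :=
            mul_le_mul_of_nonneg_left a3 hpm.le
        _ = lp ^ (m + 1) * |(Φ (γ (t / lam ^ (m + 1)))).im| := by ring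
  have hex : ∃ m : ℕ, lp * s < |(Φ (γ (t / lam ^ m))).im| := by
    by_contra hno
    push Not at hno
    have h2 : ∀ m : ℕ, |(Φ (γ t)).im| ≤ lp ^ m * (lp * s) := by
      intro m
      exact (key m fun k _ => hno k).2.2.1.trans
        (mul_le_mul_of_nonneg_left (hno m) (pow_pos hlp m).le)
    have h3 : Tendsto (fun m : ℕ => lp ^ m * (lp * s)) atTop (𝓝 (0 * (lp * s))) :=
      (tendsto_pow_atTop_nhds_zero_of_lt_one hlp.le ch.hlp).mul_const _
    rw [zero_mul] at h3
    have h4 : |(Φ (γ t)).im| ≤ 0 := ge_of_tendsto' h3 h2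
    linarith
  classical
  have hm := Nat.find_spec hex
  have hmin : ∀ k < Nat.find hex, |(Φ (γ (t / lam ^ k))).im| ≤ lp * s := fun k hk =>
    not_lt.1 (Nat.find_min hex hk)
  obtain ⟨q1, q2, q3, q4, q5⟩ := key _ hmin
  exact ⟨t / lam ^ Nat.find hex, div_pos ht (pow_pos C.lam0 _), q1.trans_le (min_le_left _ _), hm, q4,
    q5⟩

theorem stab_pt (C : Ctx F γ lam ell) (ch : Chart F Φ r e h sm sp lm lp) (hr : r ∈ AA γ)
    {i j : ℝ} (hi : i = 1 ∨ i = -1) (hj : j = 1 ∨ j = -1) (V : Vis Φ γ i j) {δ : ℝ} (hδ : 0 < δ) :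
    ∃ s, 0 < s ∧ s < δ ∧ Φ.symm ⟨0, j * s⟩ ∈ AA γ := by
  have hlp : 0 < lp := ch.hlm.trans_le (lp_ge ch)
  have hjj : j * j = 1 := by rcases hj with rfl | rfl <;> norm_num
  have hm : 0 < min δ h := lt_min hδ ch.hh
  set s0 := lp * (min δ h / 2) with hs0
  have hs0p : 0 < s0 := mul_pos hlp (half_pos hm)
  have hs0d : s0 / lp = min δ h / 2 := by
    rw [hs0]
    exact mul_div_cancel_left₀ _ hlp.ne'
  have hs0h : s0 / lp < h := by
    rw [hs0d]
    exact (half_lt_self hm).trans_le (min_le_right _ _)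
  have hs0δ : s0 / lp < δ := by
    rw [hs0d]
    exact (half_lt_self hm).trans_le (min_le_left _ _)
  have hv : ∀ n : ℕ, ∃ t > 0, |(Φ (γ t)).re| < 1 / ((n : ℝ) + 1) ∧ lp * s0 < |(Φ (γ t)).im| ∧
      |(Φ (γ t)).im| < s0 / lp ∧ (e = 1 → 0 < i * (Φ (γ t)).re ∧ 0 < j * (Φ (γ t)).im) :=
    fun n => vis_ratio C ch hi hj V hs0p hs0h Nat.one_div_pos_of_nat
  choose t ht t1 t2 t3 t4 using hv
  obtain ⟨w, hw, φ, hφ, hlim⟩ := (xx_compact C).tendsto_subseq
    (x := fun n => γ (t n)) (fun n => mem_xx C (ht n).le)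
  have hΦ : Tendsto (fun n => Φ (γ (t (φ n)))) atTop (𝓝 (Φ w)) :=
    (Φ.continuous.tendsto w).comp hlim
  have hre : Tendsto (fun n => |(Φ (γ (t (φ n)))).re|) atTop (𝓝 |(Φ w).re|) :=
    ((Complex.continuous_re.abs).tendsto _).comp hΦ
  have him : Tendsto (fun n => |(Φ (γ (t (φ n)))).im|) atTop (𝓝 |(Φ w).im|) :=
    ((Complex.continuous_im.abs).tendsto _).comp hΦ
  have hre0 : (Φ w).re = 0 := by
    have h1 : Tendsto (fun n => 1 / (((φ n : ℕ) : ℝ) + 1)) atTop (𝓝 0) :=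
      tendsto_one_div_add_atTop_nhds_zero_nat.comp hφ.tendsto_atTop
    have h2 : |(Φ w).re| ≤ 0 := le_of_tendsto_of_tendsto' hre h1 fun n => (t1 (φ n)).le
    exact abs_eq_zero.1 (le_antisymm h2 (abs_nonneg _))
  have him1 : lp * s0 ≤ |(Φ w).im| := ge_of_tendsto' him fun n => (t2 (φ n)).le
  have him2 : |(Φ w).im| ≤ s0 / lp := le_of_tendsto' him fun n => (t3 (φ n)).le
  have himh : |(Φ w).im| < h := him2.trans_lt hs0h
  have hreh : |(Φ w).re| < h := by
    rw [hre0, abs_zero]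
    exact ch.hh
  have hAA : w ∈ AA γ := by
    have h1 : w ∈ γ '' Ici 0 ∪ AA γ := by rw [← xx_eq C]; exact hw
    rcases h1 with ⟨t', ht', rfl⟩ | h1
    · exact absurd hre0 (s_axis C ch hr ht' hreh himh)
    · exact h1
  have himp : 0 < |(Φ w).im| := (mul_pos hlp hs0p).trans_le him1
  -- conclusion from a point with the right sign
  have fin : ∀ z : ℂ, z ∈ AA γ → (Φ z).re = 0 → 0 < j * (Φ z).im → |(Φ z).im| < δ →
      ∃ s, 0 < s ∧ s < δ ∧ Φ.symm ⟨0, j * s⟩ ∈ AA γ := by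
    intro z hz h0 h1 h2
    refine ⟨j * (Φ z).im, h1, ?_, ?_⟩
    · refine lt_of_le_of_lt (le_abs_self _) ?_
      rw [abs_mul]
      have h3 : |j| = 1 := by rcases hj with rfl | rfl <;> norm_num
      rw [h3, one_mul]
      exact h2
    · have h3 : (⟨0, j * (j * (Φ z).im)⟩ : ℂ) = Φ z := by
        apply Complex.ext
        · exact h0.symm
        · show j * (j * (Φ z).im) = (Φ z).im
          rw [← mul_assoc, hjj, one_mul]
      rw [h3, Φ.symm_apply_apply]
      exact hz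
  rcases ch.he with he | he
  · -- `e = 1`
    have h1 : Tendsto (fun n => j * (Φ (γ (t (φ n)))).im) atTop (𝓝 (j * (Φ w).im)) :=
      (((Complex.continuous_im.tendsto _).comp hΦ).const_mul j)
    have h2 : 0 ≤ j * (Φ w).im := ge_of_tendsto' h1 fun n => (t4 (φ n) he).2.le
    have h3 : 0 < j * (Φ w).im := by
      rcases h2.lt_or_eq with h4 | h4
      · exact h4
      · exfalso
        rcases mul_eq_zero.1 h4.symm with h5 | h5
        · rw [h5, zero_mul] at hjj
          exact zero_ne_one hjj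
        · rw [h5, abs_zero] at himp
          exact lt_irrefl _ himp
    exact fin w hAA hre0 h3 (him2.trans_lt hs0δ)
  · -- `e = -1`
    by_cases hpos : 0 < j * (Φ w).im
    · exact fin w hAA hre0 hpos (him2.trans_lt hs0δ)
    · have hF : F w ∈ AA γ := by
        rw [← aa_image C]
        exact mem_image_of_mem _ hAA
      have r2 := ch.re_up w hreh himh
      have r3 := ch.im_low w hreh himh
      have r4 := ch.im_up w hreh himh
      have r6 := ch.im_sign w hreh himh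
      have s1 : (Φ (F w)).re = 0 := by
        rw [hre0, abs_zero, mul_zero] at r2
        exact abs_eq_zero.1 (le_antisymm r2 (abs_nonneg _))
      have s2 : 0 < |(Φ (F w)).im| := (mul_pos ch.hlm himp).trans_le r3
      have s3 : |(Φ (F w)).im| < δ := by
        have a := ch.hlp
        have b := him2.trans_lt hs0δ
        nlinarith
      have s4 : 0 < j * -(Φ w).im := by
        have h4 : j * (Φ w).im ≠ 0 := by
          intro h4
          rcases mul_eq_zero.1 h4 with h5 | h5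
          · rw [h5, zero_mul] at hjj
            exact zero_ne_one hjj
          · rw [h5, abs_zero] at himp
            exact lt_irrefl _ himp
        rcases lt_or_gt_of_ne h4 with h5 | h5
        · linarith
        · exact absurd h5 hpos
      refine fin (F w) hF s1 ?_ s3
      refine sign_aux hj s4 (abs_pos.1 s2) ?_
      rw [he] at r6
      linarith

end Pool.Agent.HE
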