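import Pool.Agent.HE.Rays
import Pool.Agent.HE.Jump

set_option autoImplicit false

/-!
HE-Sep. The two sectors are in different components: apply `jump` at a point of the segment near `0`.
-/

namespace Pool.Agent.HE

open Set Topology Filter

variable {F : ℂ ≃ₜ ℂ} {γ : ℝ → ℂ} {lam h sm sp lm lp : ℝ}

private theorem ray_re (e m y : ℝ) : (ray e m y).re = e * y := rfl

private theorem ray_im (e m y : ℝ) : (ray e m y).im = m * y := rfl

private theorem ray_cont (e m : ℝ) : Continuous (ray e m) := by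
  have h1 : ray e m = fun y : ℝ => ((e * y : ℝ) : ℂ) + ((m * y : ℝ) : ℂ) * Complex.I := by
    funext y
    apply Complex.ext
    · simp [ray_re]
    · simp [ray_im]
  rw [h1]
  exact (Complex.continuous_ofReal.comp (continuous_const.mul continuous_id)).add
    ((Complex.continuous_ofReal.comp (continuous_const.mul continuous_id)).mul continuous_const)

private theorem ray_inj {e : ℝ} (he : e ≠ 0) (m : ℝ) {y y' : ℝ} (h : ray e m y = ray e m y') :
    y = y' := by
  have h1 := congrArg Complex.re h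
  rw [ray_re, ray_re] at h1
  exact mul_left_cancel₀ he h1

private theorem ray_norm {e : ℝ} (he : e = 1 ∨ e = -1) (m : ℝ) {y : ℝ} (hy : 0 ≤ y) :
    ‖ray e m y‖ ≤ (1 + |m|) * y := by
  refine (Complex.norm_le_abs_re_add_abs_im _).trans ?_
  rw [ray_re, ray_im, abs_mul, abs_mul, abs_of_nonneg hy]
  have h1 : |e| = 1 := by
    rcases he with h | h <;> rw [h] <;> simp
  rw [h1]
  exact le_of_eq (by ring)

theorem ab_disj (H : Flat F γ lam h sm sp lm lp) {e m u x : ℝ} (h1 : FH γ h e m u x)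
    {D D' : Set ℂ} (hA : IsA γ e m u x D) (hB : IsB γ e m u x D') : Disjoint D D' := by
  obtain ⟨hDc, ε1, hε1, hD⟩ := hA
  obtain ⟨hDc', ε2, hε2, hD'⟩ := hB
  obtain ⟨ε3, hε3, hnear⟩ := H.near0 u
  have he0 : e ≠ 0 := by
    rcases h1.he with h | h <;> rw [h] <;> norm_num
  have hee : e * e = 1 := by
    rcases h1.he with h | h <;> rw [h] <;> norm_num
  have hx := h1.pos
  set E := min ε1 (min ε2 ε3) with hE
  have hE0 : 0 < E := lt_min hε1 (lt_min hε2 hε3)
  have hEε1 : E ≤ ε1 := min_le_left _ _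
  have hEε2 : E ≤ ε2 := (min_le_right _ _).trans (min_le_left _ _)
  have hEε3 : E ≤ ε3 := (min_le_right _ _).trans (min_le_right _ _)
  have hm1 : 0 < 1 + |m| := by positivity
  set y1 := min (x / 2) (E / (4 * (1 + |m|))) with hy1
  have hy10 : 0 < y1 := lt_min (by positivity) (by positivity)
  have hy1x : y1 < x := (min_le_left _ _).trans_lt (by linarith)
  have hy1E : (1 + |m|) * y1 ≤ E / 4 := by
    have h2 : y1 ≤ E / (4 * (1 + |m|)) := min_le_right _ _
    calc (1 + |m|) * y1 ≤ (1 + |m|) * (E / (4 * (1 + |m|))) :=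
          mul_le_mul_of_nonneg_left h2 hm1.le
      _ = E / 4 := by field_simp
  set Y := YY γ e m u x with hY
  set q := ray e m y1 with hq
  have hqn : ‖q‖ ≤ E / 4 := (ray_norm h1.he m hy10.le).trans hy1E
  have hyseg : ∀ y, 0 < y → y < x → ray e m y ∈ Y := fun y hy hy' =>
    Or.inr ⟨y, ⟨hy, hy'⟩, rfl⟩
  have hqY : q ∈ Y := hyseg y1 hy10 hy1x
  have hqarc : q ∉ γ '' Icc 0 u := h1.free y1 ⟨hy10, hy1x⟩
  have hnorm : ∀ t : ℝ, |t| ≤ E / 4 → ‖q + t * Complex.I‖ < E := by
    intro t ht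
    calc ‖q + t * Complex.I‖ ≤ ‖q‖ + ‖(t : ℂ) * Complex.I‖ := norm_add_le _ _
      _ = ‖q‖ + |t| := by
          rw [norm_mul, Complex.norm_I, mul_one, Complex.norm_real, Real.norm_eq_abs]
      _ < E := by linarith
  have hre : ∀ t : ℝ, (q + t * Complex.I).re = e * y1 := by
    intro t
    simp [hq, ray_re]
  have him : ∀ t : ℝ, (q + t * Complex.I).im = m * y1 + t := by
    intro t
    simp [hq, ray_im]
  have hj1 : ∀ t : ℝ, |t| ≤ E / 4 → t ≠ 0 → q + t * Complex.I ∉ Y := by
    rintro t ht ht0 (h2 | ⟨y, hy, h2⟩)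
    · have h3 := (hnear _ h2 ((hnorm t ht).trans_le hEε3)).1
      rw [hre] at h3
      exact (mul_ne_zero he0 hy10.ne') h3
    · have h3 := congrArg Complex.re h2
      have h4 := congrArg Complex.im h2
      rw [hre, ray_re] at h3
      rw [him, ray_im] at h4
      have h5 : y = y1 := mul_left_cancel₀ he0 h3
      rw [h5] at h4
      apply ht0
      linarith
  have hray0 : ray e m 0 = γ 0 := by
    rw [H.g0]
    apply Complex.ext
    · rw [ray_re, mul_zero, Complex.zero_re]
    · rw [ray_im, mul_zero, Complex.zero_im]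
  have hset : Y \ {q} = (γ '' Icc 0 u ∪ ray e m '' Ico 0 y1) ∪ ray e m '' Ioc y1 x := by
    apply Subset.antisymm
    · rintro z ⟨hz | ⟨y, hy, rfl⟩, hzq⟩
      · exact Or.inl (Or.inl hz)
      · rcases lt_trichotomy y y1 with h2 | h2 | h2
        · exact Or.inl (Or.inr ⟨y, ⟨hy.1.le, h2⟩, rfl⟩)
        · exact absurd (by rw [h2]; rfl) hzq
        · exact Or.inr ⟨y, ⟨h2, hy.2.le⟩, rfl⟩
    · rintro z ((hz | ⟨y, hy, rfl⟩) | ⟨y, hy, rfl⟩)
      · exact ⟨Or.inl hz, fun h2 => hqarc (by rw [mem_singleton_iff] at h2; rw [← h2]; exact hz)⟩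
      · refine ⟨?_, fun h2 => hy.2.ne (ray_inj he0 m h2)⟩
        rcases hy.1.eq_or_lt with h2 | h2
        · rw [← h2, hray0]
          exact Or.inl ⟨0, ⟨le_rfl, h1.hu⟩, rfl⟩
        · exact hyseg y h2 (hy.2.trans hy1x)
      · refine ⟨?_, fun h2 => hy.1.ne' (ray_inj he0 m h2)⟩
        rcases hy.2.eq_or_lt with h2 | h2
        · rw [h2]
          exact Or.inl h1.mem
        · exact hyseg y (hy10.trans hy.1) h2
  have hj2 : IsPreconnected (Y \ {q}) := by
    rw [hset]
    have c1 : IsPreconnected (γ '' Icc 0 u) := isPreconnected_Icc.image γ H.cont.continuousOn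
    have c2 : IsPreconnected (ray e m '' Ico 0 y1) :=
      isPreconnected_Ico.image _ (ray_cont e m).continuousOn
    have c3 : IsPreconnected (ray e m '' Ioc y1 x) :=
      isPreconnected_Ioc.image _ (ray_cont e m).continuousOn
    have c4 : IsPreconnected (γ '' Icc 0 u ∪ ray e m '' Ico 0 y1) :=
      IsPreconnected.union (γ 0) ⟨0, ⟨le_rfl, h1.hu⟩, rfl⟩
        ⟨0, ⟨le_rfl, hy10⟩, hray0⟩ c1 c2
    exact IsPreconnected.union (ray e m x) (Or.inl h1.mem) ⟨x, ⟨hy1x, le_rfl⟩, rfl⟩ c4 c3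
  have hval : ∀ y, ((ray e m y - q) / Complex.I).im = e * (y1 - y) := by
    intro y
    rw [Complex.div_I]
    simp [hq, ray_re]
    ring
  have tl : Tendsto (ray e m) (𝓝[<] y1) (𝓝[Y \ {q}] q) := by
    rw [tendsto_nhdsWithin_iff]
    refine ⟨((ray_cont e m).tendsto y1).mono_left nhdsWithin_le_nhds, ?_⟩
    filter_upwards [Ioo_mem_nhdsLT hy10] with y hy
    exact ⟨hyseg y hy.1 (hy.2.trans hy1x), fun h2 => hy.2.ne (ray_inj he0 m h2)⟩
  have tr : Tendsto (ray e m) (𝓝[>] y1) (𝓝[Y \ {q}] q) := by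
    rw [tendsto_nhdsWithin_iff]
    refine ⟨((ray_cont e m).tendsto y1).mono_left nhdsWithin_le_nhds, ?_⟩
    filter_upwards [Ioo_mem_nhdsGT hy1x] with y hy
    exact ⟨hyseg y (hy10.trans hy.1) hy.2, fun h2 => hy.1.ne' (ray_inj he0 m h2)⟩
  have hj3 : ∃ᶠ z in 𝓝[Y \ {q}] q, 0 < ((z - q) / Complex.I).im := by
    rcases h1.he with he | he
    · refine tl.frequently (Eventually.frequently ?_)
      filter_upwards [self_mem_nhdsWithin] with y hy
      rw [hval, he, one_mul]
      exact sub_pos.2 hy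
    · refine tr.frequently (Eventually.frequently ?_)
      filter_upwards [self_mem_nhdsWithin] with y hy
      rw [hval, he]
      have : y1 < y := hy
      linarith
  have hj4 : ∃ᶠ z in 𝓝[Y \ {q}] q, ((z - q) / Complex.I).im < 0 := by
    rcases h1.he with he | he
    · refine tr.frequently (Eventually.frequently ?_)
      filter_upwards [self_mem_nhdsWithin] with y hy
      rw [hval, he]
      have : y1 < y := hy
      linarith
    · refine tl.frequently (Eventually.frequently ?_)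
      filter_upwards [self_mem_nhdsWithin] with y hy
      rw [hval, he]
      have : y < y1 := hy
      linarith
  have hjump := jump (yy_compact H h1) Complex.I_ne_zero hqY (ε := E / 4) (by positivity) hj1 hj2
    hj3 hj4
  have hE4 : |E / 4| ≤ E / 4 := by rw [abs_of_pos (by positivity)]
  have hp : q + ((E / 4 : ℝ) : ℂ) * Complex.I ∈ D := by
    refine hD _ ?_ ((hnorm _ hE4).trans_le hEε1)
    constructor
    · rw [hre, ← mul_assoc, hee, one_mul]
      exact hy10
    · rw [hre, him, ← mul_assoc e e, hee, one_mul]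
      linarith
  have e2 : q - ((E / 4 : ℝ) : ℂ) * Complex.I = q + ((-(E / 4) : ℝ) : ℂ) * Complex.I := by
    push_cast
    ring
  have hp' : q - ((E / 4 : ℝ) : ℂ) * Complex.I ∈ D' := by
    rw [e2]
    refine hD' _ ?_ ((hnorm _ (by rw [abs_neg]; exact hE4)).trans_le hEε2)
    right
    rw [hre, him, ← mul_assoc e e, hee, one_mul]
    linarith
  rw [disjoint_iff_inter_eq_empty]
  by_contra hne
  have h2 := hDc.eq_of_inter hDc' (nonempty_iff_ne_empty.2 hne)
  rw [h2, hDc'.eq_cmp hp'] at hp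
  exact hjump hp

end Pool.Agent.HE
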