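import Mathlib

set_option autoImplicit false

/-!
HE-ZA. Two entire curves in `ℂ × ℂ` with an accumulating sequence of common points coincide locally.
-/

namespace Pool.Agent.HE

open Set Topology Filter

private theorem loc1 {p1 p2 q1 q2 : ℂ → ℂ} {z0 ζ0 : ℂ} (hp1 : AnalyticAt ℂ p1 z0)
    (hp2 : AnalyticAt ℂ p2 z0) (hq1 : AnalyticAt ℂ q1 ζ0) (hq2 : AnalyticAt ℂ q2 ζ0)
    (hd : deriv q1 ζ0 ≠ 0) {z ζ : ℕ → ℂ} (hz : Tendsto z atTop (𝓝 z0)) (hne : ∀ n, z n ≠ z0)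
    (hζ : Tendsto ζ atTop (𝓝 ζ0)) (h1 : ∀ n, p1 (z n) = q1 (ζ n)) (h2 : ∀ n, p2 (z n) = q2 (ζ n)) :
    ∃ k : ℂ → ℂ, AnalyticAt ℂ k z0 ∧ k z0 = ζ0 ∧
      ∀ᶠ w in 𝓝 z0, p1 w = q1 (k w) ∧ p2 w = q2 (k w) := by
  have hs := hq1.hasStrictDerivAt
  set j : ℂ → ℂ := hs.localInverse q1 (deriv q1 ζ0) ζ0 hd with hj
  have hja : AnalyticAt ℂ j (q1 ζ0) := hq1.analyticAt_localInverse hd
  have hjl : ∀ᶠ x in 𝓝 ζ0, j (q1 x) = x := hs.eventually_left_inverse hd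
  have hjr : ∀ᶠ x in 𝓝 (q1 ζ0), q1 (j x) = x := hs.eventually_right_inverse hd
  have e0 : p1 z0 = q1 ζ0 := by
    have a1 : Tendsto (fun n => p1 (z n)) atTop (𝓝 (p1 z0)) := hp1.continuousAt.tendsto.comp hz
    have a2 : Tendsto (fun n => q1 (ζ n)) atTop (𝓝 (q1 ζ0)) := hq1.continuousAt.tendsto.comp hζ
    simp only [h1] at a1
    exact tendsto_nhds_unique a1 a2
  have hka : AnalyticAt ℂ (fun w => j (p1 w)) z0 := by
    apply AnalyticAt.fun_comp (g := j) (f := p1)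
    · rw [e0]; exact hja
    · exact hp1
  have hk0 : j (p1 z0) = ζ0 := by
    rw [e0]; exact hjl.self_of_nhds
  have hE : AnalyticAt ℂ (fun w => p2 w - q2 (j (p1 w))) z0 := by
    refine hp2.sub ?_
    apply AnalyticAt.fun_comp (g := q2) (f := fun w => j (p1 w))
    · simp only [hk0]
      exact hq2
    · exact hka
  have hfr : ∃ᶠ w in 𝓝[≠] z0, (fun w => p2 w - q2 (j (p1 w))) w = 0 := by
    have hev : ∀ᶠ n in atTop, p2 (z n) - q2 (j (p1 (z n))) = 0 := by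
      filter_upwards [hζ.eventually hjl] with n hn
      rw [h1, hn, h2, sub_self]
    have hz' : Tendsto z atTop (𝓝[≠] z0) :=
      tendsto_nhdsWithin_iff.2 ⟨hz, Eventually.of_forall hne⟩
    exact hz'.frequently hev.frequently
  have hz := hE.frequently_zero_iff_eventually_zero.1 hfr
  refine ⟨fun w => j (p1 w), hka, hk0, ?_⟩
  have hr : ∀ᶠ w in 𝓝 z0, q1 (j (p1 w)) = p1 w := by
    have : Tendsto p1 (𝓝 z0) (𝓝 (q1 ζ0)) := by
      rw [← e0]; exact hp1.continuousAt.tendsto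
    exact this.eventually hjr
  filter_upwards [hz, hr] with w hw1 hw2
  exact ⟨hw2.symm, sub_eq_zero.1 hw1⟩

theorem loc_coinc {ψ φ : ℂ → ℂ × ℂ} (hψ : Differentiable ℂ ψ) (hφ : Differentiable ℂ φ) {z0 ζ0 : ℂ}
    (hd : deriv φ ζ0 ≠ 0) {z ζ : ℕ → ℂ} (hz : Tendsto z atTop (𝓝 z0)) (hne : ∀ n, z n ≠ z0)
    (hζ : Tendsto ζ atTop (𝓝 ζ0)) (h : ∀ n, ψ (z n) = φ (ζ n)) :
    ∃ k : ℂ → ℂ, AnalyticAt ℂ k z0 ∧ k z0 = ζ0 ∧ ∀ᶠ w in 𝓝 z0, ψ w = φ (k w) := by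
  have hψ1 : Differentiable ℂ fun w => (ψ w).1 := hψ.fst
  have hψ2 : Differentiable ℂ fun w => (ψ w).2 := hψ.snd
  have hφ1 : Differentiable ℂ fun w => (φ w).1 := hφ.fst
  have hφ2 : Differentiable ℂ fun w => (φ w).2 := hφ.snd
  have hd1 : deriv (fun w => (φ w).1) ζ0 = (deriv φ ζ0).1 := by
    have := ((hφ ζ0).hasDerivAt.hasFDerivAt.fst).hasDerivAt.deriv
    simpa using this
  have hd2 : deriv (fun w => (φ w).2) ζ0 = (deriv φ ζ0).2 := by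
    have := ((hφ ζ0).hasDerivAt.hasFDerivAt.snd).hasDerivAt.deriv
    simpa using this
  by_cases hc : (deriv φ ζ0).1 = 0
  · have hc2 : (deriv φ ζ0).2 ≠ 0 := fun h' => hd (Prod.ext hc h')
    obtain ⟨k, k1, k2, k3⟩ := loc1 (hψ2.analyticAt z0) (hψ1.analyticAt z0) (hφ2.analyticAt ζ0)
      (hφ1.analyticAt ζ0) (by rw [hd2]; exact hc2) hz hne hζ (fun n => by simp only [h n])
      (fun n => by simp only [h n])
    exact ⟨k, k1, k2, k3.mono fun w hw => Prod.ext hw.2 hw.1⟩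
  · obtain ⟨k, k1, k2, k3⟩ := loc1 (hψ1.analyticAt z0) (hψ2.analyticAt z0) (hφ1.analyticAt ζ0)
      (hφ2.analyticAt ζ0) (by rw [hd1]; exact hc) hz hne hζ (fun n => by simp only [h n])
      (fun n => by simp only [h n])
    exact ⟨k, k1, k2, k3.mono fun w hw => Prod.ext hw.1 hw.2⟩

end Pool.Agent.HE
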