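import Pool.Agent.HE.ZA

set_option autoImplicit false

/-!
HE-ZB. The domain on which an entire stable curve and an entire unstable curve coincide.
-/

namespace Pool.Agent.HE

open Set Topology Filter

/-- the domain on which `ψ` factors through `φ` -/
def Om (ψ φ : ℂ → ℂ × ℂ) : Set ℂ :=
  {z | ∃ k : ℂ → ℂ, AnalyticAt ℂ k z ∧ ∀ᶠ w in 𝓝 z, ψ w = φ (k w)}

/-- the change of parameters -/
noncomputable def hh (ψ φ : ℂ → ℂ × ℂ) (z : ℂ) : ℂ := Function.invFun φ (ψ z)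

variable {ψ φ : ℂ → ℂ × ℂ}

theorem om_open : IsOpen (Om ψ φ) := by
  rw [isOpen_iff_mem_nhds]
  rintro z ⟨k, hk, h⟩
  filter_upwards [hk.eventually_analyticAt, h.eventually_nhds] with w hw1 hw2
  exact ⟨k, hw1, hw2⟩

theorem hh_eq (hφi : Function.Injective φ) {z : ℂ} {k : ℂ → ℂ} (h : ψ z = φ (k z)) :
    hh ψ φ z = k z := by
  unfold hh
  rw [h]
  exact Function.leftInverse_invFun hφi (k z)

theorem hh_spec {z : ℂ} (hz : z ∈ Om ψ φ) : φ (hh ψ φ z) = ψ z := by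
  obtain ⟨k, -, h⟩ := hz
  exact Function.invFun_eq ⟨k z, h.self_of_nhds.symm⟩

theorem hh_analytic (hφi : Function.Injective φ) {z : ℂ} (hz : z ∈ Om ψ φ) :
    AnalyticAt ℂ (hh ψ φ) z := by
  obtain ⟨k, hk, h⟩ := hz
  refine hk.congr ?_
  filter_upwards [h] with w hw
  exact (hh_eq hφi hw).symm

theorem om_closed (hψ : Differentiable ℂ ψ) (hφ : Differentiable ℂ φ)
    (hd : ∀ ζ, deriv φ ζ ≠ 0) {z : ℕ → ℂ} {z0 ζ0 : ℂ} (hz : Tendsto z atTop (𝓝 z0))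
    (hm : ∀ n, z n ∈ Om ψ φ) (hζ : Tendsto (fun n => hh ψ φ (z n)) atTop (𝓝 ζ0)) :
    z0 ∈ Om ψ φ := by
  by_contra h0
  obtain ⟨k, hk, -, h⟩ := loc_coinc hψ hφ (hd ζ0) hz (fun n hn => h0 (hn ▸ hm n)) hζ
    (fun n => (hh_spec (hm n)).symm)
  exact h0 ⟨k, hk, h⟩

theorem om_scale_of {g : ℂ × ℂ → ℂ × ℂ} {lam σ : ℝ} (l0 : lam ≠ 0)
    (c1 : ∀ z, g (ψ z) = ψ (lam * z)) (c2 : ∀ z, g (φ z) = φ (σ * z)) {z : ℂ}
    (hz : z ∈ Om ψ φ) : (lam : ℂ) * z ∈ Om ψ φ := by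
  obtain ⟨k, hk, h⟩ := hz
  have l0' : (lam : ℂ) ≠ 0 := by exact_mod_cast l0
  have e1 : (lam : ℂ) * z / lam = z := mul_div_cancel_left₀ _ l0'
  refine ⟨fun w => σ * k (w / lam), ?_, ?_⟩
  · refine analyticAt_const.mul ?_
    apply AnalyticAt.fun_comp (g := k) (f := fun w : ℂ => w / lam)
    · simp only [e1]
      exact hk
    · exact analyticAt_id.div analyticAt_const l0'
  · have ht : Tendsto (fun w : ℂ => w / lam) (𝓝 ((lam : ℂ) * z)) (𝓝 z) := by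
      have : ContinuousAt (fun w : ℂ => w / lam) ((lam : ℂ) * z) := by fun_prop
      have h2 := this.tendsto
      simp only [e1] at h2
      exact h2
    filter_upwards [ht.eventually h] with w hw
    have e2 : (lam : ℂ) * (w / lam) = w := mul_div_cancel₀ _ l0'
    calc ψ w = ψ (lam * (w / lam)) := by rw [e2]
      _ = g (ψ (w / lam)) := (c1 _).symm
      _ = g (φ (k (w / lam))) := by rw [hw]
      _ = φ (σ * k (w / lam)) := c2 _

theorem om_scale_inv {g : ℂ × ℂ → ℂ × ℂ} (hg : Function.Injective g) {lam σ : ℝ} (s0 : σ ≠ 0)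
    (c1 : ∀ z, g (ψ z) = ψ (lam * z)) (c2 : ∀ z, g (φ z) = φ (σ * z)) {z : ℂ}
    (hz : (lam : ℂ) * z ∈ Om ψ φ) : z ∈ Om ψ φ := by
  obtain ⟨k, hk, h⟩ := hz
  have s0' : (σ : ℂ) ≠ 0 := by exact_mod_cast s0
  refine ⟨fun w => k (lam * w) / σ, ?_, ?_⟩
  · refine AnalyticAt.div ?_ analyticAt_const s0'
    apply AnalyticAt.fun_comp (g := k) (f := fun w : ℂ => (lam : ℂ) * w)
    · exact hk
    · exact analyticAt_const.mul analyticAt_id
  · have ht : Tendsto (fun w : ℂ => (lam : ℂ) * w) (𝓝 z) (𝓝 ((lam : ℂ) * z)) := by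
      have : ContinuousAt (fun w : ℂ => (lam : ℂ) * w) z := by fun_prop
      exact this.tendsto
    filter_upwards [ht.eventually h] with w hw
    apply hg
    rw [c1, c2, hw, mul_div_cancel₀ _ s0']

theorem hh_scale (hφi : Function.Injective φ) {g : ℂ × ℂ → ℂ × ℂ} {lam σ : ℝ}
    (c1 : ∀ z, g (ψ z) = ψ (lam * z)) (c2 : ∀ z, g (φ z) = φ (σ * z)) {z : ℂ}
    (hz : z ∈ Om ψ φ) : hh ψ φ (lam * z) = σ * hh ψ φ z := by
  have h1 : ψ (lam * z) = φ ((fun _ : ℂ => σ * hh ψ φ z) (lam * z)) := by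
    rw [← c1, ← hh_spec hz, c2]
  exact hh_eq (k := fun _ : ℂ => σ * hh ψ φ z) hφi h1

theorem hh_ne_zero (hψ : Continuous ψ) {g : ℂ × ℂ → ℂ × ℂ} {lam σ : ℝ} (l0 : 0 < lam)
    (l1 : lam < 1) (c1 : ∀ z, g (ψ z) = ψ (lam * z)) (c2 : ∀ z, g (φ z) = φ (σ * z))
    (hne : ψ 0 ≠ φ 0) {z : ℂ} (hz : z ∈ Om ψ φ) : hh ψ φ z ≠ 0 := by
  intro h0
  have h1 : ψ z = φ 0 := by rw [← hh_spec hz, h0]
  have h2 : ∀ n : ℕ, ψ ((lam : ℂ) ^ n * z) = φ 0 := by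
    intro n
    induction n with
    | zero => simpa using h1
    | succ n ih =>
      rw [pow_succ', mul_assoc, ← c1, ih, c2, mul_zero]
  have h3 : Tendsto (fun n : ℕ => (lam : ℂ) ^ n * z) atTop (𝓝 (0 * z)) := by
    refine Tendsto.mul_const z ?_
    refine tendsto_pow_atTop_nhds_zero_of_norm_lt_one ?_
    rw [Complex.norm_real, Real.norm_eq_abs, abs_of_pos l0]
    exact l1
  rw [zero_mul] at h3
  have h4 := (hψ.tendsto 0).comp h3
  have h5 : Tendsto (fun _ : ℕ => φ 0) atTop (𝓝 (ψ 0)) := by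
    refine h4.congr fun n => ?_
    exact h2 n
  exact hne (tendsto_nhds_unique tendsto_const_nhds h5).symm

theorem zero_notMem_om (hφi : Function.Injective φ) {g : ℂ × ℂ → ℂ × ℂ} {lam σ : ℝ} (hσ : 1 < |σ|)
    (c1 : ∀ z, g (ψ z) = ψ (lam * z)) (c2 : ∀ z, g (φ z) = φ (σ * z))
    (hne : ψ 0 ≠ φ 0) : (0 : ℂ) ∉ Om ψ φ := by
  intro h0
  have h1 := hh_scale hφi c1 c2 h0
  rw [mul_zero] at h1
  have h2 : (1 - (σ : ℂ)) * hh ψ φ 0 = 0 := by
    rw [sub_mul, one_mul, ← h1, sub_self]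
  have h3 : (1 - (σ : ℂ)) ≠ 0 := by
    intro h
    have h4 : (σ : ℂ) = 1 := (sub_eq_zero.1 h).symm
    have h5 : σ = 1 := by exact_mod_cast h4
    rw [h5, abs_one] at hσ
    exact lt_irrefl _ hσ
  have h4 : hh ψ φ 0 = 0 := (mul_eq_zero.1 h2).resolve_left h3
  have h5 := hh_spec h0
  rw [h4] at h5
  exact hne h5.symm

end Pool.Agent.HE
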