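import Pool.Agent.HE.ZB

set_option autoImplicit false

/-!
HE-ZC. The invariant function `‖h z‖ ‖z‖ ^ κ` and its minimum.
-/

namespace Pool.Agent.HE

open Set Topology Filter

variable {ψ φ : ℂ → ℂ × ℂ}

/-- the invariant function -/
noncomputable def uu (ψ φ : ℂ → ℂ × ℂ) (κ : ℝ) (z : ℂ) : ℝ := ‖hh ψ φ z‖ * ‖z‖ ^ κ

/-- the exponent -/
noncomputable def kap (lam σ : ℝ) : ℝ := -(Real.log |σ| / Real.log lam)

theorem lam_kap {lam σ : ℝ} (l0 : 0 < lam) (l1 : lam < 1) (hσ : 1 < |σ|) :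
    |σ| * lam ^ kap lam σ = 1 := by
  have hl : Real.log lam ≠ 0 := (Real.log_neg l0 l1).ne
  rw [Real.rpow_def_of_pos l0, kap]
  have e : Real.log lam * -(Real.log |σ| / Real.log lam) = -Real.log |σ| := by
    field_simp
  rw [e, Real.exp_neg, Real.exp_log (by linarith)]
  exact mul_inv_cancel₀ (by linarith)

theorem kap_pos {lam σ : ℝ} (l0 : 0 < lam) (l1 : lam < 1) (hσ : 1 < |σ|) : 0 < kap lam σ := by
  have hl : Real.log lam < 0 := Real.log_neg l0 l1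
  have hs : 0 < Real.log |σ| := Real.log_pos hσ
  rw [kap, neg_pos]
  exact div_neg_of_pos_of_neg hs hl

theorem uu_scale (hφi : Function.Injective φ) {g : ℂ × ℂ → ℂ × ℂ} {lam σ : ℝ} (l0 : 0 < lam)
    (l1 : lam < 1) (hσ : 1 < |σ|) (c1 : ∀ z, g (ψ z) = ψ (lam * z))
    (c2 : ∀ z, g (φ z) = φ (σ * z)) {z : ℂ} (hz : z ∈ Om ψ φ) :
    uu ψ φ (kap lam σ) (lam * z) = uu ψ φ (kap lam σ) z := by
  unfold uu
  rw [hh_scale hφi c1 c2 hz, norm_mul, norm_mul, Complex.norm_real, Complex.norm_real,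
    Real.norm_eq_abs, Real.norm_eq_abs, abs_of_pos l0, Real.mul_rpow l0.le (norm_nonneg z)]
  have h := lam_kap l0 l1 hσ
  calc |σ| * ‖hh ψ φ z‖ * (lam ^ kap lam σ * ‖z‖ ^ kap lam σ)
      = (|σ| * lam ^ kap lam σ) * (‖hh ψ φ z‖ * ‖z‖ ^ kap lam σ) := by ring
    _ = _ := by rw [h, one_mul]

/-- every point of the domain can be moved to the annulus `lam ≤ ‖z‖ ≤ 1` -/
theorem exists_annulus (hφi : Function.Injective φ) {g : ℂ × ℂ → ℂ × ℂ}
    (hg : Function.Injective g) {lam σ : ℝ} (l0 : 0 < lam) (l1 : lam < 1) (hσ : 1 < |σ|)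
    (c1 : ∀ z, g (ψ z) = ψ (lam * z)) (c2 : ∀ z, g (φ z) = φ (σ * z)) {z : ℂ}
    (hz : z ∈ Om ψ φ) (hz0 : z ≠ 0) :
    ∃ w ∈ Om ψ φ, lam ≤ ‖w‖ ∧ ‖w‖ ≤ 1 ∧ uu ψ φ (kap lam σ) w = uu ψ φ (kap lam σ) z := by
  have s0 : σ ≠ 0 := by
    rintro rfl
    simp at hσ
    linarith
  have up : ∀ n : ℕ, (lam : ℂ) ^ n * z ∈ Om ψ φ ∧
      uu ψ φ (kap lam σ) ((lam : ℂ) ^ n * z) = uu ψ φ (kap lam σ) z := by
    intro n
    induction n with
    | zero => simpa using hz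
    | succ n ih =>
      rw [pow_succ', mul_assoc]
      refine ⟨om_scale_of l0.ne' c1 c2 ih.1, ?_⟩
      rw [uu_scale hφi l0 l1 hσ c1 c2 ih.1, ih.2]
  have lc : (lam : ℂ) ≠ 0 := by exact_mod_cast l0.ne'
  have dn : ∀ n : ℕ, z / (lam : ℂ) ^ n ∈ Om ψ φ ∧
      uu ψ φ (kap lam σ) (z / (lam : ℂ) ^ n) = uu ψ φ (kap lam σ) z := by
    intro n
    induction n with
    | zero => simpa using hz
    | succ n ih =>
      have e : (lam : ℂ) * (z / (lam : ℂ) ^ (n + 1)) = z / (lam : ℂ) ^ n := by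
        rw [pow_succ]
        field_simp
      have h1 : z / (lam : ℂ) ^ (n + 1) ∈ Om ψ φ := by
        apply om_scale_inv hg s0 c1 c2
        rw [e]
        exact ih.1
      refine ⟨h1, ?_⟩
      rw [← uu_scale hφi l0 l1 hσ c1 c2 h1, e, ih.2]
  have hzn : 0 < ‖z‖ := norm_pos_iff.2 hz0
  obtain ⟨m, hm1, hm2⟩ := exists_mem_Ioc_zpow hzn (one_lt_inv₀ l0 |>.2 l1)
  -- `lam⁻¹ ^ m < ‖z‖ ≤ lam⁻¹ ^ (m + 1)`
  have key : lam < lam ^ (m + 1) * ‖z‖ ∧ lam ^ (m + 1) * ‖z‖ ≤ 1 := by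
    have hp : 0 < lam ^ (m + 1) := zpow_pos l0 _
    constructor
    · have h1 : lam ^ (m + 1) * (lam⁻¹ ^ m) = lam := by
        rw [inv_zpow, zpow_add₀ l0.ne', zpow_one]
        field_simp
      calc lam = lam ^ (m + 1) * (lam⁻¹ ^ m) := h1.symm
        _ < _ := mul_lt_mul_of_pos_left hm1 hp
    · have h1 : lam ^ (m + 1) * (lam⁻¹ ^ (m + 1)) = 1 := by
        rw [inv_zpow]
        exact mul_inv_cancel₀ hp.ne'
      calc lam ^ (m + 1) * ‖z‖ ≤ lam ^ (m + 1) * (lam⁻¹ ^ (m + 1)) :=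
            mul_le_mul_of_nonneg_left hm2 hp.le
        _ = 1 := h1
  have nl : ‖(lam : ℂ)‖ = lam := by
    rw [Complex.norm_real, Real.norm_eq_abs, abs_of_pos l0]
  rcases le_total 0 (m + 1) with h | h
  · obtain ⟨n, hn⟩ := Int.eq_ofNat_of_zero_le h
    rw [hn] at key
    refine ⟨(lam : ℂ) ^ n * z, (up n).1, ?_, ?_, (up n).2⟩
    · rw [norm_mul, norm_pow, nl]
      have := key.1.le
      simpa using this
    · rw [norm_mul, norm_pow, nl]
      have := key.2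
      simpa using this
  · obtain ⟨n, hn⟩ := Int.eq_ofNat_of_zero_le (neg_nonneg.2 h)
    have hn' : m + 1 = -(n : ℤ) := by
      have : -(m + 1) = (n : ℤ) := hn
      omega
    rw [hn'] at key
    have e : ‖z / (lam : ℂ) ^ n‖ = lam ^ (-(n : ℤ)) * ‖z‖ := by
      rw [norm_div, norm_pow, nl, zpow_neg, zpow_natCast]
      field_simp
    refine ⟨z / (lam : ℂ) ^ n, (dn n).1, ?_, ?_, (dn n).2⟩
    · rw [e]; exact key.1.le
    · rw [e]; exact key.2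

theorem uu_cont (hφi : Function.Injective φ) {κ : ℝ} {z : ℂ} (hz : z ∈ Om ψ φ) (hz0 : z ≠ 0) :
    ContinuousAt (uu ψ φ κ) z := by
  unfold uu
  refine ((hh_analytic hφi hz).continuousAt.norm).mul ?_
  exact continuousAt_id.norm.rpow_const (Or.inl (norm_ne_zero_iff.2 hz0))

/-- a bounded invariant function: closedness -/
theorem om_of_uu (hψ : Differentiable ℂ ψ) (hφ : Differentiable ℂ φ)
    (hd : ∀ ζ, deriv φ ζ ≠ 0) {κ M : ℝ} (hκ : 0 < κ) {z : ℕ → ℂ} {z0 : ℂ} (h0 : z0 ≠ 0)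
    (hz : Tendsto z atTop (𝓝 z0)) (hm : ∀ n, z n ∈ Om ψ φ)
    (hM : ∀ n, uu ψ φ κ (z n) ≤ M) : z0 ∈ Om ψ φ := by
  have hn0 : 0 < ‖z0‖ := norm_pos_iff.2 h0
  have hev : ∀ᶠ n in atTop, ‖z0‖ / 2 < ‖z n‖ :=
    (hz.norm).eventually (lt_mem_nhds (by linarith))
  have hev2 : ∀ᶠ n in atTop, hh ψ φ (z n) ∈ Metric.closedBall (0 : ℂ) (M / (‖z0‖ / 2) ^ κ) := by
    filter_upwards [hev] with n hn
    rw [mem_closedBall_zero_iff]
    have h1 : 0 < (‖z0‖ / 2) ^ κ := Real.rpow_pos_of_pos (by linarith) _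
    rw [le_div_iff₀ h1]
    refine le_trans ?_ (hM n)
    unfold uu
    exact mul_le_mul_of_nonneg_left (Real.rpow_le_rpow (by linarith) hn.le hκ.le) (norm_nonneg _)
  obtain ⟨ζ0, -, s, hs, hs2⟩ := (isCompact_closedBall (0 : ℂ) (M / (‖z0‖ / 2) ^ κ)).tendsto_subseq'
    hev2.frequently
  exact om_closed hψ hφ hd (hz.comp hs.tendsto_atTop) (fun n => hm (s n)) hs2

/-- at a minimum point the invariant function is locally constant -/
theorem uu_loc (hφi : Function.Injective φ) {κ : ℝ} {z : ℂ} (hz : z ∈ Om ψ φ) (hz0 : z ≠ 0)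
    (hne : hh ψ φ z ≠ 0) (hmin : ∀ᶠ w in 𝓝 z, uu ψ φ κ z ≤ uu ψ φ κ w) :
    ∀ᶠ w in 𝓝 z, uu ψ φ κ w = uu ψ φ κ z := by
  have hzn : 0 < ‖z‖ := norm_pos_iff.2 hz0
  set k : ℂ → ℂ := fun w => hh ψ φ w * Complex.exp (κ * Complex.log (w / z)) with hk
  have hka : AnalyticAt ℂ k z := by
    refine (hh_analytic hφi hz).mul ?_
    refine AnalyticAt.cexp ?_
    refine analyticAt_const.mul ?_
    refine AnalyticAt.clog (analyticAt_id.div analyticAt_const hz0) ?_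
    simp [div_self hz0]
  have hkz : k z = hh ψ φ z := by
    simp [hk, div_self hz0]
  have hkn : ∀ w : ℂ, w ≠ 0 → ‖k w‖ = uu ψ φ κ w / ‖z‖ ^ κ := by
    intro w hw
    have hwn : 0 < ‖w‖ := norm_pos_iff.2 hw
    rw [hk, uu]
    simp only
    rw [norm_mul, Complex.norm_exp]
    have e1 : ((κ : ℂ) * Complex.log (w / z)).re = κ * Real.log (‖w‖ / ‖z‖) := by
      rw [Complex.re_ofReal_mul, Complex.log_re, norm_div]
    have e2 : Real.exp (κ * Real.log (‖w‖ / ‖z‖)) = ‖w‖ ^ κ / ‖z‖ ^ κ := by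
      rw [← Real.div_rpow (norm_nonneg w) (norm_nonneg z), Real.rpow_def_of_pos (by positivity),
        mul_comm]
    rw [e1, e2]
    ring
  have hkz0 : k z ≠ 0 := by rw [hkz]; exact hne
  have hinv : AnalyticAt ℂ (fun w => (k w)⁻¹) z := hka.inv hkz0
  have hw0 : ∀ᶠ w in 𝓝 z, w ≠ 0 := isOpen_ne.mem_nhds hz0
  have hpos : 0 < ‖z‖ ^ κ := Real.rpow_pos_of_pos hzn _
  have hkzp : 0 < ‖k z‖ := norm_pos_iff.2 hkz0
  have hmax : IsLocalMax (norm ∘ fun w => (k w)⁻¹) z := by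
    filter_upwards [hmin, hw0] with w hw1 hw2
    simp only [Function.comp_apply, norm_inv]
    have h1 : ‖k z‖ ≤ ‖k w‖ := by
      rw [hkn w hw2, hkn z hz0]
      exact div_le_div_of_nonneg_right hw1 hpos.le
    exact inv_anti₀ hkzp h1
  have hd : ∀ᶠ w in 𝓝 z, DifferentiableAt ℂ (fun w => (k w)⁻¹) w :=
    hinv.eventually_analyticAt.mono fun w hw => hw.differentiableAt
  have hconst := Complex.eventually_eq_of_isLocalMax_norm hd hmax
  filter_upwards [hconst, hw0] with w hw1 hw2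
  have h1 : k w = k z := inv_injective hw1
  have h2 : ‖k w‖ = ‖k z‖ := by rw [h1]
  rw [hkn w hw2, hkn z hz0] at h2
  have h3 := (div_left_inj' hpos.ne').1 h2
  exact h3

end Pool.Agent.HE
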