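import Pool.Agent.HE.HDefs

set_option autoImplicit false

/-!
HE-ZDef: the set of parameters of the stable curve where it locally coincides with the unstable curve.
-/

namespace Pool.Agent.HE

open Set Topology Filter

/-- the parameter on `ψu` of the point `ψs z` -/
noncomputable def HH (ψs ψu : ℂ → ℂ × ℂ) (z : ℂ) : ℂ := Function.invFun ψu (ψs z)

/-- the parameters near which `ψs` is contained in `ψu`, analytically -/
def Om (ψs ψu : ℂ → ℂ × ℂ) : Set ℂ :=
  {z | AnalyticAt ℂ (HH ψs ψu) z ∧ ∀ᶠ z' in 𝓝 z, ψu (HH ψs ψu z') = ψs z'}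

open Classical in
/-- `1 / HH` on `Om`, `0` elsewhere -/
noncomputable def KK (ψs ψu : ℂ → ℂ × ℂ) (z : ℂ) : ℂ :=
  if z ∈ Om ψs ψu then (HH ψs ψu z)⁻¹ else 0

end Pool.Agent.HE
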