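import Mathlib

set_option autoImplicit false

/-!
HE-ZDen. A maximum principle: the support of a continuous function which is holomorphic and nonzero on an open set,
zero elsewhere, and of polynomial growth, is dense.

If `z1` is not in the closure of `Ω`, then `u z = k z / (z - z1) ^ (m + 1)` is small on the frontier of `Ω ∩ ball 0 R` for
large `R`, so `u = 0` on `Ω` by the maximum principle for bounded open sets.
-/

namespace Pool.Agent.HE

open Set Topology Filter

theorem dense_of {Ω : Set ℂ} (hΩ : IsOpen Ω) (hne : Ω.Nonempty) {k : ℂ → ℂ} (hk : Continuous k)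
    (hd : DifferentiableOn ℂ k Ω) (h0 : ∀ z, z ∉ Ω → k z = 0) (h1 : ∀ z ∈ Ω, k z ≠ 0) {C : ℝ}
    {m : ℕ} (hg : ∀ z, ‖k z‖ ≤ C * (1 + ‖z‖) ^ m) : Dense Ω := by
  by_contra hnd
  have hex : ∃ z1, z1 ∉ closure Ω := by
    by_contra hc
    push Not at hc
    exact hnd fun z => hc z
  obtain ⟨z1, hz1⟩ := hex
  obtain ⟨z0, hz0⟩ := hne
  have hC : 0 < C := by
    have e1 : 0 < ‖k z0‖ := norm_pos_iff.mpr (h1 z0 hz0)
    have e2 := hg z0
    by_contra hc
    push Not at hc
    have e3 : C * (1 + ‖z0‖) ^ m ≤ 0 := mul_nonpos_of_nonpos_of_nonneg hc (by positivity)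
    linarith
  set u : ℂ → ℂ := fun z => k z / (z - z1) ^ (m + 1) with hu
  have hden : ∀ z ∈ closure Ω, (z - z1) ^ (m + 1) ≠ 0 := by
    intro z hz
    apply pow_ne_zero
    rw [sub_ne_zero]
    rintro rfl
    exact hz1 hz
  have key : ∀ R : ℝ, 2 * ‖z1‖ + 1 + ‖z0‖ ≤ R → ‖u z0‖ * R ≤ C * 2 ^ (2 * m + 1) := by
    intro R hR
    have hn1 := norm_nonneg z1
    have hn0 := norm_nonneg z0
    have hR1 : 1 ≤ R := by linarith
    have hRp : 0 < R := by linarith
    have hmem : z0 ∈ closure (Ω ∩ Metric.ball 0 R) := by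
      apply subset_closure
      refine ⟨hz0, ?_⟩
      rw [mem_ball_zero_iff]
      linarith
    have hb : Bornology.IsBounded (Ω ∩ Metric.ball (0 : ℂ) R) :=
      Metric.isBounded_ball.subset inter_subset_right
    have hcl : closure (Ω ∩ Metric.ball (0 : ℂ) R) ⊆ closure Ω := closure_mono inter_subset_left
    have hdc : DiffContOnCl ℂ u (Ω ∩ Metric.ball 0 R) := by
      constructor
      · intro z hz
        have hzΩ : z ∈ closure Ω := subset_closure hz.1
        have hkz : DifferentiableWithinAt ℂ k (Ω ∩ Metric.ball 0 R) z :=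
          (hd z hz.1).mono inter_subset_left
        exact hkz.div (by fun_prop) (hden z hzΩ)
      · apply ContinuousOn.div hk.continuousOn (by fun_prop)
        intro z hz
        exact hden z (hcl hz)
    have hfr : ∀ z ∈ frontier (Ω ∩ Metric.ball (0 : ℂ) R), ‖u z‖ ≤ C * 2 ^ (2 * m + 1) / R := by
      intro z hz
      rcases frontier_inter_subset _ _ hz with ⟨hz', _⟩ | ⟨_, hz'⟩
      · have hzn : z ∉ Ω := by
          intro hzΩ
          rw [hΩ.frontier_eq] at hz'
          exact hz'.2 hzΩ
        rw [hu]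
        simp only
        rw [h0 z hzn, zero_div, norm_zero]
        positivity
      · have hzR : ‖z‖ = R := by
          have := Metric.frontier_ball_subset_sphere hz'
          rwa [mem_sphere_zero_iff_norm] at this
        rw [hu]
        simp only
        rw [norm_div, norm_pow]
        have e1 : R / 2 ≤ ‖z - z1‖ := by
          have := norm_sub_norm_le z z1
          rw [hzR] at this
          linarith
        have e2 : ‖k z‖ ≤ C * (2 * R) ^ m := by
          refine (hg z).trans ?_
          rw [hzR]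
          apply mul_le_mul_of_nonneg_left _ hC.le
          exact pow_le_pow_left₀ (by linarith) (by linarith) m
        have e3 : (R / 2) ^ (m + 1) ≤ ‖z - z1‖ ^ (m + 1) :=
          pow_le_pow_left₀ (by positivity) e1 (m + 1)
        calc ‖k z‖ / ‖z - z1‖ ^ (m + 1) ≤ C * (2 * R) ^ m / (R / 2) ^ (m + 1) :=
              div_le_div₀ (by positivity) e2 (by positivity) e3
          _ = C * 2 ^ (2 * m + 1) / R := by
              rw [mul_pow, div_pow, pow_succ R m, pow_succ 2 m,
                show 2 * m + 1 = m + (m + 1) by ring, pow_add, pow_succ 2 m]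
              field_simp
    have := Complex.norm_le_of_forall_mem_frontier_norm_le hb hdc hfr hmem
    rwa [le_div_iff₀ hRp] at this
  have hδ : 0 < ‖u z0‖ := by
    rw [norm_pos_iff, hu]
    exact div_ne_zero (h1 z0 hz0) (hden z0 (subset_closure hz0))
  have hA : 0 < C * 2 ^ (2 * m + 1) := by positivity
  have h2 := key (2 * ‖z1‖ + 1 + ‖z0‖ + C * 2 ^ (2 * m + 1) / ‖u z0‖)
    (by
      have : 0 < C * 2 ^ (2 * m + 1) / ‖u z0‖ := by positivity
      linarith)
  rw [mul_add, mul_div_cancel₀ _ hδ.ne'] at h2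
  have h3 : 0 < ‖u z0‖ * (2 * ‖z1‖ + 1 + ‖z0‖) := by positivity
  linarith

end Pool.Agent.HE
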