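import Pool.Agent.HE.HDefs

set_option autoImplicit false

/-!
HE-ZFilt. Points of `ℂ × ℂ` with bounded full orbit are in a fixed ball.

With `R = |c| + 2 |b| + 3`: a point with `‖w.1‖ ≥ R`, `‖w.1‖ ≥ ‖w.2‖` escapes under `fC b c`, and a point with `‖w.2‖ ≥ R`,
`‖w.2‖ ≥ ‖w.1‖` escapes under `gC b c`, in both cases with rate `2 ^ n`.
-/

namespace Pool.Agent.HE

open Set Topology Filter

private lemma zf_f {b c : ℝ} {w : ℂ × ℂ} (h1 : |c| + 2 * |b| + 3 ≤ ‖w.1‖) (h2 : ‖w.2‖ ≤ ‖w.1‖) :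
    2 * ‖w.1‖ ≤ ‖(fC b c w).1‖ := by
  have e : w.1 ^ 2 = (fC b c w).1 - c + b * w.2 := by
    show w.1 ^ 2 = w.1 ^ 2 + c - b * w.2 - c + b * w.2
    ring
  have h3 : ‖w.1‖ ^ 2 ≤ ‖(fC b c w).1‖ + |c| + |b| * ‖w.2‖ := by
    rw [← norm_pow, e]
    refine (norm_add_le _ _).trans ?_
    refine add_le_add ((norm_sub_le _ _).trans ?_) ?_
    · rw [Complex.norm_real, Real.norm_eq_abs]
    · rw [norm_mul, Complex.norm_real, Real.norm_eq_abs]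
  have h4 : |b| * ‖w.2‖ ≤ |b| * ‖w.1‖ := mul_le_mul_of_nonneg_left h2 (abs_nonneg b)
  have hc := abs_nonneg c
  have hb := abs_nonneg b
  have ht : 0 ≤ ‖w.1‖ := norm_nonneg _
  nlinarith [mul_nonneg ht (sub_nonneg.2 h1), mul_nonneg hc ht, mul_nonneg hb ht,
    mul_nonneg hc (sub_nonneg.2 h1), mul_nonneg hc hb, mul_nonneg hc hc]

private lemma zf_g {b c : ℝ} (hb0 : b ≠ 0) {w : ℂ × ℂ} (h1 : |c| + 2 * |b| + 3 ≤ ‖w.2‖)
    (h2 : ‖w.1‖ ≤ ‖w.2‖) : 2 * ‖w.2‖ ≤ ‖(gC b c w).2‖ := by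
  have hbC : (b : ℂ) ≠ 0 := by exact_mod_cast hb0
  have e : w.2 ^ 2 = b * (gC b c w).2 - c + w.1 := by
    show w.2 ^ 2 = b * ((w.2 ^ 2 + c - w.1) / b) - c + w.1
    field_simp
    ring
  have h3 : ‖w.2‖ ^ 2 ≤ |b| * ‖(gC b c w).2‖ + |c| + ‖w.1‖ := by
    rw [← norm_pow, e]
    refine (norm_add_le _ _).trans ?_
    refine add_le_add ((norm_sub_le _ _).trans ?_) le_rfl
    rw [norm_mul, Complex.norm_real, Complex.norm_real, Real.norm_eq_abs, Real.norm_eq_abs]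
  have hc := abs_nonneg c
  have hb : 0 < |b| := abs_pos.2 hb0
  have ht : 0 ≤ ‖w.2‖ := norm_nonneg _
  have h5 : |b| * (2 * ‖w.2‖) ≤ |b| * ‖(gC b c w).2‖ := by
    nlinarith [mul_nonneg ht (sub_nonneg.2 h1), mul_nonneg hc ht, mul_nonneg hb.le ht,
      mul_nonneg hc (sub_nonneg.2 h1), mul_nonneg hc hb.le, mul_nonneg hc hc]
  exact le_of_mul_le_mul_left h5 hb

private lemma zf_fn {b c : ℝ} {w : ℂ × ℂ} (h1 : |c| + 2 * |b| + 3 ≤ ‖w.1‖)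
    (h2 : ‖w.2‖ ≤ ‖w.1‖) (n : ℕ) :
    (2 : ℝ) ^ n * ‖w.1‖ ≤ ‖((fC b c)^[n] w).1‖ ∧ ‖((fC b c)^[n] w).2‖ ≤ ‖((fC b c)^[n] w).1‖ := by
  induction n with
  | zero => exact ⟨by simp, h2⟩
  | succ n ih =>
    rw [Function.iterate_succ_apply']
    obtain ⟨i1, i2⟩ := ih
    have hw : 0 ≤ ‖w.1‖ := norm_nonneg _
    have h2n : (1 : ℝ) ≤ 2 ^ n := one_le_pow₀ (by norm_num)
    have h3 : |c| + 2 * |b| + 3 ≤ ‖((fC b c)^[n] w).1‖ := by nlinarith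
    have h4 := zf_f h3 i2
    refine ⟨?_, ?_⟩
    · rw [pow_succ]
      linarith
    · have e : (fC b c ((fC b c)^[n] w)).2 = ((fC b c)^[n] w).1 := rfl
      rw [e]
      have := norm_nonneg ((fC b c)^[n] w).1
      linarith

private lemma zf_gn {b c : ℝ} (hb : b ≠ 0) {w : ℂ × ℂ} (h1 : |c| + 2 * |b| + 3 ≤ ‖w.2‖)
    (h2 : ‖w.1‖ ≤ ‖w.2‖) (n : ℕ) :
    (2 : ℝ) ^ n * ‖w.2‖ ≤ ‖((gC b c)^[n] w).2‖ ∧ ‖((gC b c)^[n] w).1‖ ≤ ‖((gC b c)^[n] w).2‖ := by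
  induction n with
  | zero => exact ⟨by simp, h2⟩
  | succ n ih =>
    rw [Function.iterate_succ_apply']
    obtain ⟨i1, i2⟩ := ih
    have hw : 0 ≤ ‖w.2‖ := norm_nonneg _
    have h2n : (1 : ℝ) ≤ 2 ^ n := one_le_pow₀ (by norm_num)
    have h3 : |c| + 2 * |b| + 3 ≤ ‖((gC b c)^[n] w).2‖ := by nlinarith
    have h4 := zf_g hb h3 i2
    refine ⟨?_, ?_⟩
    · rw [pow_succ]
      linarith
    · have e : (gC b c ((gC b c)^[n] w)).1 = ((gC b c)^[n] w).2 := rfl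
      rw [e]
      have := norm_nonneg ((gC b c)^[n] w).2
      linarith

private lemma zf_esc {u : ℕ → ℂ × ℂ} {r M : ℝ} (hr : 0 < r) (hu : ∀ n, (2 : ℝ) ^ n * r ≤ ‖u n‖)
    (h : ∃ᶠ n : ℕ in atTop, ‖u n‖ ≤ M) : False := by
  have h1 : Tendsto (fun n : ℕ => (2 : ℝ) ^ n * r) atTop atTop :=
    (tendsto_pow_atTop_atTop_of_one_lt (by norm_num : (1 : ℝ) < 2)).atTop_mul_const hr
  have h2 := h1.eventually_gt_atTop M
  obtain ⟨n, hn1, hn2⟩ := (h.and_eventually h2).exists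
  linarith [hu n]

theorem filtC {b c : ℝ} (hb : b ≠ 0) {w : ℂ × ℂ} {M : ℝ}
    (h1 : ∃ᶠ n : ℕ in atTop, ‖(fC b c)^[n] w‖ ≤ M)
    (h2 : ∃ᶠ n : ℕ in atTop, ‖(gC b c)^[n] w‖ ≤ M) : ‖w‖ ≤ |c| + 2 * |b| + 3 := by
  by_contra hlt
  rw [not_le] at hlt
  have hc := abs_nonneg c
  have hb' := abs_nonneg b
  rcases le_total ‖w.2‖ ‖w.1‖ with h | h
  · have hw : ‖w‖ = ‖w.1‖ := by rw [Prod.norm_def, max_eq_left h]
    rw [hw] at hlt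
    refine zf_esc (r := ‖w.1‖) (by linarith) (fun n => ?_) h1
    exact (zf_fn hlt.le h n).1.trans (norm_fst_le _)
  · have hw : ‖w‖ = ‖w.2‖ := by rw [Prod.norm_def, max_eq_right h]
    rw [hw] at hlt
    refine zf_esc (r := ‖w.2‖) (by linarith) (fun n => ?_) h2
    exact (zf_gn hb hlt.le h n).1.trans (norm_snd_le _)

end Pool.Agent.HE
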