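import Pool.Agent.HE.ZOm

set_option autoImplicit false

/-!
HE-ZKK. The function `KK = 1 / HH` is continuous on `ℂ` and of polynomial growth.
Continuity at the points outside `Om`: bounded values of `HH` along a sequence would put the limit in `Om` by `om_closed`. Growth: the
functional equation `KK (lam z) = KK z / σ`.
-/

namespace Pool.Agent.HE

open Set Topology Filter

variable {g : ℂ × ℂ → ℂ × ℂ} {lam σ : ℝ} {p r : ℂ} {ψs ψu : ℂ → ℂ × ℂ}

theorem kk_diff (Es : Ent g lam p ψs) (Eu : Ent g σ r ψu) (hpr : p ≠ r) (hσ : σ ≠ 1)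
    (hlam : lam ≠ 1) : DifferentiableOn ℂ (KK ψs ψu) (Om ψs ψu) := by
  refine (om_diff.inv fun z hz => hh_ne Es Eu hpr hσ hlam hz).congr ?_
  intro z hz
  unfold KK
  rw [if_pos hz]
  rfl

theorem kk_ne (Es : Ent g lam p ψs) (Eu : Ent g σ r ψu) (hpr : p ≠ r) (hσ : σ ≠ 1)
    (hlam : lam ≠ 1) {z : ℂ} (hz : z ∈ Om ψs ψu) : KK ψs ψu z ≠ 0 := by
  unfold KK
  rw [if_pos hz]
  exact inv_ne_zero (hh_ne Es Eu hpr hσ hlam hz)

theorem kk_zero {z : ℂ} (hz : z ∉ Om ψs ψu) : KK ψs ψu z = 0 := by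
  unfold KK
  rw [if_neg hz]

theorem kk_cont (Es : Ent g lam p ψs) (Eu : Ent g σ r ψu) (hpr : p ≠ r) (hσ : σ ≠ 1)
    (hlam : lam ≠ 1) : Continuous (KK ψs ψu) := by
  rw [continuous_iff_continuousAt]
  intro z0
  by_cases hz0 : z0 ∈ Om ψs ψu
  · exact ((kk_diff Es Eu hpr hσ hlam).differentiableAt (om_open.mem_nhds hz0)).continuousAt
  · unfold ContinuousAt
    rw [kk_zero hz0, tendsto_zero_iff_norm_tendsto_zero]
    by_contra hcon
    rw [Metric.tendsto_nhds] at hcon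
    push Not at hcon
    obtain ⟨ε, hε, hfr⟩ := hcon
    obtain ⟨z, hz, hzε⟩ := exists_seq_forall_of_frequently hfr
    have hzε' : ∀ n, ε ≤ ‖KK ψs ψu (z n)‖ := by
      intro n
      have h1 := hzε n
      rw [Real.dist_eq, sub_zero, abs_norm] at h1
      exact h1
    have hzO : ∀ n, z n ∈ Om ψs ψu := by
      intro n
      by_contra hn
      have h1 := hzε' n
      rw [kk_zero hn, norm_zero] at h1
      linarith
    have hH : ∀ n, HH ψs ψu (z n) ∈ Metric.closedBall (0 : ℂ) (ε⁻¹) := by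
      intro n
      rw [mem_closedBall_zero_iff]
      have h1 := hzε' n
      unfold KK at h1
      rw [if_pos (hzO n), norm_inv] at h1
      have h2 := inv_anti₀ hε h1
      rwa [inv_inv] at h2
    obtain ⟨w0, -, φ, hφ, hlim⟩ := (isCompact_closedBall (0 : ℂ) (ε⁻¹)).tendsto_subseq hH
    exact hz0 (om_closed Es Eu (z := z ∘ φ) (fun n => hzO (φ n))
      (hz.comp hφ.tendsto_atTop) hlim)

theorem kk_lam (hg : Function.Injective g) (Es : Ent g lam p ψs) (Eu : Ent g σ r ψu)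
    (l0 : lam ≠ 0) (s0 : σ ≠ 0) (z : ℂ) : KK ψs ψu (lam * z) = KK ψs ψu z / σ := by
  by_cases hz : z ∈ Om ψs ψu
  · have h1 := (om_lam hg Es Eu l0 s0).1 hz
    unfold KK
    rw [if_pos h1, if_pos hz, hh_lam Es Eu hz, mul_inv, div_eq_mul_inv, mul_comm]
  · have h1 : (lam : ℂ) * z ∉ Om ψs ψu := fun h => hz ((om_lam hg Es Eu l0 s0).2 h)
    rw [kk_zero h1, kk_zero hz, zero_div]

theorem kk_growth (hg : Function.Injective g) (Es : Ent g lam p ψs) (Eu : Ent g σ r ψu)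
    (hpr : p ≠ r) (l0 : 0 < lam) (l1 : lam < 1) (hσ : 1 < |σ|) :
    ∃ (C : ℝ) (m : ℕ), ∀ z, ‖KK ψs ψu z‖ ≤ C * (1 + ‖z‖) ^ m := by
  have hσ1 : σ ≠ 1 := by
    rintro rfl
    rw [abs_one] at hσ
    exact lt_irrefl _ hσ
  have hσ0 : σ ≠ 0 := by
    rintro rfl
    rw [abs_zero] at hσ
    linarith
  obtain ⟨B, hB⟩ := (isCompact_closedBall (0 : ℂ) 1).exists_bound_of_continuousOn
    (kk_cont Es Eu hpr hσ1 l1.ne).continuousOn
  have hB0 : 0 ≤ B := (norm_nonneg _).trans (hB 0 (Metric.mem_closedBall_self zero_le_one))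
  have hy : 1 < lam⁻¹ := (one_lt_inv₀ l0).2 l1
  obtain ⟨m, hm⟩ := pow_unbounded_of_one_lt |σ| hy
  have haux : ∀ (n : ℕ) (z : ℂ), ‖z‖ ≤ lam⁻¹ ^ n → ‖KK ψs ψu z‖ ≤ |σ| ^ n * B := by
    intro n
    induction n with
    | zero =>
      intro z hz
      rw [pow_zero, one_mul]
      rw [pow_zero] at hz
      exact hB z (mem_closedBall_zero_iff.2 hz)
    | succ n ih =>
      intro z hz
      have h1 : ‖(lam : ℂ) * z‖ ≤ lam⁻¹ ^ n := by
        rw [norm_mul, Complex.norm_real, Real.norm_eq_abs, abs_of_pos l0]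
        calc lam * ‖z‖ ≤ lam * lam⁻¹ ^ (n + 1) := mul_le_mul_of_nonneg_left hz l0.le
          _ = lam⁻¹ ^ n := by rw [pow_succ]; field_simp
      have h2 := ih _ h1
      rw [kk_lam hg Es Eu l0.ne' hσ0, norm_div, Complex.norm_real, Real.norm_eq_abs,
        div_le_iff₀ (by linarith)] at h2
      rw [pow_succ]
      linarith
  refine ⟨B * lam⁻¹ ^ m, m, ?_⟩
  intro z
  have hyp : 0 < lam⁻¹ := inv_pos.2 l0
  rcases le_total ‖z‖ 1 with hz | hz
  · have h1 := haux 0 z (by rw [pow_zero]; exact hz)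
    rw [pow_zero, one_mul] at h1
    refine h1.trans ?_
    have h2 : 1 ≤ lam⁻¹ ^ m := one_le_pow₀ hy.le
    have h3 : 1 ≤ (1 + ‖z‖) ^ m := one_le_pow₀ (by linarith [norm_nonneg z])
    calc B = B * 1 * 1 := by ring
      _ ≤ B * lam⁻¹ ^ m * (1 + ‖z‖) ^ m :=
        mul_le_mul (mul_le_mul_of_nonneg_left h2 hB0) h3 zero_le_one (by positivity)
  · obtain ⟨n, hn1, hn2⟩ := exists_nat_pow_near hz hy
    have h1 := haux (n + 1) z hn2.le
    refine h1.trans ?_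
    have h2 : |σ| ^ (n + 1) ≤ (lam⁻¹ ^ m) ^ (n + 1) := pow_le_pow_left₀ (abs_nonneg _) hm.le _
    have h3 : (lam⁻¹ ^ m) ^ (n + 1) = (lam⁻¹ * lam⁻¹ ^ n) ^ m := by
      rw [← pow_mul, ← pow_succ', ← pow_mul, mul_comm m]
    have h4 : (lam⁻¹ * lam⁻¹ ^ n) ^ m ≤ (lam⁻¹ * (1 + ‖z‖)) ^ m := by
      refine pow_le_pow_left₀ (by positivity) ?_ _
      exact mul_le_mul_of_nonneg_left (by linarith) hyp.le
    calc |σ| ^ (n + 1) * B ≤ (lam⁻¹ * (1 + ‖z‖)) ^ m * B :=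
          mul_le_mul_of_nonneg_right ((h2.trans h3.le).trans h4) hB0
      _ = B * lam⁻¹ ^ m * (1 + ‖z‖) ^ m := by rw [mul_pow]; ring

end Pool.Agent.HE
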