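import Pool.Agent.HE.ZDef

set_option autoImplicit false

/-!
HE-ZLoc. Two holomorphic curves with accumulating common points coincide locally: local inverse of one component of the unstable
curve and the identity theorem for the other one.
-/

namespace Pool.Agent.HE

open Set Topology Filter

private theorem core {a b u v : ℂ → ℂ} (ha : Differentiable ℂ a) (hb : Differentiable ℂ b)
    (hu : Differentiable ℂ u) (hv : Differentiable ℂ v) {z0 w0 : ℂ} (hd : deriv u w0 ≠ 0)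
    {z w : ℕ → ℂ} (hz : Tendsto z atTop (𝓝 z0)) (hne : ∀ j, z j ≠ z0)
    (hw : Tendsto w atTop (𝓝 w0)) (h1 : ∀ j, a (z j) = u (w j)) (h2 : ∀ j, b (z j) = v (w j)) :
    ∃ h : ℂ → ℂ, AnalyticAt ℂ h z0 ∧ ∀ᶠ z' in 𝓝 z0, u (h z') = a z' ∧ v (h z') = b z' := by
  have hua : AnalyticAt ℂ u w0 := hu.analyticAt w0
  set g : ℂ → ℂ := hua.hasStrictDerivAt.localInverse _ _ _ hd with hg
  have hga : AnalyticAt ℂ g (u w0) := hua.analyticAt_localInverse hd
  have hr : ∀ᶠ y in 𝓝 (u w0), u (g y) = y :=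
    HasStrictDerivAt.eventually_right_inverse hua.hasStrictDerivAt hd
  have hl : ∀ᶠ x in 𝓝 w0, g (u x) = x :=
    HasStrictDerivAt.eventually_left_inverse hua.hasStrictDerivAt hd
  have e0 : a z0 = u w0 := by
    have t1 : Tendsto (fun j => a (z j)) atTop (𝓝 (a z0)) := (ha.continuous.tendsto z0).comp hz
    have t2 : Tendsto (fun j => u (w j)) atTop (𝓝 (u w0)) := (hu.continuous.tendsto w0).comp hw
    have t3 : (fun j => a (z j)) = fun j => u (w j) := funext h1
    rw [t3] at t1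
    exact tendsto_nhds_unique t1 t2
  have haa : AnalyticAt ℂ a z0 := ha.analyticAt z0
  have hh : AnalyticAt ℂ (fun z' => g (a z')) z0 := by
    have h3 : AnalyticAt ℂ g (a z0) := by rw [e0]; exact hga
    exact h3.comp haa
  have hat : Tendsto a (𝓝 z0) (𝓝 (u w0)) := by
    rw [← e0]
    exact ha.continuous.tendsto z0
  have hr' : ∀ᶠ z' in 𝓝 z0, u (g (a z')) = a z' := hat.eventually hr
  have hl' : ∀ᶠ j in atTop, v (g (a (z j))) = b (z j) := by
    filter_upwards [hw.eventually hl] with j hj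
    rw [h1, hj, h2]
  have hz' : Tendsto z atTop (𝓝[≠] z0) :=
    tendsto_nhdsWithin_iff.2 ⟨hz, Eventually.of_forall fun j => hne j⟩
  have hfr : ∃ᶠ z' in 𝓝[≠] z0, v (g (a z')) = b z' := hz'.frequently hl'.frequently
  have hva : AnalyticAt ℂ (fun z' => v (g (a z'))) z0 := (hv.analyticAt _).comp hh
  have hev := (hva.frequently_eq_iff_eventually_eq (hb.analyticAt z0)).1 hfr
  exact ⟨fun z' => g (a z'), hh, hr'.and hev⟩

theorem z_loc {ψs ψu : ℂ → ℂ × ℂ} (hs : Differentiable ℂ ψs) (hu : Differentiable ℂ ψu)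
    (hui : Function.Injective ψu) {z0 w0 : ℂ} (hd : deriv ψu w0 ≠ 0) {z w : ℕ → ℂ}
    (hz : Tendsto z atTop (𝓝 z0)) (hne : ∀ j, z j ≠ z0) (hw : Tendsto w atTop (𝓝 w0))
    (h : ∀ j, ψs (z j) = ψu (w j)) : z0 ∈ Om ψs ψu := by
  have hs1 : Differentiable ℂ fun z => (ψs z).1 := hs.fst
  have hs2 : Differentiable ℂ fun z => (ψs z).2 := hs.snd
  have hu1 : Differentiable ℂ fun z => (ψu z).1 := hu.fst
  have hu2 : Differentiable ℂ fun z => (ψu z).2 := hu.snd
  have key : ∃ k : ℂ → ℂ, AnalyticAt ℂ k z0 ∧ ∀ᶠ z' in 𝓝 z0, ψu (k z') = ψs z' := by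
    by_cases h1 : deriv (fun z => (ψu z).1) w0 ≠ 0
    · obtain ⟨k, hk, hk2⟩ := core hs1 hs2 hu1 hu2 h1 hz hne hw
        (fun j => congrArg Prod.fst (h j)) (fun j => congrArg Prod.snd (h j))
      exact ⟨k, hk, hk2.mono fun z' hz' => Prod.ext hz'.1 hz'.2⟩
    · have h2 : deriv (fun z => (ψu z).2) w0 ≠ 0 := by
        intro h2
        push Not at h1
        apply hd
        have h3 : HasDerivAt (fun z => ((ψu z).1, (ψu z).2))
            (deriv (fun z => (ψu z).1) w0, deriv (fun z => (ψu z).2) w0) w0 :=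
          (hu1 w0).hasDerivAt.prodMk (hu2 w0).hasDerivAt
        have h4 : deriv ψu w0 = (deriv (fun z => (ψu z).1) w0, deriv (fun z => (ψu z).2) w0) :=
          h3.deriv
        rw [h4, h1, h2]
        rfl
      obtain ⟨k, hk, hk2⟩ := core hs2 hs1 hu2 hu1 h2 hz hne hw
        (fun j => congrArg Prod.snd (h j)) (fun j => congrArg Prod.fst (h j))
      exact ⟨k, hk, hk2.mono fun z' hz' => Prod.ext hz'.2 hz'.1⟩
  obtain ⟨k, hk, hk2⟩ := key
  have he : ∀ᶠ z' in 𝓝 z0, k z' = HH ψs ψu z' := by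
    filter_upwards [hk2] with z' hz'
    unfold HH
    rw [← hz', Function.leftInverse_invFun hui]
  refine ⟨hk.congr he, ?_⟩
  filter_upwards [hk2, he] with z' h1 h2
  rw [← h2, h1]

end Pool.Agent.HE
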