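import Pool.Agent.HE.ZLoc

set_option autoImplicit false

/-!
HE-ZOm. Properties of the coincidence set `Om` and of the transition function `HH`: openness,
invariance under the multiplier, values and sequential closedness.
-/

namespace Pool.Agent.HE

open Set Topology Filter

variable {g : ℂ × ℂ → ℂ × ℂ} {lam σ : ℝ} {p r : ℂ} {ψs ψu : ℂ → ℂ × ℂ}

theorem om_open : IsOpen (Om ψs ψu) :=
  (isOpen_analyticAt ℂ (HH ψs ψu)).inter isOpen_setOfPred_eventually_nhds

theorem om_diff : DifferentiableOn ℂ (HH ψs ψu) (Om ψs ψu) :=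
  fun _ hz => hz.1.differentiableAt.differentiableWithinAt

theorem om_eq {z : ℂ} (hz : z ∈ Om ψs ψu) : ψu (HH ψs ψu z) = ψs z :=
  hz.2.self_of_nhds

theorem hh_of (Eu : Ent g σ r ψu) {z w : ℂ} (h : ψu w = ψs z) : HH ψs ψu z = w := by
  unfold HH
  rw [← h]
  exact Function.leftInverse_invFun Eu.inj w

theorem om_lam (hg : Function.Injective g) (Es : Ent g lam p ψs) (Eu : Ent g σ r ψu)
    (l0 : lam ≠ 0) (s0 : σ ≠ 0) {z : ℂ} : z ∈ Om ψs ψu ↔ (lam : ℂ) * z ∈ Om ψs ψu := by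
  have l0' : (lam : ℂ) ≠ 0 := by exact_mod_cast l0
  have s0' : (σ : ℂ) ≠ 0 := by exact_mod_cast s0
  constructor
  · intro hz
    have ht : Tendsto (fun z' : ℂ => z' / lam) (𝓝 ((lam : ℂ) * z)) (𝓝 z) := by
      have h1 : ContinuousAt (fun z' : ℂ => z' / lam) ((lam : ℂ) * z) := by fun_prop
      have h2 := h1.tendsto
      rwa [mul_div_cancel_left₀ z l0'] at h2
    have he : ∀ᶠ z' in 𝓝 ((lam : ℂ) * z), ψu (σ * HH ψs ψu (z' / lam)) = ψs z' := by
      filter_upwards [ht.eventually hz.2] with z' hz'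
      rw [← Eu.conj, hz', Es.conj, mul_div_cancel₀ z' l0']
    refine ⟨?_, ?_⟩
    · have h1 : AnalyticAt ℂ (fun z' : ℂ => (σ : ℂ) * HH ψs ψu (z' / lam)) ((lam : ℂ) * z) := by
        have h2 : AnalyticAt ℂ (HH ψs ψu) ((fun z' : ℂ => z' / lam) ((lam : ℂ) * z)) := by
          show AnalyticAt ℂ (HH ψs ψu) ((lam : ℂ) * z / lam)
          rw [mul_div_cancel_left₀ z l0']
          exact hz.1
        have h3 : AnalyticAt ℂ (fun z' : ℂ => z' / lam) ((lam : ℂ) * z) := by fun_prop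
        exact analyticAt_const.mul
          (AnalyticAt.comp (g := HH ψs ψu) (f := fun z' : ℂ => z' / lam) h2 h3)
      refine h1.congr ?_
      filter_upwards [he] with z' hz'
      exact (hh_of Eu hz').symm
    · filter_upwards [he] with z' hz'
      rw [hh_of Eu hz']
      exact hz'
  · intro hz
    have ht : Tendsto (fun z' : ℂ => (lam : ℂ) * z') (𝓝 z) (𝓝 ((lam : ℂ) * z)) := by
      have h1 : ContinuousAt (fun z' : ℂ => (lam : ℂ) * z') z := by fun_prop
      exact h1.tendsto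
    have he : ∀ᶠ z' in 𝓝 z, ψu (HH ψs ψu (lam * z') / σ) = ψs z' := by
      filter_upwards [ht.eventually hz.2] with z' hz'
      apply hg
      rw [Eu.conj, mul_div_cancel₀ _ s0', hz', Es.conj]
    refine ⟨?_, ?_⟩
    · have h1 : AnalyticAt ℂ (fun z' : ℂ => HH ψs ψu (lam * z') / σ) z := by
        have h2 : AnalyticAt ℂ (HH ψs ψu) ((fun z' : ℂ => (lam : ℂ) * z') z) := hz.1
        have h3 : AnalyticAt ℂ (fun z' : ℂ => (lam : ℂ) * z') z := by fun_prop
        exact (AnalyticAt.comp (g := HH ψs ψu) (f := fun z' : ℂ => (lam : ℂ) * z') h2 h3).div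
          analyticAt_const s0'
      refine h1.congr ?_
      filter_upwards [he] with z' hz'
      exact (hh_of Eu hz').symm
    · filter_upwards [he] with z' hz'
      rw [hh_of Eu hz']
      exact hz'

theorem hh_lam (Es : Ent g lam p ψs) (Eu : Ent g σ r ψu) {z : ℂ} (hz : z ∈ Om ψs ψu) :
    HH ψs ψu (lam * z) = σ * HH ψs ψu z := by
  apply hh_of Eu
  rw [← Eu.conj, om_eq hz, Es.conj]

theorem zero_notin (Es : Ent g lam p ψs) (Eu : Ent g σ r ψu) (hpr : p ≠ r) (hσ : σ ≠ 1) :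
    (0 : ℂ) ∉ Om ψs ψu := by
  intro h0
  have h1 := hh_lam Es Eu h0
  rw [mul_zero] at h1
  have hσ' : (σ : ℂ) ≠ 1 := by exact_mod_cast hσ
  have h2 : HH ψs ψu 0 = 0 := by
    have h3 : (1 - (σ : ℂ)) * HH ψs ψu 0 = 0 := by
      rw [sub_mul, one_mul, sub_eq_zero]
      exact h1
    rcases mul_eq_zero.1 h3 with h4 | h4
    · exact absurd (sub_eq_zero.1 h4).symm hσ'
    · exact h4
  have h5 := om_eq h0
  rw [h2, Eu.zero, Es.zero] at h5
  exact hpr (cx_inj h5).symm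

theorem hh_ne (Es : Ent g lam p ψs) (Eu : Ent g σ r ψu) (hpr : p ≠ r) (hσ : σ ≠ 1)
    (hlam : lam ≠ 1) {z : ℂ} (hz : z ∈ Om ψs ψu) : HH ψs ψu z ≠ 0 := by
  intro h0
  have h1 := om_eq hz
  rw [h0] at h1
  have h2 : ψs (lam * z) = ψs z := by
    rw [← Es.conj, ← h1, Eu.conj, mul_zero]
  have h3 : (lam : ℂ) * z = z := Es.inj h2
  have hlam' : (lam : ℂ) ≠ 1 := by exact_mod_cast hlam
  have h4 : z = 0 := by
    have h5 : ((lam : ℂ) - 1) * z = 0 := by
      rw [sub_mul, one_mul, h3, sub_self]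
    rcases mul_eq_zero.1 h5 with h6 | h6
    · exact absurd (sub_eq_zero.1 h6) hlam'
    · exact h6
  rw [h4] at hz
  exact zero_notin Es Eu hpr hσ hz

theorem om_closed (Es : Ent g lam p ψs) (Eu : Ent g σ r ψu) {z : ℕ → ℂ} {z0 w0 : ℂ}
    (hz : ∀ n, z n ∈ Om ψs ψu) (h1 : Tendsto z atTop (𝓝 z0))
    (h2 : Tendsto (fun n => HH ψs ψu (z n)) atTop (𝓝 w0)) : z0 ∈ Om ψs ψu := by
  by_cases h : ∃ n, z n = z0
  · obtain ⟨n, hn⟩ := h
    rw [← hn]
    exact hz n
  · push Not at h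
    exact z_loc Es.diff Eu.diff Eu.inj (Eu.der w0) h1 h h2 fun j => (om_eq (hz j)).symm

end Pool.Agent.HE
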